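import Pool.Agent.Lib.MP_caab05_ag.W3.Bol1

/-!
Invariance of the seven functions under the Fricke involution.
-/

namespace Pool.Agent.Lib.MP_caab05_ag.W3

open PowerSeries Complex

noncomputable section

namespace Bol

variable {σ : Sys ℂ} (h : σ.An)
include h

lemma c_ell : Conv σ.ell :=
  (Conv.one.add ((Conv.ofNat 9).mul h.t)).add ((Conv.ofNat 27).mul (h.t.pow 2))
lemma c_elli : Conv σ.elli := (h.l1i.mul h.l2i).pow 3
lemma c_x : Conv σ.x := h.t.mul (c_elli h)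
lemma c_kap : Conv σ.kap := (h.b.pow 2).mul (c_ell h)
lemma c_kapi : Conv σ.kapi := (h.bi.pow 2).mul (c_elli h)
lemma c_E : Conv σ.E := (h.b.mul (h.l1.pow 2)).mul h.l2
lemma c_Eb : Conv σ.Eb := (h.b.mul h.l1).mul (h.l2.pow 2)
lemma c_hc' : Conv σ.hc' := ((c_E h).mul (c_kap h)).mul (c_x h)
lemma c_hc : Conv σ.hc := ((c_Eb h).mul (c_kap h)).mul (c_x h)
lemma c_m1 : Conv (1 - σ.l1i ^ 3) := Conv.one.sub (h.l1i.pow 3)
lemma c_m2 : Conv (σ.l2i ^ 3) := h.l2i.pow 3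
lemma c_he' : Conv σ.he' := (c_hc' h).mul (c_m1 h)
lemma c_he : Conv σ.he := (c_hc h).mul (c_m2 h)
lemma c_g (P : Par ℂ) : Conv (σ.g P) := ((Conv.C _).mul (c_hc' h)).add ((Conv.C _).mul (c_he' h))
lemma c_g' (P : Par ℂ) : Conv (σ.g' P) := ((Conv.C _).mul (c_hc h)).add ((Conv.C _).mul (c_he h))
lemma c_tt {F : ℂ⟦X⟧} (hF : Conv F) : Conv (σ.tt F) := (c_kapi h).mul hF.th
lemma c_AA (a a' c c' : ℂ) : Conv (σ.AA (parC a a' c c')) :=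
  (c_Eb h).mul ((c_g h _).wt_inv.wt_inv.sub (Conv.C _))
lemma c_AA' (a a' c c' : ℂ) : Conv (σ.AA' (parC a a' c c')) :=
  (c_E h).mul ((c_g' h _).wt_inv.wt_inv.sub (Conv.C _))
lemma c_p : Conv (27 * σ.t * σ.x) := ((Conv.ofNat 27).mul h.t).mul (c_x h)

omit h in
lemma x0 : constantCoeff σ.x = 0 := by
  have := σ.t0
  simp only [coeff_zero_eq_constantCoeff] at this
  simp [Sys.x, this]

omit h in
lemma g0 (P : Par ℂ) : coeff 0 (σ.g P) = 0 := by simp [Sys.g, Sys.he', Sys.hc', x0]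

omit h in
lemma g0' (P : Par ℂ) : coeff 0 (σ.g' P) = 0 := by simp [Sys.g', Sys.he, Sys.hc, x0]

variable {τ : ℂ}

lemma t_ne (hτ : 0 < τ.im) : ev σ.t (ee τ) ≠ 0 := fun h0 => by
  have := h.tw τ hτ
  simp [h0] at this

lemma t_w (hτ : 0 < τ.im) : ev σ.t (ee (ww τ)) = 1 / (27 * ev σ.t (ee τ)) := by
  have := t_ne h hτ
  field_simp
  linear_combination h.tw τ hτ

lemma ev_ell {q : ℂ} (hq : ‖q‖ < 1) :
    ev σ.ell q = 1 + 9 * ev σ.t q + 27 * ev σ.t q ^ 2 := by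
  rw [Sys.ell, ev_add (Conv.one.add ((Conv.ofNat 9).mul h.t)) ((Conv.ofNat 27).mul (h.t.pow 2)) hq,
    ev_add Conv.one ((Conv.ofNat 9).mul h.t) hq, ev_mul (Conv.ofNat 9) h.t hq,
    ev_mul (Conv.ofNat 27) (h.t.pow 2) hq, ev_pow h.t hq]
  simp

lemma ell_elli {q : ℂ} (hq : ‖q‖ < 1) : ev σ.ell q * ev σ.elli q = 1 :=
  ev_mul_eq_one (c_ell h) (c_elli h) σ.ell_mul_elli hq

lemma elli_w (hτ : 0 < τ.im) :
    ev σ.elli (ee (ww τ)) = 27 * ev σ.t (ee τ) ^ 2 * ev σ.elli (ee τ) := by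
  have h1 := ell_elli h (norm_ee_lt hτ)
  have h2 := ell_elli h (norm_ee_lt (ww_im_pos hτ))
  rw [ev_ell h (norm_ee_lt hτ)] at h1
  rw [ev_ell h (norm_ee_lt (ww_im_pos hτ)), t_w h hτ] at h2
  have h3 := t_ne h hτ
  field_simp at h2
  linear_combination ev σ.elli (ee τ) * h2 - ev σ.elli (ee (ww τ)) * h1

lemma x_w (hτ : 0 < τ.im) : ev σ.x (ee (ww τ)) = ev σ.x (ee τ) := by
  rw [Sys.x, ev_mul h.t (c_elli h) (norm_ee_lt hτ),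
    ev_mul h.t (c_elli h) (norm_ee_lt (ww_im_pos hτ)), elli_w h hτ, t_w h hτ]
  have h3 := t_ne h hτ
  field_simp

lemma p_eq {q : ℂ} (hq : ‖q‖ < 1) :
    ev (27 * σ.t * σ.x) q = 27 * ev σ.t q ^ 2 * ev σ.elli q := by
  rw [ev_mul ((Conv.ofNat 27).mul h.t) (c_x h) hq, ev_mul (Conv.ofNat 27) h.t hq, Sys.x,
    ev_mul h.t (c_elli h) hq]
  simp; ring

lemma elli_w' (hτ : 0 < τ.im) : ev σ.elli (ee (ww τ)) = ev (27 * σ.t * σ.x) (ee τ) := by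
  rw [elli_w h hτ, p_eq h (norm_ee_lt hτ)]

lemma p_w (hτ : 0 < τ.im) : ev (27 * σ.t * σ.x) (ee (ww τ)) = ev σ.elli (ee τ) := by
  rw [← elli_w' h (ww_im_pos hτ), ww_ww (ne_zero_of_im hτ)]

lemma kap_w (hτ : 0 < τ.im) : ev σ.kap (ee (ww τ)) = -9 * τ ^ 2 * ev σ.kap (ee τ) := by
  have h1 := deriv_unique (f := fun z => 27 * ev σ.t (ee z) * ev σ.t (ee (ww z)))
    (g := fun _ => 1) h.tw hτ
    (((hasDerivAt_ev_ee h.t hτ).const_mul 27).mul (hasDerivAt_ev_ww h.t hτ)) (hasDerivAt_const τ 1)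
  rw [σ.th_t, ev_mul h.t (c_kap h) (norm_ee_lt hτ),
    ev_mul h.t (c_kap h) (norm_ee_lt (ww_im_pos hτ)), t_w h hτ] at h1
  have h0 := ne_zero_of_im hτ
  have h2 := c0_ne
  have h3 := t_ne h hτ
  field_simp at h1
  simp only [mul_zero] at h1
  linear_combination (mul_eq_zero.1 h1).resolve_left h2

lemma kapi_w (hτ : 0 < τ.im) : 9 * τ ^ 2 * ev σ.kapi (ee (ww τ)) = -ev σ.kapi (ee τ) := by
  have h1 := ev_mul_eq_one (c_kap h) (c_kapi h) σ.kap_mul_kapi (norm_ee_lt hτ)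
  have h2 := ev_mul_eq_one (c_kap h) (c_kapi h) σ.kap_mul_kapi (norm_ee_lt (ww_im_pos hτ))
  rw [kap_w h hτ] at h2
  linear_combination (-ev σ.kapi (ee τ)) * h2 - 9 * τ ^ 2 * ev σ.kapi (ee (ww τ)) * h1

lemma tt_w {F F' : ℂ⟦X⟧} (hF : Conv F) (hF' : Conv F')
    (hl : ∀ τ : ℂ, 0 < τ.im → ev F (ee (ww τ)) = ev F' (ee τ)) (hτ : 0 < τ.im) :
    ev (σ.tt F) (ee (ww τ)) = -ev (σ.tt F') (ee τ) := by
  rw [Sys.tt, Sys.tt, ev_mul (c_kapi h) hF.th (norm_ee_lt (ww_im_pos hτ)),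
    ev_mul (c_kapi h) hF'.th (norm_ee_lt hτ), th_law hF hF' hl hτ]
  linear_combination ev (th F') (ee τ) * kapi_w h hτ

lemma cube_inv {l li : ℂ⟦X⟧} {u : ℂ} (hl : Conv l) (hli : Conv li) (h1 : l * li = 1)
    (h2 : l ^ 3 = 1 - C u * σ.t) {q : ℂ} (hq : ‖q‖ < 1) :
    (1 - u * ev σ.t q) * ev (li ^ 3) q = 1 := by
  have h3 := ev_mul_eq_one (hl.pow 3) (hli.pow 3) (by rw [← mul_pow, h1, one_pow]) hq
  rwa [h2, ev_sub Conv.one ((Conv.C u).mul h.t) hq, ev_one, ev_C_mul] at h3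

lemma m2_w (hτ : 0 < τ.im) : ev (σ.l2i ^ 3) (ee (ww τ)) = ev (1 - σ.l1i ^ 3) (ee τ) := by
  have h1 := cube_inv h h.l1 h.l1i σ.hl1 σ.cube1 (norm_ee_lt hτ)
  have h2 := cube_inv h h.l2 h.l2i σ.hl2 σ.cube2 (norm_ee_lt (ww_im_pos hτ))
  rw [ev_sub Conv.one (h.l1i.pow 3) (norm_ee_lt hτ), ev_one]
  have h3 := h.tw τ hτ
  have h4 : (3 * (σ.om - 1)) * (3 * (σ.om ^ 2 - 1)) = 27 := by
    linear_combination 9 * (σ.om - 2) * σ.hom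
  generalize 3 * (σ.om - 1) = u1 at *
  generalize 3 * (σ.om ^ 2 - 1) = u2 at *
  generalize ev σ.t (ee τ) = t at *
  generalize ev σ.t (ee (ww τ)) = s at *
  generalize ev (σ.l1i ^ 3) (ee τ) = A at *
  generalize ev (σ.l2i ^ 3) (ee (ww τ)) = B at *
  have h5 : (u1 * t - 1) * B = u1 * t := by
    linear_combination u1 * t * h2 + (t * s * B) * h4 + B * h3
  linear_combination (-A) * h5 - (B - 1) * h1

lemma m1_w (hτ : 0 < τ.im) : ev (1 - σ.l1i ^ 3) (ee (ww τ)) = ev (σ.l2i ^ 3) (ee τ) := by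
  rw [← m2_w h (ww_im_pos hτ), ww_ww (ne_zero_of_im hτ)]

lemma E_ne {q : ℂ} (hq : ‖q‖ < 1) : ev σ.E q ≠ 0 := by
  have h1 : σ.E * (σ.bi * σ.l1i ^ 2 * σ.l2i) = 1 := by
    calc _ = (σ.b * σ.bi) * (σ.l1 * σ.l1i) ^ 2 * (σ.l2 * σ.l2i) := by rw [Sys.E]; ring
      _ = 1 := by rw [σ.hb, σ.hl1, σ.hl2]; simp
  exact left_ne_zero_of_mul_eq_one
    (ev_mul_eq_one (c_E h) ((h.bi.mul (h.l1i.pow 2)).mul h.l2i) h1 hq)

/-- the weight three laws -/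
lemma laws : ∃ κ κ' : ℂ, κ * κ' = -9 ∧
    (∀ τ : ℂ, 0 < τ.im → ev σ.E (ee (ww τ)) = κ * τ * ev σ.Eb (ee τ)) ∧
    (∀ τ : ℂ, 0 < τ.im → ev σ.Eb (ee (ww τ)) = κ' * τ * ev σ.E (ee τ)) ∧
    (∀ P : Par ℂ, ∀ τ : ℂ, 0 < τ.im →
      ev (σ.g P) (ee (ww τ)) = -9 * κ * τ ^ 3 * ev (σ.g' P) (ee τ)) ∧
    (∀ P : Par ℂ, ∀ τ : ℂ, 0 < τ.im →
      ev (σ.g' P) (ee (ww τ)) = -9 * κ' * τ ^ 3 * ev (σ.g P) (ee τ)) := by
  obtain ⟨κ, hκ⟩ := h.Ew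
  have hk : κ ≠ 0 := by
    rintro rfl
    have hI : 0 < (I : ℂ).im := by simp
    exact E_ne h (norm_ee_lt (ww_im_pos hI)) (by simpa using hκ I hI)
  have hb : ∀ τ : ℂ, 0 < τ.im → ev σ.Eb (ee (ww τ)) = -9 / κ * τ * ev σ.E (ee τ) := fun τ hτ => by
    have h1 := hκ _ (ww_im_pos hτ)
    have h0 := ne_zero_of_im hτ
    rw [ww_ww h0] at h1
    rw [h1]
    generalize ev σ.Eb (ee (ww τ)) = B
    unfold ww
    field_simp
  have eg : ∀ (P : Par ℂ) {q : ℂ}, ‖q‖ < 1 → ev (σ.g P) q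
      = ev σ.E q * ev σ.kap q * ev σ.x q * (P.a + P.a' * ev (1 - σ.l1i ^ 3) q) := fun P q hq => by
    rw [Sys.g, ev_add ((Conv.C _).mul (c_hc' h)) ((Conv.C _).mul (c_he' h)) hq, ev_C_mul, ev_C_mul,
      Sys.he', ev_mul (c_hc' h) (c_m1 h) hq, Sys.hc', ev_mul ((c_E h).mul (c_kap h)) (c_x h) hq,
      ev_mul (c_E h) (c_kap h) hq]
    ring
  have eg' : ∀ (P : Par ℂ) {q : ℂ}, ‖q‖ < 1 → ev (σ.g' P) q
      = ev σ.Eb q * ev σ.kap q * ev σ.x q * (P.a + P.a' * ev (σ.l2i ^ 3) q) := fun P q hq => by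
    rw [Sys.g', ev_add ((Conv.C _).mul (c_hc h)) ((Conv.C _).mul (c_he h)) hq, ev_C_mul, ev_C_mul,
      Sys.he, ev_mul (c_hc h) (c_m2 h) hq, Sys.hc, ev_mul ((c_Eb h).mul (c_kap h)) (c_x h) hq,
      ev_mul (c_Eb h) (c_kap h) hq]
    ring
  refine ⟨κ, -9 / κ, by field_simp, hκ, hb, fun P τ hτ => ?_, fun P τ hτ => ?_⟩
  · rw [eg P (norm_ee_lt (ww_im_pos hτ)), eg' P (norm_ee_lt hτ), hκ τ hτ, kap_w h hτ, x_w h hτ,
      m1_w h hτ]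
    ring
  · rw [eg' P (norm_ee_lt (ww_im_pos hτ)), eg P (norm_ee_lt hτ), hb τ hτ, kap_w h hτ, x_w h hτ,
      m2_w h hτ]
    ring

lemma AA_w {a a' c c' : ℂ}
    (hc : c = per (σ.g (parC a a' c c'))) (hc' : c' = per (σ.g' (parC a a' c c')))
    (hτ : 0 < τ.im) :
    ev (σ.AA (parC a a' c c')) (ee (ww τ)) = ev (σ.AA' (parC a a' c c')) (ee τ) := by
  obtain ⟨κ, κ', hk, -, hb, l1, l2⟩ := laws h
  set P := parC a a' c c' with hP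
  have k1 := key (c_g h P) (c_g' h P) (g0 P) (g0' P) (l1 P) hτ
  have k2 := key (c_g' h P) (c_g h P) (g0' P) (g0 P) (l2 P) (ww_im_pos hτ)
  have h0 := ne_zero_of_im hτ
  rw [ww_ww h0, ← hc'] at k2
  rw [← hc] at k1
  have e1 : σ.AA P = σ.Eb * (wt (fun n => (n : ℂ)⁻¹) (wt (fun n => (n : ℂ)⁻¹) (σ.g P)) - C c) := rfl
  have e2 : σ.AA' P = σ.E * (wt (fun n => (n : ℂ)⁻¹) (wt (fun n => (n : ℂ)⁻¹) (σ.g' P)) - C c') :=
    rfl
  rw [e1, e2, ev_mul (c_Eb h) ((c_g h _).wt_inv.wt_inv.sub (Conv.C _)) (norm_ee_lt (ww_im_pos hτ)),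
    ev_mul (c_E h) ((c_g' h _).wt_inv.wt_inv.sub (Conv.C _)) (norm_ee_lt hτ),
    ev_sub (c_g h _).wt_inv.wt_inv (Conv.C _) (norm_ee_lt (ww_im_pos hτ)),
    ev_sub (c_g' h _).wt_inv.wt_inv (Conv.C _) (norm_ee_lt hτ), ev_C, ev_C, hb τ hτ]
  generalize ev (wt (fun n => (n : ℂ)⁻¹) (wt (fun n => (n : ℂ)⁻¹) (σ.g P))) (ee (ww τ)) = G at *
  generalize ev (wt (fun n => (n : ℂ)⁻¹) (wt (fun n => (n : ℂ)⁻¹) (σ.g' P))) (ee τ) = G' at *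
  generalize ev (wt (fun n => (n : ℂ)⁻¹) (σ.g P)) (ee (ww τ)) = G1 at *
  generalize ev (wt (fun n => (n : ℂ)⁻¹) (σ.g' P)) (ee τ) = G1' at *
  generalize (2 * Real.pi * I : ℂ) = z at *
  have e3 : z * G1' / (9 * ww τ) = -(z * G1' * τ) := by unfold ww; field_simp
  have e4 : τ * (z * G1 / (9 * τ)) = z * G1 / 9 := by field_simp
  rw [e3] at k2
  linear_combination ev σ.E (ee τ) * (κ' * τ * k1 - k2 - κ' * e4 - τ * z * G1' / 9 * hk)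

end Bol

open Bol

theorem integrable_g (σ : Sys ℂ) (h : σ.An) (P : Par ℂ) :
    MeasureTheory.IntegrableOn
      (fun y : ℝ => (y : ℂ) * ev (σ.g P) (Real.exp (-(2 * Real.pi * y)) : ℝ)) (Set.Ioi 0) ∧
    MeasureTheory.IntegrableOn
      (fun y : ℝ => (y : ℂ) * ev (σ.g' P) (Real.exp (-(2 * Real.pi * y)) : ℝ)) (Set.Ioi 0) := by
  obtain ⟨κ, κ', -, -, -, l1, l2⟩ := laws h
  exact ⟨integrable_pair (c_g h P) (c_g' h P) (g0 P) (g0' P) (l1 P),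
    integrable_pair (c_g' h P) (c_g h P) (g0' P) (g0 P) (l2 P)⟩

theorem conv_x (σ : Sys ℂ) (h : σ.An) : Conv σ.x := c_x h

theorem conv_fn (σ : Sys ℂ) (h : σ.An) (a a' c c' : ℂ) (j : Fin 7) :
    Conv (σ.fn (parC a a' c c') j) := by
  have h1 := c_AA h a a' c c'
  have h2 := c_AA' h a a' c c'
  fin_cases j
  · exact Conv.one
  · exact h1.add h2
  · exact ((c_p h).mul h1).add ((c_elli h).mul h2)
  · exact (c_tt h h1).sub (c_tt h h2)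
  · exact ((c_p h).mul (c_tt h h1)).sub ((c_elli h).mul (c_tt h h2))
  · exact ((c_kap h).mul (((c_x h).mul h1).sub ((c_x h).mul h2))).wt_inv
  · exact ((c_kap h).mul ((((c_x h).mul (c_m2 h)).mul h1).sub
      (((c_x h).mul (c_m1 h)).mul h2))).wt_inv

theorem inv_x (σ : Sys ℂ) (h : σ.An) : Inv σ.x := fun _ hτ => x_w h hτ

/-- with the periods as constants of integration the seven functions are invariant -/
theorem inv_fn (σ : Sys ℂ) (h : σ.An) {a a' c c' : ℂ}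
    (hc : c = per (σ.g (parC a a' c c'))) (hc' : c' = per (σ.g' (parC a a' c c'))) (j : Fin 7) :
    Inv (σ.fn (parC a a' c c') j) := by
  have h1 := c_AA h a a' c c'
  have h2 := c_AA' h a a' c c'
  have w1 : ∀ τ : ℂ, 0 < τ.im → ev (σ.AA (parC a a' c c')) (ee (ww τ))
      = ev (σ.AA' (parC a a' c c')) (ee τ) := fun τ hτ => AA_w h hc hc' hτ
  have w2 : ∀ τ : ℂ, 0 < τ.im → ev (σ.AA' (parC a a' c c')) (ee (ww τ))
      = ev (σ.AA (parC a a' c c')) (ee τ) := fun τ hτ => by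
    rw [← w1 _ (ww_im_pos hτ), ww_ww (ne_zero_of_im hτ)]
  fin_cases j
  · intro τ hτ
    show ev 1 _ = ev 1 _
    simp
  · intro τ hτ
    have a1 := norm_ee_lt hτ
    have a2 := norm_ee_lt (ww_im_pos hτ)
    show ev (σ.AA _ + σ.AA' _) _ = ev (σ.AA _ + σ.AA' _) _
    rw [ev_add h1 h2 a1, ev_add h1 h2 a2, w1 τ hτ, w2 τ hτ, add_comm]
  · intro τ hτ
    have a1 := norm_ee_lt hτ
    have a2 := norm_ee_lt (ww_im_pos hτ)
    show ev (27 * σ.t * σ.x * σ.AA _ + σ.elli * σ.AA' _) _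
      = ev (27 * σ.t * σ.x * σ.AA _ + σ.elli * σ.AA' _) _
    rw [ev_add ((c_p h).mul h1) ((c_elli h).mul h2) a1, ev_add ((c_p h).mul h1) ((c_elli h).mul h2) a2,
      ev_mul (c_p h) h1 a1, ev_mul (c_p h) h1 a2, ev_mul (c_elli h) h2 a1, ev_mul (c_elli h) h2 a2,
      w1 τ hτ, w2 τ hτ, p_w h hτ, elli_w' h hτ, add_comm]
  · intro τ hτ
    have a1 := norm_ee_lt hτ
    have a2 := norm_ee_lt (ww_im_pos hτ)
    show ev (σ.tt (σ.AA _) - σ.tt (σ.AA' _)) _ = ev (σ.tt (σ.AA _) - σ.tt (σ.AA' _)) _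
    rw [ev_sub (c_tt h h1) (c_tt h h2) a1, ev_sub (c_tt h h1) (c_tt h h2) a2,
      tt_w h h1 h2 w1 hτ, tt_w h h2 h1 w2 hτ]
    ring
  · intro τ hτ
    have a1 := norm_ee_lt hτ
    have a2 := norm_ee_lt (ww_im_pos hτ)
    have b1 := c_tt h h1
    have b2 := c_tt h h2
    show ev (27 * σ.t * σ.x * σ.tt (σ.AA _) - σ.elli * σ.tt (σ.AA' _)) _
      = ev (27 * σ.t * σ.x * σ.tt (σ.AA _) - σ.elli * σ.tt (σ.AA' _)) _
    rw [ev_sub ((c_p h).mul b1) ((c_elli h).mul b2) a1, ev_sub ((c_p h).mul b1) ((c_elli h).mul b2) a2,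
      ev_mul (c_p h) b1 a1, ev_mul (c_p h) b1 a2, ev_mul (c_elli h) b2 a1, ev_mul (c_elli h) b2 a2,
      tt_w h h1 h2 w1 hτ, tt_w h h2 h1 w2 hτ, p_w h hτ, elli_w' h hτ]
    ring
  · have b1 := (c_x h).mul h1
    have b2 := (c_x h).mul h2
    refine wt_law ((c_kap h).mul (b1.sub b2)) (by simp [x0]) fun τ hτ => ?_
    have a1 := norm_ee_lt hτ
    have a2 := norm_ee_lt (ww_im_pos hτ)
    rw [ev_mul (c_kap h) (b1.sub b2) a1, ev_mul (c_kap h) (b1.sub b2) a2, ev_sub b1 b2 a1,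
      ev_sub b1 b2 a2, ev_mul (c_x h) h1 a1, ev_mul (c_x h) h1 a2, ev_mul (c_x h) h2 a1,
      ev_mul (c_x h) h2 a2, w1 τ hτ, w2 τ hτ, kap_w h hτ, x_w h hτ]
    ring
  · have d1 := (c_x h).mul (c_m2 h)
    have d2 := (c_x h).mul (c_m1 h)
    have b1 := d1.mul h1
    have b2 := d2.mul h2
    refine wt_law ((c_kap h).mul (b1.sub b2)) (by simp [x0]) fun τ hτ => ?_
    have a1 := norm_ee_lt hτ
    have a2 := norm_ee_lt (ww_im_pos hτ)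
    rw [ev_mul (c_kap h) (b1.sub b2) a1, ev_mul (c_kap h) (b1.sub b2) a2, ev_sub b1 b2 a1,
      ev_sub b1 b2 a2, ev_mul d1 h1 a1, ev_mul d1 h1 a2, ev_mul d2 h2 a1, ev_mul d2 h2 a2,
      ev_mul (c_x h) (c_m2 h) a1, ev_mul (c_x h) (c_m2 h) a2, ev_mul (c_x h) (c_m1 h) a1,
      ev_mul (c_x h) (c_m1 h) a2, w1 τ hτ, w2 τ hτ, kap_w h hτ, x_w h hτ, m1_w h hτ, m2_w h hτ]
    ring

end

end Pool.Agent.Lib.MP_caab05_ag.W3
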