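import Pool.Agent.Lib.MP_caab05_ag.W3.Conv

/-!
Eichler integrals: the Bol identity and the period integral, for an abstract pair of series.
-/

namespace Pool.Agent.Lib.MP_caab05_ag.W3.Bol

open PowerSeries Filter Topology Complex

noncomputable section

lemma isOpen_H : IsOpen {τ : ℂ | 0 < τ.im} := isOpen_lt continuous_const Complex.continuous_im

lemma mem_nhds_H {τ : ℂ} (h : 0 < τ.im) : ∀ᶠ z in 𝓝 τ, 0 < z.im := isOpen_H.mem_nhds h

/-- a function with zero derivative on the upper half plane is constant -/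
lemma const_of_deriv {f : ℂ → ℂ} (hf : ∀ τ : ℂ, 0 < τ.im → HasDerivAt f 0 τ) {a b : ℂ}
    (ha : 0 < a.im) (hb : 0 < b.im) : f a = f b :=
  isOpen_H.is_const_of_deriv_eq_zero (𝕜 := ℂ) (convex_halfSpace_im_gt 0).isPreconnected
    (fun τ h => (hf τ h).differentiableAt.differentiableWithinAt) (fun τ h => (hf τ h).deriv) ha hb

lemma deriv_unique {f g : ℂ → ℂ} (h : ∀ τ : ℂ, 0 < τ.im → f τ = g τ) {τ a b : ℂ} (hτ : 0 < τ.im)
    (hf : HasDerivAt f a τ) (hg : HasDerivAt g b τ) : a = b :=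
  hf.unique (hg.congr_of_eventuallyEq ((mem_nhds_H hτ).mono h))

lemma c0_ne : (2 * Real.pi * I : ℂ) ≠ 0 := by simp [Real.pi_pos.ne']

lemma hasDerivAt_ev_ww {F : ℂ⟦X⟧} (hF : Conv F) {τ : ℂ} (h : 0 < τ.im) :
    HasDerivAt (fun z => ev F (ee (ww z)))
      (2 * Real.pi * I * ev (th F) (ee (ww τ)) * (1 / (9 * τ ^ 2))) τ :=
  (hasDerivAt_ev_ee hF (ww_im_pos h)).comp τ (hasDerivAt_ww (ne_zero_of_im h))

/-- differentiating a weight zero law -/
lemma th_law {F F' : ℂ⟦X⟧} (hF : Conv F) (hF' : Conv F')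
    (h : ∀ τ : ℂ, 0 < τ.im → ev F (ee (ww τ)) = ev F' (ee τ)) {τ : ℂ} (hτ : 0 < τ.im) :
    ev (th F) (ee (ww τ)) = 9 * τ ^ 2 * ev (th F') (ee τ) := by
  have h1 := deriv_unique h hτ (hasDerivAt_ev_ww hF hτ) (hasDerivAt_ev_ee hF' hτ)
  have h0 := ne_zero_of_im hτ
  have h2 := c0_ne
  field_simp at h1
  linear_combination h1

lemma th_wt {F : ℂ⟦X⟧} (h : coeff 0 F = 0) : th (wt (fun n => (n : ℂ)⁻¹) F) = F := by
  ext n
  rcases Nat.eq_zero_or_pos n with rfl | hn
  · simpa using h.symm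
  · have : (n : ℂ) ≠ 0 := by exact_mod_cast hn.ne'
    rw [coeff_th, coeff_wt]; field_simp

lemma coeff_zero_wt (F : ℂ⟦X⟧) : coeff 0 (wt (fun n => (n : ℂ)⁻¹) F) = 0 := by simp

/-- integrating a weight two law -/
lemma wt_law {K : ℂ⟦X⟧} (hK : Conv K) (h0 : coeff 0 K = 0)
    (h : ∀ τ : ℂ, 0 < τ.im → ev K (ee (ww τ)) = 9 * τ ^ 2 * ev K (ee τ)) :
    Inv (wt (fun n => (n : ℂ)⁻¹) K) := by
  intro τ hτ
  set J := wt (fun n => (n : ℂ)⁻¹) K with hJ
  have hc : Conv J := hK.wt_inv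
  have hi : 0 < (I / 3 : ℂ).im := by simp
  have hw : ww (I / 3) = I / 3 := by
    unfold ww
    field_simp
    linear_combination (-9 : ℂ) * I_sq
  have := const_of_deriv (f := fun z => ev J (ee (ww z)) - ev J (ee z)) (fun z hz => by
    have h1 := (hasDerivAt_ev_ww hc hz).sub (hasDerivAt_ev_ee hc hz)
    refine h1.congr_deriv ?_
    rw [hJ, th_wt h0, h z hz]
    have := ne_zero_of_im hz
    field_simp
    ring) hτ hi
  simp only [hw, sub_self] at this
  exact sub_eq_zero.1 this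

lemma ee_I (y : ℝ) : ee (I * y) = (Real.exp (-(2 * Real.pi * y)) : ℝ) := by
  rw [ee, Complex.ofReal_exp]
  congr 1
  push_cast
  linear_combination (2 * Real.pi * y : ℂ) * I_sq

lemma im_I {y : ℝ} (hy : 0 < y) : 0 < (I * y : ℂ).im := by simpa using hy

lemma ww_I {y : ℝ} (hy : 0 < y) : ww (I * ((9 * y)⁻¹ : ℝ)) = I * y := by
  have : (y : ℂ) ≠ 0 := by exact_mod_cast hy.ne'
  unfold ww
  push_cast
  field_simp
  linear_combination (-1 : ℂ) * I_sq

lemma tendsto_ee : Tendsto (fun y : ℝ => ee (I * y)) atTop (𝓝 0) := by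
  simp only [ee_I]
  have h1 : Tendsto (fun y : ℝ => Real.exp (-(2 * Real.pi * y))) atTop (𝓝 0) :=
    Real.tendsto_exp_neg_atTop_nhds_zero.comp
      (tendsto_id.const_mul_atTop (by have := Real.pi_pos; positivity))
  exact (Complex.continuous_ofReal.tendsto 0).comp h1

lemma exists_X_mul {F : ℂ⟦X⟧} (hF : Conv F) (h0 : coeff 0 F = 0) :
    ∃ K : ℂ⟦X⟧, Conv K ∧ ∀ y : ℝ, 0 < y → ev F (ee (I * y)) = ee (I * y) * ev K (ee (I * y)) := by
  obtain ⟨K, rfl⟩ : (X : ℂ⟦X⟧) ∣ F := X_dvd_iff.2 (by simpa using h0)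
  refine ⟨K, hF.of_X_mul, fun y hy => ?_⟩
  rw [ev_mul Conv.X hF.of_X_mul (norm_ee_lt (im_I hy)), ev_X]

lemma tendsto_ev {K : ℂ⟦X⟧} (hK : Conv K) :
    Tendsto (fun y : ℝ => ev K (ee (I * y))) atTop (𝓝 (ev K 0)) :=
  (hK.continuousAt (by simp)).tendsto.comp tendsto_ee

lemma decay {F : ℂ⟦X⟧} (hF : Conv F) (h0 : coeff 0 F = 0) (k : ℕ) :
    Tendsto (fun y : ℝ => (y : ℂ) ^ k * ev F (ee (I * y))) atTop (𝓝 0) := by
  obtain ⟨K, hK, h⟩ := exists_X_mul hF h0
  have h1 := tendsto_rpow_mul_exp_neg_mul_atTop_nhds_zero k (2 * Real.pi)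
    (by have := Real.pi_pos; positivity)
  have h2 : Tendsto (fun y : ℝ => (y : ℂ) ^ k * ee (I * y)) atTop (𝓝 0) := by
    have := (Complex.continuous_ofReal.tendsto 0).comp h1
    simp only [Complex.ofReal_zero] at this
    refine this.congr fun y => ?_
    simp only [Function.comp, ee_I, Real.rpow_natCast, neg_mul]
    push_cast
    ring
  have h3 := h2.mul (tendsto_ev hK)
  rw [zero_mul] at h3
  refine h3.congr' ?_
  filter_upwards [eventually_gt_atTop 0] with y hy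
  rw [h y hy]; ring

lemma tendsto_inv9 : Tendsto (fun y : ℝ => (9 * y)⁻¹) (𝓝[>] 0) atTop := by
  have h : Tendsto (fun y : ℝ => 9 * y) (𝓝[>] 0) (𝓝[>] 0) := by
    refine tendsto_nhdsWithin_iff.2 ⟨?_, ?_⟩
    · have : Tendsto (fun y : ℝ => 9 * y) (𝓝 0) (𝓝 (9 * 0)) :=
        (continuous_const.mul continuous_id).tendsto 0
      simpa using this.mono_left nhdsWithin_le_nhds
    · filter_upwards [self_mem_nhdsWithin] with y hy
      have : (0 : ℝ) < y := hy
      simpa using this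
  exact tendsto_inv_nhdsGT_zero.comp h

lemma hasDerivAt_I {F : ℂ⟦X⟧} (hF : Conv F) {y : ℝ} (hy : 0 < y) :
    HasDerivAt (fun u : ℝ => ev F (ee (I * u))) (-(2 * Real.pi) * ev (th F) (ee (I * y))) y := by
  have h1 : HasDerivAt (fun z : ℂ => ev F (ee (I * z)))
      (2 * Real.pi * I * ev (th F) (ee (I * y)) * (I * 1)) (y : ℂ) :=
    (hasDerivAt_ev_ee hF (im_I hy)).comp (y : ℂ) ((hasDerivAt_id (y : ℂ)).const_mul I)
  refine h1.comp_ofReal.congr_deriv ?_
  linear_combination (2 * Real.pi * ev (th F) (ee (I * y)) : ℂ) * I_sq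

section Pair

variable {g g' : ℂ⟦X⟧} {κ : ℂ} (hg : Conv g) (hg' : Conv g') (h0 : coeff 0 g = 0)
  (h0' : coeff 0 g' = 0)
  (law : ∀ τ : ℂ, 0 < τ.im → ev g (ee (ww τ)) = -9 * κ * τ ^ 3 * ev g' (ee τ))

include hg hg' h0 h0' law

lemma integrable_pair : MeasureTheory.IntegrableOn
    (fun y : ℝ => (y : ℂ) * ev g (Real.exp (-(2 * Real.pi * y)) : ℝ)) (Set.Ioi 0) := by
  have hp : 0 < 2 * Real.pi := by have := Real.pi_pos; positivity
  have hc : ContinuousOn (fun y : ℝ => ev g (ee (I * y))) (Set.Ioi 0) := fun y hy =>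
    (hasDerivAt_I hg hy).continuousAt.continuousWithinAt
  have htop : (fun y : ℝ => ev g (ee (I * y))) =O[atTop] fun t => Real.exp (-(2 * Real.pi) * t) := by
    obtain ⟨K, hK, h⟩ := exists_X_mul hg h0
    have h1 : (fun y : ℝ => ee (I * y)) =O[atTop] fun t => Real.exp (-(2 * Real.pi) * t) := by
      refine Asymptotics.IsBigO.of_bound 1 (Eventually.of_forall fun y => ?_)
      rw [ee_I, Complex.norm_real, one_mul, neg_mul]
    have h2 := h1.mul ((tendsto_ev hK).isBigO_one ℝ)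
    simp only [mul_one] at h2
    refine h2.congr' ?_ EventuallyEq.rfl
    filter_upwards [eventually_gt_atTop 0] with y hy using (h y hy).symm
  have hbot : (fun y : ℝ => ev g (ee (I * y))) =O[𝓝[>] 0] (· ^ (-(0 : ℝ))) := by
    have h1 := ((decay hg' h0' 3).comp tendsto_inv9).const_mul (-9 * κ * I ^ 3)
    have h2 : Tendsto (fun y : ℝ => ev g (ee (I * y))) (𝓝[>] 0) (𝓝 (-9 * κ * I ^ 3 * 0)) := by
      refine h1.congr' ?_
      filter_upwards [self_mem_nhdsWithin] with y hy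
      have hy' : (0 : ℝ) < y := hy
      have := law _ (im_I (y := (9 * y)⁻¹) (by positivity))
      rw [ww_I hy'] at this
      rw [this]; simp only [Function.comp]; ring
    simpa using h2.isBigO_one ℝ
  have := mellinConvergent_of_isBigO_rpow_exp (s := 2) hp
    (hc.locallyIntegrableOn measurableSet_Ioi) htop hbot (by simp)
  refine this.congr_fun (fun y _ => ?_) measurableSet_Ioi
  simp only [ee_I, smul_eq_mul]
  norm_num

/-- first integral of the Bol identity; the constant is the period -/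
lemma key {τ : ℂ} (hτ : 0 < τ.im) :
    ev (wt (fun n => (n : ℂ)⁻¹) (wt (fun n => (n : ℂ)⁻¹) g)) (ee (ww τ))
      + 2 * Real.pi * I * ev (wt (fun n => (n : ℂ)⁻¹) g) (ee (ww τ)) / (9 * τ)
      + κ / 9 * (2 * Real.pi * I) * ev (wt (fun n => (n : ℂ)⁻¹) g') (ee τ) = per g := by
  set G1 := wt (fun n => (n : ℂ)⁻¹) g with hG1
  set G := wt (fun n => (n : ℂ)⁻¹) G1 with hG
  set G1' := wt (fun n => (n : ℂ)⁻¹) g' with hG1'
  have c1 : Conv G1 := hg.wt_inv
  have c2 : Conv G := c1.wt_inv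
  have c1' : Conv G1' := hg'.wt_inv
  have t1 : th G1 = g := th_wt h0
  have t2 : th G = G1 := th_wt (coeff_zero_wt g)
  have t1' : th G1' = g' := th_wt h0'
  set f : ℂ → ℂ := fun z => ev G (ee (ww z)) + 2 * Real.pi * I * ev G1 (ee (ww z)) / (9 * z)
      + κ / 9 * (2 * Real.pi * I) * ev G1' (ee z) with hf
  have hd : ∀ z : ℂ, 0 < z.im → HasDerivAt f 0 z := fun z hz => by
    have hz0 := ne_zero_of_im hz
    have h1 := ((hasDerivAt_ev_ww c2 hz).add
      (((hasDerivAt_ev_ww c1 hz).const_mul (2 * Real.pi * I : ℂ)).div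
        ((hasDerivAt_id z).const_mul (9 : ℂ)) (by simpa using hz0))).add
      ((hasDerivAt_ev_ee c1' hz).const_mul (κ / 9 * (2 * Real.pi * I)))
    refine h1.congr_deriv ?_
    rw [t1, t2, t1', law z hz]
    simp only [id]
    field_simp
    ring
  show f τ = per g
  set ga := f τ with hga
  set Ψ : ℝ → ℂ := fun y => -(2 * Real.pi * y * ev G1 (ee (I * y)) + ev G (ee (I * y))) with hΨ
  have hΨd : ∀ y : ℝ, 0 < y →
      HasDerivAt Ψ (4 * (Real.pi : ℂ) ^ 2 * ((y : ℂ) * ev g (ee (I * y)))) y := fun y hy => by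
    have h1 := ((((hasDerivAt_id (y : ℂ)).comp_ofReal.const_mul (2 * Real.pi : ℂ)).mul
      (hasDerivAt_I c1 hy)).add (hasDerivAt_I c2 hy)).neg
    refine h1.congr_deriv ?_
    rw [t1, t2]
    simp only [id]
    ring
  have hΨtop : Tendsto Ψ atTop (𝓝 0) := by
    have h1 := (((decay c1 (coeff_zero_wt g) 1).const_mul (2 * Real.pi : ℂ)).add
      (decay c2 (coeff_zero_wt G1) 0)).neg
    simp only [mul_zero, add_zero, neg_zero] at h1
    refine h1.congr fun y => ?_
    simp only [hΨ]; ring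
  have hΨbot : Tendsto Ψ (𝓝[>] 0) (𝓝 (-ga)) := by
    have h1 := (((decay c1' (coeff_zero_wt g') 0).comp tendsto_inv9).const_mul
      (κ / 9 * (2 * Real.pi * I))).sub_const ga
    simp only [mul_zero, zero_sub] at h1
    refine h1.congr' ?_
    filter_upwards [self_mem_nhdsWithin] with y hy
    have hy' : (0 : ℝ) < y := hy
    have hy0 : (y : ℂ) ≠ 0 := by exact_mod_cast hy'.ne'
    have h2 := const_of_deriv hd hτ (im_I (y := (9 * y)⁻¹) (by positivity))
    rw [← hga] at h2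
    simp only [hf, ww_I hy'] at h2
    simp only [hΨ, Function.comp, h2]
    push_cast
    field_simp
    ring
  set Ψ0 : ℝ → ℂ := Function.update Ψ 0 (-ga) with hΨ0
  have hne : ∀ y : ℝ, 0 < y → Ψ0 =ᶠ[𝓝 y] Ψ := fun y hy => by
    filter_upwards [lt_mem_nhds hy] with u hu
    exact Function.update_of_ne hu.ne' _ _
  have hint := MeasureTheory.integral_Ioi_of_hasDerivAt_of_tendsto (f := Ψ0) (a := 0) (m := 0)
    (f' := fun y : ℝ => 4 * (Real.pi : ℂ) ^ 2 * ((y : ℂ) * ev g (ee (I * y))))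
    (by
      rw [← continuousWithinAt_Ioi_iff_Ici, hΨ0, ContinuousWithinAt, Function.update_self]
      refine hΨbot.congr' ?_
      filter_upwards [self_mem_nhdsWithin] with y hy
      exact (Function.update_of_ne (ne_of_gt hy) _ _).symm)
    (fun y hy => (hΨd y hy).congr_of_eventuallyEq (hne y hy))
    (by
      simp only [ee_I]
      exact (integrable_pair hg hg' h0 h0' law).const_mul _)
    (by
      refine hΨtop.congr' ?_
      filter_upwards [eventually_gt_atTop 0] with y hy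
      exact (Function.update_of_ne hy.ne' _ _).symm)
  rw [MeasureTheory.integral_const_mul] at hint
  simp only [ee_I, hΨ0, Function.update_self] at hint
  rw [per, hint]; ring

end Pair

end

end Pool.Agent.Lib.MP_caab05_ag.W3.Bol
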