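import Pool.Agent.Lib.MP_caab05_ag.W3.Geo

namespace Pool.Agent.Lib.MP_caab05_ag.W3

open Set

def P1 : List ℕ := [68768476481, 68864556362, 68914795110, 68852228321, 68777842168, 68780955415, 68750473560,
  68679703786, 68752563546, 68725854051, 68580780771, 69030966840, 68420806644, 68832177089,
  68719476736]

def G1 : List ℕ := [68801124193, 69026869875, 69241495060, 69187278650, 68900591249, 68723969213, 68789065521,
  68815426052, 68639586076, 68548041201, 68691127555, 68521487030, 67432556539, 65858807603,
  68719476736]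

def Y1 : List ℕ := [68719464168, 68719489035, 68719414260, 68719383705, 68719715628, 68718947241, 68717405824,
  68720082764, 68707356175, 68701964983, 68755797406, 68616164605, 68362348384, 69041963008,
  66999549952, 66001567744, 68719476736]

set_option maxRecDepth 100000

theorem a1_0 : chkArc1 P1 Y1 (34359738368) (-926534952) 37 0 36 = true := by decide +kernel
theorem arc1_1 : ∀ s ∈ Icc (0 : ℝ) (9632 / 10000), Arc1 P1 Y1 (34359738368) (-926534952) s :=
  good_mono (chkArc1_sound a1_0) (by norm_num) (by norm_num)

theorem b1_0 : chkArc2 G1 (-1785682279) 82 0 79 = true := by decide +kernel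
theorem arc2_1 : ∀ s ∈ Icc (0 : ℝ) (9632 / 10000), Arc2 G1 (-1785682279) s :=
  good_mono (chkArc2_sound b1_0) (by norm_num) (by norm_num)

theorem c1_0 : chkCirc P1 0 27 64 139 52 534 65569 = true := by decide +kernel
theorem c1_1 : chkCirc P1 0 27 64 86 60 242 52846 = true := by decide +kernel
theorem c1_2 : chkCirc P1 0 27 64 52 35 87 37529 = true := by decide +kernel
theorem circc_1 : ∀ s ∈ Icc (4267 / 16384 : ℝ) (1), Circ P1 0 ((27 : ℕ) / (64 : ℕ)) s :=
  good_mono (good_trans (good_trans (chkCirc_sound c1_0) (chkCirc_sound c1_1) (by norm_num)) (chkCirc_sound c1_2) (by norm_num)) (by norm_num) (by norm_num)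

theorem d1_0 : chkCirc G1 2 27 64 50 14 192 65549 = true := by decide +kernel
theorem d1_1 : chkCirc G1 2 27 64 72 5 216 55302 = true := by decide +kernel
theorem d1_2 : chkCirc G1 2 27 64 135 60 380 52857 = true := by decide +kernel
theorem d1_3 : chkCirc G1 2 27 64 98 60 192 41196 = true := by decide +kernel
theorem d1_4 : chkCirc G1 2 27 64 125 28 153 33103 = true := by decide +kernel
theorem circd_1 : ∀ s ∈ Icc (4267 / 16384 : ℝ) (1), Circ G1 2 ((27 : ℕ) / (64 : ℕ)) s :=
  good_mono (good_trans (good_trans (good_trans (good_trans (chkCirc_sound d1_0) (chkCirc_sound d1_1) (by norm_num)) (chkCirc_sound d1_2) (by norm_num)) (chkCirc_sound d1_3) (by norm_num)) (chkCirc_sound d1_4) (by norm_num)) (by norm_num) (by norm_num)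

theorem y1 : chkY 27 64 16 Y1 = true := by decide +kernel
theorem lg1 : chkLog 948929351299 948929351282 27 64 = true := by decide +kernel
theorem tn1 : chkTan 884244992865 9632 10000 = true := by decide +kernel

theorem dom1 : ∃ d : Dom (fun q => vfun (lx q)),
    d.ta = (0 : ℕ) / 2 ∧ d.h = 2 / 1 ∧ d.L = 4 / 5 :=
  mk_dom (S := 9632 / 10000) (ulo := 25599 / 100000) (x0 := (884244992865 : ℕ) / 2 ^ 40) (by norm_num) (by norm_num)
    (by decide +kernel) (by decide +kernel) y1 (chkLog_sound lg1 (by norm_num) (by norm_num)).1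
    (chkLog_sound lg1 (by norm_num) (by norm_num)).2 (by norm_num) (by norm_num) (by norm_num)
    (by norm_num) (fun θ h1 h2 => by simpa using chkTan_sound tn1 (by norm_num) h1 h2)
    (by norm_num) (by norm_num) (by norm_num) (by norm_num) (by norm_num)
    arc1_1 arc2_1 circc_1 circd_1

end Pool.Agent.Lib.MP_caab05_ag.W3
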