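import Pool.Agent.Lib.MP_caab05_ag.W3.Geo

namespace Pool.Agent.Lib.MP_caab05_ag.W3

open Set

def P2 : List ℕ := [68730719805, 68767215504, 68777949499, 68719476736, 68670841811, 68719476736, 68759487166,
  68719476736, 68696025150, 68719476737, 68741154892, 68719476736, 68680625025, 68719476737,
  68795986516, 68719476725, 68691740465, 68831144981, 68719476733, 68719476735, 68946229800,
  68499330113, 68257119421, 68789833827, 67843342528, 67788132655, 69447008474, 67158614300,
  66264068630, 69210325114, 64188470240, 63852916322, 68719476736]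

def G2 : List ℕ := [68726009435, 68746321087, 68755354008, 68719476736, 68684038806, 68719476736, 68763691564,
  68719476736, 68669271268, 68719476736, 68767675702, 68719476735, 68684415098, 68719476738,
  68725240856, 68699557027, 68719476735, 68740504167, 68719476734, 68719476736, 68741265348,
  68719476728, 68642463947, 68494443522, 68293547834, 68165621808, 68106942022, 67939242530,
  67599596954, 66930138475, 65499674422, 63578389436, 68719476736]

def Y2 : List ℕ := [68719479785, 68719473452, 68719469883, 68719478325, 68719461238, 68719465424, 68719493938,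
  68719455739, 68719413937, 68719504022, 68719395021, 68719404359, 68719514054, 68719297530,
  68719194134, 68719652949, 68718827183, 68719012975, 68720210859, 68718614962, 68717208010,
  68719591155, 68716078981, 68715925169, 68724351912, 68713934999, 68707642931, 68726979605,
  68691317031, 68700256119, 68727764774, 68683627596, 68630150512, 68769700512, 68572927114,
  68594114048, 68904408927, 68484006290, 68190419736, 68808417235, 67697607172, 67871335351,
  69730028173, 67068192685, 65440331104, 70420512768, 63507791872, 63988301824, 68719476736]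

set_option maxRecDepth 100000

theorem a2_0 : chkArc1 P2 Y2 (13078424839) (-330882661) 179 0 112 = true := by decide +kernel
theorem a2_1 : chkArc1 P2 Y2 (13078424839) (-330882661) 179 112 6 = true := by decide +kernel
theorem arc1_2 : ∀ s ∈ Icc (0 : ℝ) (6577 / 10000), Arc1 P2 Y2 (13078424839) (-330882661) s :=
  good_mono (good_trans (chkArc1_sound a2_0) (chkArc1_sound a2_1) (by norm_num)) (by norm_num) (by norm_num)

theorem b2_0 : chkArc2 G2 (-3037331596) 155 0 102 = true := by decide +kernel
theorem arc2_2 : ∀ s ∈ Icc (0 : ℝ) (6577 / 10000), Arc2 G2 (-3037331596) s :=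
  good_mono (chkArc2_sound b2_0) (by norm_num) (by norm_num)

theorem c2_0 : chkCirc P2 2 47 64 76 27 942 65553 = true := by decide +kernel
theorem c2_1 : chkCirc P2 2 47 64 103 60 942 59242 = true := by decide +kernel
theorem c2_2 : chkCirc P2 2 47 64 92 60 534 48239 = true := by decide +kernel
theorem c2_3 : chkCirc P2 2 47 64 86 60 303 35536 = true := by decide +kernel
theorem c2_4 : chkCirc P2 2 47 64 92 60 192 24656 = true := by decide +kernel
theorem c2_5 : chkCirc P2 2 47 64 121 32 153 19178 = true := by decide +kernel
theorem circc_2 : ∀ s ∈ Icc (1322 / 16384 : ℝ) (1), Circ P2 2 ((47 : ℕ) / (64 : ℕ)) s :=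
  good_mono (good_trans (good_trans (good_trans (good_trans (good_trans (chkCirc_sound c2_0) (chkCirc_sound c2_1) (by norm_num)) (chkCirc_sound c2_2) (by norm_num)) (chkCirc_sound c2_3) (by norm_num)) (chkCirc_sound c2_4) (by norm_num)) (chkCirc_sound c2_5) (by norm_num)) (by norm_num) (by norm_num)

theorem d2_0 : chkCirc G2 2 47 64 43 16 534 65590 = true := by decide +kernel
theorem d2_1 : chkCirc G2 2 47 64 82 60 751 59274 = true := by decide +kernel
theorem d2_2 : chkCirc G2 2 47 64 80 60 426 46024 = true := by decide +kernel
theorem d2_3 : chkCirc G2 2 47 64 79 60 242 32241 = true := by decide +kernel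
theorem d2_4 : chkCirc G2 2 47 64 98 60 172 22141 = true := by decide +kernel
theorem d2_5 : chkCirc G2 2 47 64 125 12 137 18647 = true := by decide +kernel
theorem circd_2 : ∀ s ∈ Icc (1322 / 16384 : ℝ) (1), Circ G2 2 ((47 : ℕ) / (64 : ℕ)) s :=
  good_mono (good_trans (good_trans (good_trans (good_trans (good_trans (chkCirc_sound d2_0) (chkCirc_sound d2_1) (by norm_num)) (chkCirc_sound d2_2) (by norm_num)) (chkCirc_sound d2_3) (by norm_num)) (chkCirc_sound d2_4) (by norm_num)) (chkCirc_sound d2_5) (by norm_num)) (by norm_num) (by norm_num)

theorem y2 : chkY 47 64 48 Y2 = true := by decide +kernel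
theorem lg2 : chkLog 339458251989 339458251972 47 64 = true := by decide +kernel
theorem tn2 : chkTan 1087594743753 6577 10000 = true := by decide +kernel

theorem dom2 : ∃ d : Dom (fun q => vfun (lx q)),
    d.ta = (2 : ℕ) / 2 ∧ d.h = 107 / 100 ∧ d.L = 63 / 25 :=
  mk_dom (S := 6577 / 10000) (ulo := 15743 / 50000) (x0 := (1087594743753 : ℕ) / 2 ^ 40) (by norm_num) (by norm_num)
    (by decide +kernel) (by decide +kernel) y2 (chkLog_sound lg2 (by norm_num) (by norm_num)).1
    (chkLog_sound lg2 (by norm_num) (by norm_num)).2 (by norm_num) (by norm_num) (by norm_num)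
    (by norm_num) (fun θ h1 h2 => by simpa using chkTan_sound tn2 (by norm_num) h1 h2)
    (by norm_num) (by norm_num) (by norm_num) (by norm_num) (by norm_num)
    arc1_2 arc2_2 circc_2 circd_2

end Pool.Agent.Lib.MP_caab05_ag.W3
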