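import Pool.Agent.Lib.MP_caab05_ag.W3.Geo

namespace Pool.Agent.Lib.MP_caab05_ag.W3

open Set

def P3 : List ℕ := [68684299015, 68719476693, 68836590772, 68719476739, 68490537290, 68719476737, 68950701525,
  68719476706, 68719476733, 68957086666, 68719476731, 68719476717, 69063622229, 68719476735,
  68497089625, 68848180049, 68719476736, 68719476295, 69101559090, 68719476733, 68719476707,
  69301023695, 68719476717, 68719476726, 69660496146, 68719476500, 68719476735, 69922370706,
  68697173893, 68719476733, 70220036665, 68719476017, 68719476724, 70989498751, 68386776141,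
  68719476741, 72581227503, 68719476657, 66738392443, 68719479162, 62590050144, 62368080953,
  68280264140, 61595967758, 59689695946, 64913638411, 54903689282, 53462140954, 68719476736]

def G3 : List ℕ := [68719591293, 68719476736, 68719059431, 68719476733, 68720291680, 68719476736, 68718526745,
  68719476737, 68719476737, 68718168145, 68719476736, 68721040162, 68719476734, 68719476735,
  68721353985, 68719476736, 68717492108, 68719476739, 68719476737, 68717581932, 68719476736,
  68721090265, 68719476730, 68719476735, 68720272379, 68719476736, 68719476704, 68719522288,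
  68719476733, 68719476741, 68716235409, 68719476737, 68731768672, 68719476729, 68688845155,
  68719476749, 68795581255, 68719476733, 68322515482, 67680986819, 67081797367, 66788971445,
  66777314697, 66734287780, 66352180306, 65456568148, 64018150055, 62478979727, 68719476736]

def Y3 : List ℕ := [68719473131, 68719478160, 68719472065, 68719474083, 68719477861, 68719472594, 68719470005,
  68719479592, 68719469574, 68719470939, 68719485618, 68719468690, 68719465348, 68719478741,
  68719459697, 68719463503, 68719489225, 68719463296, 68719443614, 68719488235, 68719439706,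
  68719455368, 68719479817, 68719449793, 68719430930, 68719507503, 68719400439, 68719433898,
  68719527173, 68719422721, 68719346419, 68719493082, 68719344630, 68719390852, 68719602009,
  68719341365, 68719292402, 68719569712, 68719199722, 68719267101, 68719553234, 68719259591,
  68718983572, 68719663433, 68719010198, 68719043104, 68719987664, 68719041296, 68718734421,
  68719490129, 68718060731, 68718784252, 68720303604, 68718401911, 68717693632, 68720375193,
  68717596789, 68718087786, 68720117755, 68717725027, 68715486879, 68720991657, 68714946042,
  68716690343, 68722839542, 68715003885, 68711765086, 68720584910, 68711890727, 68713885590,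
  68728123867, 68712424150, 68707393902, 68725612159, 68698440999, 68705047630, 68720851829,
  68705318871, 68690072648, 68731842541, 68682891307, 68693785849, 68751506658, 68691041689,
  68670545031, 68728837030, 68644236088, 68674195814, 68776261012, 68662327990, 68578538475,
  68769971335, 68594788845, 68628413387, 68758192906, 68566175670, 68520137889, 68821966269,
  68407962494, 68536084588, 68958851750, 68487776782, 68216511691, 68740392761, 68207330498,
  68278064012, 69219094985, 68251184664, 67894924189, 69150543286, 67385439202, 67968666357,
  68986431537, 67767365494, 66763287168, 69626387032, 66537436924, 67180368133, 70591608837,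
  66753929977, 65078042741, 69224245580, 63937456100, 65446768879, 71934768665, 64387293925,
  61625844064, 71753678848, 61054124032, 62981668864, 68719476736]

set_option maxRecDepth 100000

theorem a3_0 : chkArc1 P3 Y3 (-51532384085) (-120510865) 523 0 50 = true := by decide +kernel
theorem a3_1 : chkArc1 P3 Y3 (-51532384085) (-120510865) 523 50 50 = true := by decide +kernel
theorem a3_2 : chkArc1 P3 Y3 (-51532384085) (-120510865) 523 100 50 = true := by decide +kernel
theorem a3_3 : chkArc1 P3 Y3 (-51532384085) (-120510865) 523 150 50 = true := by decide +kernel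
theorem a3_4 : chkArc1 P3 Y3 (-51532384085) (-120510865) 523 200 50 = true := by decide +kernel
theorem a3_5 : chkArc1 P3 Y3 (-51532384085) (-120510865) 523 250 50 = true := by decide +kernel
theorem a3_6 : chkArc1 P3 Y3 (-51532384085) (-120510865) 523 300 16 = true := by decide +kernel
theorem arc1_3 : ∀ s ∈ Icc (0 : ℝ) (6027 / 10000), Arc1 P3 Y3 (-51532384085) (-120510865) s :=
  good_mono (good_trans (good_trans (good_trans (good_trans (good_trans (good_trans (chkArc1_sound a3_0) (chkArc1_sound a3_1) (by norm_num)) (chkArc1_sound a3_2) (by norm_num)) (chkArc1_sound a3_3) (by norm_num)) (chkArc1_sound a3_4) (by norm_num)) (chkArc1_sound a3_5) (by norm_num)) (chkArc1_sound a3_6) (by norm_num)) (by norm_num) (by norm_num)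

theorem b3_0 : chkArc2 G3 (-3452973120) 155 0 94 = true := by decide +kernel
theorem arc2_3 : ∀ s ∈ Icc (0 : ℝ) (6027 / 10000), Arc2 G3 (-3452973120) s :=
  good_mono (chkArc2_sound b3_0) (by norm_num) (by norm_num)

theorem c3_0 : chkCirc P3 5 57 64 22 4 751 65539 = true := by decide +kernel
theorem c3_1 : chkCirc P3 5 57 64 51 9 1483 64259 = true := by decide +kernel
theorem c3_2 : chkCirc P3 5 57 64 118 60 2928 62816 = true := by decide +kernel
theorem c3_3 : chkCirc P3 5 57 64 90 21 1483 58164 = true := by decide +kernel
theorem c3_4 : chkCirc P3 5 57 64 124 30 1661 55247 = true := by decide +kernel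
theorem c3_5 : chkCirc P3 5 57 64 122 60 1324 51879 = true := by decide +kernel
theorem c3_6 : chkCirc P3 5 57 64 115 31 841 44541 = true := by decide +kernel
theorem c3_7 : chkCirc P3 5 57 64 116 60 671 39704 = true := by decide +kernel
theorem c3_8 : chkCirc P3 5 57 64 125 60 477 30921 = true := by decide +kernel
theorem c3_9 : chkCirc P3 5 57 64 131 60 340 23635 = true := by decide +kernel
theorem c3_10 : chkCirc P3 5 57 64 152 60 271 18424 = true := by decide +kernel
theorem c3_11 : chkCirc P3 5 57 64 189 53 242 15871 = true := by decide +kernel
theorem circc_3 : ∀ s ∈ Icc (480 / 16384 : ℝ) (1), Circ P3 5 ((57 : ℕ) / (64 : ℕ)) s :=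
  good_mono (good_trans (good_trans (good_trans (good_trans (good_trans (good_trans (good_trans (good_trans (good_trans (good_trans (good_trans (chkCirc_sound c3_0) (chkCirc_sound c3_1) (by norm_num)) (chkCirc_sound c3_2) (by norm_num)) (chkCirc_sound c3_3) (by norm_num)) (chkCirc_sound c3_4) (by norm_num)) (chkCirc_sound c3_5) (by norm_num)) (chkCirc_sound c3_6) (by norm_num)) (chkCirc_sound c3_7) (by norm_num)) (chkCirc_sound c3_8) (by norm_num)) (chkCirc_sound c3_9) (by norm_num)) (chkCirc_sound c3_10) (by norm_num)) (chkCirc_sound c3_11) (by norm_num)) (by norm_num) (by norm_num)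

theorem d3_0 : chkCirc G3 2 57 64 22 8 751 65539 = true := by decide +kernel
theorem d3_1 : chkCirc G3 2 57 64 47 21 1182 62945 = true := by decide +kernel
theorem d3_2 : chkCirc G3 2 57 64 68 60 1182 58853 = true := by decide +kernel
theorem d3_3 : chkCirc G3 2 57 64 72 60 671 49195 = true := by decide +kernel
theorem d3_4 : chkCirc G3 2 57 64 74 60 380 37178 = true := by decide +kernel
theorem d3_5 : chkCirc G3 2 57 64 76 60 216 25210 = true := by decide +kernel
theorem d3_6 : chkCirc G3 2 57 64 96 57 153 17333 = true := by decide +kernel
theorem circd_3 : ∀ s ∈ Icc (480 / 16384 : ℝ) (1), Circ G3 2 ((57 : ℕ) / (64 : ℕ)) s :=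
  good_mono (good_trans (good_trans (good_trans (good_trans (good_trans (good_trans (chkCirc_sound d3_0) (chkCirc_sound d3_1) (by norm_num)) (chkCirc_sound d3_2) (by norm_num)) (chkCirc_sound d3_3) (by norm_num)) (chkCirc_sound d3_4) (by norm_num)) (chkCirc_sound d3_5) (by norm_num)) (chkCirc_sound d3_6) (by norm_num)) (by norm_num) (by norm_num)

theorem y3 : chkY 57 64 130 Y3 = true := by decide +kernel
theorem lg3 : chkLog 127358428045 127358428028 57 64 = true := by decide +kernel
theorem tn3 : chkTan 1130876081933 6027 10000 = true := by decide +kernel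

theorem dom3 : ∃ d : Dom (fun q => vfun (lx q)),
    d.ta = (5 : ℕ) / 2 ∧ d.h = -271 / 100 ∧ d.L = 31 / 10 :=
  mk_dom (S := 6027 / 10000) (ulo := 32739 / 100000) (x0 := (1130876081933 : ℕ) / 2 ^ 40) (by norm_num) (by norm_num)
    (by decide +kernel) (by decide +kernel) y3 (chkLog_sound lg3 (by norm_num) (by norm_num)).1
    (chkLog_sound lg3 (by norm_num) (by norm_num)).2 (by norm_num) (by norm_num) (by norm_num)
    (by norm_num) (fun θ h1 h2 => by simpa using chkTan_sound tn3 (by norm_num) h1 h2)
    (by norm_num) (by norm_num) (by norm_num) (by norm_num) (by norm_num)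
    arc1_3 arc2_3 circc_3 circd_3

end Pool.Agent.Lib.MP_caab05_ag.W3
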