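import Pool.Agent.Lib.MP_caab05_ag.W3.CharP2

namespace Pool.Agent.Lib.MP_caab05_ag.W3

open PowerSeries

noncomputable section

namespace CP

variable {k : Type*} [CommRing k] {p : ℕ} (σ : Sys k)

def u1 : k := 3 * (σ.om - 1)
def u2 : k := 3 * (σ.om ^ 2 - 1)

lemma u12 : u1 σ * u2 σ = 27 := by
  rw [u1, u2]; linear_combination 9 * (σ.om - 2) * σ.hom

lemma u12' : (C (u1 σ) : k⟦X⟧) * C (u2 σ) = 27 := by rw [← map_mul, u12, map_ofNat]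

lemma L1_eq : σ.l1 ^ 3 = 1 - C (u1 σ) * σ.t := σ.cube1
lemma L2_eq : σ.l2 ^ 3 = 1 - C (u2 σ) * σ.t := σ.cube2

lemma tt_L1 : σ.tt (σ.l1 ^ 3) = -(C (u1 σ) * σ.t) := by
  rw [L1_eq, tt_sub, tt_one, tt_C_mul, σ.tt_t]; ring
lemma tt_L2 : σ.tt (σ.l2 ^ 3) = -(C (u2 σ) * σ.t) := by
  rw [L2_eq, tt_sub, tt_one, tt_C_mul, σ.tt_t]; ring

lemma inv1 (n : ℕ) : σ.l1 ^ n * σ.l1i ^ n = 1 := by rw [← mul_pow, σ.hl1, one_pow]
lemma inv2 (n : ℕ) : σ.l2 ^ n * σ.l2i ^ n = 1 := by rw [← mul_pow, σ.hl2, one_pow]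
lemma inve (n : ℕ) : σ.ell ^ n * σ.elli ^ n = 1 := by rw [← mul_pow, σ.ell_mul_elli, one_pow]

lemma rel_L1 : Rel σ.t 1 (σ.l1 ^ 3) (C (-u1 σ) * σ.l2 ^ 3) := by
  refine ((Rel.v σ.t).add ((Rel.u σ.t).C_mul (-u1 σ))).congr rfl ?_ ?_
  · rw [L1_eq, map_neg]; ring
  · rw [L2_eq, map_neg]; linear_combination (-σ.t) * u12' σ

lemma rel_L2 : Rel σ.t 1 (σ.l2 ^ 3) (C (-u2 σ) * σ.l1 ^ 3) := by
  refine ((Rel.v σ.t).add ((Rel.u σ.t).C_mul (-u2 σ))).congr rfl ?_ ?_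
  · rw [L2_eq, map_neg]; ring
  · rw [L1_eq, map_neg]; linear_combination (-σ.t) * u12' σ

lemma rel_ell : Rel σ.t 2 σ.ell (27 * σ.ell) := by
  refine ((rel_L1 σ).mul (rel_L2 σ)).congr rfl σ.ell_eq.symm ?_
  rw [σ.ell_eq, map_neg, map_neg]; linear_combination (σ.l1 ^ 3 * σ.l2 ^ 3) * u12' σ

lemma rel_t : Rel σ.t 2 σ.t (27 * σ.t) := by simpa using (Rel.u σ.t).mul (Rel.v σ.t)

lemma rel_tt : Rel σ.t 2 (27 * σ.t ^ 2) 27 := by
  simpa [map_ofNat] using ((Rel.u σ.t).pow 2).C_mul 27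

/-- the numerator of the derivative -/
def QQ (h : k⟦X⟧) (a b : ℕ) : k⟦X⟧ := σ.ell * σ.tt h
  + h * σ.t * ((a : k⟦X⟧) * C (u1 σ) * σ.l2 ^ 3 + (b : k⟦X⟧) * C (u2 σ) * σ.l1 ^ 3)

def DD (a b : ℕ) : k⟦X⟧ := σ.l1i ^ (3 * a) * σ.l2i ^ (3 * b)

lemma side {G h Z : k⟦X⟧} {a b : ℕ} (hZ : th Z = 0)
    (hG : G * ((σ.l1 ^ 3) ^ (a + 1) * (σ.l2 ^ 3) ^ (b + 1)) = h * Z) :
    G = h * Z * DD σ (a + 1) (b + 1) ∧
      σ.tt G = Z * QQ σ h (a + 1) (b + 1) * σ.elli * DD σ (a + 1) (b + 1) := by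
  have hN : (σ.l1 ^ 3) ^ (a + 1) * (σ.l2 ^ 3) ^ (b + 1) * DD σ (a + 1) (b + 1) = 1 := by
    rw [DD, ← pow_mul, ← pow_mul]
    linear_combination σ.l2 ^ (3 * (b + 1)) * σ.l2i ^ (3 * (b + 1)) * inv1 σ (3 * (a + 1))
      + inv2 σ (3 * (b + 1))
  have h1 := congrArg σ.tt hG
  rw [tt_mul, tt_mul, tt_mul, tt_pow_succ σ (σ.l1 ^ 3), tt_pow_succ σ (σ.l2 ^ 3), tt_L1, tt_L2,
    tt_zero σ hZ] at h1
  have h2 : σ.tt G * σ.ell * ((σ.l1 ^ 3) ^ (a + 1) * (σ.l2 ^ 3) ^ (b + 1))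
      = Z * QQ σ h (a + 1) (b + 1) := by
    rw [QQ, σ.ell_eq]
    generalize σ.l1 ^ 3 = L1 at *
    generalize σ.l2 ^ 3 = L2 at *
    push_cast
    linear_combination L1 * L2 * h1
      + σ.t * (((a : k⟦X⟧) + 1) * C (u1 σ) * L2 + ((b : k⟦X⟧) + 1) * C (u2 σ) * L1) * hG
  generalize (σ.l1 ^ 3) ^ (a + 1) * (σ.l2 ^ 3) ^ (b + 1) = N at *
  constructor
  · linear_combination DD σ (a + 1) (b + 1) * hG - G * hN
  · linear_combination σ.elli * DD σ (a + 1) (b + 1) * h2 - σ.tt G * σ.ell * σ.elli * hN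
      - σ.tt G * σ.ell_mul_elli

lemma rel_Q {h : k⟦X⟧} {ε : k} {M a b : ℕ} (hab : (a : k) + b + 1 = 0)
    (r1 : Rel σ.t M h (C ε * h)) (r2 : Rel σ.t M (σ.tt h) (-(C ε * (h + σ.tt h)))) :
    Rel σ.t (M + 2) (QQ σ h a b) (-(27 * C ε * QQ σ h b a)) := by
  have h1 := r2.mul (rel_ell σ)
  have h2 := (r1.mul ((Rel.u σ.t).mul (rel_L2 σ))).C_mul ((a : k) * u1 σ)
  have h3 := (r1.mul ((Rel.u σ.t).mul (rel_L1 σ))).C_mul ((b : k) * u2 σ)
  have h4 := congrArg (C (R := k)) hab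
  simp only [map_add, map_natCast, map_one, map_zero] at h4
  refine ((h1.add h2).add h3).congr rfl ?_ ?_
  · simp only [QQ, map_mul, map_natCast]; ring
  · simp only [QQ, map_mul, map_natCast, map_neg]
    have h5 := L1_eq σ
    have h6 := L2_eq σ
    rw [σ.ell_eq]
    generalize σ.l1 ^ 3 = L1 at *
    generalize σ.l2 ^ 3 = L2 at *
    linear_combination (-(C ε * h * ((a : k⟦X⟧) * L1 + (b : k⟦X⟧) * L2))) * u12' σ
      - 27 * C ε * h * L1 * L2 * h4 + 27 * C ε * h * (b : k⟦X⟧) * L2 * h5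
      + 27 * C ε * h * (a : k⟦X⟧) * L1 * h6

lemma exists_exp (hp : p.Prime) (h5 : 5 ≤ p) :
    ∃ a b : ℕ, p = a + b + 3 ∧ p ∣ 3 * a + 4 ∧ p ∣ 3 * b + 5 := by
  have h3 : ¬ 3 ∣ p := fun h => by
    have := (Nat.prime_dvd_prime_iff_eq Nat.prime_three hp).1 h
    omega
  by_cases h : p % 3 = 1
  · exact ⟨p / 3 - 1, 2 * (p / 3) - 1, by omega, ⟨1, by omega⟩, ⟨2, by omega⟩⟩
  · exact ⟨2 * (p / 3), p / 3 - 1, by omega, ⟨2, by omega⟩, ⟨1, by omega⟩⟩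

end CP

open CP

/-- structure of the rows in characteristic `p` -/
theorem charp_struct {k : Type*} [CommRing k] {p : ℕ} (hp : p.Prime) (h5 : 5 ≤ p)
    (hpk : (p : k) = 0) (σ : Sys k) (P : Par k) (hw : ∀ n, ¬ p ∣ n → P.w n = 0)
    (hc : P.c = 0) (hc' : P.c' = 0) (D : ℕ) :
    (∃ W : ℕ → k⟦X⟧, ∀ i < D, ∀ j : Fin 7, 1 ≤ j.val → j.val ≤ 4 → ∃ cf : ℕ → k,
      σ.row P i j = ∑ m ∈ Finset.range (2 * D + p + 2), C (cf m) * W m) ∧
    (∃ Θ : k⟦X⟧, X ^ (3 * p) ∣ Θ ∧ ∃ π₅ π₆ : k, σ.fn P 5 = C π₅ * Θ ∧ σ.fn P 6 = C π₆ * Θ) := by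
  obtain ⟨a, b, hab, ha, hb⟩ := exists_exp hp h5
  have h27 : IsUnit (27 : k) := by
    have : ¬ p ∣ 3 ^ 3 := fun h => by
      have := (Nat.prime_dvd_prime_iff_eq hp Nat.prime_three).1 (hp.dvd_of_dvd_pow h)
      omega
    simpa using unit_nat hp hpk this
  obtain ⟨h, y, ε, hε, hy, hby, r1, r2⟩ := hasse σ hp hpk h27 (M := a + b + 2) hab
  have hab' : ((a + 1 : ℕ) : k) + (b + 1 : ℕ) + 1 = 0 := by
    rw [hab] at hpk; push_cast at hpk ⊢; linear_combination hpk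
  have rQ := rel_Q σ hab' r1 r2
  set Z := y * σ.l1 ^ (3 * a + 4) * σ.l2 ^ (3 * b + 5) with hZ
  set Z' := y * σ.l1 ^ (3 * b + 5) * σ.l2 ^ (3 * a + 4) with hZ'
  have kZ : th Z = 0 := th_mul_zero (th_mul_zero hy (th_pow_zero (cast_zero hpk ha) _))
    (th_pow_zero (cast_zero hpk hb) _)
  have kZ' : th Z' = 0 := th_mul_zero (th_mul_zero hy (th_pow_zero (cast_zero hpk hb) _))
    (th_pow_zero (cast_zero hpk ha) _)
  obtain ⟨hEb, hEb'⟩ := side σ (G := σ.Eb) (h := h) (a := a) (b := b) kZ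
    (by rw [Sys.Eb, hby, hZ]; ring)
  obtain ⟨hE, hE'⟩ := side σ (G := σ.E) (h := h) (a := b) (b := a) kZ'
    (by rw [Sys.E, hby, hZ']; ring)
  set S := wt P.w (wt P.w (σ.g P)) with hS
  set S' := wt P.w (wt P.w (σ.g' P)) with hS'
  have kS : th S = 0 := th_wt hpk hw _
  have kS' : th S' = 0 := th_wt hpk hw _
  have hA : σ.AA P = σ.Eb * S := by rw [Sys.AA, hc]; simp [hS]
  have hA' : σ.AA' P = σ.E * S' := by rw [Sys.AA', hc']; simp [hS']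
  have tA : σ.tt (σ.AA P) = σ.tt σ.Eb * S := by rw [hA, tt_mul, tt_zero σ kS]; ring
  have tA' : σ.tt (σ.AA' P) = σ.tt σ.E * S' := by rw [hA', tt_mul, tt_zero σ kS']; ring
  clear_value Z Z'
  constructor
  · obtain ⟨γ, hγ⟩ := ((h27.pow (D + 1)).mul hε).exists_left_inv
    set A := σ.elli ^ (D + 1) * DD σ (a + 1) (b + 1) * Z * S with hAd
    set B := σ.elli ^ (D + 1) * DD σ (b + 1) (a + 1) * Z' * S' with hBd
    refine ⟨fun m => σ.t ^ m * A + C γ * (27 * σ.t) ^ (2 * D + p + 1 - m) * B, ?_⟩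
    have key : ∀ F F' R : k⟦X⟧, Rel σ.t (2 * D + p + 1) F (27 ^ (D + 1) * C ε * F') →
        R = F * A + F' * B → ∃ cf : ℕ → k, R = ∑ m ∈ Finset.range (2 * D + p + 2),
          C (cf m) * (σ.t ^ m * A + C γ * (27 * σ.t) ^ (2 * D + p + 1 - m) * B) := by
      intro F F' R hF hR
      obtain ⟨cf, h1, h2⟩ := hF.exp
      refine ⟨cf, ?_⟩
      have h3 := congrArg (C (R := k)) hγ
      simp only [map_mul, map_pow, map_ofNat, map_one] at h3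
      have h4 : F' = C γ * (27 ^ (D + 1) * C ε * F') := by linear_combination (-F') * h3
      rw [hR, h4, h2, h1, Finset.mul_sum, Finset.sum_mul, Finset.sum_mul, ← Finset.sum_add_distrib]
      exact Finset.sum_congr rfl fun m _ => by ring
    intro i hi j hj1 hj4
    obtain ⟨r, rfl⟩ : ∃ r, D = i + 1 + r := ⟨D - (i + 1), by omega⟩
    have rt := (rel_t σ).pow i
    have he0 := inve σ r
    have he1 := inve σ (r + 1)
    have he2 := inve σ (r + 2)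
    obtain ⟨j, hj⟩ := j
    simp only at hj1 hj4
    interval_cases j
    · refine key (σ.t ^ i * σ.ell ^ (r + 2) * h) (σ.t ^ i * σ.ell ^ (r + 2) * h) _
        (((rt.mul ((rel_ell σ).pow (r + 2))).mul r1).congr (by omega) rfl (by ring)) ?_
      change σ.x ^ i * (σ.AA P + σ.AA' P) = _
      rw [hA, hA', hEb, hE, hAd, hBd, Sys.x]
      linear_combination (-(σ.t ^ i * σ.elli ^ i * h * (Z * DD σ (a + 1) (b + 1) * S
        + Z' * DD σ (b + 1) (a + 1) * S'))) * he2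
    · refine key (27 * σ.t ^ 2 * σ.t ^ i * σ.ell ^ (r + 1) * h) (σ.t ^ i * σ.ell ^ (r + 1) * h) _
        (((((rel_tt σ).mul rt).mul ((rel_ell σ).pow (r + 1))).mul r1).congr (by omega) rfl
          (by ring)) ?_
      change σ.x ^ i * (27 * σ.t * σ.x * σ.AA P + σ.elli * σ.AA' P) = _
      rw [hA, hA', hEb, hE, hAd, hBd, Sys.x]
      linear_combination (-(σ.t ^ i * σ.elli ^ (i + 1) * h
        * (27 * σ.t ^ 2 * Z * DD σ (a + 1) (b + 1) * S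
        + Z' * DD σ (b + 1) (a + 1) * S'))) * he1
    · refine key (σ.t ^ i * σ.ell ^ (r + 1) * QQ σ h (a + 1) (b + 1))
        (-(σ.t ^ i * σ.ell ^ (r + 1) * QQ σ h (b + 1) (a + 1))) _
        (((rt.mul ((rel_ell σ).pow (r + 1))).mul rQ).congr (by omega) rfl (by ring)) ?_
      change σ.x ^ i * (σ.tt (σ.AA P) - σ.tt (σ.AA' P)) = _
      rw [tA, tA', hEb', hE', hAd, hBd, Sys.x]
      linear_combination (-(σ.t ^ i * σ.elli ^ (i + 1)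
        * (QQ σ h (a + 1) (b + 1) * Z * DD σ (a + 1) (b + 1) * S
        - QQ σ h (b + 1) (a + 1) * Z' * DD σ (b + 1) (a + 1) * S'))) * he1
    · refine key (27 * σ.t ^ 2 * σ.t ^ i * σ.ell ^ r * QQ σ h (a + 1) (b + 1))
        (-(σ.t ^ i * σ.ell ^ r * QQ σ h (b + 1) (a + 1))) _
        (((((rel_tt σ).mul rt).mul ((rel_ell σ).pow r)).mul rQ).congr (by omega) rfl
          (by ring)) ?_
      change σ.x ^ i * (27 * σ.t * σ.x * σ.tt (σ.AA P) - σ.elli * σ.tt (σ.AA' P)) = _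
      rw [tA, tA', hEb', hE', hAd, hBd, Sys.x]
      linear_combination (-(σ.t ^ i * σ.elli ^ (i + 2)
        * (27 * σ.t ^ 2 * QQ σ h (a + 1) (b + 1) * Z * DD σ (a + 1) (b + 1) * S
        - QQ σ h (b + 1) (a + 1) * Z' * DD σ (b + 1) (a + 1) * S'))) * he0
  · have hu1 : IsUnit (-u1 σ) := (isUnit_of_mul_isUnit_left (u12 σ ▸ h27)).neg
    have hu2 : IsUnit (-u2 σ) := (isUnit_of_mul_isUnit_right (u12 σ ▸ h27)).neg
    obtain ⟨δ, hδ⟩ := ((hε.mul (hu1.pow (b + 1))).mul (hu2.pow (a + 1))).exists_left_inv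
    have hδ' := congrArg (C (R := k)) hδ
    simp only [map_mul, map_pow, map_one] at hδ'
    have r0 := (r1.mul ((rel_L1 σ).pow (b + 1))).mul ((rel_L2 σ).pow a)
    obtain ⟨c, c1, c2⟩ := cartier σ hp hpk (M := a + b + 2) hab
      ((r0.mul (rel_L2 σ)).congr (by omega) rfl rfl)
    obtain ⟨e, e1, e2⟩ := cartier σ hp hpk (M := a + b + 2) hab
      ((r0.mul (Rel.v σ.t)).congr (by omega) rfl rfl)
    have kE : th (σ.elli ^ p) = 0 := th_pow_zero hpk _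
    set Y := σ.t ^ p * U p σ.kap with hY
    have hYd : X ^ p ∣ Y := (pow_dvd_pow_of_dvd (X_dvd_t σ) p).mul_right _
    have hp1 : σ.elli ^ p = σ.l1i ^ (3 * (a + 1)) * σ.l1i ^ (3 * (b + 1))
        * σ.l2i ^ (3 * (a + 1)) * σ.l2i ^ (3 * (b + 1)) * σ.elli := by
      conv_lhs => rw [hab]
      rw [Sys.elli]; ring
    have i1 := inv1 σ (3 * (b + 1))
    have i2 := inv2 σ (3 * (a + 1))
    have i3 := inv2 σ (3 * a)
    have i4 := inv1 σ (3 * (a + 1))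
    have i5 := inv2 σ (3 * (b + 1))
    have i6 := inv1 σ (3 * a)
    have i7 := inv1 σ 3
    have f1 : σ.hc = h * (σ.l1 ^ 3) ^ (b + 1) * (σ.l2 ^ 3) ^ a * σ.l2 ^ 3 * (σ.t * σ.kap)
        * (Z * σ.elli ^ p) := by
      rw [Sys.hc, hEb, hp1, Sys.x, DD]
      linear_combination (-(h * Z * σ.t * σ.kap * σ.elli * σ.l1i ^ (3 * (a + 1))
        * σ.l2i ^ (3 * (b + 1)))) * (σ.l2 ^ (3 * (a + 1)) * σ.l2i ^ (3 * (a + 1)) * i1 + i2)
    have f2 : σ.he = h * (σ.l1 ^ 3) ^ (b + 1) * (σ.l2 ^ 3) ^ a * 1 * (σ.t * σ.kap)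
        * (Z * σ.elli ^ p) := by
      rw [Sys.he, Sys.hc, hEb, hp1, Sys.x, DD]
      linear_combination (-(h * Z * σ.t * σ.kap * σ.elli * σ.l1i ^ (3 * (a + 1))
        * σ.l2i ^ (3 * (b + 1)) * σ.l2i ^ 3)) * (σ.l2 ^ (3 * a) * σ.l2i ^ (3 * a) * i1 + i3)
    have f3 : σ.hc' = C δ * (C ε * h * (C (-u1 σ) * σ.l2 ^ 3) ^ (b + 1)
        * (C (-u2 σ) * σ.l1 ^ 3) ^ a * (C (-u2 σ) * σ.l1 ^ 3) * (σ.t * σ.kap))
        * (Z' * σ.elli ^ p) := by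
      rw [Sys.hc', hE, hp1, Sys.x, DD]
      linear_combination (-(h * Z' * σ.t * σ.kap * σ.elli * σ.l1i ^ (3 * (b + 1))
        * σ.l2i ^ (3 * (a + 1)))) * (σ.l2 ^ (3 * (b + 1)) * σ.l2i ^ (3 * (b + 1))
          * (σ.l1 ^ (3 * (a + 1)) * σ.l1i ^ (3 * (a + 1)) * hδ' + i4) + i5)
    have f4 : σ.he' = C δ * (C ε * h * (C (-u1 σ) * σ.l2 ^ 3) ^ (b + 1)
        * (C (-u2 σ) * σ.l1 ^ 3) ^ a * (27 * σ.t) * (σ.t * σ.kap))
        * (Z' * σ.elli ^ p) := by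
      have h1 : 1 - σ.l1i ^ 3 = C (-u1 σ) * σ.t * σ.l1i ^ 3 := by
        rw [map_neg]; linear_combination σ.l1i ^ 3 * L1_eq σ - i7
      have h2 : (27 : k⟦X⟧) = C (-u1 σ) * C (-u2 σ) := by
        rw [map_neg, map_neg]; linear_combination (-1) * u12' σ
      rw [Sys.he', Sys.hc', hE, hp1, Sys.x, DD, h1, h2]
      linear_combination (-(h * Z' * σ.t * σ.kap * σ.elli * σ.l1i ^ (3 * (b + 1))
        * σ.l2i ^ (3 * (a + 1)) * C (-u1 σ) * σ.t * σ.l1i ^ 3)) * (σ.l2 ^ (3 * (b + 1))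
          * σ.l2i ^ (3 * (b + 1)) * (σ.l1 ^ (3 * a) * σ.l1i ^ (3 * a) * hδ' + i6) + i5)
    set T := Z * σ.elli ^ p * Y with hT
    set T' := Z' * σ.elli ^ p * Y with hT'
    set f := δ * 27 ^ (a + b + 2) with hf
    have g1 : U p σ.hc = C c * T := by
      rw [f1, U_mul hp hpk _ (th_mul_zero kZ kE), c1, hT]; ring
    have g2 : U p σ.he = C e * T := by
      rw [f2, U_mul hp hpk _ (th_mul_zero kZ kE), e1, hT]; ring
    have g3 : U p σ.hc' = C (f * c) * T' := by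
      rw [f3, U_mul hp hpk _ (th_mul_zero kZ' kE), U_C_mul, c2, hT', hf]
      simp only [map_mul]; ring
    have g4 : U p σ.he' = C (f * e) * T' := by
      rw [f4, U_mul hp hpk _ (th_mul_zero kZ' kE), U_C_mul, e2, hT', hf]
      simp only [map_mul]; ring
    have hTd : X ^ p ∣ T := hYd.mul_left _
    have hTd' : X ^ p ∣ T' := hYd.mul_left _
    clear_value T T' f
    have s1 : S = C (f * (P.a * c + P.a' * e)) * wt P.w (wt P.w T') := by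
      rw [hS, wt_U hw (σ.g P), Sys.g, U_add, U_C_mul, U_C_mul, g3, g4, ← wt_C_mul, ← wt_C_mul]
      congr 2
      simp only [map_mul, map_add]; ring
    have s2 : S' = C (P.a * c + P.a' * e) * wt P.w (wt P.w T) := by
      rw [hS', wt_U hw (σ.g' P), Sys.g', U_add, U_C_mul, U_C_mul, g1, g2, ← wt_C_mul, ← wt_C_mul]
      congr 2
      simp only [map_mul, map_add]; ring
    refine ⟨_, theta_dvd hw hTd hTd', f * c * (P.a * c + P.a' * e), f * e * (P.a * c + P.a' * e),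
      ?_, ?_⟩
    · change wt P.w (σ.kap * (σ.x * σ.AA P - σ.x * σ.AA' P)) = _
      have h1 : σ.kap * (σ.x * σ.AA P - σ.x * σ.AA' P) = σ.hc * S - σ.hc' * S' := by
        rw [hA, hA', Sys.hc, Sys.hc']; ring
      rw [h1, wt_U hw, U_sub, U_mul hp hpk _ kS, U_mul hp hpk _ kS', g1, g3, s1, s2,
        ← wt_C_mul P.w (f * c * _)]
      congr 1
      simp only [map_mul]; ring
    · change wt P.w (σ.kap * (σ.x * σ.l2i ^ 3 * σ.AA P
        - σ.x * (1 - σ.l1i ^ 3) * σ.AA' P)) = _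
      have h1 : σ.kap * (σ.x * σ.l2i ^ 3 * σ.AA P - σ.x * (1 - σ.l1i ^ 3) * σ.AA' P)
          = σ.he * S - σ.he' * S' := by
        rw [hA, hA', Sys.he, Sys.he', Sys.hc, Sys.hc']; ring
      rw [h1, wt_U hw, U_sub, U_mul hp hpk _ kS, U_mul hp hpk _ kS', g2, g4, s1, s2,
        ← wt_C_mul P.w (f * e * _)]
      congr 1
      simp only [map_mul]; ring

end

end Pool.Agent.Lib.MP_caab05_ag.W3
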