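import Pool.Agent.Lib.MP_caab05_ag.W3.Defs

/-!
Characteristic `p` tools: the Cartier projection, the reflection pairs and the Hasse polynomial.
-/

namespace Pool.Agent.Lib.MP_caab05_ag.W3

open PowerSeries

noncomputable section

namespace CP

variable {k : Type*} [CommRing k] {p : ℕ}

lemma unit_nat (hp : p.Prime) (hpk : (p : k) = 0) {n : ℕ} (hn : ¬ p ∣ n) : IsUnit (n : k) := by
  have h : IsCoprime (n : k) (p : k) :=
    Nat.Coprime.cast ((Nat.Prime.coprime_iff_not_dvd hp).2 hn).symm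
  rwa [hpk, isCoprime_zero_right] at h

lemma cast_zero (hpk : (p : k) = 0) {n : ℕ} (hn : p ∣ n) : (n : k) = 0 := by
  obtain ⟨m, rfl⟩ := hn
  simp [hpk]

lemma coeff_of_th (hp : p.Prime) (hpk : (p : k) = 0) {F : k⟦X⟧} (h : th F = 0) {n : ℕ}
    (hn : ¬ p ∣ n) : coeff n F = 0 := by
  have h1 := congrArg (coeff n) h
  rw [coeff_th, map_zero] at h1
  exact (unit_nat hp hpk hn).mul_right_eq_zero.1 h1

lemma th_th (hp : p.Prime) (hpk : (p : k) = 0) {F : k⟦X⟧} (h : th (th F) = 0) : th F = 0 := by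
  ext n
  by_cases hn : p ∣ n
  · simp [cast_zero hpk hn]
  · simpa using coeff_of_th hp hpk h hn

lemma th_mul_zero {F G : k⟦X⟧} (hF : th F = 0) (hG : th G = 0) : th (F * G) = 0 := by
  simp [th_mul, hF, hG]

lemma th_pow_zero {n : ℕ} (hn : (n : k) = 0) (F : k⟦X⟧) : th (F ^ n) = 0 := by
  have : (n : k⟦X⟧) = 0 := by rw [← map_natCast (C (R := k)), hn, map_zero]
  simp [th_pow, this]

/-- keep the coefficients with index divisible by `p` -/
def U (p : ℕ) (F : k⟦X⟧) : k⟦X⟧ := wt (fun n => if p ∣ n then 1 else 0) F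

lemma U_add (F G : k⟦X⟧) : U p (F + G) = U p F + U p G := wt_add _ _ _
lemma U_sub (F G : k⟦X⟧) : U p (F - G) = U p F - U p G := wt_sub _ _ _
lemma U_C_mul (a : k) (F : k⟦X⟧) : U p (C a * F) = C a * U p F := wt_C_mul _ _ _
lemma U_zero : U p (0 : k⟦X⟧) = 0 := by ext n; simp [U]

lemma U_mul (hp : p.Prime) (hpk : (p : k) = 0) (F : k⟦X⟧) {S : k⟦X⟧} (hS : th S = 0) :
    U p (F * S) = U p F * S := by
  ext n
  simp only [U, coeff_wt, coeff_mul, Finset.mul_sum]
  refine Finset.sum_congr rfl fun ij hij => ?_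
  have h := Finset.HasAntidiagonal.mem_antidiagonal.1 hij
  by_cases hj : p ∣ ij.2
  · have : p ∣ n ↔ p ∣ ij.1 := by rw [← h]; exact (Nat.dvd_add_iff_left hj).symm
    simp only [this]; ring
  · simp [coeff_of_th hp hpk hS hj]

lemma U_th (hpk : (p : k) = 0) (F : k⟦X⟧) : U p (th F) = 0 := by
  ext n
  by_cases hn : p ∣ n
  · simp [U, cast_zero hpk hn]
  · simp [U, hn]

lemma wt_U {w : ℕ → k} (hw : ∀ n, ¬ p ∣ n → w n = 0) (F : k⟦X⟧) : wt w F = wt w (U p F) := by
  ext n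
  by_cases hn : p ∣ n
  · simp [U, hn]
  · simp [U, hn, hw n hn]

lemma th_wt (hpk : (p : k) = 0) {w : ℕ → k} (hw : ∀ n, ¬ p ∣ n → w n = 0) (F : k⟦X⟧) :
    th (wt w F) = 0 := by
  ext n
  by_cases hn : p ∣ n
  · simp [cast_zero hpk hn]
  · simp [hw n hn]

lemma dvd_wt (w : ℕ → k) {F : k⟦X⟧} {n : ℕ} (h : X ^ n ∣ F) : X ^ n ∣ wt w F := by
  rw [X_pow_dvd_iff] at h ⊢
  intro m hm
  simp [h m hm]

lemma coeff_two {F G : k⟦X⟧} {n : ℕ} (hF : X ^ n ∣ F) (hG : X ^ n ∣ G) :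
    coeff (n + n) (F * G) = coeff n F * coeff n G := by
  obtain ⟨F, rfl⟩ := hF
  obtain ⟨G, rfl⟩ := hG
  have h1 : X ^ n * F * (X ^ n * G) = X ^ (n + n) * (F * G) := by ring
  have h2 := coeff_X_pow_mul (F * G) (n + n) 0
  have h3 := coeff_X_pow_mul F n 0
  have h4 := coeff_X_pow_mul G n 0
  rw [zero_add] at h2 h3 h4
  rw [h1, h2, h3, h4]
  simp

lemma theta_dvd {w : ℕ → k} (hw : ∀ n, ¬ p ∣ n → w n = 0) {A B : k⟦X⟧} (hA : X ^ p ∣ A)
    (hB : X ^ p ∣ B) :
    X ^ (3 * p) ∣ wt w (A * wt w (wt w B) - B * wt w (wt w A)) := by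
  have hA' := dvd_wt w (dvd_wt w hA)
  have hB' := dvd_wt w (dvd_wt w hB)
  rw [X_pow_dvd_iff]
  intro m hm
  rw [coeff_wt]
  by_cases hd : p ∣ m
  · rcases lt_or_ge m (p + p) with h | h
    · have h1 : X ^ (p + p) ∣ A * wt w (wt w B) - B * wt w (wt w A) := by
        rw [pow_add]; exact dvd_sub (mul_dvd_mul hA hB') (mul_dvd_mul hB hA')
      rw [X_pow_dvd_iff.1 h1 m h, mul_zero]
    · obtain ⟨c, rfl⟩ := hd
      have hc : c = 2 := by
        have h1 : c < 3 := by
          by_contra h2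
          have : p * 3 ≤ p * c := Nat.mul_le_mul_left p (by omega)
          omega
        have h2 : 2 ≤ c := by
          by_contra h2
          have : p * c ≤ p * 1 := Nat.mul_le_mul_left p (by omega)
          omega
        omega
      subst hc
      rw [mul_two, map_sub, coeff_two hA hB', coeff_two hB hA', coeff_wt, coeff_wt, coeff_wt,
        coeff_wt]
      ring
  · rw [hw m hd, zero_mul]

/-! ### reflection pairs -/

/-- pairs `(P(t), (27 t)^d P(1/(27 t)))` with `deg P ≤ d` -/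
def RelM (t : k⟦X⟧) (d : ℕ) : Submodule k (k⟦X⟧ × k⟦X⟧) :=
  Submodule.span k ((fun m => (t ^ m, (27 * t) ^ (d - m))) '' (Finset.range (d + 1) : Set ℕ))

def Rel (t : k⟦X⟧) (d : ℕ) (F F' : k⟦X⟧) : Prop := (F, F') ∈ RelM t d

variable {t F F' G G' : k⟦X⟧} {d e : ℕ}

lemma Rel.gen (t : k⟦X⟧) {d m : ℕ} (h : m ≤ d) : Rel t d (t ^ m) ((27 * t) ^ (d - m)) :=
  Submodule.subset_span ⟨m, by simpa using Nat.lt_succ_of_le h, rfl⟩

lemma Rel.congr (h : Rel t d F F') (hd : d = e) (h1 : F = G) (h2 : F' = G') : Rel t e G G' := by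
  subst hd h1 h2; exact h

lemma Rel.add (h : Rel t d F F') (h' : Rel t d G G') : Rel t d (F + G) (F' + G') :=
  (RelM t d).add_mem h h'

lemma Rel.C_mul (a : k) (h : Rel t d F F') : Rel t d (C a * F) (C a * F') := by
  have := (RelM t d).smul_mem a h
  simpa [Rel, smul_eq_C_mul] using this

lemma Rel.sum {ι : Type*} (s : Finset ι) {F F' : ι → k⟦X⟧} (h : ∀ i ∈ s, Rel t d (F i) (F' i)) :
    Rel t d (∑ i ∈ s, F i) (∑ i ∈ s, F' i) := by
  have := (RelM t d).sum_mem h
  rwa [← prod_mk_sum] at this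

lemma Rel.mul (h : Rel t d F F') (h' : Rel t e G G') : Rel t (d + e) (F * G) (F' * G') := by
  have h1 := Submodule.mul_mem_mul h h'
  rw [RelM, RelM, Submodule.span_mul_span] at h1
  refine Submodule.span_mono ?_ h1
  rintro _ ⟨_, ⟨m, hm, rfl⟩, _, ⟨n, hn, rfl⟩, rfl⟩
  simp only [Finset.coe_range, Set.mem_Iio] at hm hn
  refine ⟨m + n, by simp; omega, ?_⟩
  have : d + e - (m + n) = (d - m) + (e - n) := by omega
  simp only [Prod.mk_mul_mk, this, pow_add]

lemma Rel.one (t : k⟦X⟧) : Rel t 0 1 1 := by simpa using Rel.gen t (le_refl 0)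

lemma Rel.pow (h : Rel t d F F') (n : ℕ) : Rel t (n * d) (F ^ n) (F' ^ n) := by
  induction n with
  | zero => simpa using Rel.one t
  | succ n ih => exact (ih.mul h).congr (by ring) (by ring) (by ring)

lemma Rel.u (t : k⟦X⟧) : Rel t 1 t 1 := by simpa using Rel.gen t (le_refl 1)
lemma Rel.v (t : k⟦X⟧) : Rel t 1 1 (27 * t) := by simpa using Rel.gen t (zero_le_one)

lemma Rel.exp (h : Rel t d F F') : ∃ cf : ℕ → k, F = ∑ m ∈ Finset.range (d + 1), C (cf m) * t ^ m ∧
    F' = ∑ m ∈ Finset.range (d + 1), C (cf m) * (27 * t) ^ (d - m) := by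
  obtain ⟨c, hc⟩ := (Submodule.mem_span_image_finset_iff_exists_fun' k).1 h
  refine ⟨c, ?_, ?_⟩
  · have := congrArg Prod.fst hc
    simpa [Prod.fst_sum, smul_eq_C_mul] using this.symm
  · have := congrArg Prod.snd hc
    simpa [Prod.snd_sum, smul_eq_C_mul] using this.symm

/-! ### the Hasse recurrence -/

/-- the recurrence below `p` -/
def Rec (p : ℕ) (c : ℕ → k) : Prop :=
  c 1 + 3 * c 0 = 0 ∧ ∀ n, n + 2 < p → ((n : k) + 2) ^ 2 * c (n + 2)
    + (9 * ((n : k) + 1) ^ 2 + 9 * ((n : k) + 1) + 3) * c (n + 1) + 27 * ((n : k) + 1) ^ 2 * c n = 0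

/-- the coefficients of the Hasse polynomial -/
def H (k : Type*) [CommRing k] : ℕ → k
  | 0 => 1
  | 1 => -3
  | n + 2 => -(Ring.inverse ((n : k) + 2)) ^ 2 *
      ((9 * ((n : k) + 1) ^ 2 + 9 * ((n : k) + 1) + 3) * H k (n + 1) + 27 * ((n : k) + 1) ^ 2 * H k n)

lemma unit_two (hp : p.Prime) (hpk : (p : k) = 0) {n : ℕ} (hn : n + 2 < p) :
    IsUnit ((n : k) + 2) := by
  have := unit_nat hp hpk (n := n + 2) fun h => absurd (Nat.le_of_dvd (by omega) h) (by omega)
  simpa using this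

lemma rec_H (hp : p.Prime) (hpk : (p : k) = 0) : Rec p (H k) := by
  refine ⟨by simp [H], fun n hn => ?_⟩
  have h := Ring.mul_inverse_cancel _ (unit_two hp hpk hn)
  rw [H]
  linear_combination (-(((n : k) + 2) * Ring.inverse ((n : k) + 2) + 1) *
    ((9 * ((n : k) + 1) ^ 2 + 9 * ((n : k) + 1) + 3) * H k (n + 1)
      + 27 * ((n : k) + 1) ^ 2 * H k n)) * h

lemma Rec.uniq (hp : p.Prime) (hpk : (p : k) = 0) {c : ℕ → k} (hc : Rec p c) :
    ∀ n, n < p → c n = c 0 * H k n := by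
  have hH := rec_H hp hpk
  intro n
  induction n using Nat.twoStepInduction with
  | zero => intro _; simp [H]
  | one => intro _; simp only [H]; linear_combination hc.1
  | more n ih0 ih1 =>
    intro hn
    have hu := (unit_two hp hpk hn).pow 2
    refine hu.mul_left_cancel ?_
    have h1 := hc.2 n hn
    have h2 := hH.2 n hn
    rw [ih0 (by omega), ih1 (by omega)] at h1
    linear_combination h1 - c 0 * h2

/-- the reversed coefficients satisfy the recurrence -/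
lemma rec_rev (hp : p.Prime) (hpk : (p : k) = 0) {N : ℕ} (hN : p = N + 2)
    (he : (9 * ((N : k) + 1) ^ 2 + 9 * ((N : k) + 1) + 3) * H k (N + 1)
      + 27 * ((N : k) + 1) ^ 2 * H k N = 0) :
    Rec p (fun n => 27 ^ n * H k (N + 1 - n)) := by
  have hN' : (N : k) = -2 := by
    have : ((N + 2 : ℕ) : k) = 0 := hN ▸ hpk
    push_cast at this; linear_combination this
  refine ⟨?_, fun n hn => ?_⟩
  · simp only [Nat.add_sub_cancel, Nat.sub_zero]
    rw [hN'] at he
    linear_combination he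
  · obtain ⟨m, hm⟩ : ∃ m, N = n + 1 + m := ⟨N - (n + 1), by omega⟩
    have h1 : N + 1 - (n + 2) = m := by omega
    have h2 : N + 1 - (n + 1) = m + 1 := by omega
    have h3 : N + 1 - n = m + 2 := by omega
    simp only [h1, h2, h3]
    have h4 := (rec_H hp hpk).2 m (by omega)
    have h5 : (n : k) = -3 - m := by
      rw [hm] at hN'; push_cast at hN'; linear_combination hN'
    rw [h5]
    linear_combination 27 ^ (n + 1) * h4

end CP

end

end Pool.Agent.Lib.MP_caab05_ag.W3
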