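import Pool.Agent.Lib.MP_caab05_ag.W3.CharP1

/-!
The Hasse polynomial of the system and the Cartier operator.
-/

namespace Pool.Agent.Lib.MP_caab05_ag.W3

open PowerSeries

noncomputable section

namespace CP

variable {k : Type*} [CommRing k] {p : ℕ} (σ : Sys k)

lemma tt_add (F G : k⟦X⟧) : σ.tt (F + G) = σ.tt F + σ.tt G := by simp [Sys.tt, th_add, mul_add]
lemma tt_sub (F G : k⟦X⟧) : σ.tt (F - G) = σ.tt F - σ.tt G := by simp [Sys.tt, th_sub, mul_sub]
lemma tt_mul (F G : k⟦X⟧) : σ.tt (F * G) = F * σ.tt G + G * σ.tt F := by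
  simp only [Sys.tt, th_mul]; ring
lemma tt_C (a : k) : σ.tt (C a) = 0 := by simp [Sys.tt]
lemma tt_one : σ.tt 1 = 0 := by simp [Sys.tt]
lemma tt_C_mul (a : k) (F : k⟦X⟧) : σ.tt (C a * F) = C a * σ.tt F := by
  simp [tt_mul, tt_C]
lemma tt_pow_succ (F : k⟦X⟧) (n : ℕ) :
    σ.tt (F ^ (n + 1)) = ((n : k⟦X⟧) + 1) * F ^ n * σ.tt F := by
  simp only [Sys.tt, th_pow_succ]; ring
lemma tt_t_pow (n : ℕ) : σ.tt (σ.t ^ n) = (n : k⟦X⟧) * σ.t ^ n := by
  cases n with
  | zero => simp [tt_one]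
  | succ n => rw [tt_pow_succ, σ.tt_t]; push_cast; ring
lemma tt_sum {ι : Type*} (s : Finset ι) (F : ι → k⟦X⟧) :
    σ.tt (∑ i ∈ s, F i) = ∑ i ∈ s, σ.tt (F i) := by
  simp [Sys.tt, th_sum, Finset.mul_sum]
lemma tt_zero {F : k⟦X⟧} (h : th F = 0) : σ.tt F = 0 := by simp [Sys.tt, h]
lemma th_tt (F : k⟦X⟧) : th F = σ.kap * σ.tt F := by
  rw [Sys.tt]; linear_combination (-th F) * σ.kap_mul_kapi

lemma tt_ell : σ.tt σ.ell = 9 * σ.t + 54 * σ.t ^ 2 := by
  have h9 : σ.tt 9 = 0 := by simp [Sys.tt]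
  have h27 : σ.tt 27 = 0 := by simp [Sys.tt]
  rw [Sys.ell, tt_add, tt_add, tt_one, tt_mul, tt_mul, tt_t_pow, h9, h27, σ.tt_t]
  push_cast; ring

/-- a polynomial in `t` -/
def pol (c : ℕ → k) (N : ℕ) : k⟦X⟧ := ∑ n ∈ Finset.range N, C (c n) * σ.t ^ n

lemma tt_pol (c : ℕ → k) (N : ℕ) :
    σ.tt (pol σ c N) = ∑ n ∈ Finset.range N, C ((n : k) * c n) * σ.t ^ n := by
  rw [pol, tt_sum]
  refine Finset.sum_congr rfl fun n _ => ?_
  rw [tt_C_mul, tt_t_pow, map_mul, map_natCast]; ring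

/-- the differential operator -/
def Lop (y : k⟦X⟧) : k⟦X⟧ := σ.tt (σ.ell * σ.tt y) + (3 * σ.t + 27 * σ.t ^ 2) * y

lemma Lop_add (F G : k⟦X⟧) : Lop σ (F + G) = Lop σ F + Lop σ G := by
  simp only [Lop, tt_add, mul_add]; ring

lemma Lop_mono (a : k) (n : ℕ) : Lop σ (C a * σ.t ^ n) = C a * ((n : k⟦X⟧) ^ 2 * σ.t ^ n
    + (9 * (n : k⟦X⟧) ^ 2 + 9 * n + 3) * σ.t ^ (n + 1)
    + 27 * ((n : k⟦X⟧) + 1) ^ 2 * σ.t ^ (n + 2)) := by
  have hn : σ.tt (n : k⟦X⟧) = 0 := by simp [Sys.tt]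
  simp only [Lop, tt_mul, tt_C, tt_t_pow, tt_ell, hn, mul_zero, add_zero]
  rw [Sys.ell]; ring

lemma Lop_pol {c : ℕ → k} (hc : Rec p c) (N : ℕ) (hN : N + 2 ≤ p) :
    Lop σ (pol σ c (N + 2)) = C ((9 * ((N : k) + 1) ^ 2 + 9 * ((N : k) + 1) + 3) * c (N + 1)
      + 27 * ((N : k) + 1) ^ 2 * c N) * σ.t ^ (N + 2)
      + C (27 * ((N : k) + 2) ^ 2 * c (N + 1)) * σ.t ^ (N + 3) := by
  induction N with
  | zero =>
    have h := congrArg (C (R := k)) hc.1
    simp only [map_add, map_mul, map_zero, map_ofNat] at h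
    simp only [pol, Finset.sum_range_succ, Finset.sum_range_zero, zero_add, Lop_add, Lop_mono,
      map_add, map_mul, map_pow, map_ofNat, map_one, map_natCast]
    push_cast
    linear_combination σ.t * h
  | succ N ih =>
    have h := congrArg (C (R := k)) (hc.2 N (by omega))
    have ih' := ih (by omega)
    rw [pol] at ih' ⊢
    rw [Finset.sum_range_succ, Lop_add, ih', Lop_mono]
    simp only [map_add, map_mul, map_pow, map_ofNat, map_one, map_natCast, map_zero] at h ⊢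
    push_cast
    linear_combination σ.t ^ (N + 2) * h

lemma ell_tt_b : σ.ell * σ.tt σ.b = -th σ.bi := by
  rw [th_inv σ.hb, Sys.tt, Sys.kapi]
  linear_combination σ.bi ^ 2 * th σ.b * σ.ell_mul_elli

lemma Lop_b : Lop σ σ.b = 0 := by
  rw [Lop, ell_tt_b, Sys.tt, th_neg, σ.thb, Sys.kapi]
  have h1 := σ.ell_mul_elli
  rw [Sys.ell] at h1
  linear_combination (-(3 * σ.t + 27 * σ.t ^ 2) * σ.bi ^ 2 * σ.b ^ 3) * h1
    - (3 * σ.t + 27 * σ.t ^ 2) * σ.b * (σ.b * σ.bi + 1) * σ.hb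

lemma X_dvd_t : X ∣ σ.t := X_dvd_iff.2 (by simpa using σ.t0)

lemma coeff_lead (n : ℕ) : coeff n (σ.kap * σ.b * σ.t ^ n) = 1 := by
  obtain ⟨s, hs⟩ := X_dvd_t σ
  have h1 : constantCoeff s = 1 := by
    have := σ.t1
    rw [hs, coeff_succ_X_mul] at this
    simpa using this
  have h2 : constantCoeff σ.t = 0 := by simpa using σ.t0
  have h3 : constantCoeff σ.b = 1 := by simpa using σ.b0
  have h4 : σ.kap * σ.b * σ.t ^ n = X ^ n * (σ.kap * σ.b * s ^ n) := by
    conv_lhs => rw [hs]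
    ring
  have h5 := coeff_X_pow_mul (σ.kap * σ.b * s ^ n) n 0
  rw [zero_add] at h5
  rw [h4, h5]
  simp [Sys.kap, Sys.ell, h1, h2, h3, map_ofNat]

/-- the Hasse polynomial -/
lemma hasse (hp : p.Prime) (hpk : (p : k) = 0) (h27 : IsUnit (27 : k)) {M : ℕ} (hM : p = M + 1) :
    ∃ (h y : k⟦X⟧) (ε : k), IsUnit ε ∧ th y = 0 ∧ σ.b = h * y ∧ Rel σ.t M h (C ε * h) ∧
      Rel σ.t M (σ.tt h) (-(C ε * (h + σ.tt h))) := by
  obtain ⟨N, rfl⟩ : ∃ N, M = N + 1 := ⟨M - 1, by have := hp.two_le; omega⟩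
  have hN : p = N + 2 := hM
  have hN' : (N : k) + 2 = 0 := by
    have : ((N + 2 : ℕ) : k) = 0 := hN ▸ hpk
    push_cast at this; exact this
  set h := pol σ (H k) (N + 2) with hh
  have hL := Lop_pol σ (rec_H hp hpk) N hN.ge
  rw [hN', ← hh] at hL
  set e := (9 * ((N : k) + 1) ^ 2 + 9 * ((N : k) + 1) + 3) * H k (N + 1)
      + 27 * ((N : k) + 1) ^ 2 * H k N with he
  have hL' : Lop σ h = C e * σ.t ^ p := by rw [hL, hN]; simp
  set W := σ.ell * (h * σ.tt σ.b - σ.b * σ.tt h) with hW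
  have hW1 : σ.tt W = -(σ.b * Lop σ h) := by
    have h1 : W = h * (σ.ell * σ.tt σ.b) - σ.b * (σ.ell * σ.tt h) := by rw [hW]; ring
    have h2 := Lop_b σ
    rw [Lop] at h2
    rw [h1, tt_sub, tt_mul σ h, tt_mul σ σ.b, Lop]
    linear_combination h * h2
  have hW2 : th W = -(C e * (σ.kap * σ.b * σ.t ^ p)) := by rw [th_tt σ, hW1, hL']; ring
  have he0 : e = 0 := by
    have := congrArg (coeff p) hW2
    rw [coeff_th, hpk, zero_mul, map_neg, coeff_C_mul, coeff_lead] at this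
    simpa using this
  have hW3 : th (h * σ.bi) = -W := by
    have h1 := ell_tt_b σ
    rw [th_mul, th_tt σ h, hW, Sys.kap]
    linear_combination h * h1 + σ.b * σ.ell * σ.tt h * σ.hb
  have hK : th (h * σ.bi) = 0 := th_th hp hpk (by rw [hW3, th_neg, hW2, he0]; simp)
  have h0 : constantCoeff h = 1 := by
    have h2 : constantCoeff σ.t = 0 := by simpa using σ.t0
    rw [hh, pol, Finset.sum_range_succ']
    simp [h2, H]
  obtain ⟨hi, hhi⟩ := (isUnit_iff_constantCoeff.2 (h0 ▸ isUnit_one) : IsUnit h).exists_right_inv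
  have hy : h * σ.bi * (σ.b * hi) = 1 := by linear_combination h * hi * σ.hb + hhi
  have hr := (rec_rev hp hpk hN he0).uniq hp hpk
  simp only [pow_zero, one_mul, Nat.sub_zero] at hr
  have hrev : ∀ c : ℕ → k, ∑ n ∈ Finset.range (N + 2), C (c n * H k n) * (27 * σ.t) ^ (N + 1 - n)
      = C (H k (N + 1)) * ∑ n ∈ Finset.range (N + 2), C (c (N + 1 - n) * H k n) * σ.t ^ n := by
    intro c
    rw [← Finset.sum_range_reflect, Finset.mul_sum]
    refine Finset.sum_congr rfl fun n hn => ?_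
    have hn' := Finset.mem_range.1 hn
    have h1 : N + 2 - 1 - n = N + 1 - n := by omega
    have h2 : N + 1 - (N + 1 - n) = n := by omega
    have h3 := congrArg (C (R := k)) (hr n (by omega))
    rw [h1, h2]
    simp only [map_mul, map_pow, map_ofNat] at h3 ⊢
    linear_combination C (c (N + 1 - n)) * σ.t ^ n * h3
  refine ⟨h, σ.b * hi, H k (N + 1), ?_, ?_, ?_, ?_, ?_⟩
  · have h1 := hr (N + 1) (by omega)
    rw [Nat.sub_self, show H k 0 = 1 from rfl, mul_one] at h1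
    exact isUnit_of_mul_isUnit_left (h1 ▸ h27.pow _)
  · rw [th_inv hy, hK]; simp
  · linear_combination (-σ.b) * hhi
  · have h1 := Rel.sum (t := σ.t) (d := N + 1) (Finset.range (N + 2)) fun n hn =>
      (Rel.gen σ.t (Nat.lt_succ_iff.1 (Finset.mem_range.1 hn))).C_mul (1 * H k n)
    rw [hrev fun _ => 1] at h1
    simpa [hh, pol] using h1
  · have h1 := Rel.sum (t := σ.t) (d := N + 1) (Finset.range (N + 2)) fun n hn =>
      (Rel.gen σ.t (Nat.lt_succ_iff.1 (Finset.mem_range.1 hn))).C_mul ((n : k) * H k n)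
    rw [hrev fun n => (n : k)] at h1
    refine h1.congr rfl (tt_pol σ _ _).symm ?_
    rw [hh, tt_pol, pol, ← Finset.sum_add_distrib, ← mul_neg, ← Finset.sum_neg_distrib]
    congr 1
    refine Finset.sum_congr rfl fun n hn => ?_
    have hn' := Finset.mem_range.1 hn
    have h2 : ((N + 1 - n : ℕ) : k) = -1 - n := by
      rw [Nat.cast_sub (by omega)]; push_cast; linear_combination hN'
    rw [h2]
    simp only [map_mul, map_sub, map_neg, map_one]
    ring

/-- the Cartier operator on the differentials `t^j dt` -/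
lemma cartier (hp : p.Prime) (hpk : (p : k) = 0) {M : ℕ} (hM : p = M + 1) {F F' : k⟦X⟧}
    (h : Rel σ.t (2 * M) F F') : ∃ c : k, U p (F * (σ.t * σ.kap)) = C c * (σ.t ^ p * U p σ.kap) ∧
      U p (F' * (σ.t * σ.kap)) = C (27 ^ M * c) * (σ.t ^ p * U p σ.kap) := by
  have h0 : ∀ j, j ≤ 2 * M → j ≠ M → U p (σ.t ^ j * (σ.t * σ.kap)) = 0 := by
    intro j hj hj'
    have hu : IsUnit ((j + 1 : ℕ) : k) := unit_nat hp hpk fun ⟨c, hc⟩ => by
      rw [hM] at hc
      rcases c with _ | _ | c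
      · omega
      · omega
      · nlinarith
    obtain ⟨i, hi⟩ := hu.exists_left_inv
    have h1 : σ.t ^ j * (σ.t * σ.kap) = C i * th (σ.t ^ (j + 1)) := by
      have h2 := congrArg (C (R := k)) hi
      simp only [map_mul, map_natCast, map_one] at h2
      push_cast at h2
      rw [th_pow_succ, σ.th_t]
      linear_combination (-(σ.t ^ j * (σ.t * σ.kap))) * h2
    rw [h1, U_C_mul, U_th hpk, mul_zero]
  have h1 : U p (σ.t ^ M * (σ.t * σ.kap)) = σ.t ^ p * U p σ.kap := by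
    rw [mul_comm (σ.t ^ p), ← U_mul hp hpk _ (th_pow_zero hpk σ.t), hM]
    congr 1; ring
  suffices ∀ x ∈ RelM σ.t (2 * M), ∃ c : k,
      U p (x.1 * (σ.t * σ.kap)) = C c * (σ.t ^ p * U p σ.kap) ∧
      U p (x.2 * (σ.t * σ.kap)) = C (27 ^ M * c) * (σ.t ^ p * U p σ.kap) from this _ h
  intro x hx
  induction hx using Submodule.span_induction with
  | mem x hx =>
    obtain ⟨m, hm, rfl⟩ := hx
    simp only [Finset.coe_range, Set.mem_Iio] at hm
    have h2 : ∀ j, (27 * σ.t) ^ j * (σ.t * σ.kap) = C (27 ^ j) * (σ.t ^ j * (σ.t * σ.kap)) := by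
      intro j; simp only [map_pow, map_ofNat]; ring
    by_cases hmM : m = M
    · subst hmM
      refine ⟨1, by simp [h1], ?_⟩
      simp only [h2, U_C_mul, show 2 * m - m = m by omega, h1, mul_one]
    · refine ⟨0, by simp [h0 m (by omega) hmM], ?_⟩
      simp only [h2, U_C_mul, h0 (2 * M - m) (by omega) (by omega)]
      simp
  | zero => exact ⟨0, by simp [U_zero], by simp [U_zero]⟩
  | add x y _ _ hx hy =>
    obtain ⟨c, h1, h2⟩ := hx
    obtain ⟨c', h1', h2'⟩ := hy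
    refine ⟨c + c', ?_, ?_⟩
    · rw [Prod.fst_add, add_mul, U_add, h1, h1', map_add]; ring
    · rw [Prod.snd_add, add_mul, U_add, h2, h2', mul_add, map_add]; ring
  | smul a x _ hx =>
    obtain ⟨c, h1, h2⟩ := hx
    refine ⟨a * c, ?_, ?_⟩
    · rw [Prod.smul_fst, smul_eq_C_mul, mul_assoc, U_C_mul, h1, map_mul]; ring
    · rw [Prod.smul_snd, smul_eq_C_mul, mul_assoc, U_C_mul, h2]
      simp only [map_mul]; ring

end CP

end

end Pool.Agent.Lib.MP_caab05_ag.W3
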