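import Pool.Agent.Lib.MP_caab05_ag.W3.Chk1

namespace Pool.Agent.Lib.MP_caab05_ag.W3

open Polynomial Set Complex

noncomputable section

def dn1 (m j : ℕ) : ℕ := 25 * m * m + 25 * j * j + 14 * m * j
def dn2 (m j : ℕ) : ℕ := 25 * m * m + 25 * j * j - 14 * m * j

lemma dn1_cast (m j : ℕ) : (dn1 m j : ℝ) = 25 * m ^ 2 + 14 * m * j + 25 * j ^ 2 := by
  unfold dn1; push_cast; ring

lemma dn2_cast (m j : ℕ) : (dn2 m j : ℝ) = 25 * m ^ 2 + (-14) * m * j + 25 * j ^ 2 := by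
  unfold dn2; rw [Nat.cast_sub (by nlinarith [sq_nonneg ((m : ℤ) - j)])]; push_cast; ring

def ptCirc (cs : List ℕ) (t2 rn rd : ℕ) (sl : ℤ) (m j : ℕ) : Bool :=
  withC (circW (dn1 m j) m j rn rd) fun a b => withC (circW (dn2 m j) m j rn rd) fun a' b' =>
    withC (evalC cs aa oo a b) fun p _ => withC (evalC cs aa oo a' b') fun p' _ =>
      decide (sl ≤ ((t2 * 3141592 * 448 * (m * j * (m * j)) * 2 ^ 30 /
        (1000000 * dn1 m j * dn2 m j) : ℕ) : ℤ) + p - p')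

def mcirc (cs : List ℕ) (t2 r : ℕ) : ℕ :=
  2 * (21 * (bnd aa r cs).2.2.1 + 10 * (bnd aa r cs).2.1) + 10 * t2 * 2 ^ 30

def chkCirc (cs : List ℕ) (t2 rn rd j0 n m r : ℕ) : Bool :=
  decide (0 < m) && decide (j0 + n ≤ m) && decide (0 < rd) && decide (rd ≤ 4 * rn) &&
    decide (0 < r) &&
    withC (circW (dn1 m j0) m j0 rn rd)
      (fun a b => decide (a * a + b * b ≤ (r * 2 ^ 24 - 64) * (r * 2 ^ 24 - 64))) &&
    allR (ptCirc cs t2 rn rd ((mcirc cs t2 r / (8 * m * m) + 2 + 2 * errOf aa r cs : ℕ) : ℤ) m) j0 n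

def Circ (cs : List ℕ) (t2 : ℕ) (ρ s : ℝ) : Prop :=
  1 ≤ t2 * Real.pi * 2 ^ 30 * ((tau (-14) s).im - (tau 14 s).im) +
    ((polyOf aa cs).eval (zeta ρ 14 s)).re - ((polyOf aa cs).eval (zeta ρ (-14) s)).re

lemma norm_zeta_le {ρ : ℝ} {e e' s s' : ℝ} (h : (tau e' s').im ≤ (tau e s).im) :
    ‖zeta ρ e s‖ ≤ ‖zeta ρ e' s'‖ := by
  rw [zeta, zeta, norm_div, norm_div, norm_ee, norm_ee]
  have := Real.pi_pos
  gcongr

lemma im_mono {s s' : ℝ} (h0 : 0 ≤ s') (h : s' ≤ s) (h1 : s ≤ 1) :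
    (tau 14 s').im ≤ (tau 14 s).im := by
  have hs : 0 ≤ s := h0.trans h
  rw [tau_im (by norm_num), tau_im (by norm_num), div_le_div_iff₀ (by positivity) (by positivity)]
  nlinarith [mul_nonneg (sub_nonneg.2 h) (sub_nonneg.2 (mul_le_one₀ h1 h0 (h.trans h1)))]

lemma im_le {s : ℝ} (hs : 0 ≤ s) : (tau 14 s).im ≤ (tau (-14) s).im := by
  have := den_ge (e := -14) (by norm_num) s
  rw [tau_im (by norm_num), tau_im (by norm_num), div_le_div_iff₀ (by positivity) (by linarith)]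
  nlinarith [sq_nonneg s]

theorem chkCirc_sound {cs : List ℕ} {t2 rn rd j0 n m r : ℕ}
    (h : chkCirc cs t2 rn rd j0 n m r = true) :
    ∀ s ∈ Icc ((j0 : ℝ) / m) ((j0 + n : ℕ) / m), Circ cs t2 (rn / rd) s := by
  simp only [chkCirc, Bool.and_eq_true, decide_eq_true_eq] at h
  obtain ⟨⟨⟨⟨⟨⟨hm, hj⟩, hrd⟩, hr⟩, hr0⟩, hw⟩, h⟩ := h
  have hm' : (0 : ℝ) < m := by exact_mod_cast hm
  have h14 : (14 : ℝ) ^ 2 = 196 := by norm_num
  have h14' : (-14 : ℝ) ^ 2 = 196 := by norm_num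
  obtain ⟨a0, b0, hw1, hw2⟩ := withC_spec hw
  have hw3 := circW_spec h14 hm (by omega) (dn1_cast m j0) hrd hr hw1
  have hw4 : ‖pt a0 b0‖ ≤ r / 2 ^ 16 - 2 / 2 ^ 35 := by
    have h1 : (a0 : ℝ) * a0 + b0 * b0 ≤ (r * 2 ^ 24 - 64) * (r * 2 ^ 24 - 64) := by
      simp only [decide_eq_true_eq] at hw2
      have := (Int.cast_le (R := ℝ)).2 hw2
      simpa only [Int.cast_add, Int.cast_mul, Int.cast_sub, Int.cast_natCast, Int.cast_pow,
        Int.cast_ofNat] using this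
    have h2 : (1 : ℝ) ≤ r := by exact_mod_cast hr0
    refine (pow_le_pow_iff_left₀ (norm_nonneg _) (by linarith) two_ne_zero).1 ?_
    rw [← Complex.normSq_eq_norm_sq, Complex.normSq_apply, pt_re, pt_im]
    linarith
  have hz : ∀ s ∈ Icc ((j0 : ℝ) / m) ((j0 + n : ℕ) / m),
      ‖zeta (rn / rd) 14 s‖ ≤ r / 2 ^ 16 - 1 / 2 ^ 35 ∧
      ‖zeta (rn / rd) (-14) s‖ ≤ r / 2 ^ 16 - 1 / 2 ^ 35 := fun s hs => by
    have h0 : (0 : ℝ) ≤ j0 / m := by positivity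
    have h1 : s ≤ 1 := hs.2.trans (by rw [div_le_one hm']; exact_mod_cast hj)
    have h2 := norm_zeta_le (ρ := rn / rd) (im_mono h0 hs.1 h1)
    have h3 := norm_zeta_le (ρ := rn / rd) (im_le (h0.trans hs.1))
    have h4 := norm_sub_le (pt a0 b0) (pt a0 b0 - zeta (rn / rd) 14 (j0 / m))
    rw [sub_sub_cancel] at h4
    constructor <;> linarith
  have hpos : (0 : ℝ) ≤ 1 / 2 ^ 35 := by positivity
  have hc1 := C2_poly (A0 := aa) (r := r) cs (m1 := 21) (m2 := 10) fun s hs =>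
    ⟨(curve_zeta h14 _ s).1, (curve_zeta h14 (rn / rd) s).2.1, (curve_zeta h14 (rn / rd) s).2.2.1,
      (curve_zeta h14 (rn / rd) s).2.2.2, (hz s hs).1.trans (by linarith)⟩
  have hc2 := C2_poly (A0 := aa) (r := r) cs (m1 := 21) (m2 := 10) fun s hs =>
    ⟨(curve_zeta h14' _ s).1, (curve_zeta h14' (rn / rd) s).2.1, (curve_zeta h14' (rn / rd) s).2.2.1,
      (curve_zeta h14' (rn / rd) s).2.2.2, (hz s hs).2.trans (by linarith)⟩
  have hp0 := Real.pi_pos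
  have hc := ((((((C2_im h14' _ _).sub (C2_im h14 _ _)).const_mul (t2 * Real.pi * 2 ^ 30)).add
    hc1).sub hc2)).mono (N := mcirc cs t2 r) (by
      rw [abs_of_nonneg (by positivity), mcirc]; push_cast
      nlinarith [Real.pi_lt_d2, (Nat.cast_nonneg t2 : (0 : ℝ) ≤ _)])
  intro s hs
  refine hc.grid hm (c := 1) (fun k hk => ?_) hs
  have hk' : j0 + k ≤ m := by omega
  have hmem : ((j0 + k : ℕ) : ℝ) / m ∈ Icc ((j0 : ℝ) / m) ((j0 + n : ℕ) / m) :=
    ⟨by gcongr; omega, by gcongr⟩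
  obtain ⟨a, b, h1, h2⟩ := withC_spec (allR_spec h k hk)
  obtain ⟨a', b', h3, h4⟩ := withC_spec h2
  obtain ⟨p, _, h5, h6⟩ := withC_spec h4
  obtain ⟨p', _, h7, h8⟩ := withC_spec h6
  have h9 := circW_spec h14 hm hk' (dn1_cast m _) hrd hr h1
  have h10 := circW_spec h14' hm hk' (dn2_cast m _) hrd hr h3
  have near : ∀ {a b : ℤ} {z : ℂ}, ‖pt a b - z‖ ≤ 1 / 2 ^ 35 → ‖z‖ ≤ r / 2 ^ 16 - 1 / 2 ^ 35 →
      ‖pt a b‖ ≤ r / 2 ^ 16 := fun {a b z} h1 h2 => by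
    have := norm_add_le z (pt a b - z)
    rw [add_sub_cancel] at this; linarith
  have h11 := abs_le.1 (evalC_near (near h9 (hz _ hmem).1) ((hz _ hmem).1.trans (by linarith)) h9 h5)
  have h12 := abs_le.1 (evalC_near (near h10 (hz _ hmem).2) ((hz _ hmem).2.trans (by linarith)) h10 h7)
  have h13 := div_le_slack (mcirc cs t2 r) hm
  set j := j0 + k
  simp only [decide_eq_true_eq] at h8
  have h14a := (Int.cast_le (R := ℝ)).2 h8
  have h15 : ((t2 * 3141592 * 448 * (m * j * (m * j)) * 2 ^ 30 /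
      (1000000 * dn1 m j * dn2 m j) : ℕ) : ℝ) ≤
      t2 * Real.pi * 2 ^ 30 * ((tau (-14) (j / m)).im - (tau 14 (j / m)).im) := by
    refine Nat.cast_div_le.trans ?_
    have d1 := den_ge h14 (j / m)
    have d2 := den_ge h14' (j / m)
    have e1 : (dn1 m j : ℝ) = m ^ 2 * (25 + 14 * (j / m) + 25 * (j / m) ^ 2) := by
      rw [dn1_cast]; field_simp
    have e2 : (dn2 m j : ℝ) = m ^ 2 * (25 + -14 * (j / m) + 25 * (j / m) ^ 2) := by
      rw [dn2_cast]; field_simp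
    have e3 : (tau (-14) (j / m)).im - (tau 14 (j / m)).im = 448 * (m * j * (m * j)) /
        (dn1 m j * dn2 m j) := by
      rw [tau_im h14, tau_im h14', e1, e2, div_sub_div _ _ (by linarith) (by linarith),
        div_eq_div_iff (by apply mul_ne_zero <;> linarith)
          (by apply mul_ne_zero <;> apply mul_ne_zero <;> first | positivity | linarith)]
      field_simp; ring
    have e4 : ((t2 * 3141592 * 448 * (m * j * (m * j)) * 2 ^ 30 : ℕ) : ℝ) /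
        ((1000000 * dn1 m j * dn2 m j : ℕ) : ℝ) =
        t2 * 3.141592 * 2 ^ 30 * (448 * (m * j * (m * j)) / (dn1 m j * dn2 m j)) := by
      push_cast; ring
    rw [e4, e3]
    have := Real.pi_gt_d6.le
    gcongr
  generalize t2 * 3141592 * 448 * (m * j * (m * j)) * 2 ^ 30 / (1000000 * dn1 m j * dn2 m j) = q1 at *
  generalize mcirc cs t2 r / (8 * m * m) = q2 at *
  push_cast at h14a
  linarith [h11.2, h12.1]

end

end Pool.Agent.Lib.MP_caab05_ag.W3
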