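import Pool.Agent.Lib.MP_caab05_ag.W3.Iface

namespace Pool.Agent.Lib.MP_caab05_ag.W3

noncomputable section

def betaZ (i : ℕ) : ℤ :=
  [0, -501, -771, -988, -1170, -1327, -1395, -1427, -1447, -1435, -1375, -1292, -1135, -802, -222,
    679, 2718].getD i 0

/-- a convex piecewise linear function with slopes `i/16` -/
def vfun (y : ℝ) : ℝ :=
  (Finset.range 17).sup' (by simp) fun i => (i : ℝ) / 16 * y - (betaZ i : ℝ) / 1024

/-- `log |x(q)|` -/
def lx (q : ℂ) : ℝ := Real.log ‖q * Phi q ^ 6 * Phi (q ^ 9) ^ 6 / Phi (q ^ 3) ^ 12‖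

end

end Pool.Agent.Lib.MP_caab05_ag.W3
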