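import Pool.Agent.Lib.MP_caab05_ag.W3.Curve
import Pool.Agent.Lib.MP_caab05_ag.W3.Vdef

/-!
The kernel checkers for the inequalities along the curves, and their soundness.
-/

namespace Pool.Agent.Lib.MP_caab05_ag.W3

open Polynomial Set Complex

noncomputable section

def aa : ℕ := 68719476736
def oo : ℕ := 1152921504606846976
def ra : ℕ := 65537

def withC (o : Option (ℤ × ℤ)) (k : ℤ → ℤ → Bool) : Bool :=
  Option.rec false (fun r => k r.1 r.2) o

lemma withC_spec {o : Option (ℤ × ℤ)} {k : ℤ → ℤ → Bool} (h : withC o k = true) :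
    ∃ a b, o = some (a, b) ∧ k a b = true := by
  cases o with
  | none => cases h
  | some r => exact ⟨r.1, r.2, rfl, h⟩

def allR (f : ℕ → Bool) (j0 n : ℕ) : Bool :=
  Nat.rec (f j0) (fun i ih => f (j0 + (i + 1)) && ih) n

lemma allR_spec {f : ℕ → Bool} {j0 n : ℕ} (h : allR f j0 n = true) : ∀ i ≤ n, f (j0 + i) = true := by
  induction n with
  | zero => intro i hi; obtain rfl : i = 0 := by omega
            exact h
  | succ n ih =>
    have h' : (f (j0 + (n + 1)) && allR f j0 n) = true := h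
    rw [Bool.and_eq_true] at h'
    intro i hi
    rcases Nat.lt_or_ge i (n + 1) with h1 | h1
    · exact ih h'.2 i (by omega)
    · obtain rfl : i = n + 1 := by omega
      exact h'.1

lemma nat_div_bound (a : ℕ) {d : ℕ} (hd : 0 < d) : |((a / d : ℕ) : ℝ) - a / d| ≤ 1 := by
  have h8 := @Nat.cast_div_le ℝ _ _ _ a d
  have h9 := Nat.lt_div_mul_add (a := a) (b := d) hd
  have h10 : (a : ℝ) < ((a / d : ℕ) : ℝ) * d + d := by exact_mod_cast h9
  have h11 : (0 : ℝ) < d := by exact_mod_cast hd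
  rw [abs_sub_comm, abs_of_nonneg (by linarith), sub_le_iff_le_add, div_le_iff₀ h11]; linarith

lemma int_div_bound' (a : ℤ) {d : ℤ} (hd : 0 < d) : |((a / d : ℤ) : ℝ) - a / d| ≤ 1 := by
  have h1 := Int.emod_add_mul_ediv a d
  have h2 := Int.emod_nonneg a hd.ne'
  have h3 := Int.emod_lt_of_pos a hd
  have h0 : (0 : ℝ) < d := by exact_mod_cast hd
  have h1' : ((a % d : ℤ) : ℝ) + d * ((a / d : ℤ) : ℝ) = a := by exact_mod_cast h1
  have h2' : (0 : ℝ) ≤ ((a % d : ℤ) : ℝ) := by exact_mod_cast h2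
  have h3' : ((a % d : ℤ) : ℝ) < d := by exact_mod_cast h3
  have : ((a / d : ℤ) : ℝ) - a / d = -(((a % d : ℤ) : ℝ) / d) := by
    rw [← h1']; field_simp; ring
  rw [this, abs_neg, abs_of_nonneg (by positivity), div_le_one h0]; exact h3'.le

lemma norm_pt_sub {a b : ℤ} {z : ℂ} {e : ℝ} (h1 : |(a : ℝ) - z.re * 2 ^ 40| ≤ e)
    (h2 : |(b : ℝ) - z.im * 2 ^ 40| ≤ e) : ‖pt a b - z‖ ≤ 2 * e / 2 ^ 40 := by
  refine (Complex.norm_le_abs_re_add_abs_im _).trans ?_
  rw [Complex.sub_re, Complex.sub_im, pt_re, pt_im]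
  have e1 : (a : ℝ) / 2 ^ 40 - z.re = (a - z.re * 2 ^ 40) / 2 ^ 40 := by field_simp
  have e2 : (b : ℝ) / 2 ^ 40 - z.im = (b - z.im * 2 ^ 40) / 2 ^ 40 := by field_simp
  rw [e1, e2, abs_div, abs_div, abs_of_pos (by positivity : (0 : ℝ) < 2 ^ 40), ← add_div]
  gcongr; linarith

/-! ### the unit circle -/

def arcR (m j : ℕ) : ℤ := -(((m * m - j * j) * 2 ^ 40 / (m * m + j * j) : ℕ) : ℤ)
def arcI (m j : ℕ) : ℤ := ((2 * m * j * 2 ^ 40 / (m * m + j * j) : ℕ) : ℤ)

lemma arc_near {m j : ℕ} (hm : 0 < m) (hj : j ≤ m) :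
    ‖pt (arcR m j) (arcI m j) - zz (j / m)‖ ≤ 2 / 2 ^ 40 := by
  have hm' : (0 : ℝ) < m := by exact_mod_cast hm
  have hd : 0 < m * m + j * j := by positivity
  have h1 := nat_div_bound ((m * m - j * j) * 2 ^ 40) hd
  have h2 := nat_div_bound (2 * m * j * 2 ^ 40) hd
  have := norm_pt_sub (a := arcR m j) (b := arcI m j) (z := zz (j / m)) (e := 1) ?_ ?_
  · simpa using this
  · rw [arcR, Int.cast_neg, Int.cast_natCast, zz_eq]
    simp only [Complex.add_re, Complex.ofReal_re, Complex.mul_re, Complex.I_re, Complex.I_im,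
      Complex.ofReal_im]
    rw [← abs_neg]
    convert h1 using 2
    rw [Nat.cast_mul, Nat.cast_sub (Nat.mul_le_mul hj hj)]; push_cast; field_simp; ring
  · rw [arcI, Int.cast_natCast, zz_eq]
    simp only [Complex.add_im, Complex.ofReal_re, Complex.mul_im, Complex.I_re, Complex.I_im,
      Complex.ofReal_im]
    convert h2 using 2
    push_cast; field_simp; ring

lemma arc_eval {cs : List ℕ} {m j : ℕ} (hm : 0 < m) (hj : j ≤ m) {a b : ℤ}
    (h : evalC cs aa oo (arcR m j) (arcI m j) = some (a, b)) :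
    |(a : ℝ) - ((polyOf aa cs).eval (zz (j / m))).re| ≤ errOf aa ra cs := by
  have h1 := arc_near hm hj
  have h2 := norm_zz (j / m)
  have h3 : ‖pt (arcR m j) (arcI m j)‖ ≤ 1 + 2 / 2 ^ 40 := by
    have := norm_add_le (zz (j / m)) (pt (arcR m j) (arcI m j) - zz (j / m))
    rw [add_sub_cancel] at this; linarith
  refine evalC_near (h3.trans ?_) (h2.le.trans ?_) (h1.trans ?_) h <;> norm_num [ra]

def marc (cs : List ℕ) : ℕ := 4 * (bnd aa ra cs).2.2.1 + 2 * (bnd aa ra cs).2.1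

lemma C2_arc (cs : List ℕ) (a b : ℝ) :
    C2 (fun s => ((polyOf aa cs).eval (zz s)).re) a b (marc cs) := by
  have := C2_poly (A0 := aa) (r := ra) cs (a := a) (b := b) (m1 := 4) (m2 := 2) fun s _ =>
    ⟨(curve_zz s).1, (curve_zz s).2.1, (curve_zz s).2.2.1, (curve_zz s).2.2.2,
      (norm_zz s).le.trans (by norm_num [ra])⟩
  simpa [marc] using this

def betaL : List (ℤ × ℤ) :=
  [(0, 0), (1, -501), (2, -771), (3, -988), (4, -1170), (5, -1327), (6, -1395), (7, -1427),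
    (8, -1447), (9, -1435), (10, -1375), (11, -1292), (12, -1135), (13, -802), (14, -222),
    (15, 679), (16, 2718)]

lemma mem_betaL : ∀ i : ℕ, i ≤ 16 → ((i : ℤ), betaZ i) ∈ betaL := by decide

def ptArc1 (P Y : List ℕ) (K T : ℤ) (m j : ℕ) : Bool :=
  withC (evalC P aa oo (arcR m j) (arcI m j)) fun pv _ =>
    withC (evalC Y aa oo (arcR m j) (arcI m j)) fun yv _ =>
      betaL.all fun ib => decide (ib.1 * (T + yv) ≤ K + 16 * pv + ib.2 * 16777216)

def chkArc1 (P Y : List ℕ) (K T : ℤ) (m j0 n : ℕ) : Bool :=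
  decide (0 < m) && decide (j0 + n ≤ m) &&
    allR (ptArc1 P Y (K - 16 * ((errOf aa ra P + ((marc P + marc Y) / (8 * m * m) + 1) : ℕ) : ℤ))
      (T + (errOf aa ra Y : ℕ)) m) j0 n

lemma div_le_slack (M : ℕ) {m : ℕ} (hm : 0 < m) :
    (M : ℝ) / (8 * m ^ 2) ≤ ((M / (8 * m * m) : ℕ) : ℝ) + 1 := by
  have := (abs_le.1 (nat_div_bound M (d := 8 * m * m) (by positivity))).1
  have e : ((8 * m * m : ℕ) : ℝ) = 8 * m ^ 2 := by push_cast; ring
  rw [e] at this; linarith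

def Arc1 (P Y : List ℕ) (K T : ℤ) (s : ℝ) : Prop :=
  ∀ i : ℕ, i ≤ 16 → (i : ℝ) * (T + ((polyOf aa Y).eval (zz s)).re) ≤
    K + 16 * ((polyOf aa P).eval (zz s)).re + betaZ i * 2 ^ 24

theorem chkArc1_sound {P Y : List ℕ} {K T : ℤ} {m j0 n : ℕ} (h : chkArc1 P Y K T m j0 n = true) :
    ∀ s ∈ Icc ((j0 : ℝ) / m) ((j0 + n : ℕ) / m), Arc1 P Y K T s := by
  simp only [chkArc1, Bool.and_eq_true, decide_eq_true_eq] at h
  obtain ⟨⟨hm, hj⟩, h⟩ := h
  intro s hs i hi
  have hi' : (i : ℝ) ≤ 16 := by exact_mod_cast hi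
  have hc := (((C2.const ((K : ℝ) + betaZ i * 2 ^ 24 - i * T) (j0 / m) ((j0 + n : ℕ) / m)).add
    ((C2_arc P _ _).const_mul 16)).sub ((C2_arc Y _ _).const_mul i)).mono
    (N := 16 * ((marc P + marc Y : ℕ) : ℝ)) (by
      rw [abs_of_nonneg (Nat.cast_nonneg i : (0 : ℝ) ≤ i), abs_of_pos (by norm_num : (0 : ℝ) < 16)]
      push_cast; nlinarith [(Nat.cast_nonneg (marc Y) : (0 : ℝ) ≤ _)])
  have := hc.grid hm (c := 0) (fun k hk => ?_) hs
  · linarith
  obtain ⟨pv, _, h1, h2⟩ := withC_spec (allR_spec h k hk)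
  obtain ⟨yv, _, h3, h4⟩ := withC_spec h2
  have h5 := of_decide_eq_true (List.all_eq_true.1 h4 _ (mem_betaL i hi))
  have h6 := abs_le.1 (arc_eval hm (by omega) h1)
  have h7 := abs_le.1 (arc_eval hm (by omega) h3)
  have h8 := div_le_slack (marc P + marc Y) hm
  have h9 := (Int.cast_le (R := ℝ)).2 h5
  generalize (marc P + marc Y) / (8 * m * m) = q at *
  push_cast at h9
  have h10 : (i : ℝ) * ((polyOf aa Y).eval (zz ((j0 + k : ℕ) / m))).re ≤ i * (errOf aa ra Y + yv) :=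
    mul_le_mul_of_nonneg_left (by linarith [h7.1]) (Nat.cast_nonneg i)
  rw [mul_div_assoc]
  linarith [h6.2]

def chkArc2 (G : List ℕ) (K : ℤ) (m j0 n : ℕ) : Bool :=
  decide (0 < m) && decide (j0 + n ≤ m) &&
    allR (fun j => withC (evalC G aa oo (arcR m j) (arcI m j)) fun gv _ =>
      decide (((errOf aa ra G + (marc G / (8 * m * m) + 1) : ℕ) : ℤ) - K ≤ gv)) j0 n

def Arc2 (G : List ℕ) (K : ℤ) (s : ℝ) : Prop := 0 ≤ K + ((polyOf aa G).eval (zz s)).re

theorem chkArc2_sound {G : List ℕ} {K : ℤ} {m j0 n : ℕ} (h : chkArc2 G K m j0 n = true) :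
    ∀ s ∈ Icc ((j0 : ℝ) / m) ((j0 + n : ℕ) / m), Arc2 G K s := by
  simp only [chkArc2, Bool.and_eq_true, decide_eq_true_eq] at h
  obtain ⟨⟨hm, hj⟩, h⟩ := h
  intro s hs
  have hc := (C2.const (K : ℝ) (j0 / m) ((j0 + n : ℕ) / m)).add (C2_arc G _ _)
  refine hc.grid hm (c := 0) (fun k hk => ?_) hs
  obtain ⟨gv, _, h1, h2⟩ := withC_spec (allR_spec h k hk)
  have h5 := of_decide_eq_true h2
  have h6 := abs_le.1 (arc_eval hm (by omega) h1)
  have h8 := div_le_slack (marc G) hm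
  have h9 := (Int.cast_le (R := ℝ)).2 h5
  generalize marc G / (8 * m * m) = q at *
  push_cast at h9
  rw [zero_add, zero_add]
  linarith [h6.2]

/-! ### the hypercycles -/

def circW (dn m j rn rd : ℕ) : Option (ℤ × ℤ) :=
  (expApx (-((628318530717958647692 * (48 * m * j) * 2 ^ 40 / (3 * dn * 10 ^ 20) : ℕ) : ℤ))
    ((628318530717958647692 * (25 * (m * m - j * j)) * 2 ^ 40 / (3 * dn * 10 ^ 20) : ℕ) : ℤ)).map
    fun r => (r.1 * rd / (rn * 2 ^ 50 : ℕ), r.2 * rd / (rn * 2 ^ 50 : ℕ))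

lemma norm_tau_le {e s : ℝ} (he : e ^ 2 = 196) : ‖tau e s‖ ≤ 4 / 9 := by
  have h := norm_den he s
  have h1 : Complex.normSq (25 - s * kp e) = 25 * (25 - e * s + 25 * s ^ 2) := by
    simp [kp, Complex.normSq_apply]; linear_combination (s ^ 2 / 4) * he
  have h2 := normSq_den he s
  rw [Complex.normSq_eq_norm_sq] at h1 h2
  rw [tau, norm_div, norm_mul, div_le_iff₀ (mul_pos (by simp) (by linarith))]
  have h3 : ‖(3 : ℂ)‖ = 3 := by simp
  rw [h3]
  refine (pow_le_pow_iff_left₀ (norm_nonneg _) (by positivity) two_ne_zero).1 ?_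
  rw [mul_pow, mul_pow, h1, h2]
  nlinarith [sq_nonneg (14 * s + e)]

lemma circW_spec {e : ℝ} (he : e ^ 2 = 196) {dn m j rn rd : ℕ} (hm : 0 < m) (hj : j ≤ m)
    (hdn : (dn : ℝ) = 25 * m ^ 2 + e * m * j + 25 * j ^ 2) (hrd : 0 < rd) (hr : rd ≤ 4 * rn)
    {a b : ℤ} (h : circW dn m j rn rd = some (a, b)) :
    ‖pt a b - zeta (rn / rd) e (j / m)‖ ≤ 1 / 2 ^ 35 := by
  obtain ⟨⟨er, ei⟩, hg, hab⟩ := Option.map_eq_some_iff.1 h
  obtain ⟨ha, hb⟩ := Prod.mk.inj hab
  have hm' : (0 : ℝ) < m := by exact_mod_cast hm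
  have hrd' : (0 : ℝ) < rd := by exact_mod_cast hrd
  have hr' : (rd : ℝ) ≤ 4 * rn := by exact_mod_cast hr
  have hrn : (0 : ℝ) < rn := by linarith
  have hden := den_ge he (j / m)
  have hdn' : (dn : ℝ) = m ^ 2 * (25 + e * (j / m) + 25 * (j / m) ^ 2) := by rw [hdn]; field_simp
  have hdn0 : (0 : ℝ) < dn := by rw [hdn']; exact mul_pos (by positivity) (by linarith)
  have hd : 0 < 3 * dn * 10 ^ 20 := by
    have : 0 < dn := by exact_mod_cast hdn0
    positivity
  set τ := tau e (j / m) with hτ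
  have hτn : ‖τ‖ ≤ 4 / 9 := norm_tau_le he
  have hre : τ.re = 25 * (m * m - j * j) / (3 * dn) := by
    rw [hτ, tau_re he, hdn']
    have : 25 + e * (j / m) + 25 * ((j : ℝ) / m) ^ 2 ≠ 0 := by linarith
    generalize 25 + e * (j / m) + 25 * ((j : ℝ) / m) ^ 2 = d at *
    field_simp
  have him : τ.im = 48 * m * j / (3 * dn) := by
    rw [hτ, tau_im he, hdn']
    have : 25 + e * (j / m) + 25 * ((j : ℝ) / m) ^ 2 ≠ 0 := by linarith
    generalize 25 + e * (j / m) + 25 * ((j : ℝ) / m) ^ 2 = d at *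
    field_simp; ring
  have him0 : 0 ≤ τ.im := by rw [him]; positivity
  set zr := -((628318530717958647692 * (48 * m * j) * 2 ^ 40 / (3 * dn * 10 ^ 20) : ℕ) : ℤ)
  set zi := ((628318530717958647692 * (25 * (m * m - j * j)) * 2 ^ 40 / (3 * dn * 10 ^ 20) : ℕ) : ℤ)
  set p : ℝ := 6.28318530717958647692 with hp
  have h1 : ‖pt zr zi - p * I * τ‖ ≤ 2 * 1 / 2 ^ 40 := by
    apply norm_pt_sub
    · have := nat_div_bound (628318530717958647692 * (48 * m * j) * 2 ^ 40) hd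
      simp only [zr, Int.cast_neg, Int.cast_natCast]
      rw [← abs_neg]
      convert this using 2
      simp [him, hp]; field_simp; ring
    · have := nat_div_bound (628318530717958647692 * (25 * (m * m - j * j)) * 2 ^ 40) hd
      simp only [zi, Int.cast_natCast]
      convert this using 3
      rw [Nat.cast_mul, Nat.cast_mul, Nat.cast_mul, Nat.cast_sub (Nat.mul_le_mul hj hj)]
      simp [hre, hp]; field_simp; ring
  clear_value zr zi
  clear h hab
  have hp1 := Real.pi_gt_d20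
  have hp2 := Real.pi_lt_d20
  have h2 : ‖p * I * τ - 2 * Real.pi * I * τ‖ ≤ 1 / 2 ^ 40 := by
    have : p * I * τ - 2 * Real.pi * I * τ = ((p - 2 * Real.pi : ℝ) : ℂ) * I * τ := by
      push_cast; ring
    rw [this, norm_mul, norm_mul, Complex.norm_I, mul_one, Complex.norm_real, Real.norm_eq_abs]
    have h3 : |p - 2 * Real.pi| ≤ 1 / 2 ^ 40 := by
      have : (2 : ℝ) / 10 ^ 20 ≤ 1 / 2 ^ 40 := by norm_num
      rw [abs_le, hp]; constructor <;> linarith
    calc _ ≤ 1 / 2 ^ 40 * (4 / 9 : ℝ) := by gcongr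
      _ ≤ _ := by norm_num
  have h3 : ‖pt zr zi - 2 * Real.pi * I * τ‖ ≤ 3 / 2 ^ 40 := by
    have := norm_add_le (pt zr zi - p * I * τ) (p * I * τ - 2 * Real.pi * I * τ)
    rw [sub_add_sub_cancel] at this
    exact (this.trans (add_le_add h1 h2)).trans (by norm_num)
  have h4 : ‖pt zr zi‖ ≤ 3 := by
    have := norm_add_le (2 * Real.pi * I * τ) (pt zr zi - 2 * Real.pi * I * τ)
    rw [add_sub_cancel, norm_mul] at this
    have hn : ‖(2 * Real.pi * I : ℂ)‖ ≤ 6.3 := by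
      simp [abs_of_pos Real.pi_pos]; linarith [Real.pi_lt_d2]
    have h5 : ‖(2 * Real.pi * I : ℂ)‖ * ‖τ‖ ≤ 6.3 * (4 / 9) := by gcongr
    have h6 : (6.3 : ℝ) * (4 / 9) + 3 / 2 ^ 40 ≤ 3 := by norm_num
    linarith
  have h5 := expApx_spec h4 hg
  have h6 : ‖Complex.exp (pt zr zi) - ee τ‖ ≤ 6 / 2 ^ 40 := by
    have e1 : Complex.exp (pt zr zi) - ee τ =
        ee τ * (Complex.exp (pt zr zi - 2 * Real.pi * I * τ) - 1) := by
      rw [mul_sub, ee, ← Complex.exp_add]; simp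
    have h7 : ‖ee τ‖ ≤ 1 := by
      rw [norm_ee, Real.exp_le_one_iff]; have := Real.pi_pos; simp; positivity
    have h8 := Complex.norm_exp_sub_one_le (x := pt zr zi - 2 * Real.pi * I * τ)
      (h3.trans (by norm_num))
    rw [e1, norm_mul]
    calc _ ≤ 1 * (2 * (3 / 2 ^ 40 : ℝ)) := by gcongr; linarith
      _ = _ := by ring
  set u : ℂ := ((er : ℂ) + ei * I) / 2 ^ 90 with hu
  have hd2 : (0 : ℤ) < (rn * 2 ^ 50 : ℕ) := by
    have : 0 < rn := by exact_mod_cast hrn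
    positivity
  have h7 : ‖pt a b - u / (rn / rd : ℝ)‖ ≤ 2 * 1 / 2 ^ 40 := by
    have e1 : u / (rn / rd : ℝ) = ((er * rd / (rn * 2 ^ 90) : ℝ) : ℂ) +
        ((ei * rd / (rn * 2 ^ 90) : ℝ) : ℂ) * I := by
      have : (rn : ℂ) ≠ 0 := by exact_mod_cast hrn.ne'
      have : (rd : ℂ) ≠ 0 := by exact_mod_cast hrd'.ne'
      rw [hu]; push_cast; field_simp
    rw [e1]
    apply norm_pt_sub
    · have := int_div_bound' (er * rd) hd2
      rw [← ha]
      simp only [Complex.add_re, Complex.ofReal_re, Complex.mul_re, Complex.I_re, Complex.I_im,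
        Complex.ofReal_im]
      convert this using 3
      push_cast; field_simp; ring
    · have := int_div_bound' (ei * rd) hd2
      rw [← hb]
      simp only [Complex.add_im, Complex.ofReal_re, Complex.mul_im, Complex.I_re, Complex.I_im,
        Complex.ofReal_im]
      convert this using 3
      push_cast; field_simp; ring
  have h8 : ‖u / (rn / rd : ℝ) - zeta (rn / rd) e (j / m)‖ ≤ (7 / 2 ^ 40) / (1 / 4) := by
    rw [zeta, ← sub_div, norm_div, Complex.norm_real, Real.norm_of_nonneg (by positivity)]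
    have h9 := norm_add_le (u - Complex.exp (pt zr zi)) (Complex.exp (pt zr zi) - ee τ)
    rw [sub_add_sub_cancel, norm_sub_rev u (Complex.exp _)] at h9
    have h10 : (1 : ℝ) / 2 ^ 42 + 6 / 2 ^ 40 ≤ 7 / 2 ^ 40 := by norm_num
    refine div_le_div₀ (by positivity) (by linarith) (by norm_num) ?_
    rw [le_div_iff₀ hrd']; linarith
  have h9 := norm_add_le (pt a b - u / (rn / rd : ℝ)) (u / (rn / rd : ℝ) - zeta (rn / rd) e (j / m))
  rw [sub_add_sub_cancel] at h9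
  have h10 : (2 * 1 : ℝ) / 2 ^ 40 + (7 / 2 ^ 40) / (1 / 4) ≤ 1 / 2 ^ 35 := by norm_num
  linarith

end

end Pool.Agent.Lib.MP_caab05_ag.W3
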