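import Pool.Agent.Lib.MP_caab05_ag.W3.Defs

/-!
Power series with radius of convergence at least one, as functions on the unit disc.
-/

namespace Pool.Agent.Lib.MP_caab05_ag.W3

open PowerSeries Filter Topology

noncomputable section

/-- the sum of the series at `q` -/
def ev (F : ℂ⟦X⟧) (q : ℂ) : ℂ := ∑' n, coeff n F * q ^ n

/-- radius of convergence at least one -/
def Conv (F : ℂ⟦X⟧) : Prop :=
  ∀ r : ℝ, 0 ≤ r → r < 1 → Summable fun n => ‖coeff n F‖ * r ^ n

/-- `e^(2 pi i tau)` -/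
def ee (τ : ℂ) : ℂ := Complex.exp (2 * Real.pi * Complex.I * τ)

/-- the Fricke involution of level 9 -/
def ww (τ : ℂ) : ℂ := -1 / (9 * τ)

/-- invariance under the Fricke involution -/
def Inv (F : ℂ⟦X⟧) : Prop := ∀ τ : ℂ, 0 < τ.im → ev F (ee (ww τ)) = ev F (ee τ)

/-- the analytic input on the basic series -/
structure Sys.An (σ : Sys ℂ) : Prop where
  t : Conv σ.t
  b : Conv σ.b
  l1 : Conv σ.l1
  l2 : Conv σ.l2
  bi : Conv σ.bi
  l1i : Conv σ.l1i
  l2i : Conv σ.l2i
  tw : ∀ τ : ℂ, 0 < τ.im → 27 * ev σ.t (ee τ) * ev σ.t (ee (ww τ)) = 1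
  Ew : ∃ κ : ℂ, ∀ τ : ℂ, 0 < τ.im → ev σ.E (ee (ww τ)) = κ * τ * ev σ.Eb (ee τ)

/-- the Mellin transform at `s = 2`, normalised as the `L`-value -/
def per (F : ℂ⟦X⟧) : ℂ :=
  4 * (Real.pi : ℂ) ^ 2 * ∫ y in Set.Ioi (0 : ℝ), (y : ℂ) * ev F (Real.exp (-(2 * Real.pi * y)) : ℝ)

lemma norm_ee (τ : ℂ) : ‖ee τ‖ = Real.exp (-(2 * Real.pi * τ.im)) := by
  rw [ee, Complex.norm_exp]; congr 1; simp

lemma norm_ee_lt {τ : ℂ} (h : 0 < τ.im) : ‖ee τ‖ < 1 := by
  rw [norm_ee, Real.exp_lt_one_iff]; have := Real.pi_pos; nlinarith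

lemma ee_ne_zero (τ : ℂ) : ee τ ≠ 0 := Complex.exp_ne_zero _

lemma ne_zero_of_im {τ : ℂ} (h : 0 < τ.im) : τ ≠ 0 := by rintro rfl; simp at h

lemma ww_im (τ : ℂ) : (ww τ).im = τ.im / (9 * Complex.normSq τ) := by
  rw [ww, Complex.div_im]; simp
  by_cases h : Complex.normSq τ = 0
  · simp [h]
  · field_simp; try ring

lemma ww_im_pos {τ : ℂ} (h : 0 < τ.im) : 0 < (ww τ).im := by
  rw [ww_im]; exact div_pos h (by have := Complex.normSq_pos.2 (ne_zero_of_im h); positivity)

lemma ww_ww {τ : ℂ} (h : τ ≠ 0) : ww (ww τ) = τ := by unfold ww; field_simp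

lemma exists_ee {q : ℂ} (h0 : q ≠ 0) (h1 : ‖q‖ < 1) : ∃ τ : ℂ, 0 < τ.im ∧ |τ.re| ≤ 1 / 2 ∧ ee τ = q := by
  have hp := Real.pi_pos
  have hI : (2 * Real.pi * Complex.I : ℂ) ≠ 0 := by simp [hp.ne']
  have he : ee (Complex.log q / (2 * Real.pi * Complex.I)) = q := by
    rw [ee, mul_div_cancel₀ _ hI, Complex.exp_log h0]
  refine ⟨Complex.log q / (2 * Real.pi * Complex.I), ?_, ?_, he⟩
  · have := norm_ee (Complex.log q / (2 * Real.pi * Complex.I))
    rw [he] at this; rw [this, Real.exp_lt_one_iff] at h1; nlinarith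
  · have : (Complex.log q / (2 * Real.pi * Complex.I)).re = Complex.arg q / (2 * Real.pi) := by
      rw [Complex.div_re]; simp [Complex.log_im]; field_simp
    rw [this, abs_div, abs_of_pos (by positivity : 0 < 2 * Real.pi), div_le_iff₀ (by positivity)]
    have := Complex.abs_arg_le_pi q; linarith

namespace Conv

variable {F G : ℂ⟦X⟧} {q : ℂ}

lemma summable_norm (hF : Conv F) (hq : ‖q‖ < 1) : Summable fun n => ‖coeff n F * q ^ n‖ := by
  simpa using hF ‖q‖ (norm_nonneg _) hq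

lemma summable (hF : Conv F) (hq : ‖q‖ < 1) : Summable fun n => coeff n F * q ^ n :=
  (hF.summable_norm hq).of_norm

lemma hasSum (hF : Conv F) (hq : ‖q‖ < 1) : HasSum (fun n => coeff n F * q ^ n) (ev F q) :=
  (hF.summable hq).hasSum

lemma of_le (hF : Conv F) (h : ∀ n, ‖coeff n G‖ ≤ ‖coeff n F‖) : Conv G := fun r h0 h1 =>
  (hF r h0 h1).of_nonneg_of_le (fun n => by positivity) fun n => by gcongr; exact h n

lemma of_bdd (h : ∀ n, ‖coeff n G‖ ≤ 1) : Conv G := fun r h0 h1 =>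
  (summable_geometric_of_lt_one h0 h1).of_nonneg_of_le (fun n => by positivity) fun n => by
    simpa using mul_le_mul_of_nonneg_right (h n) (pow_nonneg h0 n)

lemma add (hF : Conv F) (hG : Conv G) : Conv (F + G) := fun r h0 h1 =>
  ((hF r h0 h1).add (hG r h0 h1)).of_nonneg_of_le (fun n => by positivity) fun n => by
    rw [← add_mul, map_add]; gcongr; exact norm_add_le _ _

lemma neg (hF : Conv F) : Conv (-F) := hF.of_le (by simp)

lemma sub (hF : Conv F) (hG : Conv G) : Conv (F - G) := by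
  rw [sub_eq_add_neg]; exact hF.add hG.neg

lemma mul (hF : Conv F) (hG : Conv G) : Conv (F * G) := fun r h0 h1 => by
  have hq : ‖(r : ℂ)‖ < 1 := by simpa [abs_of_nonneg h0] using h1
  have := summable_norm_sum_mul_antidiagonal_of_summable_norm (hF.summable_norm hq)
    (hG.summable_norm hq)
  refine this.congr fun n => ?_
  have h2 : ∑ kl ∈ Finset.HasAntidiagonal.antidiagonal n, coeff kl.1 F * (r : ℂ) ^ kl.1 * (coeff kl.2 G * (r : ℂ) ^ kl.2)
      = coeff n (F * G) * (r : ℂ) ^ n := by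
    rw [coeff_mul, Finset.sum_mul]
    refine Finset.sum_congr rfl fun kl h => ?_
    rw [← Finset.HasAntidiagonal.mem_antidiagonal.1 h]; ring
  rw [h2]; simp [abs_of_nonneg h0]

lemma C (a : ℂ) : Conv (C a) := fun r _ _ =>
  summable_of_ne_finset_zero (s := {0}) fun n hn => by
    have : n ≠ 0 := by simpa using hn
    simp [coeff_C, this]

lemma X : Conv (X : ℂ⟦X⟧) := of_bdd fun n => by rw [coeff_X]; split_ifs <;> simp
lemma one : Conv (1 : ℂ⟦X⟧) := by simpa using C 1
lemma zero : Conv (0 : ℂ⟦X⟧) := by simpa using C 0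
lemma natCast (n : ℕ) : Conv (n : ℂ⟦X⟧) := by simpa using C n
lemma ofNat (n : ℕ) [n.AtLeastTwo] : Conv (ofNat(n) : ℂ⟦X⟧) := natCast n

lemma pow (hF : Conv F) (n : ℕ) : Conv (F ^ n) := by
  induction n with
  | zero => simpa using one
  | succ n ih => rw [pow_succ]; exact ih.mul hF

lemma sum {ι : Type*} (s : Finset ι) {F : ι → ℂ⟦X⟧} (h : ∀ i ∈ s, Conv (F i)) :
    Conv (∑ i ∈ s, F i) := by
  classical
  induction s using Finset.induction_on with
  | empty => simpa using zero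
  | insert a s ha ih =>
    rw [Finset.sum_insert ha]
    exact (h a (by simp)).add (ih fun i hi => h i (by simp [hi]))

lemma wt_inv (hF : Conv F) : Conv (wt (fun n => (n : ℂ)⁻¹) F) := hF.of_le fun n => by
  rw [coeff_wt, norm_mul]
  refine mul_le_of_le_one_left (norm_nonneg _) ?_
  rcases Nat.eq_zero_or_pos n with rfl | hn
  · simp
  · simpa using inv_le_one_of_one_le₀ (by exact_mod_cast hn : (1 : ℝ) ≤ n)

lemma rescale (hF : Conv F) {a : ℂ} (ha : ‖a‖ = 1) : Conv (rescale a F) :=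
  hF.of_le fun n => by simp [coeff_rescale, ha]

lemma th (hF : Conv F) : Conv (th F) := fun r h0 h1 => by
  set s := (1 + r) / 2 with hs
  have hs0 : 0 < s := by positivity
  have hrs : r / s < 1 := by rw [div_lt_one hs0]; linarith
  have hb : Summable fun n : ℕ => (n : ℝ) ^ 1 * (r / s) ^ n :=
    summable_pow_mul_geometric_of_norm_lt_one 1 (by rwa [Real.norm_of_nonneg (by positivity)])
  obtain ⟨M, hM⟩ := hb.tendsto_atTop_zero.bddAbove_range
  refine ((hF s hs0.le (by linarith)).mul_left M).of_nonneg_of_le (fun n => by positivity) fun n => ?_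
  have h2 : (n : ℝ) ^ 1 * (r / s) ^ n ≤ M := hM ⟨n, rfl⟩
  rw [coeff_th, norm_mul, Complex.norm_natCast]
  calc (n : ℝ) * ‖coeff n F‖ * r ^ n = ((n : ℝ) ^ 1 * (r / s) ^ n) * (‖coeff n F‖ * s ^ n) := by
        rw [div_pow]; field_simp
    _ ≤ _ := by gcongr

lemma of_X_mul (h : Conv (PowerSeries.X * F)) : Conv F := fun r h0 h1 => by
  rcases h0.eq_or_lt with rfl | h0'
  · exact summable_of_ne_finset_zero (s := {0}) fun n hn => by
      have : n ≠ 0 := by simpa using hn
      simp [this]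
  · have := (summable_nat_add_iff 1).2 (h r h0 h1)
    simp only [coeff_succ_X_mul] at this
    refine (this.mul_left r⁻¹).congr fun n => ?_
    field_simp; ring

lemma of_X_pow_mul {n : ℕ} (h : Conv (PowerSeries.X ^ n * F)) : Conv F := by
  induction n with
  | zero => simpa using h
  | succ n ih => exact ih (of_X_mul (by rwa [pow_succ', mul_assoc] at h))

lemma hasFPowerSeriesOnBall (hF : Conv F) :
    HasFPowerSeriesOnBall (ev F) (FormalMultilinearSeries.ofScalars ℂ fun n => coeff n F) 0 1 := by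
  have hr : (1 : ENNReal) ≤ (FormalMultilinearSeries.ofScalars ℂ fun n => coeff n F).radius := by
    refine ENNReal.le_of_forall_nnreal_lt fun r hr => ?_
    apply FormalMultilinearSeries.le_radius_of_summable_norm
    have := hF r r.2 (by exact_mod_cast hr)
    simpa [FormalMultilinearSeries.ofScalars_norm] using this
  refine ⟨hr, one_pos, fun {y} hy => ?_⟩
  have hy' : ‖y‖ < 1 := by simpa [enorm_eq_nnnorm, ← NNReal.coe_lt_coe] using hy
  simpa [FormalMultilinearSeries.ofScalars_apply_eq, mul_comm] using hF.hasSum hy'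

lemma analyticAt (hF : Conv F) (hq : ‖q‖ < 1) : AnalyticAt ℂ (ev F) q :=
  hF.hasFPowerSeriesOnBall.analyticAt_of_mem
    (by simpa [enorm_eq_nnnorm, ← NNReal.coe_lt_coe] using hq)

lemma differentiableAt (hF : Conv F) (hq : ‖q‖ < 1) : DifferentiableAt ℂ (ev F) q :=
  (hF.analyticAt hq).differentiableAt

lemma continuousAt (hF : Conv F) (hq : ‖q‖ < 1) : ContinuousAt (ev F) q :=
  (hF.analyticAt hq).continuousAt

lemma differentiableOn (hF : Conv F) : DifferentiableOn ℂ (ev F) (Metric.ball 0 1) :=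
  fun _ hq => (hF.differentiableAt (by simpa using hq)).differentiableWithinAt

end Conv

variable {F G : ℂ⟦X⟧} {q : ℂ}

lemma ev_at_zero (F : ℂ⟦X⟧) : ev F 0 = coeff 0 F := by
  rw [ev, tsum_eq_single 0] <;> simp +contextual

lemma ev_add (hF : Conv F) (hG : Conv G) (hq : ‖q‖ < 1) : ev (F + G) q = ev F q + ev G q := by
  simp only [ev, map_add, add_mul]; exact (hF.summable hq).tsum_add (hG.summable hq)

lemma ev_neg (F : ℂ⟦X⟧) (q : ℂ) : ev (-F) q = -ev F q := by simp [ev, tsum_neg]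

lemma ev_sub (hF : Conv F) (hG : Conv G) (hq : ‖q‖ < 1) : ev (F - G) q = ev F q - ev G q := by
  rw [sub_eq_add_neg, ev_add hF hG.neg hq, ev_neg, sub_eq_add_neg]

lemma ev_mul (hF : Conv F) (hG : Conv G) (hq : ‖q‖ < 1) : ev (F * G) q = ev F q * ev G q := by
  rw [ev, ev, ev, tsum_mul_tsum_eq_tsum_sum_antidiagonal_of_summable_norm (hF.summable_norm hq)
    (hG.summable_norm hq)]
  refine tsum_congr fun n => ?_
  rw [coeff_mul, Finset.sum_mul]
  refine Finset.sum_congr rfl fun kl h => ?_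
  rw [← Finset.HasAntidiagonal.mem_antidiagonal.1 h]; ring

@[simp] lemma ev_C (a q : ℂ) : ev (C a) q = a := by
  rw [ev, tsum_eq_single 0] <;> simp +contextual [coeff_C]
@[simp] lemma ev_X (q : ℂ) : ev X q = q := by
  rw [ev, tsum_eq_single 1] <;> simp +contextual [coeff_X]
@[simp] lemma ev_one (q : ℂ) : ev 1 q = 1 := by simpa using ev_C 1 q
@[simp] lemma ev_zero (q : ℂ) : ev 0 q = 0 := by simpa using ev_C 0 q
@[simp] lemma ev_natCast (n : ℕ) (q : ℂ) : ev n q = n := by simpa using ev_C n q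
@[simp] lemma ev_ofNat (n : ℕ) [n.AtLeastTwo] (q : ℂ) : ev (ofNat(n)) q = ofNat(n) :=
  ev_natCast n q

lemma ev_pow (hF : Conv F) (hq : ‖q‖ < 1) (n : ℕ) : ev (F ^ n) q = ev F q ^ n := by
  induction n with
  | zero => simp
  | succ n ih => rw [pow_succ, ev_mul (hF.pow n) hF hq, ih, pow_succ]

lemma ev_C_mul (a : ℂ) (F : ℂ⟦X⟧) (q : ℂ) : ev (C a * F) q = a * ev F q := by
  simp [ev, mul_assoc, tsum_mul_left]

lemma ev_sum {ι : Type*} (s : Finset ι) {F : ι → ℂ⟦X⟧} (h : ∀ i ∈ s, Conv (F i)) (hq : ‖q‖ < 1) :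
    ev (∑ i ∈ s, F i) q = ∑ i ∈ s, ev (F i) q := by
  simp only [ev, map_sum, Finset.sum_mul]
  exact Summable.tsum_finsetSum fun i hi => (h i hi).summable hq

lemma ev_rescale (a : ℂ) (F : ℂ⟦X⟧) (q : ℂ) : ev (rescale a F) q = ev F (a * q) := by
  simp only [ev, coeff_rescale, mul_pow]; exact tsum_congr fun n => by ring

lemma ev_map_conj (F : ℂ⟦X⟧) (q : ℂ) :
    ev (PowerSeries.map (starRingEnd ℂ) F) ((starRingEnd ℂ) q) = (starRingEnd ℂ) (ev F q) := by
  simp only [ev, coeff_map]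
  rw [Complex.conj_tsum]; simp

/-- `th` is `q d/dq` -/
lemma ev_th (hF : Conv F) (hq : ‖q‖ < 1) : ev (th F) q = q * deriv (ev F) q := by
  have h1 := hF.hasFPowerSeriesOnBall.fderiv.hasSum (y := q)
    (by simpa [enorm_eq_nnnorm, ← NNReal.coe_lt_coe] using hq)
  have h2 := (ContinuousLinearMap.apply ℂ ℂ q).hasSum h1
  simp only [ContinuousLinearMap.apply_apply, FormalMultilinearSeries.derivSeries_apply_diag,
    FormalMultilinearSeries.ofScalars_apply_eq, zero_add] at h2
  have h3 : HasSum (fun n => coeff n (th F) * q ^ n) (q * deriv (ev F) q) := by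
    rw [← hasSum_nat_add_iff' 1]
    simp only [Finset.range_one, Finset.sum_singleton, coeff_th]
    convert h2 using 1
    · ext n; simp; ring
    · simp
  exact h3.tsum_eq

lemma hasDerivAt_ee (τ : ℂ) : HasDerivAt ee (2 * Real.pi * Complex.I * ee τ) τ := by
  have := ((hasDerivAt_id τ).const_mul (2 * Real.pi * Complex.I : ℂ)).cexp
  exact this.congr_deriv (by simp [ee, mul_comm])

/-- derivative in the upper half plane variable -/
lemma hasDerivAt_ev_ee (hF : Conv F) {τ : ℂ} (h : 0 < τ.im) :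
    HasDerivAt (fun z => ev F (ee z)) (2 * Real.pi * Complex.I * ev (th F) (ee τ)) τ := by
  have := (hF.differentiableAt (norm_ee_lt h)).hasDerivAt.comp τ (hasDerivAt_ee τ)
  exact this.congr_deriv (by rw [ev_th hF (norm_ee_lt h)]; ring)

lemma hasDerivAt_ww {τ : ℂ} (h : τ ≠ 0) : HasDerivAt ww (1 / (9 * τ ^ 2)) τ := by
  have := (hasDerivAt_const τ (-1 : ℂ)).div ((hasDerivAt_id τ).const_mul (9 : ℂ)) (by simpa using h)
  exact this.congr_deriv (by simp; field_simp)

/-- identity theorem -/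
lemma eq_of_ev_eventually (hF : Conv F) (hG : Conv G) (h : ev F =ᶠ[𝓝 0] ev G) : F = G := by
  have := hF.hasFPowerSeriesOnBall.hasFPowerSeriesAt.eq_formalMultilinearSeries_of_eventually
    hG.hasFPowerSeriesOnBall.hasFPowerSeriesAt h
  ext n
  have h2 := congrArg (fun p : FormalMultilinearSeries ℂ ℂ ℂ => p n fun _ => 1) this
  simpa [FormalMultilinearSeries.ofScalars_apply_eq] using h2

lemma eq_of_ev (hF : Conv F) (hG : Conv G) (h : ∀ q, ‖q‖ < 1 → ev F q = ev G q) : F = G :=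
  eq_of_ev_eventually hF hG <| by
    filter_upwards [Metric.ball_mem_nhds (0 : ℂ) one_pos] with q hq using h q (by simpa using hq)

lemma eq_of_ev_ee (hF : Conv F) (hG : Conv G) (h : ∀ τ, 0 < τ.im → ev F (ee τ) = ev G (ee τ)) :
    F = G := by
  have h1 : ev F =ᶠ[𝓝[≠] 0] ev G := by
    filter_upwards [mem_nhdsWithin_of_mem_nhds (Metric.ball_mem_nhds (0 : ℂ) one_pos),
      self_mem_nhdsWithin] with q hq h0
    obtain ⟨τ, h2, -, rfl⟩ := exists_ee h0 (by simpa using hq)
    exact h τ h2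
  have h2 := ((hF.analyticAt (q := 0) (by simp)).frequently_eq_iff_eventually_eq
    (hG.analyticAt (q := 0) (by simp))).1 h1.frequently
  exact eq_of_ev_eventually hF hG h2

/-- every holomorphic function on the disc is the sum of a series -/
lemma exists_conv {f : ℂ → ℂ} (hf : DifferentiableOn ℂ f (Metric.ball 0 1)) :
    ∃ F : ℂ⟦X⟧, Conv F ∧ ∀ q, ‖q‖ < 1 → ev F q = f q := by
  set F : ℂ⟦X⟧ := PowerSeries.mk fun n => ((n.factorial : ℂ))⁻¹ * iteratedDeriv n f 0 with hF
  have hs : ∀ q, ‖q‖ < 1 → HasSum (fun n => coeff n F * q ^ n) (f q) := fun q hq => by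
    have := Complex.hasSum_taylorSeries_on_ball hf (z := q) (by simpa using hq)
    refine this.congr_fun fun n => ?_
    simp [hF]; ring
  refine ⟨F, fun r h0 h1 => ?_, fun q hq => (hs q hq).tsum_eq⟩
  have := (hs r (by simpa [abs_of_nonneg h0] using h1)).summable.norm
  simpa [abs_of_nonneg h0] using this

/-- inverses of non-vanishing series converge -/
lemma Conv.of_mul_eq_one (hF : Conv F) (h0 : ∀ q, ‖q‖ < 1 → ev F q ≠ 0) (h : F * G = 1) :
    Conv G := by
  obtain ⟨H, hH, hH'⟩ := exists_conv (f := fun q => (ev F q)⁻¹)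
    (hF.differentiableOn.inv fun q hq => h0 q (by simpa using hq))
  have : F * H = 1 := eq_of_ev (hF.mul hH) Conv.one fun q hq => by
    rw [ev_mul hF hH hq, hH' q hq, ev_one, mul_inv_cancel₀ (h0 q hq)]
  have h2 : G = H := by linear_combination H * h - G * this
  rwa [h2]

lemma ev_mul_eq_one (hF : Conv F) (hG : Conv G) (h : F * G = 1) (hq : ‖q‖ < 1) :
    ev F q * ev G q = 1 := by rw [← ev_mul hF hG hq, h, ev_one]

end

end Pool.Agent.Lib.MP_caab05_ag.W3
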