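import Pool.Agent.Lib.MP_caab05_ag.W3.Vdef

/-!
Elementary real inequalities for the final assembly of the determinant argument.
-/

namespace Pool.Agent.Lib.MP_caab05_ag.W3

open Finset

noncomputable section

namespace Co

lemma lin_sum (A s : ℝ) (w : ℕ) :
    ∑ i ∈ range w, (A + s * i) = A * w + s * (w * (w - 1) / 2) := by
  induction w with
  | zero => simp
  | succ w ih => rw [sum_range_succ, ih]; push_cast; ring

lemma swap_sum {S : Finset ℕ} {N : ℕ} (hS : S.card = N) {f g : ℕ → ℝ} {lam : ℝ}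
    (h1 : ∀ n < N, g n ≤ f n) (h2 : ∀ n < N, g n ≤ lam) (h3 : ∀ n, N ≤ n → lam ≤ f n) :
    ∑ n ∈ range N, g n ≤ ∑ n ∈ S, f n := by
  have hc : (range N \ S).card = (S \ range N).card :=
    card_sdiff_comm (by rw [card_range, hS])
  rw [← sum_inter_add_sum_sdiff (range N) S g, ← sum_inter_add_sum_sdiff S (range N) f,
    inter_comm S]
  have a1 : ∑ n ∈ range N ∩ S, g n ≤ ∑ n ∈ range N ∩ S, f n :=
    sum_le_sum fun n hn => h1 n (mem_range.1 (mem_inter.1 hn).1)
  have a2 : ∑ n ∈ range N \ S, g n ≤ (range N \ S).card • lam :=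
    sum_le_card_nsmul _ _ _ fun n hn => h2 n (mem_range.1 (mem_sdiff.1 hn).1)
  have a3 : (S \ range N).card • lam ≤ ∑ n ∈ S \ range N, f n :=
    card_nsmul_le_sum _ _ _ fun n hn => h3 n (by simpa using (mem_sdiff.1 hn).2)
  rw [hc] at a2
  linarith

/-- the gain of the column `n` from the maximum principle -/
def gain (D n : ℕ) : ℝ :=
  if n < D then -(D * 2 - (n - 0 * D) * (4 / 5))
  else if 2 * n < 5 * D then -(D * (107 / 100) - (n - 1 * D) * (63 / 25))
  else -(D * (-271 / 100) - (n - 5 / 2 * D) * (31 / 10))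

def net0 (D n : ℕ) : ℝ := gain D n - cost D n

lemma net0_1 {m n : ℕ} (h : n < 16 * m) : net0 (16 * m) n = -32 * m + 4 / 5 * n := by
  have h' : (n : ℝ) < 16 * m := by exact_mod_cast h
  have hm : (0 : ℝ) ≤ m := Nat.cast_nonneg m
  rw [net0, gain, if_pos h, cost]; push_cast
  rw [max_eq_right (by linarith), max_eq_right (by linarith), max_eq_right (by linarith)]; ring

lemma net0_2 {m n : ℕ} (h0 : 16 * m ≤ n) (h : n < 24 * m) :
    net0 (16 * m) n = -428 / 25 * m + 38 / 25 * (n - 16 * m) := by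
  have h' : (n : ℝ) < 24 * m := by exact_mod_cast h
  have h0' : (16 * m : ℝ) ≤ n := by exact_mod_cast h0
  have hm : (0 : ℝ) ≤ m := Nat.cast_nonneg m
  rw [net0, gain, if_neg (by omega), if_pos (by omega), cost]; push_cast
  rw [max_eq_left (by linarith), max_eq_right (by linarith), max_eq_right (by linarith)]; ring

lemma net0_3 {m n : ℕ} (h0 : 24 * m ≤ n) (h : n < 40 * m) :
    net0 (16 * m) n = -124 / 25 * m + 13 / 25 * (n - 24 * m) := by
  have h' : (n : ℝ) < 40 * m := by exact_mod_cast h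
  have h0' : (24 * m : ℝ) ≤ n := by exact_mod_cast h0
  have hm : (0 : ℝ) ≤ m := Nat.cast_nonneg m
  rw [net0, gain, if_neg (by omega), if_pos (by omega), cost]; push_cast
  rw [max_eq_left (by linarith), max_eq_left (by linarith), max_eq_right (by linarith)]; ring

lemma net0_4 {m n : ℕ} (h0 : 40 * m ≤ n) (h : n < 96 * m) :
    net0 (16 * m) n = 84 / 25 * m + 11 / 10 * (n - 40 * m) := by
  have h' : (n : ℝ) < 96 * m := by exact_mod_cast h
  have h0' : (40 * m : ℝ) ≤ n := by exact_mod_cast h0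
  have hm : (0 : ℝ) ≤ m := Nat.cast_nonneg m
  rw [net0, gain, if_neg (by omega), if_neg (by omega), cost]; push_cast
  rw [max_eq_left (by linarith), max_eq_left (by linarith), max_eq_right (by linarith)]; ring

lemma net0_5 {m n : ℕ} (h0 : 96 * m ≤ n) :
    net0 (16 * m) n = 1624 / 25 * m + 23 / 30 * (n - 96 * m) := by
  have h0' : (96 * m : ℝ) ≤ n := by exact_mod_cast h0
  have hm : (0 : ℝ) ≤ m := Nat.cast_nonneg m
  rw [net0, gain, if_neg (by omega), if_neg (by omega), cost]; push_cast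
  rw [max_eq_left (by linarith), max_eq_left (by linarith), max_eq_left (by linarith)]; ring

lemma net0_le {m n : ℕ} (h : n < 112 * m) : net0 (16 * m) n ≤ 5792 / 75 * m := by
  have h' : (n : ℝ) < 112 * m := by exact_mod_cast h
  have hm : (0 : ℝ) ≤ m := Nat.cast_nonneg m
  rcases lt_or_ge n (16 * m) with a | a
  · have : (n : ℝ) < 16 * m := by exact_mod_cast a
    rw [net0_1 a]; linarith
  rcases lt_or_ge n (24 * m) with b | b
  · have : (n : ℝ) < 24 * m := by exact_mod_cast b
    rw [net0_2 a b]; linarith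
  rcases lt_or_ge n (40 * m) with c | c
  · have : (n : ℝ) < 40 * m := by exact_mod_cast c
    rw [net0_3 b c]; linarith
  rcases lt_or_ge n (96 * m) with d | d
  · have : (n : ℝ) < 96 * m := by exact_mod_cast d
    rw [net0_4 c d]; linarith
  · rw [net0_5 d]; linarith

lemma piece (m a w : ℕ) (A s : ℝ) (f : ℕ → ℝ)
    (h : ∀ n, a * m ≤ n → n < a * m + w * m → f n = A + s * (n - a * m)) :
    ∑ i ∈ range (w * m), f (a * m + i) = A * (w * m) + s * (w * m * (w * m - 1) / 2) := by
  have := lin_sum A s (w * m)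
  push_cast at this
  rw [← this]
  refine sum_congr rfl fun i hi => ?_
  rw [h _ (by omega) (by have := mem_range.1 hi; omega)]; push_cast; ring

lemma sum_net0 (m : ℕ) :
    2539 * (m : ℝ) ^ 2 - 54 * m ≤ ∑ n ∈ range (112 * m), net0 (16 * m) n := by
  have hm : (0 : ℝ) ≤ m := Nat.cast_nonneg m
  have e1 := piece m 0 16 (-32 * m) (4 / 5) (net0 (16 * m)) fun n _ h => by
    rw [net0_1 (by omega)]; simp
  have e2 := piece m 16 8 _ _ (net0 (16 * m)) fun n h0 h => net0_2 h0 (by omega)
  have e3 := piece m 24 16 _ _ (net0 (16 * m)) fun n h0 h => net0_3 h0 (by omega)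
  have e4 := piece m 40 56 _ _ (net0 (16 * m)) fun n h0 h => net0_4 h0 (by omega)
  have e5 := piece m 96 16 _ _ (net0 (16 * m)) fun n h0 _ => net0_5 h0
  simp only [zero_mul, zero_add] at e1
  rw [show 112 * m = 96 * m + 16 * m by ring, sum_range_add, e5,
    show 96 * m = 40 * m + 56 * m by ring, sum_range_add, e4,
    show 40 * m = 24 * m + 16 * m by ring, sum_range_add, e3,
    show 24 * m = 16 * m + 8 * m by ring, sum_range_add, e2, e1]
  push_cast
  nlinarith [mul_nonneg hm hm]

/-- lower bound for the sum over any injective choice of columns -/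
lemma cols_le (m : ℕ) {ι : Type*} [Fintype ι] (hc : Fintype.card ι = 112 * m) {col : ι → ℕ}
    (hinj : Function.Injective col) :
    2467 * (m : ℝ) ^ 2 - 54 * m ≤
      ∑ k, (gain (16 * m) (col k) - (cost (16 * m) (col k) +
        1 / 200 * ((col k : ℝ) + (16 * m : ℕ)))) := by
  classical
  have hm : (0 : ℝ) ≤ m := Nat.cast_nonneg m
  have h1 := swap_sum (S := univ.image col) (N := 112 * m)
    (by rw [card_image_of_injective _ hinj, card_univ, hc])
    (f := fun n => gain (16 * m) n - (cost (16 * m) n + 1 / 200 * ((n : ℝ) + (16 * m : ℕ))))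
    (g := fun n => net0 (16 * m) n - 16 / 25 * m) (lam := 5792 / 75 * m - 16 / 25 * m)
    (fun n hn => by
      have h' : (n : ℝ) < 112 * m := by exact_mod_cast hn
      simp only [net0]; push_cast; linarith)
    (fun n hn => by have := net0_le hn; linarith)
    (fun n hn => by
      have h' : (112 * m : ℝ) ≤ n := by exact_mod_cast hn
      have := net0_5 (m := m) (n := n) (by omega)
      simp only [net0] at this
      push_cast; linarith)
  rw [sum_image fun a _ b _ h => hinj h, sum_sub_distrib, sum_const, card_range, nsmul_eq_mul] at h1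
  have h2 := sum_net0 m
  push_cast at h1 ⊢
  nlinarith [mul_nonneg hm hm]

def be (j : ℕ) : ℝ := (betaZ j : ℝ) / 1024

/-- the row weight -/
def Bw (m i : ℕ) : ℝ := 16 * (((m : ℝ) - (i % m : ℕ)) * be (i / m) + (i % m : ℕ) * be (i / m + 1))

lemma le_vfun {j : ℕ} (hj : j ≤ 16) (y : ℝ) : (j : ℝ) * y ≤ 16 * vfun y + 16 * be j := by
  have : (j : ℝ) / 16 * y - (betaZ j : ℝ) / 1024 ≤ vfun y :=
    le_sup' (fun i : ℕ => (i : ℝ) / 16 * y - (betaZ i : ℝ) / 1024) (mem_range.2 (by omega))
  rw [be]; linarith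

lemma row_le {m i : ℕ} (hi : i < 16 * m) (y : ℝ) :
    (i : ℝ) * y ≤ Bw m i + (16 * m : ℕ) * vfun y := by
  have hm : 0 < m := by omega
  have hj : i / m < 16 := by rw [Nat.div_lt_iff_lt_mul hm]; exact hi
  have h1 := le_vfun (j := i / m) (by omega) y
  have h2 := le_vfun (j := i / m + 1) (by omega) y
  have hr : ((i % m : ℕ) : ℝ) ≤ m := by exact_mod_cast (Nat.mod_lt i hm).le
  have hr0 : (0 : ℝ) ≤ (i % m : ℕ) := Nat.cast_nonneg _
  have e : (i : ℝ) = m * (i / m : ℕ) + (i % m : ℕ) := by exact_mod_cast (Nat.div_add_mod i m).symm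
  have a1 := mul_le_mul_of_nonneg_left h1 (sub_nonneg.2 hr)
  have a2 := mul_le_mul_of_nonneg_left h2 hr0
  rw [Bw]
  push_cast at a2 ⊢
  generalize ((i / m : ℕ) : ℝ) = j at *
  generalize ((i % m : ℕ) : ℝ) = r at *
  rw [e]
  nlinarith

lemma sum_Bw_aux {m : ℕ} (hm : 0 < m) (J : ℕ) : ∑ i ∈ range (J * m), Bw m i =
    ∑ j ∈ range J, (8 * (m : ℝ) ^ 2 * (be j + be (j + 1)) + 8 * m * (be j - be (j + 1))) := by
  induction J with
  | zero => simp
  | succ J ih =>
    rw [add_mul, one_mul, sum_range_add, ih, sum_range_succ]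
    congr 1
    have := lin_sum (16 * m * be J) (16 * (be (J + 1) - be J)) m
    rw [show 8 * (m : ℝ) ^ 2 * (be J + be (J + 1)) + 8 * m * (be J - be (J + 1)) =
      16 * m * be J * m + 16 * (be (J + 1) - be J) * (m * (m - 1) / 2) by ring, ← this]
    refine sum_congr rfl fun r hr => ?_
    have hr' := mem_range.1 hr
    have e1 : (J * m + r) / m = J := by
      rw [add_comm, Nat.add_mul_div_right _ _ hm, Nat.div_eq_of_lt hr', zero_add]
    have e2 : (J * m + r) % m = r := by
      rw [add_comm, Nat.add_mul_mod_self_right, Nat.mod_eq_of_lt hr']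
    rw [Bw, e1, e2]; ring

lemma sum_Bw {m : ℕ} (hm : 0 < m) : ∑ i ∈ range (16 * m), Bw m i ≤ -207 * (m : ℝ) ^ 2 := by
  have hm' : (0 : ℝ) ≤ m := Nat.cast_nonneg m
  rw [sum_Bw_aux hm]
  simp only [sum_range_succ, sum_range_zero, be, betaZ]
  norm_num
  nlinarith [mul_nonneg hm' hm']

lemma exists_m (lc : ℝ) (D₀ : ℕ) : ∃ m : ℕ, 0 < m ∧ D₀ ≤ 16 * m ∧
    112 * m * Real.log (112 * m) + 112 * m * lc + 54 * m < 42 * (m : ℝ) ^ 2 := by
  obtain ⟨m0, h0⟩ := exists_nat_gt (8 * (Real.log 448 + lc) + 4)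
  refine ⟨max (max m0 D₀) 1, by omega, by omega, ?_⟩
  set m := max (max m0 D₀) 1 with hm
  have h1 : (m0 : ℝ) ≤ m := by exact_mod_cast (by omega : m0 ≤ m)
  have h2 : (0 : ℝ) < m := by exact_mod_cast (by omega : 0 < m)
  have h3 : Real.log (112 * m) = Real.log 448 + Real.log (m / 4) := by
    rw [← Real.log_mul (by norm_num) (by positivity)]; congr 1; ring
  have h4 := Real.log_le_sub_one_of_pos (x := m / 4) (by positivity)
  have h5 : 112 * Real.log (112 * m) + 112 * lc + 54 < 42 * m := by rw [h3]; linarith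
  nlinarith

end Co

end

end Pool.Agent.Lib.MP_caab05_ag.W3
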