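import Pool.Agent.Lib.MP_caab05_ag.W3.Indep1

/-!
Independence of solutions of a triangular differential system over the polynomial ring.
-/

namespace Pool.Agent.Lib.MP_caab05_ag.W3

open Polynomial

noncomputable section

variable {R : Type*} [CommRing R]

/-- a derivation extending `ipD` -/
structure IpDer (φ : ℂ[X] →+* R) (de : R → R) : Prop where
  inj : Function.Injective φ
  add : ∀ F G, de (F + G) = de F + de G
  mul : ∀ F G, de (F * G) = F * de G + G * de F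
  pol : ∀ P, de (φ P) = φ (ipD P)

/-- a solution of the inhomogeneous second order equation -/
structure IpPair (φ : ℂ[X] →+* R) (de : R → R) (n : ℂ) (L : ℂ[X]) (A B : R) : Prop where
  hn : n ^ 2 = -3
  deg : L.natDegree ≤ 1
  ne : L ≠ 0
  dA : de A = B - φ (C n * X) * A
  dB : de B = φ (X * L) - φ (C n * X) * B - φ ipS * A

variable {φ : ℂ[X] →+* R} {de : R → R} {n : ℂ} {L L' : ℂ[X]} {A B A' B' J5 J6 : R}

lemma IpDer.zero (h : IpDer φ de) : de 0 = 0 := by simpa [ipD_zero] using h.pol 0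

/-- first coordinate of the derived relation -/
def ipU (n : ℂ) (p1 p2 : ℂ[X]) : ℂ[X] := ipD p1 - C n * X * p1 - ipS * p2
/-- second coordinate of the derived relation -/
def ipV (n : ℂ) (p1 p2 : ℂ[X]) : ℂ[X] := ipD p2 - C n * X * p2 + p1
/-- the determinant of a relation and its derivative -/
def ipW (n : ℂ) (p1 p2 : ℂ[X]) : ℂ[X] := p1 * ipV n p1 p2 - p2 * ipU n p1 p2

lemma ipW_zero {p1 p2 : ℂ[X]} (h : ipW n p1 p2 = 0) : p1 = 0 ∧ p2 = 0 :=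
  ip_RIC (by simp only [ipW, ipU, ipV] at h; linear_combination -h)

lemma ipW_der (n : ℂ) (p1 p2 : ℂ[X]) : ipD (ipW n p1 p2) = p1 * ipV n (ipU n p1 p2) (ipV n p1 p2)
    - p2 * ipU n (ipU n p1 p2) (ipV n p1 p2) + 2 * C n * X * ipW n p1 p2 := by
  have h1 : ipD p1 = ipU n p1 p2 + C n * X * p1 + ipS * p2 := by rw [ipU]; ring
  have h2 : ipD p2 = ipV n p1 p2 + C n * X * p2 - p1 := by rw [ipV]; ring
  rw [ipW, ipD_sub, ipD_mul, ipD_mul, h1, h2]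
  generalize ipU n p1 p2 = q1
  generalize ipV n p1 p2 = q2
  rw [ipU, ipV]; ring

lemma IpPair.der (h : IpDer φ de) (P : IpPair φ de n L A B) (p1 p2 : ℂ[X]) :
    de (φ p1 * A + φ p2 * B) = φ (p2 * X * L) + φ (ipU n p1 p2) * A + φ (ipV n p1 p2) * B := by
  simp only [h.add, h.mul, h.pol, P.dA, P.dB, ipU, ipV, map_add, map_sub, map_mul]; ring

lemma IpPair.ind (h : IpDer φ de) (P : IpPair φ de n L A B) {p0 p1 p2 : ℂ[X]}
    (e : φ p0 + (φ p1 * A + φ p2 * B) = 0) : p1 = 0 ∧ p2 = 0 := by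
  by_contra hc
  have hW : ipW n p1 p2 ≠ 0 := fun h0 => hc (ipW_zero h0)
  have e' := congrArg de e
  rw [h.add, h.pol, P.der h, h.zero] at e'
  set W := ipW n p1 p2 with hWd
  set N := p2 * (ipD p0 + p2 * X * L) - ipV n p1 p2 * p0 with hN
  set N1 := ipU n p1 p2 * p0 - p1 * (ipD p0 + p2 * X * L) with hN1
  have a1 : φ W * A = φ N := by
    simp only [hWd, hN, ipW, map_sub, map_mul, map_add] at e' ⊢
    linear_combination φ (ipV n p1 p2) * e - φ p2 * e'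
  have a2 : φ W * B = φ N1 := by
    simp only [hWd, hN1, ipW, map_sub, map_mul, map_add] at e' ⊢
    linear_combination φ p1 * e' - φ (ipU n p1 p2) * e
  have b1 := congrArg de a1
  have b2 := congrArg de a2
  rw [h.mul, h.pol, h.pol] at b1 b2
  rw [P.dA] at b1
  rw [P.dB] at b2
  refine P.ne (ip_NR P.hn P.deg _ N N1 W rfl hW (h.inj ?_) (h.inj ?_))
  · simp only [map_sub, map_mul, map_add] at b1 ⊢
    linear_combination -φ W * b1 + (φ (ipD W) - φ (C n) * φ X * φ W) * a1 + φ W * a2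
  · simp only [map_sub, map_mul, map_add, map_pow] at b2 ⊢
    linear_combination -φ W * b2 + (φ (ipD W) - φ (C n) * φ X * φ W) * a2 - φ ipS * φ W * a1

lemma ip_two (h : IpDer φ de) (P : IpPair φ de n L A B) (P' : IpPair φ de (-n) L' A' B')
    {p0 p1 p2 p3 p4 : ℂ[X]} (e : φ p0 + (φ p1 * A + φ p2 * B) + (φ p3 * A' + φ p4 * B') = 0) :
    (p1 = 0 ∧ p2 = 0) ∧ p3 = 0 ∧ p4 = 0 := by
  by_cases hW : ipW n p1 p2 = 0
  · obtain ⟨rfl, rfl⟩ := ipW_zero hW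
    exact ⟨⟨rfl, rfl⟩, P'.ind h (p0 := p0) (by simpa using e)⟩
  by_cases hW' : ipW (-n) p3 p4 = 0
  · obtain ⟨rfl, rfl⟩ := ipW_zero hW'
    exact ⟨P.ind h (p0 := p0) (by simpa using e), rfl, rfl⟩
  exfalso
  have D : ∀ {p0 p1 p2 p3 p4 : ℂ[X]},
      φ p0 + (φ p1 * A + φ p2 * B) + (φ p3 * A' + φ p4 * B') = 0 → ∃ q0,
      φ q0 + (φ (ipU n p1 p2) * A + φ (ipV n p1 p2) * B)
        + (φ (ipU (-n) p3 p4) * A' + φ (ipV (-n) p3 p4) * B') = 0 := by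
    intro p0 p1 p2 p3 p4 e
    have e' := congrArg de e
    rw [h.add, h.add, h.pol, P.der h, P'.der h, h.zero] at e'
    exact ⟨ipD p0 + p2 * X * L + p4 * X * L', by simp only [map_add]; linear_combination e'⟩
  obtain ⟨q0, e1⟩ := D e
  obtain ⟨r0, e2⟩ := D e1
  have w1 := ipW_der n p1 p2
  have w2 := ipW_der (-n) p3 p4
  refine ip_RES P.hn hW hW' ?_
  rw [w1, w2]
  simp only [ipW]
  generalize ipU n p1 p2 = q1 at *
  generalize ipV n p1 p2 = q2 at *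
  generalize ipU (-n) p3 p4 = q3 at *
  generalize ipV (-n) p3 p4 = q4 at *
  generalize ipU n q1 q2 = r1 at *
  generalize ipV n q1 q2 = r2 at *
  generalize ipU (-n) q3 q4 = r3 at *
  generalize ipV (-n) q3 q4 = r4 at *
  obtain ⟨k3, k4⟩ := P'.ind h
    (p0 := (p1 * q2 - p2 * q1) * r0 - (q2 * r1 - q1 * r2) * p0 - (p1 * r2 - p2 * r1) * q0)
    (p1 := (p1 * q2 - p2 * q1) * r3 - (q2 * r1 - q1 * r2) * p3 - (p1 * r2 - p2 * r1) * q3)
    (p2 := (p1 * q2 - p2 * q1) * r4 - (q2 * r1 - q1 * r2) * p4 - (p1 * r2 - p2 * r1) * q4) (by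
      simp only [map_sub, map_mul]
      linear_combination (φ p1 * φ q2 - φ p2 * φ q1) * e2 - (φ q2 * φ r1 - φ q1 * φ r2) * e
        - (φ p1 * φ r2 - φ p2 * φ r1) * e1)
  simp only [map_neg]
  linear_combination p3 * k4 - p4 * k3

theorem ip_all (h : IpDer φ de) (P : IpPair φ de n L A B) (P' : IpPair φ de (-n) L' A' B')
    {u : ℂ} (hu : u ≠ 0) {v5 v6 : ℂ[X]} (h5 : de J5 = φ (X * (1 - C u * X)) * A + φ v5 * A')
    (h6 : de J6 = φ X * A + φ v6 * A') {p0 p1 p2 p3 p4 p5 p6 : ℂ[X]}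
    (e : φ p0 + (φ p1 * A + φ p2 * B) + (φ p3 * A' + φ p4 * B') + (φ p5 * J5 + φ p6 * J6) = 0) :
    p0 = 0 ∧ (p1 = 0 ∧ p2 = 0) ∧ (p3 = 0 ∧ p4 = 0) ∧ p5 = 0 ∧ p6 = 0 := by
  have D : ∀ {p0 p1 p2 p3 p4 p5 p6 : ℂ[X]},
      φ p0 + (φ p1 * A + φ p2 * B) + (φ p3 * A' + φ p4 * B') + (φ p5 * J5 + φ p6 * J6) = 0 →
      ∃ q0 q3, φ q0 + (φ (ipU n p1 p2 + X * (1 - C u * X) * p5 + X * p6) * A + φ (ipV n p1 p2) * B)
        + (φ q3 * A' + φ (ipV (-n) p3 p4) * B') + (φ (ipD p5) * J5 + φ (ipD p6) * J6) = 0 := by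
    intro p0 p1 p2 p3 p4 p5 p6 e
    have e' := congrArg de e
    rw [h.add, h.add, h.add, h.pol, P.der h, P'.der h, h.zero, h.add, h.mul, h.mul, h5, h6, h.pol,
      h.pol] at e'
    refine ⟨ipD p0 + p2 * X * L + p4 * X * L', ipU (-n) p3 p4 + v5 * p5 + v6 * p6, ?_⟩
    simp only [map_add, map_mul] at e' ⊢
    linear_combination e'
  have K : ∀ {p0 p1 p2 p3 p4 M : ℂ[X]} {c5 c6 : ℂ}, M ≠ 0 →
      φ p0 + (φ p1 * A + φ p2 * B) + (φ p3 * A' + φ p4 * B')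
        + (φ (M * C c5) * J5 + φ (M * C c6) * J6) = 0 → c5 = 0 ∧ c6 = 0 := by
    intro p0 p1 p2 p3 p4 M c5 c6 hM e
    obtain ⟨q0, q3, e1⟩ := D e
    obtain ⟨⟨k1, k2⟩, -⟩ := ip_two h P P' (p0 := M * q0 - ipD M * p0)
      (p1 := M * (ipU n p1 p2 + X * (1 - C u * X) * (M * C c5) + X * (M * C c6)) - ipD M * p1)
      (p2 := M * ipV n p1 p2 - ipD M * p2) (p3 := M * q3 - ipD M * p3)
      (p4 := M * ipV (-n) p3 p4 - ipD M * p4) (by
        simp only [ipD_mul, ipD_C, map_sub, map_mul, map_add, mul_zero, zero_add] at e e1 ⊢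
        linear_combination φ M * e1 - φ (ipD M) * e)
    have k3 := ip_NR P'.hn (L := C (c5 + c6) - C (c5 * u) * X) (by compute_degree) _ p2 (-p1) M rfl
      hM (by simp only [ipV, map_neg] at k2 ⊢; linear_combination k2)
      (by simp only [ipU, ipD_neg, map_neg, map_add, map_mul] at k1 ⊢; linear_combination -k1)
    have k4 := congrArg (coeff · 0) k3
    have k5 := congrArg (coeff · 1) k3
    simp only [coeff_sub, coeff_C_mul, coeff_C_zero, coeff_X_zero, coeff_zero, coeff_X_one,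
      coeff_C_succ] at k4 k5
    have k6 : c5 = 0 := mul_right_cancel₀ hu (by linear_combination -k5)
    exact ⟨k6, by linear_combination k4 - k6⟩
  have h56 : p5 = 0 ∧ p6 = 0 := by
    by_cases hp : p5 = 0
    · refine ⟨hp, by_contra fun h6 => ?_⟩
      exact one_ne_zero (K (c5 := 0) (c6 := 1) h6 (by simpa [hp] using e)).2
    exfalso
    by_cases hW : p5 * ipD p6 = p6 * ipD p5
    · obtain ⟨c, rfl⟩ := ip_WR hp hW
      exact one_ne_zero (K (c5 := 1) (c6 := c) hp (by simpa using e)).1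
    · obtain ⟨q0, q3, e1⟩ := D e
      refine one_ne_zero (K (c5 := 0) (c6 := 1) (sub_ne_zero.2 hW) (p0 := p5 * q0 - ipD p5 * p0)
        (p1 := p5 * (ipU n p1 p2 + X * (1 - C u * X) * p5 + X * p6) - ipD p5 * p1)
        (p2 := p5 * ipV n p1 p2 - ipD p5 * p2) (p3 := p5 * q3 - ipD p5 * p3)
        (p4 := p5 * ipV (-n) p3 p4 - ipD p5 * p4) ?_).2
      simp only [map_sub, map_mul, map_add, map_zero, map_one] at e1 ⊢
      linear_combination φ p5 * e1 - φ (ipD p5) * e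
  obtain ⟨rfl, rfl⟩ := h56
  obtain ⟨⟨rfl, rfl⟩, rfl, rfl⟩ := ip_two h P P' (p0 := p0) (p1 := p1) (p2 := p2) (p3 := p3)
    (p4 := p4) (by simpa using e)
  exact ⟨h.inj (by simpa using e), ⟨rfl, rfl⟩, ⟨rfl, rfl⟩, rfl, rfl⟩

lemma ip_fin {l L1 L2 w1 w2 Q0 Q1 Q2 Q3 Q4 Q5 Q6 : ℂ[X]} (hl : l = L1 * L2) (h0 : l ≠ 0)
    (h : l ^ 2 * Q0 = 0 ∧ ((l ^ 2 * Q1 + 27 * X ^ 2 * l * Q2) * L2 + (l * Q3 + 27 * X ^ 2 * Q4) * w2 = 0
      ∧ (l * Q3 + 27 * X ^ 2 * Q4) * L2 = 0) ∧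
      ((l ^ 2 * Q1 + l * Q2) * L1 - (l * Q3 + Q4) * w1 = 0 ∧ -(l * Q3 + Q4) * L1 = 0) ∧
      l ^ 2 * Q5 = 0 ∧ l ^ 2 * Q6 = 0) :
    Q0 = 0 ∧ Q1 = 0 ∧ Q2 = 0 ∧ Q3 = 0 ∧ Q4 = 0 ∧ Q5 = 0 ∧ Q6 = 0 := by
  obtain ⟨a0, ⟨a1, a2⟩, ⟨a3, a4⟩, a5, a6⟩ := h
  have h1 : L1 ≠ 0 := left_ne_zero_of_mul (hl ▸ h0)
  have h2 : L2 ≠ 0 := right_ne_zero_of_mul (hl ▸ h0)
  have h3 : (27 * X ^ 2 - 1 : ℂ[X]) ≠ 0 := fun h => by simpa using congrArg (eval 0) h
  have hl2 := pow_ne_zero 2 h0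
  have b2 := (mul_eq_zero.1 a2).resolve_right h2
  have b4 := (mul_eq_zero.1 a4).resolve_right h1
  have b1 : l ^ 2 * Q1 + 27 * X ^ 2 * l * Q2 = 0 :=
    mul_right_cancel₀ h2 (by linear_combination a1 - w2 * b2)
  have b3 : l ^ 2 * Q1 + l * Q2 = 0 := mul_right_cancel₀ h1 (by linear_combination a3 - w1 * b4)
  have c4 : Q4 = 0 := mul_left_cancel₀ h3 (by linear_combination b2 + b4)
  have c2 : Q2 = 0 := mul_left_cancel₀ (mul_ne_zero h0 h3) (by linear_combination b1 - b3)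
  exact ⟨mul_left_cancel₀ hl2 (by linear_combination a0),
    mul_left_cancel₀ hl2 (by linear_combination b3 - l * c2), c2,
    mul_left_cancel₀ h0 (by linear_combination -b4 - c4), c4,
    mul_left_cancel₀ hl2 (by linear_combination a5), mul_left_cancel₀ hl2 (by linear_combination a6)⟩

end

end Pool.Agent.Lib.MP_caab05_ag.W3
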