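import Pool.Agent.Lib.MP_caab05_ag.W3.Defs
import Pool.Agent.Lib.MP_caab05_ag.W3.Indep2

namespace Pool.Agent.Lib.MP_caab05_ag.W3

open PowerSeries

noncomputable section

lemma ip_inj {F : ℂ⟦X⟧} (h0 : coeff 0 F = 0) (h1 : F ≠ 0) {P : Polynomial ℂ}
    (h : Polynomial.aeval F P = 0) : P = 0 := by
  by_contra hP
  obtain ⟨Q, e, hQ⟩ := Polynomial.exists_eq_pow_rootMultiplicity_mul_and_not_dvd P hP 0
  rw [e] at h
  simp only [map_zero, sub_zero, map_mul, map_pow, Polynomial.aeval_X] at h hQ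
  have h2 : Polynomial.aeval F Q = 0 := (mul_eq_zero.1 h).resolve_left (pow_ne_zero _ h1)
  have h3 := congrArg (constantCoeff (R := ℂ)) h2
  rw [← Polynomial.divX_mul_X_add Q] at h3
  rw [coeff_zero_eq_constantCoeff_apply] at h0
  refine hQ (Polynomial.X_dvd_iff.2 ?_)
  simpa [h0] using h3

lemma ip_th_wt {F : ℂ⟦X⟧} (h : constantCoeff F = 0) : th (wt (fun n => (n : ℂ)⁻¹) F) = F := by
  ext n
  rcases n with _ | n
  · simp [h]
  · rw [coeff_th, coeff_wt, ← mul_assoc, mul_inv_cancel₀ (by exact_mod_cast n.succ_ne_zero), one_mul]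

lemma ip_thth {F : ℂ⟦X⟧} (h : constantCoeff F = 0) (c : ℂ) :
    th (th (wt (fun n => (n : ℂ)⁻¹) (wt (fun n => (n : ℂ)⁻¹) F) - C c)) = F := by
  rw [th_sub, th_C, sub_zero, ip_th_wt, ip_th_wt h]
  rw [← coeff_zero_eq_constantCoeff_apply]; simp

namespace Sys

variable (σ : Sys ℂ)

/-- evaluation at `t` -/
def ipPhi : Polynomial ℂ →+* ℂ⟦X⟧ := (Polynomial.aeval σ.t : Polynomial ℂ →ₐ[ℂ] ℂ⟦X⟧)

/-- the derivation `ell t d/dt` -/
def ipDe (F : ℂ⟦X⟧) : ℂ⟦X⟧ := σ.bi ^ 2 * th F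

lemma ipPhi_X : σ.ipPhi Polynomial.X = σ.t := Polynomial.aeval_X _
lemma ipPhi_C (a : ℂ) : σ.ipPhi (Polynomial.C a) = C a := Polynomial.aeval_C _ _
lemma ip_t0 : constantCoeff σ.t = 0 := by rw [← coeff_zero_eq_constantCoeff_apply, σ.t0]
lemma ip_tne : σ.t ≠ 0 := fun h => by simpa [h] using σ.t1

lemma ipDe_t : σ.ipDe σ.t = σ.t * σ.ell := by
  rw [ipDe, σ.tht, ell]
  linear_combination σ.t * (1 + 9 * σ.t + 27 * σ.t ^ 2) * (σ.b * σ.bi + 1) * σ.hb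

lemma ipDer : IpDer σ.ipPhi σ.ipDe where
  inj := (injective_iff_map_eq_zero _).2 fun _ h => ip_inj σ.t0 σ.ip_tne h
  add F G := by simp only [ipDe, th_add]; ring
  mul F G := by simp only [ipDe, th_mul]; ring
  pol P := by
    have h := σ.ipDe_t
    have h2 : th (σ.ipPhi P) = σ.ipPhi (Polynomial.derivative P) * th σ.t := th_aeval P σ.t
    simp only [ipDe, ell, ipD, ipT, h2, map_mul, map_add, map_pow, map_one, map_ofNat,
      ipPhi_X] at h ⊢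
    linear_combination σ.ipPhi (Polynomial.derivative P) * h

lemma ip_cube {l li m : ℂ⟦X⟧} {v : ℂ} (h : l * li = 1) (h3 : l ^ 3 = 1 - C (3 * v) * σ.t)
    (he : σ.ell = l ^ 3 * m) : σ.ipDe l = -(C v * σ.t * m * l) ∧
      σ.ipDe li = C v * σ.t * m * li := by
  have a := congrArg th h3
  rw [th_pow_succ, th_sub, th_one, th_C_mul] at a
  have b := σ.ipDe_t
  have c := th_inv h
  rw [he] at b
  simp only [ipDe, map_mul, map_ofNat, Nat.cast_ofNat] at a b ⊢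
  have d : σ.bi ^ 2 * th l = -(C v * σ.t * m * l) := by
    have h0 : (3 * l ^ 2 : ℂ⟦X⟧) ≠ 0 := mul_ne_zero (fun h => by
      have := congrArg (constantCoeff (R := ℂ)) h
      rw [map_ofNat, map_zero] at this
      norm_num at this)
      (pow_ne_zero _ (left_ne_zero_of_mul_eq_one h))
    exact mul_left_cancel₀ h0 (by linear_combination σ.bi ^ 2 * a - 3 * C v * b)
  refine ⟨d, ?_⟩
  rw [c]
  linear_combination -li ^ 2 * d + C v * σ.t * m * li * h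

lemma ip_pair {n : ℂ} {L : Polynomial ℂ} (hn : n ^ 2 = -3) (deg : L.natDegree ≤ 1) (ne : L ≠ 0)
    {m G : ℂ⟦X⟧} (hm : σ.ipDe m = -(C n * σ.t * m))
    (hG : m * σ.bi ^ 3 * th (th G) = σ.t * σ.ipPhi L) :
    IpPair σ.ipPhi σ.ipDe n L (σ.b * m * G) (m * (σ.bi * th G - G * th σ.bi)) := by
  have h1 := th_inv σ.hb
  have h2 := σ.thb
  refine ⟨hn, deg, ne, ?_, ?_⟩
  · simp only [ipDe, th_mul, map_mul, ipPhi_X, ipPhi_C] at hm ⊢
    linear_combination σ.b * G * hm + m * G * h1 + m * σ.bi * th G * σ.hb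
  · simp only [ipDe, th_mul, th_sub, ipS, map_mul, map_add, map_pow, map_one, map_ofNat, ipPhi_X,
      ipPhi_C] at hm ⊢
    linear_combination (σ.bi * th G - G * th σ.bi) * hm + hG - m * G * σ.bi ^ 2 * h2
      - m * G * σ.b * (3 * σ.t + 27 * σ.t ^ 2) * (1 + 9 * σ.t + 27 * σ.t ^ 2)
        * (σ.b * σ.bi + 1) * σ.hb

end Sys

lemma ip_seven (σ : Sys ℂ) {a a' : ℂ} (h : a ≠ 0 ∨ a' ≠ 0) (c c' : ℂ) (Q : Fin 7 → Polynomial ℂ)
    (e : ∑ j, σ.ipPhi (Q j) * σ.fn (parC a a' c c') j = 0) (j : Fin 7) : Q j = 0 := by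
  have ho := σ.hom
  have hO : (C σ.om : ℂ⟦X⟧) ^ 2 + C σ.om + 1 = 0 := by simpa using congrArg (C (R := ℂ)) ho
  have hu1 : 3 * (σ.om - 1) ≠ 0 := fun h => by
    have : (27 : ℂ) = 0 := by linear_combination 9 * ho - 3 * (σ.om + 2) * h
    norm_num at this
  have hu2 : 3 * (σ.om ^ 2 - 1) ≠ 0 := fun h => by
    have : (27 : ℂ) = 0 := by
      linear_combination 9 * (σ.om ^ 2 - σ.om + 1) * ho - 3 * (σ.om ^ 2 + 2) * h
    norm_num at this
  have hn : (σ.om - σ.om ^ 2) ^ 2 = -3 := by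
    linear_combination (σ.om ^ 2 - 3 * σ.om + 3) * ho
  obtain ⟨d1, d1i⟩ := σ.ip_cube σ.hl1 σ.cube1 σ.ell_eq
  obtain ⟨d2, d2i⟩ := σ.ip_cube σ.hl2 σ.cube2 (σ.ell_eq.trans (mul_comm _ _))
  have c1 := σ.cube1
  have c2 := σ.cube2
  have hl := σ.ell_mul_elli
  have i1 : σ.l1 ^ 3 * σ.l1i ^ 3 = 1 := by rw [← mul_pow, σ.hl1, one_pow]
  have i2 : σ.l2 ^ 3 * σ.l2i ^ 3 = 1 := by rw [← mul_pow, σ.hl2, one_pow]
  have hk : σ.bi ^ 2 * σ.kap * σ.x = σ.t := by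
    rw [Sys.kap, Sys.x]
    linear_combination σ.t * σ.ell * σ.elli * (σ.b * σ.bi + 1) * σ.hb + σ.t * hl
  have x0 : constantCoeff σ.x = 0 := by simp [Sys.x, σ.ip_t0]
  set P := parC a a' c c' with hP
  have g0 : constantCoeff (σ.g P) = 0 := by simp [Sys.g, Sys.he', Sys.hc', x0]
  have g0' : constantCoeff (σ.g' P) = 0 := by simp [Sys.g', Sys.he, Sys.hc, x0]
  set G := wt P.w (wt P.w (σ.g P)) - C P.c with hG
  set G' := wt P.w (wt P.w (σ.g' P)) - C P.c' with hG'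
  have tG : th (th G) = σ.g P := ip_thth g0 c
  have tG' : th (th G') = σ.g' P := ip_thth g0' c'
  have P1 := σ.ip_pair hn (L := Polynomial.C a * (1 - Polynomial.C (3 * (σ.om - 1)) * Polynomial.X)
      - Polynomial.C a' * Polynomial.C (3 * (σ.om - 1)) * Polynomial.X) (by compute_degree)
    (fun h0 => by
      have k0 := congrArg (Polynomial.eval 0) h0
      have k1 := congrArg (Polynomial.eval 1) h0
      simp only [Polynomial.eval_sub, Polynomial.eval_mul, Polynomial.eval_C, Polynomial.eval_X,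
        Polynomial.eval_one, Polynomial.eval_zero, mul_zero, sub_zero, mul_one] at k0 k1
      rw [k0] at k1
      exact h.elim (fun h => h k0) fun h => mul_ne_zero h hu1 (by linear_combination -k1))
    (m := σ.l1 * σ.l2i) (G := G) (by
      rw [σ.ipDer.mul, d1, d2i, c1, c2]
      simp only [map_mul, map_sub, map_pow, map_one, map_ofNat]; ring) (by
      simp only [tG, Sys.g, Sys.he', Sys.hc', Sys.E, map_mul, map_sub, map_one, Sys.ipPhi_X,
        Sys.ipPhi_C, hP, parC] at c1 ⊢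
      have k : σ.l1 * σ.l2i * σ.bi ^ 3 * (σ.b * σ.l1 ^ 2 * σ.l2 * σ.kap * σ.x) = σ.t * σ.l1 ^ 3 := by
        linear_combination σ.l1 ^ 3 * σ.b * σ.bi * σ.l2 * σ.l2i * hk
          + σ.t * σ.l1 ^ 3 * σ.l2 * σ.l2i * σ.hb + σ.t * σ.l1 ^ 3 * σ.hl2
      linear_combination (C a + C a' * (1 - σ.l1i ^ 3)) * k + (C a + C a') * σ.t * c1
        - C a' * σ.t * i1)
  have P2 := σ.ip_pair (n := -(σ.om - σ.om ^ 2)) (by rw [neg_sq, hn])
    (L := Polynomial.C a * (1 - Polynomial.C (3 * (σ.om ^ 2 - 1)) * Polynomial.X)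
      + Polynomial.C a') (by compute_degree)
    (fun h0 => by
      have k0 := congrArg (Polynomial.eval 0) h0
      have k1 := congrArg (Polynomial.eval 1) h0
      simp only [Polynomial.eval_sub, Polynomial.eval_mul, Polynomial.eval_C, Polynomial.eval_X,
        Polynomial.eval_one, Polynomial.eval_zero, mul_zero, sub_zero, mul_one,
        Polynomial.eval_add] at k0 k1
      have k2 : a = 0 := mul_right_cancel₀ hu2 (by linear_combination k0 - k1)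
      exact h.elim (fun h => h k2) fun h => h (by linear_combination k0 - k2))
    (m := σ.l2 * σ.l1i) (G := G') (by
      rw [σ.ipDer.mul, d2, d1i, c1, c2]
      simp only [map_mul, map_sub, map_pow, map_one, map_ofNat, map_neg]; ring) (by
      simp only [tG', Sys.g', Sys.he, Sys.hc, Sys.Eb, map_mul, map_sub, map_add, map_one,
        Sys.ipPhi_X, Sys.ipPhi_C, hP, parC] at c2 ⊢
      have k : σ.l2 * σ.l1i * σ.bi ^ 3 * (σ.b * σ.l1 * σ.l2 ^ 2 * σ.kap * σ.x) = σ.t * σ.l2 ^ 3 := by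
        linear_combination σ.l2 ^ 3 * σ.b * σ.bi * σ.l1 * σ.l1i * hk
          + σ.t * σ.l2 ^ 3 * σ.l1 * σ.l1i * σ.hb + σ.t * σ.l2 ^ 3 * σ.hl1
      linear_combination (C a + C a' * σ.l2i ^ 3) * k + C a * σ.t * c2 + C a' * σ.t * i2)
  have hA : σ.AA P = σ.l2 ^ 3 * (σ.b * (σ.l1 * σ.l2i) * G) := by
    rw [Sys.AA, Sys.Eb, ← hG]; linear_combination -σ.b * σ.l1 * σ.l2 ^ 2 * G * σ.hl2
  have hA' : σ.AA' P = σ.l1 ^ 3 * (σ.b * (σ.l2 * σ.l1i) * G') := by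
    rw [Sys.AA', Sys.E, ← hG']; linear_combination -σ.b * σ.l2 * σ.l1 ^ 2 * G' * σ.hl1
  generalize σ.b * (σ.l1 * σ.l2i) * G = A at P1 hA
  generalize σ.b * (σ.l2 * σ.l1i) * G' = A' at P2 hA'
  generalize σ.l1 * σ.l2i * (σ.bi * th G - G * th σ.bi) = B at P1
  generalize σ.l2 * σ.l1i * (σ.bi * th G' - G' * th σ.bi) = B' at P2
  set L1 : Polynomial ℂ := 1 - Polynomial.C (3 * (σ.om - 1)) * Polynomial.X with hL1
  set L2 : Polynomial ℂ := 1 - Polynomial.C (3 * (σ.om ^ 2 - 1)) * Polynomial.X with hL2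
  have f1 : σ.l1 ^ 3 = σ.ipPhi L1 := by
    rw [hL1, map_sub, map_mul, map_one, Sys.ipPhi_C, Sys.ipPhi_X, c1]
  have f2 : σ.l2 ^ 3 = σ.ipPhi L2 := by
    rw [hL2, map_sub, map_mul, map_one, Sys.ipPhi_C, Sys.ipPhi_X, c2]
  have f0 : σ.ell = σ.ipPhi (L1 * L2) := by rw [map_mul, ← f1, ← f2, σ.ell_eq]
  have h5 : σ.ipDe (σ.fn P 5) = σ.ipPhi (Polynomial.X * L2) * A
      + σ.ipPhi (-(Polynomial.X * L1)) * A' := by
    have : σ.fn P 5 = wt (fun n => (n : ℂ)⁻¹) (σ.kap * (σ.x * σ.AA P - σ.x * σ.AA' P)) := rfl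
    rw [this, Sys.ipDe, ip_th_wt (by simp [x0]), map_neg, map_mul, map_mul, ← f1, ← f2, hA, hA',
      Sys.ipPhi_X]
    linear_combination (σ.l2 ^ 3 * A - σ.l1 ^ 3 * A') * hk
  have h6 : σ.ipDe (σ.fn P 6) = σ.ipPhi Polynomial.X * A
      + σ.ipPhi (Polynomial.X * (1 - L1)) * A' := by
    have : σ.fn P 6 = wt (fun n => (n : ℂ)⁻¹) (σ.kap * (σ.x * σ.l2i ^ 3 * σ.AA P
      - σ.x * (1 - σ.l1i ^ 3) * σ.AA' P)) := rfl
    rw [this, Sys.ipDe, ip_th_wt (by simp [x0]), map_mul, map_sub, map_one, ← f1, hA, hA',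
      Sys.ipPhi_X]
    linear_combination (σ.l2i ^ 3 * σ.l2 ^ 3 * A - (1 - σ.l1i ^ 3) * σ.l1 ^ 3 * A') * hk
      + σ.t * A * i2 + σ.t * A' * i1
  have ht : ∀ F, σ.ell * σ.tt F = σ.ipDe F := fun F => by
    rw [Sys.tt, Sys.kapi, Sys.ipDe]; linear_combination σ.bi ^ 2 * th F * hl
  have tA := ht (σ.AA P)
  have tA' := ht (σ.AA' P)
  rw [hA, f2, σ.ipDer.mul, σ.ipDer.pol, P1.dA, ← f2, ← hA] at tA
  rw [hA', f1, σ.ipDer.mul, σ.ipDer.pol, P2.dA, ← f1, ← hA'] at tA'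
  have hx : σ.ell * σ.x = σ.t := by rw [Sys.x]; linear_combination σ.t * hl
  have r := ip_fin (l := L1 * L2) (L1 := L1) (L2 := L2)
    (w1 := ipD L1 - Polynomial.C (-(σ.om - σ.om ^ 2)) * Polynomial.X * L1)
    (w2 := ipD L2 - Polynomial.C (σ.om - σ.om ^ 2) * Polynomial.X * L2) (Q0 := Q 0) (Q1 := Q 1)
    (Q2 := Q 2) (Q3 := Q 3) (Q4 := Q 4) (Q5 := Q 5) (Q6 := Q 6) rfl
    (fun h0 => left_ne_zero_of_mul_eq_one hl (by rw [f0, h0, map_zero]))
    (ip_all σ.ipDer P1 P2 hu2 h5 h6 (by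
      rw [Fin.sum_univ_seven] at e
      have e0 : σ.fn P 0 = 1 := rfl
      have e1 : σ.fn P 1 = σ.AA P + σ.AA' P := rfl
      have e2 : σ.fn P 2 = 27 * σ.t * σ.x * σ.AA P + σ.elli * σ.AA' P := rfl
      have e3 : σ.fn P 3 = σ.tt (σ.AA P) - σ.tt (σ.AA' P) := rfl
      have e4 : σ.fn P 4 = 27 * σ.t * σ.x * σ.tt (σ.AA P) - σ.elli * σ.tt (σ.AA' P) := rfl
      rw [e0, e1, e2, e3, e4] at e
      generalize L1 * L2 = l at f0 ⊢
      generalize Polynomial.C (-(σ.om - σ.om ^ 2)) = n' at tA' ⊢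
      generalize Polynomial.C (σ.om - σ.om ^ 2) = n at tA ⊢
      simp only [map_add, map_sub, map_mul, map_neg, map_pow, map_ofNat, ← f0, ← f1, ← f2,
        Sys.ipPhi_X] at tA tA' ⊢
      generalize σ.tt (σ.AA P) = T at *
      generalize σ.tt (σ.AA' P) = T' at *
      rw [hA, hA'] at e
      linear_combination σ.ell ^ 2 * e
        - (σ.ell * σ.ipPhi (Q 3) + 27 * σ.t ^ 2 * σ.ipPhi (Q 4)) * tA
        + (σ.ell * σ.ipPhi (Q 3) + σ.ipPhi (Q 4)) * tA'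
        - 27 * σ.t * σ.ell * (σ.ipPhi (Q 2) * σ.l2 ^ 3 * A + σ.ipPhi (Q 4) * T) * hx
        - σ.ell * (σ.ipPhi (Q 2) * σ.l1 ^ 3 * A' - σ.ipPhi (Q 4) * T') * hl))
  fin_cases j
  exacts [r.1, r.2.1, r.2.2.1, r.2.2.2.1, r.2.2.2.2.1, r.2.2.2.2.2.1, r.2.2.2.2.2.2]

/-- the rows are linearly independent -/
theorem indep (σ : Sys ℂ) {a a' : ℂ} (h : a ≠ 0 ∨ a' ≠ 0) (c c' : ℂ) (D : ℕ) :
    LinearIndependent ℂ fun r : Fin D × Fin 7 => σ.row (parC a a' c c') r.1 r.2 := by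
  refine Fintype.linearIndependent_iff.2 fun g hg r => ?_
  have hl := σ.ell_mul_elli
  have hl0 : σ.ell ≠ 0 := left_ne_zero_of_mul_eq_one hl
  have hQ : ∀ j, σ.ipPhi (∑ i : Fin D, Polynomial.C (g (i, j)) * Polynomial.X ^ (i : ℕ)
      * (1 + 9 * Polynomial.X + 27 * Polynomial.X ^ 2) ^ (D - i))
      = σ.ell ^ D * ∑ i : Fin D, C (g (i, j)) * σ.x ^ (i : ℕ) := fun j => by
    rw [map_sum, Finset.mul_sum]
    refine Finset.sum_congr rfl fun i _ => ?_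
    have e : σ.ell ^ D = σ.ell ^ (D - i) * σ.ell ^ (i : ℕ) := by
      rw [← pow_add, Nat.sub_add_cancel i.2.le]
    have e2 : σ.ell ^ (i : ℕ) * σ.elli ^ (i : ℕ) = 1 := by rw [← mul_pow, hl, one_pow]
    simp only [map_add, map_mul, map_pow, map_ofNat, map_one, Sys.ipPhi_X, Sys.ipPhi_C]
    rw [e, Sys.x, mul_pow, ← Sys.ell]
    linear_combination -C (g (i, j)) * σ.t ^ (i : ℕ) * σ.ell ^ (D - i) * e2
  have h1 := ip_seven σ h c c' (fun j => ∑ i : Fin D, Polynomial.C (g (i, j)) *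
      Polynomial.X ^ (i : ℕ) * (1 + 9 * Polynomial.X + 27 * Polynomial.X ^ 2) ^ (D - i)) (by
    simp only [hQ]
    simp only [mul_assoc, ← Finset.mul_sum]
    rw [Fintype.sum_prod_type_right] at hg
    refine mul_eq_zero_of_right _ (Eq.trans (Finset.sum_congr rfl fun j _ => ?_) hg)
    rw [Finset.sum_mul]
    exact Finset.sum_congr rfl fun i _ => by rw [Sys.row, smul_eq_C_mul, mul_assoc]) r.2
  have h2 := hQ r.2
  rw [h1, map_zero] at h2
  have h3 := (mul_eq_zero.1 h2.symm).resolve_left (pow_ne_zero _ hl0)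
  have h4 := ip_inj (F := σ.x) (by simp [Sys.x, σ.ip_t0])
    (mul_ne_zero σ.ip_tne (right_ne_zero_of_mul_eq_one hl))
    (P := ∑ i : Fin D, Polynomial.monomial i (g (i, r.2))) (by
      rw [← h3, map_sum]
      exact Finset.sum_congr rfl fun i _ => Polynomial.aeval_monomial _)
  have h5 := congrArg (Polynomial.coeff · r.1) h4
  simpa [Polynomial.finsetSum_coeff, Polynomial.coeff_monomial, Fin.val_inj] using h5

end

end Pool.Agent.Lib.MP_caab05_ag.W3
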