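import Pool.Agent.Lib.MP_caab05_ag.W3.Iface

namespace Pool.Agent.Lib.MP_caab05_ag.W3

open PowerSeries

noncomputable section

lemma isOpenMap_ee : IsOpenMap ee := by
  have hI : (2 * Real.pi * Complex.I : ℂ) ≠ 0 := by simp [Real.pi_pos.ne']
  exact Complex.isOpenMap_exp.comp (Homeomorph.mulLeft₀ _ hI).isOpenMap

lemma continuous_ee : Continuous ee := by unfold ee; fun_prop

lemma im_pos_of_norm_ee {τ : ℂ} (h : ‖ee τ‖ < 1) : 0 < τ.im := by
  rw [norm_ee, Real.exp_lt_one_iff] at h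
  have := Real.pi_pos
  by_contra hc
  push Not at hc
  nlinarith

lemma eq_of_ee_eq {a b : ℂ} (h : ee a = ee b) (hab : |a.re - b.re| < 1) : a = b := by
  have hI : (2 * Real.pi * Complex.I : ℂ) ≠ 0 := by simp [Real.pi_pos.ne']
  obtain ⟨k, hk⟩ := Complex.exp_eq_exp_iff_exists_int.1 h
  have h2 : a = b + k := by
    apply mul_left_cancel₀ hI
    rw [hk]; ring
  have h3 : a.re - b.re = k := by rw [h2]; simp
  rw [h3] at hab
  have h4 : k = 0 := by
    have : |k| < 1 := by exact_mod_cast hab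
    exact Int.abs_lt_one_iff.1 this
  simpa [h4] using h2

lemma normSq_shift (z : ℂ) (c : ℝ) :
    ‖z + c * Complex.I‖ ^ 2 = z.re ^ 2 + (z.im + c) ^ 2 := by
  rw [Complex.sq_norm, Complex.normSq_apply]; simp; ring

lemma normSq_shift' (z : ℂ) :
    ‖z + 7 / 72 * Complex.I‖ ^ 2 = z.re ^ 2 + (z.im + 7 / 72) ^ 2 := by
  have := normSq_shift z (7 / 72)
  push_cast at this
  exact this

/-- geometry of the Fricke involution on the circle -/
lemma ww_circle {τ : ℂ} (h0 : 0 < τ.im) (h : ‖τ + 7 / 72 * Complex.I‖ = 25 / 72) :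
    τ.im < (ww τ).im ∧ |(ww τ).re| ≤ 25 / 72 ∧ 25 / 72 < ‖ww τ + 7 / 72 * Complex.I‖ := by
  have h1 := normSq_shift' τ
  rw [h] at h1
  have hN : Complex.normSq τ = 1 / 9 - 7 / 36 * τ.im := by
    rw [Complex.normSq_apply]; nlinarith
  have hp : 0 < Complex.normSq τ := Complex.normSq_pos.2 (ne_zero_of_im h0)
  have him := ww_im τ
  have hw : Complex.normSq (ww τ) = 1 / (81 * Complex.normSq τ) := by
    rw [ww, map_div₀, map_mul]; simp; norm_num
  have hw2 : (ww τ).re ^ 2 + (ww τ).im ^ 2 = 1 / 9 + 7 / 36 * (ww τ).im := by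
    have : (ww τ).re ^ 2 + (ww τ).im ^ 2 = Complex.normSq (ww τ) := by
      rw [Complex.normSq_apply]; ring
    rw [this, hw, him]
    field_simp
    rw [hN]; ring
  have hpos := ww_im_pos h0
  refine ⟨?_, ?_, ?_⟩
  · rw [him, lt_div_iff₀ (by positivity)]; nlinarith
  · rw [abs_le]; constructor <;> nlinarith [sq_nonneg ((ww τ).im - 7 / 72)]
  · have h3 := normSq_shift' (ww τ)
    have h4 : (25 / 72 : ℝ) ^ 2 < ‖ww τ + 7 / 72 * Complex.I‖ ^ 2 := by rw [h3]; nlinarith
    exact lt_of_pow_lt_pow_left₀ 2 (norm_nonneg _) h4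

lemma re_le_of_disc {τ : ℂ} (h : ‖τ + 7 / 72 * Complex.I‖ ≤ 25 / 72) : |τ.re| ≤ 25 / 72 := by
  have := Complex.abs_re_le_norm (τ + 7 / 72 * Complex.I)
  have h2 : (τ + 7 / 72 * Complex.I).re = τ.re := by simp
  rw [h2] at this; linarith

/-- one variable maximum principle -/
theorem Dom.bound {V : ℂ → ℝ} (d : Dom V) {F : ℂ⟦X⟧} (hF : Conv F) (hI : Inv F) {n : ℕ}
    (hn : X ^ n ∣ F) {D M : ℝ} (hD : 0 < D) (hM : 0 ≤ M) (hta : d.ta * D ≤ n)
    (hb : ∀ q : ℂ, ‖q‖ = d.ρ → ‖ev F q‖ ≤ M * Real.exp (D * V q)) :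
    ‖coeff n F‖ ≤ M * Real.exp (D * d.h - (n - d.ta * D) * d.L) := by
  obtain ⟨Ft, rfl⟩ := hn
  have hFt : Conv Ft := hF.of_X_pow_mul
  set s : ℝ := n - d.ta * D with hs
  have hs0 : 0 ≤ s := by linarith
  set Ph : ℂ → ℂ := fun q => ev Ft q * Complex.exp (-(D * d.P q + s * d.G q)) with hPh
  have hρ0 := d.ρ0
  have hρ1 := d.ρ1
  -- the modulus of Ph
  have hnorm : ∀ q : ℂ, q ≠ 0 → ‖q‖ < 1 → ‖Ph q‖ = ‖ev (X ^ n * Ft) q‖ *
      Real.exp (-(D * (d.ta * Real.log ‖q‖ + (d.P q).re) + s * (Real.log ‖q‖ + (d.G q).re))) := by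
    intro q hq0 hq1
    have hq : 0 < ‖q‖ := norm_pos_iff.2 hq0
    rw [ev_mul (Conv.X.pow n) hFt hq1, ev_pow Conv.X hq1, ev_X, hPh]
    simp only [norm_mul, norm_pow, Complex.norm_exp]
    have h1 : ‖q‖ ^ n = Real.exp (n * Real.log ‖q‖) := by
      rw [Real.exp_nat_mul, Real.exp_log hq]
    rw [h1, mul_comm (Real.exp _) ‖ev Ft q‖, mul_assoc, ← Real.exp_add]
    congr 2
    simp [hs]; ring
  set Cc : Set ℂ := {τ | ‖τ + 7 / 72 * Complex.I‖ ≤ 25 / 72 ∧ ‖ee τ‖ ≤ d.ρ} with hCc
  have hCcc : IsCompact Cc := by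
    refine (isCompact_closedBall (-(7 / 72 * Complex.I)) (25 / 72)).of_isClosed_subset ?_ ?_
    · exact (isClosed_le (f := fun τ : ℂ => ‖τ + 7 / 72 * Complex.I‖) (by fun_prop)
        continuous_const).inter
        (isClosed_le (f := fun τ : ℂ => ‖ee τ‖) continuous_ee.norm continuous_const)
    · intro τ hτ
      simpa [Metric.mem_closedBall, dist_eq_norm] using hτ.1
  have hCl : IsClosed (ee '' Cc) := (hCcc.image continuous_ee).isClosed
  set Uo : Set ℂ := Metric.ball 0 d.ρ \ ee '' Cc with hUo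
  have hUopen : IsOpen Uo := Metric.isOpen_ball.sdiff hCl
  have h0U : (0 : ℂ) ∈ Uo := ⟨by simpa using hρ0, fun ⟨τ, _, h⟩ => ee_ne_zero τ h⟩
  have hcl : closure Uo ⊆ Metric.closedBall 0 d.ρ :=
    closure_minimal (Set.sdiff_subset.trans Metric.ball_subset_closedBall) Metric.isClosed_closedBall
  have hdiff : DiffContOnCl ℂ Ph Uo := by
    refine DifferentiableOn.diffContOnCl fun q hq => ?_
    have hq1 : ‖q‖ < 1 := lt_of_le_of_lt (by simpa using hcl hq) hρ1
    have h1 := hFt.differentiableAt hq1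
    have h2 := d.dP q
    have h3 := d.dG q
    exact DifferentiableAt.differentiableWithinAt (by fun_prop)
  obtain ⟨q, hqf, hmax⟩ := Complex.exists_mem_frontier_isMaxOn_norm
    (Metric.isBounded_ball.subset Set.sdiff_subset) ⟨0, h0U⟩ hdiff
  have hc0 : coeff n (X ^ n * Ft) = Ph 0 := by
    have := coeff_X_pow_mul Ft n 0
    rw [zero_add] at this
    rw [this, hPh]
    simp [d.P0, d.G0, ev_at_zero]
  have hle : ‖Ph 0‖ ≤ ‖Ph q‖ := hmax (subset_closure h0U)
  rw [hc0]
  refine hle.trans ?_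
  rw [hUopen.frontier_eq] at hqf
  have hqρ : ‖q‖ ≤ d.ρ := by simpa using hcl hqf.1
  have hq1 : ‖q‖ < 1 := lt_of_le_of_lt hqρ hρ1
  by_cases hq : q ∈ ee '' Cc
  · obtain ⟨τ, hτ, rfl⟩ := hq
    have him : 0 < τ.im := im_pos_of_norm_ee hq1
    have hcirc : ‖τ + 7 / 72 * Complex.I‖ = 25 / 72 := by
      refine le_antisymm hτ.1 (not_lt.1 fun hlt => ?_)
      have hnb : ee '' Metric.ball (-(7 / 72 * Complex.I)) (25 / 72) ∈ nhds (ee τ) :=
        (isOpenMap_ee _ Metric.isOpen_ball).mem_nhds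
          ⟨τ, by simpa [Metric.mem_ball, dist_eq_norm] using hlt, rfl⟩
      obtain ⟨q', ⟨τ', h1, rfl⟩, h2⟩ := mem_closure_iff_nhds.1 hqf.1 _ hnb
      refine h2.2 ⟨τ', ⟨?_, ?_⟩, rfl⟩
      · have : ‖τ' + 7 / 72 * Complex.I‖ < 25 / 72 := by
          simpa [Metric.mem_ball, dist_eq_norm] using h1
        exact this.le
      · have : ‖ee τ'‖ < d.ρ := by simpa using h2.1
        exact this.le
    obtain ⟨g1, g2, g3⟩ := ww_circle him hcirc
    have hlt : ‖ee (ww τ)‖ < ‖ee τ‖ := by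
      rw [norm_ee, norm_ee, Real.exp_lt_exp]
      have := Real.pi_pos
      nlinarith
    have hq2 : ee (ww τ) ∈ Uo := by
      refine ⟨by simpa using lt_of_lt_of_le hlt hqρ, fun ⟨τ2, h1, h2⟩ => ?_⟩
      have h3 := re_le_of_disc h1.1
      have h4 : τ2 = ww τ := eq_of_ee_eq h2 (by
        rw [abs_le] at h3 g2; rw [abs_lt]; constructor <;> linarith [h3.1, h3.2, g2.1, g2.2])
      rw [h4] at h1
      exact absurd h1.1 (not_le.2 g3)
    have hm : ‖Ph (ee (ww τ))‖ ≤ ‖Ph (ee τ)‖ := hmax (subset_closure hq2)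
    rw [hnorm _ (ee_ne_zero _) (hlt.trans hq1), hnorm _ (ee_ne_zero _) hq1, hI τ him] at hm
    have c1 := d.C1 τ hqρ hcirc
    have c2 := d.C2 τ hqρ hcirc
    have hz : ‖ev (X ^ n * Ft) (ee τ)‖ = 0 := by
      by_contra hne
      have hpos : 0 < ‖ev (X ^ n * Ft) (ee τ)‖ := lt_of_le_of_ne (norm_nonneg _) (Ne.symm hne)
      have h5 := Real.exp_le_exp.1 (le_of_mul_le_mul_left hm hpos)
      have h6 := mul_lt_mul_of_pos_left c1 hD
      have h7 := mul_le_mul_of_nonneg_left c2 hs0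
      linarith
    rw [hnorm _ (ee_ne_zero _) hq1, hz, zero_mul]
    positivity
  · have hqe : ‖q‖ = d.ρ := by
      refine le_antisymm hqρ (not_lt.1 fun hlt => hqf.2 ⟨by simpa using hlt, hq⟩)
    have hq0 : q ≠ 0 := by rintro rfl; simp at hqe; linarith
    obtain ⟨τ, -, hre, rfl⟩ := exists_ee hq0 hq1
    have hout : 25 / 72 < ‖τ + 7 / 72 * Complex.I‖ :=
      not_le.1 fun hc => hq ⟨τ, ⟨hc, hqρ⟩, rfl⟩
    have b1 := d.B1 τ hqe hre hout
    have b2 := d.B2 τ hqe hre hout
    rw [hnorm _ hq0 hq1, hqe]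
    refine (mul_le_mul_of_nonneg_right (hb _ hqe) (Real.exp_pos _).le).trans ?_
    rw [mul_assoc, ← Real.exp_add]
    refine mul_le_mul_of_nonneg_left (Real.exp_le_exp.2 ?_) hM
    have h6 := mul_le_mul_of_nonneg_left b1 hD.le
    have h7 := mul_nonneg hs0 b2
    nlinarith

/-- crude bound for a determinant -/
theorem norm_det_le {ι : Type*} [Fintype ι] [DecidableEq ι] (A : Matrix ι ι ℂ) (B U : ι → ℝ)
    (hB : ∀ r, 0 ≤ B r) (hU : ∀ k, 0 ≤ U k) (h : ∀ r k, ‖A r k‖ ≤ B r * U k) :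
    ‖A.det‖ ≤ (Fintype.card ι).factorial * (∏ r, B r) * ∏ k, U k := by
  rw [Matrix.det_apply]
  refine (norm_sum_le _ _).trans ?_
  have h1 : ∀ σ : Equiv.Perm ι, ‖Equiv.Perm.sign σ • ∏ i, A (σ i) i‖ ≤ (∏ r, B r) * ∏ k, U k := by
    intro σ
    have h2 : ‖Equiv.Perm.sign σ • ∏ i, A (σ i) i‖ = ‖∏ i, A (σ i) i‖ := by
      rcases Int.units_eq_one_or (Equiv.Perm.sign σ) with h | h <;> simp [h]
    rw [h2, norm_prod, ← Equiv.prod_comp σ B, ← Finset.prod_mul_distrib]
    exact Finset.prod_le_prod (fun i _ => norm_nonneg _) fun i _ => h _ _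
  refine (Finset.sum_le_sum fun σ _ => h1 σ).trans ?_
  rw [Finset.sum_const, Finset.card_univ, Fintype.card_perm, nsmul_eq_mul, mul_assoc]

/-- the set of indices at which the span of a sequence of vectors jumps -/
lemma exists_jumps {W : Type*} [AddCommGroup W] [Module ℂ W] (v : ℕ → W) :
    ∃ S : Set ℕ, ∀ N, LinearIndepOn ℂ v (S ∩ Set.Iio N) ∧
      Submodule.span ℂ (v '' (S ∩ Set.Iio N)) = Submodule.span ℂ (v '' Set.Iio N) := by
  refine ⟨{n | v n ∉ Submodule.span ℂ (v '' Set.Iio n)}, fun N => ?_⟩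
  set S := {n | v n ∉ Submodule.span ℂ (v '' Set.Iio n)} with hS
  induction N with
  | zero =>
    simp
  | succ N ih =>
    have h1 : Set.Iio (N + 1) = insert N (Set.Iio N) := by
      ext m; simp
    by_cases hN : N ∈ S
    · have h2 : S ∩ Set.Iio (N + 1) = insert N (S ∩ Set.Iio N) := by
        rw [h1, Set.inter_insert_of_mem hN]
      rw [h2]
      refine ⟨ih.1.insert (by rw [ih.2]; exact hN), ?_⟩
      rw [h1, Set.image_insert_eq, Set.image_insert_eq, Submodule.span_insert,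
        Submodule.span_insert, ih.2]
    · have h2 : S ∩ Set.Iio (N + 1) = S ∩ Set.Iio N := by
        rw [h1, Set.inter_insert_of_notMem hN]
      rw [h2]
      refine ⟨ih.1, ?_⟩
      rw [h1, Set.image_insert_eq, Submodule.span_insert_eq_span (not_not.1 hN), ih.2]

lemma exists_col {ι : Type*} [Fintype ι] [DecidableEq ι] (F : ι → ℂ⟦X⟧)
    (hli : LinearIndependent ℂ F) :
    ∃ col : ι → ℕ, Function.Injective col ∧
      (Matrix.of fun r k => coeff (col k) (F r)).det ≠ 0 ∧
      ∀ (k : ι) (a : ι → ℂ), (∀ k', col k' < col k → ∑ r, a r * coeff (col k') (F r) = 0) →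
        X ^ col k ∣ ∑ r, C (a r) * F r := by
  set v : ℕ → ι → ℂ := fun n r => coeff n (F r) with hv
  obtain ⟨S, hS⟩ := exists_jumps v
  have hL : ∀ a : ι → ℂ, ∃ L : (ι → ℂ) →ₗ[ℂ] ℂ, ∀ b, L b = ∑ r, a r * b r := fun a =>
    ⟨∑ r, a r • LinearMap.proj r, fun b => by simp⟩
  have htop : Submodule.span ℂ (Set.range v) = ⊤ := by
    by_contra hne
    obtain ⟨L, hL0, hL1⟩ := Submodule.exists_le_ker_of_lt_top _ (lt_top_iff_ne_top.2 hne)
    have h1 : ∑ r, L (fun j => if r = j then 1 else 0) • F r = 0 := by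
      ext n
      have h2 : L (v n) = 0 := hL1 (Submodule.subset_span ⟨n, rfl⟩)
      rw [LinearMap.pi_apply_eq_sum_univ] at h2
      simpa [hv, mul_comm] using h2
    have h3 := Fintype.linearIndependent_iff.1 hli _ h1
    apply hL0
    refine LinearMap.ext fun b => ?_
    rw [LinearMap.pi_apply_eq_sum_univ]
    simp [h3]
  obtain ⟨N, hN⟩ : ∃ N, Submodule.span ℂ (v '' Set.Iio N) = ⊤ := by
    have hmono : Monotone fun N => Submodule.span ℂ (v '' Set.Iio N) := fun a b hab =>
      Submodule.span_mono (Set.image_mono (Set.Iio_subset_Iio hab))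
    obtain ⟨N, hN⟩ := monotone_stabilizes_iff_noetherian.2
      (inferInstance : IsNoetherian ℂ (ι → ℂ)) ⟨_, hmono⟩
    refine ⟨N, top_unique ?_⟩
    rw [← htop, Submodule.span_le]
    rintro _ ⟨n, rfl⟩
    have h1 := hN (max N (n + 1)) (le_max_left _ _)
    simp only [OrderHom.coe_mk] at h1
    rw [h1]
    exact Submodule.subset_span ⟨n, by simp, rfl⟩
  have hfin : (S ∩ Set.Iio N).Finite := (Set.finite_Iio N).subset Set.inter_subset_right
  have : Fintype (S ∩ Set.Iio N : Set ℕ) := hfin.fintype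
  have hsp : ⊤ ≤ Submodule.span ℂ (Set.range fun x : (S ∩ Set.Iio N : Set ℕ) => v x) := by
    rw [← Set.image_eq_range, (hS N).2, hN]
  have hcard : Fintype.card ι = Fintype.card (S ∩ Set.Iio N : Set ℕ) := by
    rw [← Module.finrank_eq_card_basis (Module.Basis.mk (hS N).1 hsp)]
    simp
  set e := Fintype.equivOfCardEq hcard
  refine ⟨fun k => e k, Subtype.val_injective.comp e.injective, ?_, ?_⟩
  · have h1 : LinearIndependent ℂ fun k => v (e k) := LinearIndependent.comp (hS N).1 e e.injective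
    have h2 := (Matrix.linearIndependent_cols_iff_isUnit
      (A := Matrix.of fun r k => coeff (e k : ℕ) (F r))).1 h1
    exact ((Matrix.isUnit_iff_isUnit_det _).1 h2).ne_zero
  · intro k a ha
    obtain ⟨L, hLa⟩ := hL a
    have h1 : Submodule.span ℂ (v '' (S ∩ Set.Iio (e k : ℕ))) ≤ LinearMap.ker L := by
      rw [Submodule.span_le]
      rintro _ ⟨m, hm, rfl⟩
      have hmN : m ∈ S ∩ Set.Iio N := ⟨hm.1, Set.mem_Iio.2 (lt_trans (Set.mem_Iio.1 hm.2) (Set.mem_Iio.1 (e k).2.2))⟩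
      have h2 := ha (e.symm ⟨m, hmN⟩) (by simpa using hm.2)
      simp only [Equiv.apply_symm_apply] at h2
      simpa [hLa] using h2
    rw [(hS _).2] at h1
    rw [X_pow_dvd_iff]
    intro m hm
    have h2 : L (v m) = 0 := h1 (Submodule.subset_span ⟨m, hm, rfl⟩)
    rw [hLa] at h2
    simpa using h2

/-- the minor at the set of vanishing orders, and the iterated maximum principle -/
theorem iter_det {ι : Type*} [Fintype ι] [DecidableEq ι] (F : ι → ℂ⟦X⟧) (hF : ∀ r, Conv (F r))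
    (hI : ∀ r, Inv (F r)) (hli : LinearIndependent ℂ F) :
    ∃ col : ι → ℕ, Function.Injective col ∧
      (Matrix.of fun r k => coeff (col k) (F r)).det ≠ 0 ∧
      ∀ (ρ γ : ι → ℝ) (U : ι → ℂ → ℝ) (M₀ : ℝ), (∀ k, 0 ≤ ρ k) → (∀ k, ρ k < 1) →
        (∀ k, 0 ≤ γ k) → (∀ k q, 0 ≤ U k q) → 0 ≤ M₀ →
        (∀ k (G : ℂ⟦X⟧) (M : ℝ), Conv G → Inv G → X ^ col k ∣ G → 0 ≤ M →
          (∀ q : ℂ, ‖q‖ = ρ k → ‖ev G q‖ ≤ M * U k q) → ‖coeff (col k) G‖ ≤ M * γ k) →
        (∀ q : ι → ℂ, (∀ k, ‖q k‖ = ρ k) →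
          ‖(Matrix.of fun r k => ev (F r) (q k)).det‖ ≤ M₀ * ∏ k, U k (q k)) →
        ‖(Matrix.of fun r k => coeff (col k) (F r)).det‖ ≤ M₀ * ∏ k, γ k := by
  obtain ⟨col, hinj, hdet, hjump⟩ := exists_col F hli
  refine ⟨col, hinj, hdet, fun ρ γ U M₀ hρ0 hρ1 hγ hU hM₀ hstep hbase => ?_⟩
  set Mat : ℕ → (ι → ℂ) → Matrix ι ι ℂ := fun m q =>
    Matrix.of fun r k => if col k < m then coeff (col k) (F r) else ev (F r) (q k) with hMat
  have key : ∀ m (q : ι → ℂ), (∀ k, ‖q k‖ = ρ k) →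
      ‖(Mat m q).det‖ ≤ M₀ * ∏ k, (if col k < m then γ k else U k (q k)) := by
    intro m
    induction m with
    | zero => intro q hq; simpa [hMat] using hbase q hq
    | succ m ih =>
      intro q hq
      by_cases hk : ∃ k0, col k0 = m
      · obtain ⟨k0, hk0⟩ := hk
        have hne : ∀ k, k ≠ k0 → (col k < m + 1 ↔ col k < m) := fun k hk => by
          have : col k ≠ m := fun h => hk (hinj (h.trans hk0.symm))
          omega
        set L : (ι → ℂ) →ₗ[ℂ] ℂ := LinearMap.proj k0 ∘ₗ Matrix.cramer (Mat m q) with hL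
        set a : ι → ℂ := fun r => L fun j => if r = j then 1 else 0 with ha
        have hLa : ∀ b : ι → ℂ, ∑ r, a r * b r = ((Mat m q).updateCol k0 b).det := fun b => by
          have h1 : L b = ((Mat m q).updateCol k0 b).det := by simp [hL, Matrix.cramer_apply]
          rw [← h1, LinearMap.pi_apply_eq_sum_univ]
          simp [ha, mul_comm]
        have hCv : ∀ r ∈ (Finset.univ : Finset ι), Conv (C (a r) * F r) :=
          fun r _ => (Conv.C _).mul (hF r)
        have hev : ∀ z : ℂ, ‖z‖ < 1 → ev (∑ r, C (a r) * F r) z = ∑ r, a r * ev (F r) z :=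
          fun z hz => by rw [ev_sum _ hCv hz]; simp only [ev_C_mul]
        have hInv : Inv (∑ r, C (a r) * F r) := fun τ hτ => by
          rw [hev _ (norm_ee_lt hτ), hev _ (norm_ee_lt (ww_im_pos hτ))]
          exact Finset.sum_congr rfl fun r _ => by rw [hI r τ hτ]
        have hdvd : X ^ col k0 ∣ ∑ r, C (a r) * F r := hjump k0 a fun k' hk' => by
          have hk2 : k' ≠ k0 := fun h => by rw [h] at hk'; exact lt_irrefl _ hk'
          have h1 : (fun r => coeff (col k') (F r)) = fun r => Mat m q r k' := by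
            ext r; simp [hMat, ← hk0, hk']
          rw [hLa, h1, Matrix.det_updateCol_eq_zero hk2]
        set M := M₀ * ∏ k ∈ Finset.univ.erase k0, (if col k < m then γ k else U k (q k)) with hM
        have hM0 : 0 ≤ M := mul_nonneg hM₀ (Finset.prod_nonneg fun k _ => by
          split_ifs; exacts [hγ k, hU k _])
        have h1 := hstep k0 _ M (Conv.sum _ hCv) hInv hdvd hM0 fun z hz => by
          rw [hev z (by rw [hz]; exact hρ1 k0), hLa]
          have h2 : (Mat m q).updateCol k0 (fun r => ev (F r) z) = Mat m (Function.update q k0 z) := by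
            ext r k
            by_cases h : k = k0
            · subst h; simp [hMat, hk0]
            · simp [hMat, Matrix.updateCol_ne h, Function.update_of_ne h]
          rw [h2]
          refine (ih _ fun k => ?_).trans (le_of_eq ?_)
          · by_cases h : k = k0
            · subst h; simpa using hz
            · simpa [Function.update_of_ne h] using hq k
          · rw [← Finset.prod_erase_mul _ _ (Finset.mem_univ k0), hM, mul_assoc]
            congr 2
            · exact Finset.prod_congr rfl fun k hk => by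
                rw [Function.update_of_ne (Finset.ne_of_mem_erase hk)]
            · simp [hk0]
        have h3 : coeff (col k0) (∑ r, C (a r) * F r) = (Mat (m + 1) q).det := by
          have h4 : (Mat m q).updateCol k0 (fun r => coeff (col k0) (F r)) = Mat (m + 1) q := by
            ext r k
            by_cases h : k = k0
            · subst h; simp [hMat, hk0]
            · simp [hMat, Matrix.updateCol_ne h, hne k h]
          rw [← h4, ← hLa]
          simp
        rw [h3] at h1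
        refine h1.trans (le_of_eq ?_)
        rw [← Finset.prod_erase_mul _ _ (Finset.mem_univ k0), hM, mul_assoc]
        congr 2
        · exact Finset.prod_congr rfl fun k hk => by
            simp only [hne k (Finset.ne_of_mem_erase hk)]
        · simp [hk0]
      · have hne : ∀ k, (col k < m + 1 ↔ col k < m) := fun k => by
          have : col k ≠ m := fun h => hk ⟨k, h⟩
          omega
        have := ih q hq
        simpa only [hMat, hne] using this
  have hbig : ∀ k, col k < Finset.univ.sup col + 1 := fun k =>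
    Nat.lt_succ_of_le (Finset.le_sup (f := col) (Finset.mem_univ k))
  have := key (Finset.univ.sup col + 1) (fun k => (ρ k : ℂ)) fun k => by
    simp [abs_of_nonneg (hρ0 k)]
  simpa only [hMat, hbig, if_true] using this

end

end Pool.Agent.Lib.MP_caab05_ag.W3
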