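import Pool.Agent.Lib.MP_caab05_ag.W3.Modular4

/-!
Existence of the modular system.
-/

namespace Pool.Agent.Lib.MP_caab05_ag.W3

open PowerSeries

noncomputable section

namespace Mod

lemma cube_aux {p : ℂ⟦X⟧} {c : ℂ} (h : p ^ 3 * p3i = b0 - C c * V) :
    (p * p0i) ^ 3 = 1 - C c * t := by
  rw [V_eq] at h
  have e : (p * p0i) ^ 3 = p ^ 3 * p3i * bi := by
    rw [bi]; linear_combination (-p ^ 3 * p0i ^ 3) * h3
  rw [e, h]; linear_combination (1 - C c * t) * hb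

def sys : Sys ℂ where
  om := om
  t := t
  b := b0
  l1 := p1 * p0i
  l2 := p2 * p0i
  bi := bi
  l1i := phi * p1i
  l2i := phi * p2i
  hom := om_sq
  t0 := by simp [t]
  t1 := by rw [t, coeff_succ_X_mul]; simp [k9, k0i]
  b0 := by simp [kb0]
  l10 := by simp [k1, k0i]
  l20 := by simp [k2, k0i]
  hb := hb
  hl1 := by linear_combination (phi * p0i) * h1 + h0
  hl2 := by linear_combination (phi * p0i) * h2 + h0
  cube1 := cube_aux b1_eq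
  cube2 := cube_aux b2_eq
  tht := th_t
  thb := th_th_bi

lemma integral : sys.Integral where
  hom := rfl
  t := CO.mul_mem oX (CO.mul_mem (CO.pow_mem o9 3) (CO.pow_mem o0i 3))
  b := CO.mul_mem (CO.pow_mem o0 3) o3i
  l1 := CO.mul_mem o1 o0i
  l2 := CO.mul_mem o2 o0i
  bi := CO.mul_mem o3 (CO.pow_mem o0i 3)
  l1i := CO.mul_mem o0 o1i
  l2i := CO.mul_mem o0 o2i

variable {q τ : ℂ}

lemma tw (h : 0 < τ.im) : 27 * ev t (ee τ) * ev t (ee (ww τ)) = 1 := by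
  have hq := norm_ee_lt h
  have hw := norm_ee_lt (ww_im_pos h)
  have a1 := wb0 h
  have a2 := wV h
  rw [V_eq, ev_mul ct cb0 hq] at a1
  rw [V_eq, ev_mul ct cb0 hw, a1] at a2
  have hb0 : ev b0 (ee τ) ≠ 0 := left_ne_zero_of_mul_eq_one (ev_mul_eq_one cb0 cbi hb hq)
  refine mul_left_cancel₀ (mul_ne_zero (mul_ne_zero nu_ne (ne_zero_of_im h)) hb0) ?_
  linear_combination (-3) * a2

lemma cE : Conv sys.E := (cb0.mul ((c1.mul c0i).pow 2)).mul (c2.mul c0i)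
lemma cEb : Conv sys.Eb := (cb0.mul (c1.mul c0i)).mul ((c2.mul c0i).pow 2)

lemma E_cube : sys.E ^ 3 = b1 ^ 2 * b2 := by
  calc _ = b1 ^ 2 * b2 * (phi * p0i) ^ 9 := by
        change (b0 * (p1 * p0i) ^ 2 * (p2 * p0i)) ^ 3 = _
        rw [b0, b1, b2]; ring
    _ = _ := by rw [h0]; simp

lemma Eb_cube : sys.Eb ^ 3 = b1 * b2 ^ 2 := by
  calc _ = b1 * b2 ^ 2 * (phi * p0i) ^ 9 := by
        change (b0 * (p1 * p0i) * (p2 * p0i) ^ 2) ^ 3 = _
        rw [b0, b1, b2]; ring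
    _ = _ := by rw [h0]; simp

lemma Eb_ne (hq : ‖q‖ < 1) : ev sys.Eb q ≠ 0 := fun h => by
  have : ev (sys.Eb ^ 3) q = ev (b1 * b2 ^ 2) q := by rw [Eb_cube]
  rw [ev_pow cEb hq, h, ev_mul cb1 (cb2.pow 2) hq, ev_pow cb2 hq, eb1 hq, eb2 hq] at this
  have a1 := Phi_ne_zero (n1 hq)
  have a2 := Phi_ne_zero (n2 hq)
  have a3 := Phi_ne_zero (norm_pow_lt hq three_ne_zero)
  simp [a1, a2, a3] at this

lemma Ew : ∃ κ : ℂ, ∀ τ : ℂ, 0 < τ.im → ev sys.E (ee (ww τ)) = κ * τ * ev sys.Eb (ee τ) := by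
  set r : ℂ → ℂ := fun z => ev sys.E (ee (ww z)) / (z * ev sys.Eb (ee z)) with hr
  have hc : ContinuousOn r {z : ℂ | 0 < z.im} := fun z hz => by
    have h0 := ne_zero_of_im hz
    refine (ContinuousAt.div ?_ ?_ ?_).continuousWithinAt
    · exact ((hasDerivAt_ev_ee cE (ww_im_pos hz)).comp z (hasDerivAt_ww h0)).continuousAt
    · exact continuousAt_id.mul (hasDerivAt_ev_ee cEb hz).continuousAt
    · exact mul_ne_zero h0 (Eb_ne (norm_ee_lt hz))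
  have hm : Set.MapsTo r {z : ℂ | 0 < z.im} {w : ℂ | w ^ 3 = -27 * om ^ 2} := fun z hz => by
    have h0 := ne_zero_of_im hz
    have hq := norm_ee_lt hz
    have hw := norm_ee_lt (ww_im_pos hz)
    have hE := Eb_ne hq
    change (ev sys.E (ee (ww z)) / (z * ev sys.Eb (ee z))) ^ 3 = _
    rw [div_pow, div_eq_iff (pow_ne_zero _ (mul_ne_zero h0 hE)), mul_pow, ← ev_pow cE hw,
      ← ev_pow cEb hq, E_cube, Eb_cube, ev_mul (cb1.pow 2) cb2 hw, ev_mul cb1 (cb2.pow 2) hq,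
      ev_pow cb1 hw, ev_pow cb2 hq, wb1 hz, wb2 hz]
    linear_combination (-27 * om ^ 2 * z ^ 3 * ev b1 (ee z) * ev b2 (ee z) ^ 2) * om_cube
  have hfin : {w : ℂ | w ^ 3 = -27 * om ^ 2}.Finite :=
    (Polynomial.nthRoots 3 (-27 * om ^ 2)).toFinset.finite_toSet.subset fun w hw => by
      simpa [Polynomial.mem_nthRoots] using hw
  refine ⟨r Complex.I, fun τ h => ?_⟩
  have := (convex_halfSpace_im_gt 0).isPreconnected.constant_of_mapsTo hfin.isDiscrete hc hm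
    (x := Complex.I) (y := τ) (by simp) h
  rw [this, hr]
  have h0 := ne_zero_of_im h
  have hE := Eb_ne (norm_ee_lt h)
  field_simp

lemma an : sys.An where
  t := ct
  b := cb0
  l1 := c1.mul c0i
  l2 := c2.mul c0i
  bi := cbi
  l1i := conv_phi.mul c1i
  l2i := conv_phi.mul c2i
  tw := fun _ h => tw h
  Ew := Ew

lemma hc'_eq : sys.hc' = X * phi ^ 2 * p1 * p3 * p9 ^ 2 := by
  calc _ = sys.E * b0 ^ 2 * t * (sys.ell * sys.elli) := by
        change sys.E * (b0 ^ 2 * sys.ell) * (t * sys.elli) = _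
        ring
    _ = (b0 * (p1 * p0i) ^ 2 * (p2 * p0i)) * b0 ^ 2 * t := by rw [sys.ell_mul_elli, mul_one]; rfl
    _ = X * phi ^ 2 * p1 * p9 ^ 2 * (phi * p1 * p2 * p9) * p3i ^ 3 * (phi * p0i) ^ 6 := by
        rw [b0, t]; ring
    _ = X * phi ^ 2 * p1 * p3 * p9 ^ 2 * (p3 * p3i) ^ 3 := by rw [h0, hprod]; ring
    _ = _ := by rw [h3]; simp

lemma x_eq : sys.x = X * phi ^ 6 * p9 ^ 6 * p3i ^ 12 := by
  calc _ = X * (p9 ^ 3 * p0i ^ 3) * (phi * p1i * (phi * p2i)) ^ 3 * (p3 ^ 4 * p3i ^ 4) ^ 3 := by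
        rw [← mul_pow p3, h3, one_pow, one_pow, mul_one]; rfl
    _ = X * phi ^ 6 * p9 ^ 6 * p3i ^ 12 * (phi * p0i) ^ 3 * (p1 * p1i) ^ 3 * (p2 * p2i) ^ 3 := by
        rw [← hprod]; ring
    _ = _ := by rw [h0, h1, h2]; simp

end Mod

open W3.Mod in
/-- the modular system -/
theorem exists_sys : ∃ σ : Sys ℂ, σ.Integral ∧ σ.An ∧
    PowerSeries.map (starRingEnd ℂ) σ.t = σ.t ∧ PowerSeries.map (starRingEnd ℂ) σ.b = σ.b ∧
    PowerSeries.map (starRingEnd ℂ) σ.l1 = σ.l2 ∧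
    (∀ q : ℂ, ‖q‖ < 1 → ev σ.hc' q = q * Phi q ^ 2 * Phi (om * q) * Phi (q ^ 3) * Phi (q ^ 9) ^ 2) ∧
    (∀ q : ℂ, ‖q‖ < 1 → ev σ.l1i q = Phi q / Phi (om * q)) ∧
    (∀ q : ℂ, ‖q‖ < 1 → ev σ.x q = q * Phi q ^ 6 * Phi (q ^ 9) ^ 6 / Phi (q ^ 3) ^ 12) := by
  refine ⟨sys, integral, an, ?_, ?_, ?_, fun q hq => ?_, fun q hq => ?_, fun q hq => ?_⟩
  · change PowerSeries.map _ t = t
    rw [t, map_mul, map_mul, map_pow, map_pow, j9, j0i, map_X]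
  · change PowerSeries.map _ b0 = b0
    rw [b0, map_mul, map_pow, j0, j3i]
  · change PowerSeries.map _ (p1 * p0i) = p2 * p0i
    rw [map_mul, j1, j0i]
  · have a := Conv.X.mul (conv_phi.pow 2)
    rw [hc'_eq, ev_mul ((a.mul c1).mul c3) (c9.pow 2) hq, ev_mul (a.mul c1) c3 hq, ev_mul a c1 hq,
      ev_mul Conv.X (conv_phi.pow 2) hq, ev_pow conv_phi hq, ev_pow c9 hq, ev_X, ev_phi hq, e1 hq,
      e3 hq, e9 hq]
  · change ev (phi * p1i) q = _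
    rw [ev_mul conv_phi c1i hq, ev_phi hq, e1i hq, div_eq_mul_inv]
  · have a := Conv.X.mul (conv_phi.pow 6)
    rw [x_eq, ev_mul (a.mul (c9.pow 6)) (c3i.pow 12) hq, ev_mul a (c9.pow 6) hq,
      ev_mul Conv.X (conv_phi.pow 6) hq, ev_pow conv_phi hq, ev_pow c9 hq, ev_pow c3i hq, ev_X,
      ev_phi hq, e9 hq, e3i hq, div_eq_mul_inv, inv_pow]

end

end Pool.Agent.Lib.MP_caab05_ag.W3
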