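import Pool.Agent.Lib.MP_caab05_ag.W3.Defs

/-!
The local rings of `Z[om]`, a block determinant lemma and the case analysis of the exponents.
-/

namespace Pool.Agent.Lib.MP_caab05_ag.W3

open PowerSeries

noncomputable section

lemma om_mul_conj : om * (starRingEnd ℂ) om = 1 := by
  rw [Complex.mul_conj, Complex.normSq_eq_norm_sq, om]
  have h : (2 * Real.pi * Complex.I / 3 : ℂ) = ((2 * Real.pi / 3 : ℝ) : ℂ) * Complex.I := by
    push_cast; ring
  rw [h, Complex.norm_exp_ofReal_mul_I]; simp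

lemma isO_int (n : ℤ) : IsO n := ⟨n, 0, by simp⟩

lemma IsO.add {z w : ℂ} (hz : IsO z) (hw : IsO w) : IsO (z + w) := by
  obtain ⟨a, b, rfl⟩ := hz
  obtain ⟨c, d, rfl⟩ := hw
  exact ⟨a + c, b + d, by push_cast; ring⟩

lemma IsO.mul (h : om ^ 2 + om + 1 = 0) {z w : ℂ} (hz : IsO z) (hw : IsO w) : IsO (z * w) := by
  obtain ⟨a, b, rfl⟩ := hz
  obtain ⟨c, d, rfl⟩ := hw
  exact ⟨a * c - b * d, a * d + b * c - b * d, by push_cast; linear_combination (b * d : ℂ) * h⟩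

lemma IsO.int_mul (n : ℤ) {z : ℂ} (hz : IsO z) : IsO (n * z) := by
  obtain ⟨a, b, rfl⟩ := hz
  exact ⟨n * a, n * b, by push_cast; ring⟩

lemma IsO.one_le_norm (h : om ^ 2 + om + 1 = 0) {z : ℂ} (hz : IsO z) (h0 : z ≠ 0) : 1 ≤ ‖z‖ := by
  obtain ⟨a, b, hab⟩ := hz
  have hc : (starRingEnd ℂ) om = om ^ 2 := by
    linear_combination om ^ 2 * om_mul_conj - (starRingEnd ℂ) om * (om - 1) * h
  have h1 : ((Complex.normSq z : ℝ) : ℂ) = ((a ^ 2 - a * b + b ^ 2 : ℤ) : ℂ) := by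
    rw [← Complex.mul_conj, hab]
    simp only [map_add, map_mul, map_intCast, hc]
    push_cast
    linear_combination ((a : ℂ) * b + (b : ℂ) ^ 2 * (om - 1)) * h
  have h2 : Complex.normSq z = ((a ^ 2 - a * b + b ^ 2 : ℤ) : ℝ) := by exact_mod_cast h1
  have h3 : 0 < Complex.normSq z := Complex.normSq_pos.2 h0
  rw [h2] at h3
  have h4 : (1 : ℤ) ≤ a ^ 2 - a * b + b ^ 2 := by exact_mod_cast h3
  have h5 : (1 : ℝ) ≤ ‖z‖ ^ 2 := by
    rw [← Complex.normSq_eq_norm_sq, h2]; exact_mod_cast h4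
  nlinarith [norm_nonneg z]

/-- elements of `Q(om)` which are integral at `p` -/
def Rp (h : om ^ 2 + om + 1 = 0) {p : ℕ} (hp : p.Prime) : Subring ℂ where
  carrier := {z | ∃ m : ℕ, ¬ p ∣ m ∧ IsO (m * z)}
  mul_mem' := by
    rintro z w ⟨m, hm, hz⟩ ⟨n, hn, hw⟩
    refine ⟨m * n, fun hd => (hp.dvd_mul.1 hd).elim hm hn, ?_⟩
    have := IsO.mul h hz hw
    rwa [show (m : ℂ) * z * (n * w) = ((m * n : ℕ) : ℂ) * (z * w) by push_cast; ring] at this
  one_mem' := ⟨1, hp.not_dvd_one, by simpa using isO_int 1⟩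
  add_mem' := by
    rintro z w ⟨m, hm, hz⟩ ⟨n, hn, hw⟩
    refine ⟨m * n, fun hd => (hp.dvd_mul.1 hd).elim hm hn, ?_⟩
    have := (IsO.int_mul n hz).add (IsO.int_mul m hw)
    rwa [show ((n : ℤ) : ℂ) * (m * z) + ((m : ℤ) : ℂ) * (n * w) = ((m * n : ℕ) : ℂ) * (z + w) by
      push_cast; ring] at this
  zero_mem' := ⟨1, hp.not_dvd_one, by simpa using isO_int 0⟩
  neg_mem' := by
    rintro z ⟨m, hm, hz⟩
    refine ⟨m, hm, ?_⟩
    have := IsO.int_mul (-1) hz
    rwa [show ((-1 : ℤ) : ℂ) * (m * z) = m * (-z) by push_cast; ring] at this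

lemma IsO.mem_Rp (h : om ^ 2 + om + 1 = 0) {p : ℕ} (hp : p.Prime) {z : ℂ} (hz : IsO z) :
    z ∈ Rp h hp := ⟨1, hp.not_dvd_one, by simpa using hz⟩

lemma inv_mem_Rp (h : om ^ 2 + om + 1 = 0) {p : ℕ} (hp : p.Prime) {m : ℕ} (hm : ¬ p ∣ m) :
    (m : ℂ)⁻¹ ∈ Rp h hp := by
  refine ⟨m, hm, ?_⟩
  have h0 : (m : ℂ) ≠ 0 := by
    rintro h0
    exact hm (by rw [Nat.cast_eq_zero.1 h0]; exact dvd_zero _)
  rw [mul_inv_cancel₀ h0]; simpa using isO_int 1

lemma pow_div_mem_Rp (h : om ^ 2 + om + 1 = 0) {p : ℕ} (hp : p.Prime) {e n : ℕ}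
    (hn : n < p ^ (e + 1)) : (p : ℂ) ^ e * (n : ℂ)⁻¹ ∈ Rp h hp := by
  rcases Nat.eq_zero_or_pos n with rfl | hn0
  · simp
  obtain ⟨v, m, hm, rfl⟩ := Nat.exists_eq_pow_mul_and_not_dvd hn0.ne' p hp.ne_one
  have hm0 : 0 < m := Nat.pos_of_ne_zero (by rintro rfl; simp at hm)
  have hv : v ≤ e := by
    have h1 : p ^ v < p ^ (e + 1) := lt_of_le_of_lt (Nat.le_mul_of_pos_right _ hm0) hn
    have := (Nat.pow_lt_pow_iff_right hp.one_lt).1 h1
    omega
  obtain ⟨k, rfl⟩ := Nat.exists_eq_add_of_le hv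
  have hp0 : (p : ℂ) ≠ 0 := by exact_mod_cast hp.ne_zero
  have : (p : ℂ) ^ (v + k) * ((p ^ v * m : ℕ) : ℂ)⁻¹ = (p : ℂ) ^ k * (m : ℂ)⁻¹ := by
    push_cast; field_simp; ring
  rw [this]
  exact mul_mem (pow_mem (natCast_mem _ p) k) (inv_mem_Rp h hp hm)

lemma isO_of_forall (h : om ^ 2 + om + 1 = 0) {z : ℂ}
    (hz : ∀ (p : ℕ) (hp : p.Prime), z ∈ Rp h hp) : IsO z := by
  have key : ∀ m : ℕ, 0 < m → IsO (m * z) → IsO z := by
    intro m
    induction m using Nat.strong_induction_on with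
    | _ m ih =>
      intro hm hO
      by_cases h1 : m = 1
      · simpa [h1] using hO
      obtain ⟨m', hm', hO'⟩ := hz m.minFac (Nat.minFac_prime h1)
      refine ih (Nat.gcd m m') ?_ (Nat.gcd_pos_of_pos_left _ hm) ?_
      · refine lt_of_le_of_ne (Nat.gcd_le_left _ hm) fun he => hm' ?_
        exact (Nat.minFac_dvd m).trans (he ▸ Nat.gcd_dvd_right m m')
      · have := (IsO.int_mul (Nat.gcdA m m') hO).add (IsO.int_mul (Nat.gcdB m m') hO')
        have h2 : ((Nat.gcd m m' : ℕ) : ℂ) = m * (Nat.gcdA m m' : ℂ) + m' * (Nat.gcdB m m' : ℂ) := by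
          exact_mod_cast congrArg (Int.cast : ℤ → ℂ) (Nat.gcd_eq_gcd_ab m m')
        rw [h2]
        rwa [show ((Nat.gcdA m m' : ℤ) : ℂ) * (m * z) + ((Nat.gcdB m m' : ℤ) : ℂ) * (m' * z)
          = (m * (Nat.gcdA m m' : ℂ) + m' * (Nat.gcdB m m' : ℂ)) * z by ring] at this
  obtain ⟨m, hm, hO⟩ := hz 2 Nat.prime_two
  exact key m (Nat.pos_of_ne_zero (by rintro rfl; simp at hm)) hO

lemma det_mem_subring {I : Type*} [Fintype I] [DecidableEq I] (R : Subring ℂ) (M : Matrix I I ℂ)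
    (h : ∀ i j, M i j ∈ R) : M.det ∈ R := by
  rw [Matrix.det_apply']
  exact Subring.sum_mem _ fun s _ => mul_mem (intCast_mem _ _) (Subring.prod_mem _ fun i _ => h _ _)

/-- block determinant lemma -/
lemma det_lemma {I G : Type*} [Fintype I] [DecidableEq I] [Fintype G] [DecidableEq G]
    (R : Subring ℂ) {p : ℂ} (hp0 : p ≠ 0) (hp : p ∈ R) (M : Matrix I I ℂ) (ar bc : I → ℕ)
    (cf : I → G → ℂ) (W : G → I → ℂ) (hcf : ∀ r g, cf r g ∈ R) (hW : ∀ g k, W g k ∈ R)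
    (h : ∀ r k, p ^ (ar r + bc k) * M r k - p⁻¹ * ∑ g, cf r g * W g k ∈ R) :
    p ^ (∑ r, ar r + ∑ k, bc k + Fintype.card G) * M.det ∈ R := by
  set M' : Matrix I I ℂ := Matrix.of fun r k => p ^ ar r * (Matrix.of fun r k => p ^ bc k * M r k) r k
    with hM'
  have hdet : M'.det = p ^ (∑ r, ar r + ∑ k, bc k) * M.det := by
    rw [hM', Matrix.det_mul_column, Matrix.det_mul_row, Finset.prod_pow_eq_pow_sum,
      Finset.prod_pow_eq_pow_sum, pow_add, mul_assoc]
  set B : Matrix (G ⊕ I) (G ⊕ I) ℂ :=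
    Matrix.fromBlocks (p • (1 : Matrix G G ℂ)) 0 (Matrix.of cf) M' *
      Matrix.fromBlocks 1 (-(p⁻¹ • Matrix.of W)) 0 1 with hB
  have hBdet : B.det = p ^ (∑ r, ar r + ∑ k, bc k + Fintype.card G) * M.det := by
    rw [hB, Matrix.det_mul, Matrix.det_fromBlocks_zero₁₂, Matrix.det_fromBlocks_zero₂₁, hdet,
      Matrix.det_smul]
    simp [pow_add]; ring
  rw [← hBdet]
  refine det_mem_subring R B fun i j => ?_
  rw [hB, Matrix.fromBlocks_multiply]
  rcases i with i | i <;> rcases j with j | j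
  · simp only [Matrix.fromBlocks_apply₁₁, Matrix.mul_one, Matrix.mul_zero, add_zero,
      Matrix.smul_apply, smul_eq_mul, Matrix.one_apply]
    split_ifs
    · simpa using hp
    · simp
  · simp only [Matrix.fromBlocks_apply₁₂, Matrix.zero_mul, add_zero, Matrix.smul_mul,
      Matrix.one_mul, smul_neg, smul_smul, mul_inv_cancel₀ hp0, one_smul, Matrix.neg_apply,
      Matrix.of_apply]
    exact neg_mem (hW _ _)
  · simp only [Matrix.fromBlocks_apply₂₁, Matrix.mul_one, Matrix.mul_zero, add_zero,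
      Matrix.of_apply]
    exact hcf _ _
  · simp only [Matrix.fromBlocks_apply₂₂, Matrix.mul_one, Matrix.mul_neg, Matrix.mul_smul,
      Matrix.add_apply, Matrix.neg_apply, Matrix.smul_apply, Matrix.mul_apply, Matrix.of_apply,
      smul_eq_mul, hM']
    have := h i j
    rw [pow_add] at this
    rwa [show -(p⁻¹ * ∑ g, cf i g * W g j) + p ^ ar i * (p ^ bc j * M i j)
      = p ^ ar i * p ^ bc j * M i j - p⁻¹ * ∑ g, cf i g * W g j by ring]

/-- number of inverse derivations in the seven functions -/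
def lev : Fin 7 → ℕ := ![0, 2, 2, 2, 2, 3, 3]

lemma pow_up (R : Subring ℂ) {p a b : ℕ} {z : ℂ} (h : (p : ℂ) ^ a * z ∈ R) (hab : a ≤ b) :
    (p : ℂ) ^ b * z ∈ R := by
  obtain ⟨k, rfl⟩ := Nat.exists_eq_add_of_le hab
  rw [add_comm, pow_add, mul_assoc]
  exact mul_mem (pow_mem (natCast_mem _ p) k) h

lemma log_le_colExp {D p n : ℕ} (h : p < 5 ∨ ¬ (p ≤ n ∧ n < p ^ 2)) :
    3 * Nat.log p n ≤ colExp D p n := by
  unfold colExp
  by_cases h1 : p < 5 ∨ p ^ 2 ≤ n
  · rw [if_pos h1]; omega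
  · have : n < p := by omega
    rw [Nat.log_of_lt this]; omega

section
variable (R : Subring ℂ) {p : ℕ} (hp : p.Prime) {D : ℕ} (col : Fin D × Fin 7 → ℕ)
  (v : Fin D × Fin 7 → ℕ → ℂ)
  (F1 : ∀ r n, (p : ℂ) ^ (3 * Nat.log p n) * v r n ∈ R)
  (F2 : ∀ r n, n < p ^ 2 → (p : ℂ) ^ lev r.2 * v r n ∈ R)
  (W : ℕ → ℕ → ℂ) (cf : Fin D × Fin 7 → ℕ → ℂ) (hW : ∀ m n, W m n ∈ R) (hcf : ∀ r m, cf r m ∈ R)
  (F3 : ∀ r n, 1 ≤ r.2.val → r.2.val ≤ 4 → n < p ^ 2 →
    (p : ℂ) ^ 1 * v r n - (p : ℂ)⁻¹ * ∑ m ∈ Finset.range (2 * D + p + 2), cf r m * W m n ∈ R)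
  (Θ : Fin D → ℕ → ℂ) (π : Fin 7 → ℂ) (hΘ : ∀ i n, Θ i n ∈ R) (hπ : ∀ j, π j ∈ R)
  (hΘ0 : ∀ i n, n < 3 * p → Θ i n = 0)
  (F4 : ∀ r n, 5 ≤ r.2.val → n < p ^ 2 →
    (p : ℂ) ^ 2 * v r n - (p : ℂ)⁻¹ * (π r.2 * Θ r.1 n) ∈ R)

include hp F1 F2 hW hcf F3 hΘ hπ F4 in
lemma regimeAB (ar : Fin D × Fin 7 → ℕ)
    (har : ∀ r k, p ≤ col k → col k < p ^ 2 → 1 ≤ r.2.val →
      ar r + colExp D p (col k) = if r.2.val ≤ 4 then 1 else 2) :
    (p : ℂ) ^ (∑ r, ar r + ∑ k, colExp D p (col k) + (3 * D + p + 2)) *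
      Matrix.det (Matrix.of fun r k : Fin D × Fin 7 => v r (col k)) ∈ R := by
  have hp0 : (p : ℂ) ≠ 0 := by exact_mod_cast hp.ne_zero
  have := det_lemma (G := Fin (2 * D + p + 2) ⊕ Fin D) R hp0 (natCast_mem _ p)
    (Matrix.of fun r k : Fin D × Fin 7 => v r (col k)) ar (fun k => colExp D p (col k))
    (fun r g => Sum.elim (fun m : Fin (2 * D + p + 2) => if 1 ≤ r.2.val ∧ r.2.val ≤ 4 then cf r m else 0)
      (fun i => if 5 ≤ r.2.val ∧ i = r.1 then π r.2 else 0) g)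
    (fun g k => if p ≤ col k ∧ col k < p ^ 2 then
      Sum.elim (fun m : Fin (2 * D + p + 2) => W m (col k)) (fun i => Θ i (col k)) g else 0) ?_ ?_ ?_
  · rwa [Fintype.card_sum, Fintype.card_fin, Fintype.card_fin,
      show 2 * D + p + 2 + D = 3 * D + p + 2 by ring] at this
  · rintro r (m | i) <;> simp only [Sum.elim_inl, Sum.elim_inr] <;> split_ifs
    exacts [hcf _ _, zero_mem _, hπ _, zero_mem _]
  · rintro (m | i) k <;> simp only [Sum.elim_inl, Sum.elim_inr] <;> split_ifs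
    exacts [hW _ _, zero_mem _, hΘ _ _, zero_mem _]
  intro r k
  simp only [Matrix.of_apply]
  by_cases hk : p ≤ col k ∧ col k < p ^ 2
  swap
  · simp only [if_neg hk, mul_zero, Finset.sum_const_zero, sub_zero]
    exact pow_up R (F1 r _) ((log_le_colExp (Or.inr hk)).trans (Nat.le_add_left _ _))
  simp only [if_pos hk, Fintype.sum_sum_type, Sum.elim_inl, Sum.elim_inr]
  by_cases h0 : 1 ≤ r.2.val
  swap
  · have h1 : ¬ (1 ≤ r.2.val ∧ r.2.val ≤ 4) := fun h => h0 h.1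
    have h2 : ∀ i, ¬ (5 ≤ r.2.val ∧ i = r.1) := fun i h => by omega
    simp only [if_neg h1, if_neg (h2 _), zero_mul, Finset.sum_const_zero, add_zero, mul_zero,
      sub_zero]
    have h3 : r.2 = 0 := Fin.ext (by simp; omega)
    have := F2 r _ hk.2
    rw [h3] at this
    exact pow_up R this (Nat.zero_le _)
  rw [har r k hk.1 hk.2 h0]
  by_cases h4 : r.2.val ≤ 4
  · have h2 : ∀ i, ¬ (5 ≤ r.2.val ∧ i = r.1) := fun i h => by omega
    simp only [if_pos h4, if_pos (And.intro h0 h4), if_neg (h2 _), zero_mul,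
      Finset.sum_const_zero, add_zero]
    rw [Fin.sum_univ_eq_sum_range (fun m => cf r m * W m (col k))]
    exact F3 r _ h0 h4 hk.2
  · have h1 : ¬ (1 ≤ r.2.val ∧ r.2.val ≤ 4) := fun h => h4 h.2
    have h5 : 5 ≤ r.2.val := by omega
    simp only [if_neg h4, if_neg h1, zero_mul, Finset.sum_const_zero, zero_add, h5, true_and,
      ite_mul, Finset.sum_ite_eq', Finset.mem_univ, if_true]
    exact F4 r _ h5 hk.2

lemma lev_le_two {j : Fin 7} (h : ¬ 5 ≤ j.val) : lev j ≤ 2 := by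
  fin_cases j <;> simp_all [lev]

lemma lev_le_three (j : Fin 7) : lev j ≤ 3 := by
  fin_cases j <;> simp [lev]

include hp F1 F2 hΘ hπ F4 in
lemma regimeC (har : ∀ k, p ≤ col k → col k < p ^ 2 → colExp D p (col k) = 2) :
    (p : ℂ) ^ (∑ k, colExp D p (col k) + D) *
      Matrix.det (Matrix.of fun r k : Fin D × Fin 7 => v r (col k)) ∈ R := by
  have hp0 : (p : ℂ) ≠ 0 := by exact_mod_cast hp.ne_zero
  have := det_lemma (G := Fin D) R hp0 (natCast_mem _ p)
    (Matrix.of fun r k : Fin D × Fin 7 => v r (col k)) (fun _ => 0) (fun k => colExp D p (col k))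
    (fun r i => if 5 ≤ r.2.val ∧ i = r.1 then π r.2 else 0)
    (fun i k => if p ≤ col k ∧ col k < p ^ 2 then Θ i (col k) else 0) ?_ ?_ ?_
  · simpa using this
  · intro r i; split_ifs
    exacts [hπ _, zero_mem _]
  · intro i k; split_ifs
    exacts [hΘ _ _, zero_mem _]
  intro r k
  simp only [Matrix.of_apply, zero_add]
  by_cases hk : p ≤ col k ∧ col k < p ^ 2
  swap
  · simp only [if_neg hk, mul_zero, Finset.sum_const_zero, sub_zero]
    exact pow_up R (F1 r _) (log_le_colExp (Or.inr hk))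
  simp only [if_pos hk, har k hk.1 hk.2]
  by_cases h5 : 5 ≤ r.2.val
  · simp only [h5, true_and, ite_mul, zero_mul, Finset.sum_ite_eq', Finset.mem_univ, if_true]
    exact F4 r _ h5 hk.2
  · simp only [h5, false_and, if_false, zero_mul, Finset.sum_const_zero, mul_zero, sub_zero]
    exact pow_up R (F2 r _ hk.2) (lev_le_two h5)

include hp in
lemma regime0 (h : ∀ r k, (p : ℂ) ^ colExp D p (col k) * v r (col k) ∈ R) :
    (p : ℂ) ^ (∑ k, colExp D p (col k)) *
      Matrix.det (Matrix.of fun r k : Fin D × Fin 7 => v r (col k)) ∈ R := by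
  have hp0 : (p : ℂ) ≠ 0 := by exact_mod_cast hp.ne_zero
  have := det_lemma (G := Fin 0) R hp0 (natCast_mem _ p)
    (Matrix.of fun r k : Fin D × Fin 7 => v r (col k)) (fun _ => 0) (fun k => colExp D p (col k))
    (fun _ _ => 0) (fun _ _ => 0) (fun _ _ => zero_mem _) (fun _ _ => zero_mem _)
    (fun r k => by simpa using h r k)
  simpa using this

include hp F1 in
lemma regime_small (h5 : p < 5) :
    (p : ℂ) ^ totExp D col p *
      Matrix.det (Matrix.of fun r k : Fin D × Fin 7 => v r (col k)) ∈ R := by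
  have := regime0 R hp col v fun r k => pow_up R (F1 r _) (log_le_colExp (Or.inl h5))
  rwa [totExp, baseExp, if_pos h5, zero_add]

include hp F1 F2 hW hcf F3 hΘ hπ hΘ0 F4 in
lemma regime_large (h5 : 5 ≤ p) :
    (p : ℂ) ^ totExp D col p *
      Matrix.det (Matrix.of fun r k : Fin D × Fin 7 => v r (col k)) ∈ R := by
  have h5' : ¬ p < 5 := by omega
  rw [totExp, baseExp, if_neg h5']
  split_ifs with hA hB hC
  · have := regimeAB R hp col v F1 F2 W cf hW hcf F3 Θ π hΘ hπ F4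
      (fun r => ![0, 1, 1, 1, 1, 2, 2] r.2) ?_
    · have h2 : ∑ r : Fin D × Fin 7, (![0, 1, 1, 1, 1, 2, 2] : Fin 7 → ℕ) r.2 = 8 * D := by
        simp [Fintype.sum_prod_type, Fin.sum_univ_succ, mul_comm]
      rw [h2] at this
      exact pow_up R this (by omega)
    · rintro ⟨i, j⟩ k h1 h2 h3
      have h4 : colExp D p (col k) = 0 := by
        unfold colExp
        rw [if_neg (by omega), if_neg (by omega), if_neg (by omega), if_neg (by omega)]
      rw [h4]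
      fin_cases j <;> simp_all
  · have := regimeAB R hp col v F1 F2 W cf hW hcf F3 Θ π hΘ hπ F4
      (fun r => ![0, 0, 0, 0, 0, 1, 1] r.2) ?_
    · have h2 : ∑ r : Fin D × Fin 7, (![0, 0, 0, 0, 0, 1, 1] : Fin 7 → ℕ) r.2 = 2 * D := by
        simp [Fintype.sum_prod_type, Fin.sum_univ_succ, mul_comm]
      rw [h2] at this
      exact pow_up R this (by omega)
    · rintro ⟨i, j⟩ k h1 h2 h3
      have h4 : colExp D p (col k) = 1 := by
        unfold colExp
        rw [if_neg (by omega), if_pos (by omega), if_neg (by omega), if_neg (by omega)]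
      rw [h4]
      fin_cases j <;> simp_all
  · have := regimeC R hp col v F1 F2 Θ π hΘ hπ F4 fun k h1 h2 => by
      unfold colExp
      rw [if_neg (by omega), if_pos (by omega), if_pos (by omega), if_neg (by omega)]
    exact pow_up R this (by omega)
  · rw [zero_add]
    refine regime0 R hp col v fun r k => ?_
    by_cases hk : p ≤ col k ∧ col k < p ^ 2
    swap
    · exact pow_up R (F1 r _) (log_le_colExp (Or.inr hk))
    by_cases h3 : 3 * p ≤ col k
    · refine pow_up R (F2 r _ hk.2) ((lev_le_three _).trans ?_)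
      unfold colExp
      rw [if_neg (by omega), if_pos (by omega), if_pos (by omega), if_pos (by omega)]
    · have h4 : colExp D p (col k) = 2 := by
        unfold colExp
        rw [if_neg (by omega), if_pos (by omega), if_pos (by omega), if_neg (by omega)]
      rw [h4]
      by_cases h6 : 5 ≤ r.2.val
      · simpa [hΘ0 r.1 (col k) (by omega)] using F4 r _ h6 hk.2
      · exact pow_up R (F2 r _ hk.2) (lev_le_two h6)

end

end

end Pool.Agent.Lib.MP_caab05_ag.W3
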