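import Pool.Agent.Lib.MP_caab05_ag.W3.CharP
import Pool.Agent.Lib.MP_caab05_ag.W3.Padic1

namespace Pool.Agent.Lib.MP_caab05_ag.W3

open PowerSeries

noncomputable section

/-- equality of the coefficients below `M` -/
def Cg (M : ℕ) (F G : ℂ⟦X⟧) : Prop := ∀ n < M, coeff n F = coeff n G

namespace Cg
variable {M : ℕ} {F G F' G' : ℂ⟦X⟧}

lemma rfl' (F : ℂ⟦X⟧) : Cg M F F := fun _ _ => rfl

lemma of_eq (h : Cg M F G) (e : G = G') : Cg M F G' := e ▸ h

lemma add (h : Cg M F G) (h' : Cg M F' G') : Cg M (F + F') (G + G') := fun n hn => by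
  rw [map_add, map_add, h n hn, h' n hn]

lemma sub (h : Cg M F G) (h' : Cg M F' G') : Cg M (F - F') (G - G') := fun n hn => by
  rw [map_sub, map_sub, h n hn, h' n hn]

lemma mul (H : ℂ⟦X⟧) (h : Cg M F G) : Cg M (H * F) (H * G) := fun n hn => by
  rw [coeff_mul, coeff_mul]
  refine Finset.sum_congr rfl fun kl hkl => ?_
  have := Finset.HasAntidiagonal.mem_antidiagonal.1 hkl
  rw [h kl.2 (by omega)]

lemma th (h : Cg M F G) : Cg M (th F) (th G) := fun n hn => by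
  rw [coeff_th, coeff_th, h n hn]

lemma wt {w w' : ℕ → ℂ} {s : ℂ} (hw : ∀ n < M, w' n = s * w n) (h : Cg M F G) :
    Cg M (wt w' F) (C s * wt w G) := fun n hn => by
  rw [coeff_wt, coeff_C_mul, coeff_wt, h n hn, hw n hn, mul_assoc]

end Cg

section
variable (σ : Sys ℂ) {P P' : Par ℂ} {s : ℂ} {M : ℕ} (hw : ∀ n < M, P'.w n = s * P.w n)
  (ha : P'.a = P.a) (ha' : P'.a' = P.a') (hc : P'.c = s ^ 2 * P.c) (hc' : P'.c' = s ^ 2 * P.c')

include hw ha ha' hc in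
lemma cg_AA : Cg M (σ.AA P') (C s ^ 2 * σ.AA P) := by
  have hg : σ.g P' = σ.g P := by rw [Sys.g, Sys.g, ha, ha']
  rw [Sys.AA, Sys.AA, hg, hc]
  refine ((((Cg.rfl' _).wt hw).wt hw).sub (Cg.rfl' _)).mul _ |>.of_eq ?_
  rw [wt_C_mul, map_mul, map_pow]; ring

include hw ha ha' hc' in
lemma cg_AA' : Cg M (σ.AA' P') (C s ^ 2 * σ.AA' P) := by
  have hg : σ.g' P' = σ.g' P := by rw [Sys.g', Sys.g', ha, ha']
  rw [Sys.AA', Sys.AA', hg, hc']
  refine ((((Cg.rfl' _).wt hw).wt hw).sub (Cg.rfl' _)).mul _ |>.of_eq ?_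
  rw [wt_C_mul, map_mul, map_pow]; ring

lemma cg_tt {F G : ℂ⟦X⟧} (h : Cg M F (C s ^ 2 * G)) : Cg M (σ.tt F) (C s ^ 2 * σ.tt G) := by
  refine (h.th.mul _).of_eq ?_
  rw [← map_pow, th_C_mul, Sys.tt]; ring

include hw ha ha' hc hc' in
lemma cg_fn (j : Fin 7) : Cg M (σ.fn P' j) (C s ^ lev j * σ.fn P j) := by
  have h1 := cg_AA σ hw ha ha' hc
  have h2 := cg_AA' σ hw ha ha' hc'
  have h3 := cg_tt σ h1
  have h4 := cg_tt σ h2
  fin_cases j
  · exact (Cg.rfl' 1).of_eq (by simp [Sys.fn, lev])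
  · exact (h1.add h2).of_eq (by simp [Sys.fn, lev]; ring)
  · exact ((h1.mul _).add (h2.mul _)).of_eq (by simp [Sys.fn, lev]; ring)
  · exact (h3.sub h4).of_eq (by simp [Sys.fn, lev]; ring)
  · exact ((h3.mul _).sub (h4.mul _)).of_eq (by simp [Sys.fn, lev]; ring)
  · refine ((((h1.mul _).sub (h2.mul _)).mul _).wt hw).of_eq ?_
    rw [show σ.kap * (σ.x * (C s ^ 2 * σ.AA P) - σ.x * (C s ^ 2 * σ.AA' P))
      = C (s ^ 2) * (σ.kap * (σ.x * σ.AA P - σ.x * σ.AA' P)) by rw [map_pow]; ring, wt_C_mul]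
    simp [Sys.fn, lev]; ring
  · refine ((((h1.mul _).sub (h2.mul _)).mul _).wt hw).of_eq ?_
    rw [show σ.kap * (σ.x * σ.l2i ^ 3 * (C s ^ 2 * σ.AA P)
        - σ.x * (1 - σ.l1i ^ 3) * (C s ^ 2 * σ.AA' P))
      = C (s ^ 2) * (σ.kap * (σ.x * σ.l2i ^ 3 * σ.AA P - σ.x * (1 - σ.l1i ^ 3) * σ.AA' P)) by
        rw [map_pow]; ring, wt_C_mul]
    simp [Sys.fn, lev]; ring

include hw ha ha' hc hc' in
lemma cg_row (i : ℕ) (j : Fin 7) {n : ℕ} (hn : n < M) :
    coeff n (σ.row P' i j) = s ^ lev j * coeff n (σ.row P i j) := by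
  have := (cg_fn σ hw ha ha' hc hc' j).mul (σ.x ^ i) n hn
  rw [Sys.row, this, mul_left_comm, ← map_pow, coeff_C_mul, Sys.row]

end

lemma exists_lift (R : Subring ℂ) (σ : Sys ℂ) (h0 : σ.om ∈ R) (h1 : ∀ n, coeff n σ.t ∈ R)
    (h2 : ∀ n, coeff n σ.b ∈ R) (h3 : ∀ n, coeff n σ.l1 ∈ R) (h4 : ∀ n, coeff n σ.l2 ∈ R)
    (h5 : ∀ n, coeff n σ.bi ∈ R) (h6 : ∀ n, coeff n σ.l1i ∈ R) (h7 : ∀ n, coeff n σ.l2i ∈ R) :
    ∃ τ : Sys R, τ.map R.subtype = σ := by
  have lift : ∀ F : ℂ⟦X⟧, (∀ n, coeff n F ∈ R) → ∃ G : R⟦X⟧, PowerSeries.map R.subtype G = F :=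
    fun F hF => ⟨PowerSeries.mk fun n => ⟨_, hF n⟩, by ext n; simp⟩
  obtain ⟨t, ht⟩ := lift _ h1
  obtain ⟨b, hb⟩ := lift _ h2
  obtain ⟨l1, hl1⟩ := lift _ h3
  obtain ⟨l2, hl2⟩ := lift _ h4
  obtain ⟨bi, hbi⟩ := lift _ h5
  obtain ⟨l1i, hl1i⟩ := lift _ h6
  obtain ⟨l2i, hl2i⟩ := lift _ h7
  have inj : Function.Injective (PowerSeries.map R.subtype) :=
    PowerSeries.map_injective _ Subtype.val_injective
  have cf : ∀ (G : R⟦X⟧) (n : ℕ), ((coeff n G : R) : ℂ) = coeff n (PowerSeries.map R.subtype G) :=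
    fun G n => by simp
  refine ⟨⟨⟨σ.om, h0⟩, t, b, l1, l2, bi, l1i, l2i, Subtype.ext (by simpa using σ.hom),
    Subtype.ext (by rw [cf, ht, σ.t0]; rfl), Subtype.ext (by rw [cf, ht, σ.t1]; rfl),
    Subtype.ext (by rw [cf, hb, σ.b0]; rfl), Subtype.ext (by rw [cf, hl1, σ.l10]; rfl),
    Subtype.ext (by rw [cf, hl2, σ.l20]; rfl),
    inj (by rw [map_mul, hb, hbi, σ.hb, map_one]), inj (by rw [map_mul, hl1, hl1i, σ.hl1, map_one]),
    inj (by rw [map_mul, hl2, hl2i, σ.hl2, map_one]),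
    inj (by simpa [hl1, ht, map_ofNat] using σ.cube1),
    inj (by simpa [hl2, ht, map_ofNat] using σ.cube2),
    inj (by simpa [hb, ht, map_ofNat, map_th] using σ.tht),
    inj (by simpa [hb, hbi, ht, map_ofNat, map_th] using σ.thb)⟩, ?_⟩
  cases σ
  simp only [Sys.map, Sys.mk.injEq] at *
  exact ⟨rfl, ht, hb, hl1, hl2, hbi, hl1i, hl2i⟩

section
variable (h : om ^ 2 + om + 1 = 0) {p : ℕ} (hp : p.Prime) {a a' c c' : ℂ} (ha : IsO a)
  (ha' : IsO a') (hc : IsO c) (hc' : IsO c')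

/-- the scaled parameters -/
def parR (e : ℕ) : Par (Rp h hp) where
  w n := if hn : n < p ^ (e + 1) then ⟨_, pow_div_mem_Rp h hp hn⟩ else 0
  a := ⟨a, ha.mem_Rp h hp⟩
  a' := ⟨a', ha'.mem_Rp h hp⟩
  c := ((p : Rp h hp) ^ e) ^ 2 * ⟨c, hc.mem_Rp h hp⟩
  c' := ((p : Rp h hp) ^ e) ^ 2 * ⟨c', hc'.mem_Rp h hp⟩

lemma coeff_parR (τ : Sys (Rp h hp)) (e i : ℕ) (j : Fin 7) {n : ℕ} (hn : n < p ^ (e + 1)) :
    ((coeff n (τ.row (parR h hp ha ha' hc hc' e) i j) : Rp h hp) : ℂ) =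
      ((p : ℂ) ^ e) ^ lev j * coeff n ((τ.map (Rp h hp).subtype).row (parC a a' c c') i j) := by
  rw [← cg_row (P := parC a a' c c') (s := (p : ℂ) ^ e)
    (P' := (parR h hp ha ha' hc hc' e).map (Rp h hp).subtype) (M := p ^ (e + 1)) _
    (fun m hm => by simp [parR, Par.map, parC, hm]) rfl rfl (by simp [parR, Par.map, parC])
    (by simp [parR, Par.map, parC]) i j hn, ← Sys.map_row]
  simp

include ha ha' hc hc' in
lemma padic (τ : Sys (Rp h hp)) (D : ℕ) (col : Fin D × Fin 7 → ℕ) :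
    (p : ℂ) ^ totExp D col p * minor (τ.map (Rp h hp).subtype) (parC a a' c c') D col
      ∈ Rp h hp := by
  have hp0 : (p : ℂ) ≠ 0 := by exact_mod_cast hp.ne_zero
  set v : Fin D × Fin 7 → ℕ → ℂ := fun r n =>
    coeff n ((τ.map (Rp h hp).subtype).row (parC a a' c c') r.1 r.2) with hv
  have F1 : ∀ r n, (p : ℂ) ^ (3 * Nat.log p n) * v r n ∈ Rp h hp := fun r n => by
    have h1 := coeff_parR h hp ha ha' hc hc' τ (Nat.log p n) r.1 r.2
      (Nat.lt_pow_succ_log_self hp.one_lt n)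
    refine pow_up _ (a := Nat.log p n * lev r.2) ?_ ?_
    · rw [pow_mul, hv, ← h1]; exact Subtype.property _
    · rw [mul_comm]; exact Nat.mul_le_mul_right _ (lev_le_three _)
  by_cases h5 : p < 5
  · exact regime_small _ hp col v F1 h5
  have h5' : 5 ≤ p := by omega
  set P := parR h hp ha ha' hc hc' 1 with hP
  have hco : ∀ (r : Fin D × Fin 7) n, n < p ^ 2 →
      ((coeff n (τ.row P r.1 r.2) : Rp h hp) : ℂ) = (p : ℂ) ^ lev r.2 * v r n := fun r n hn => by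
    rw [hP, coeff_parR h hp ha ha' hc hc' τ 1 r.1 r.2 hn, pow_one]
  set I : Ideal (Rp h hp) := Ideal.span {(p : Rp h hp)} with hI
  set π := Ideal.Quotient.mk I with hπ
  have hpk : ((p : ℕ) : Rp h hp ⧸ I) = 0 := by
    rw [← map_natCast π, hπ, Ideal.Quotient.eq_zero_iff_mem]
    exact Ideal.mem_span_singleton_self _
  have hsur : Function.Surjective π := Ideal.Quotient.mk_surjective
  have hsur' := PowerSeries.map_surjective π hsur
  have key : ∀ (F G : (Rp h hp)⟦X⟧), PowerSeries.map π F = PowerSeries.map π G → ∀ n,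
      (p : ℂ)⁻¹ * ((coeff n F : Rp h hp) : ℂ) - (p : ℂ)⁻¹ * ((coeff n G : Rp h hp) : ℂ)
        ∈ Rp h hp := fun F G hFG n => by
    have h1 : π (coeff n F) = π (coeff n G) := by
      simpa using congrArg (coeff n) hFG
    obtain ⟨z, hz⟩ := Ideal.mem_span_singleton.1 (Ideal.Quotient.eq.1 h1)
    have h2 : ((coeff n F : Rp h hp) : ℂ) - ((coeff n G : Rp h hp) : ℂ) = p * (z : ℂ) := by
      simpa using congrArg Subtype.val hz
    rw [← mul_sub, h2, ← mul_assoc, inv_mul_cancel₀ hp0, one_mul]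
    exact z.property
  obtain ⟨⟨W, hW⟩, Θ, ⟨Θ', rfl⟩, π₅, π₆, h₅, h₆⟩ := charp_struct hp h5' hpk (τ.map π) (P.map π)
    (fun n hn => by
      simp only [hP, parR, Par.map]
      split_ifs with h1
      · have : (⟨_, pow_div_mem_Rp h hp h1⟩ : Rp h hp) = p * ⟨_, inv_mem_Rp h hp hn⟩ :=
          Subtype.ext (by simp)
        rw [this, map_mul, map_natCast, hpk, zero_mul]
      · exact map_zero _)
    (by simp [hP, parR, Par.map, hpk]) (by simp [hP, parR, Par.map, hpk]) D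
  choose W' hW' using fun m => hsur' (W m)
  obtain ⟨Θ'', hΘ''⟩ := hsur' Θ'
  obtain ⟨q₅, hq₅⟩ := hsur π₅
  obtain ⟨q₆, hq₆⟩ := hsur π₆
  have hcf : ∀ r : Fin D × Fin 7, ∃ cf : ℕ → Rp h hp, 1 ≤ r.2.val → r.2.val ≤ 4 →
      PowerSeries.map π (τ.row P r.1 r.2) =
        PowerSeries.map π (∑ m ∈ Finset.range (2 * D + p + 2), C (cf m) * W' m) := fun r => by
    by_cases hr : 1 ≤ r.2.val ∧ r.2.val ≤ 4
    · obtain ⟨cf, hcf⟩ := hW r.1 r.1.2 r.2 hr.1 hr.2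
      choose cf' hcf' using fun m => hsur (cf m)
      refine ⟨cf', fun _ _ => ?_⟩
      rw [Sys.map_row, hcf]
      simp [hcf', hW']
    · exact ⟨0, fun h1 h2 => absurd ⟨h1, h2⟩ hr⟩
  choose cf hcf using hcf
  refine regime_large _ hp col v F1 (fun r n hn => hco r n hn ▸ Subtype.property _)
    (fun m n => ((coeff n (W' m) : Rp h hp) : ℂ)) (fun r m => (cf r m : ℂ))
    (fun _ _ => Subtype.property _) (fun _ _ => Subtype.property _) ?_
    (fun i n => ((coeff n (τ.x ^ i.val * (X ^ (3 * p) * Θ'')) : Rp h hp) : ℂ))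
    (fun j => ((if j = 5 then q₅ else q₆ : Rp h hp) : ℂ))
    (fun _ _ => Subtype.property _) (fun _ => Subtype.property _) ?_ ?_ h5'
  · intro r n h1 h2 hn
    have h3 := key _ _ (hcf r h1 h2) n
    have h4 : lev r.2 = 2 := by
      obtain ⟨i, j⟩ := r
      fin_cases j <;> simp_all [lev]
    rw [hco r n hn, h4, show (p : ℂ)⁻¹ * ((p : ℂ) ^ 2 * v r n) = (p : ℂ) ^ 1 * v r n by
      field_simp] at h3
    simpa using h3
  · intro i n hn
    rw [mul_left_comm, coeff_X_pow_mul', if_neg (by omega)]; rfl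
  · rintro ⟨i, j⟩ n h1 hn
    have h2 : PowerSeries.map π (τ.row P i j) = PowerSeries.map π
        (C (if j = 5 then q₅ else q₆) * (τ.x ^ i.val * (X ^ (3 * p) * Θ''))) := by
      rw [Sys.map_row, Sys.row]
      have h3 : j = 5 ∨ j = 6 := by
        fin_cases j <;> simp_all
      rcases h3 with rfl | rfl
      · rw [h₅]; simp [hq₅, hΘ'']; ring
      · rw [h₆]; simp [hq₆, hΘ'']; ring
    have h3 := key _ _ h2 n
    have h4 : lev j = 3 := by
      fin_cases j <;> simp_all [lev]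
    rw [hco (i, j) n hn, h4, show (p : ℂ)⁻¹ * ((p : ℂ) ^ 3 * v (i, j) n) = (p : ℂ) ^ 2 * v (i, j) n by
      field_simp, coeff_C_mul, Subring.coe_mul] at h3
    exact h3

end

lemma totExp_eq_zero {D T p : ℕ} {col : Fin D × Fin 7 → ℕ} (hT : 2 * D ≤ T)
    (hcol : ∀ k, col k ≤ T) (hp : T < p) : totExp D col p = 0 := by
  have h1 : baseExp D p = 0 := by
    unfold baseExp; split_ifs <;> omega
  have h2 : ∀ k, colExp D p (col k) = 0 := fun k => by
    have := hcol k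
    unfold colExp
    rw [Nat.log_of_lt (by omega), if_neg (c := D < p ∧ _) (by omega),
      if_neg (c := 3 * D < _ ∧ _) (by omega), if_neg (c := 2 * D < _ ∧ _) (by omega)]
    simp
  simp [totExp, h1, h2]

/-- lower bound for a nonzero minor -/
theorem arith (σ : Sys ℂ) (hσ : σ.Integral) {a a' c c' : ℂ} (ha : IsO a) (ha' : IsO a')
    (hc : IsO c) (hc' : IsO c') (D : ℕ) (col : Fin D × Fin 7 → ℕ) (T : ℕ) (hT : 2 * D ≤ T)
    (hcol : ∀ k, col k ≤ T) (hne : minor σ (parC a a' c c') D col ≠ 0) :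
    0 ≤ Real.log ‖minor σ (parC a a' c c') D col‖ +
      ∑ p ∈ (Finset.range (T + 1)).filter Nat.Prime, (totExp D col p : ℝ) * Real.log p := by
  have h : om ^ 2 + om + 1 = 0 := hσ.hom ▸ σ.hom
  have h1 : ∀ (p : ℕ) (hp : p.Prime),
      (p : ℂ) ^ totExp D col p * minor σ (parC a a' c c') D col ∈ Rp h hp := fun p hp => by
    obtain ⟨τ, hτ⟩ := exists_lift (Rp h hp) σ (IsO.mem_Rp h hp ⟨0, 1, by simp [hσ.hom]⟩)
      (fun n => (hσ.t n).mem_Rp h hp) (fun n => (hσ.b n).mem_Rp h hp)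
      (fun n => (hσ.l1 n).mem_Rp h hp) (fun n => (hσ.l2 n).mem_Rp h hp)
      (fun n => (hσ.bi n).mem_Rp h hp) (fun n => (hσ.l1i n).mem_Rp h hp)
      (fun n => (hσ.l2i n).mem_Rp h hp)
    rw [← hτ]
    exact padic h hp ha ha' hc hc' τ D col
  set S := (Finset.range (T + 1)).filter Nat.Prime with hS
  set d : ℕ := ∏ p ∈ S, p ^ totExp D col p with hd
  have hd0 : ∀ p ∈ S, p ^ totExp D col p ≠ 0 := fun p hp =>
    pow_ne_zero _ (Finset.mem_filter.1 hp).2.ne_zero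
  have hd1 : d ≠ 0 := Finset.prod_ne_zero_iff.2 hd0
  have h2 : IsO (d * minor σ (parC a a' c c') D col) := isO_of_forall h fun p hp => by
    have h3 : p ^ totExp D col p ∣ d := by
      by_cases hpT : p ≤ T
      · exact Finset.dvd_prod_of_mem _ (Finset.mem_filter.2 ⟨Finset.mem_range.2 (by omega), hp⟩)
      · rw [totExp_eq_zero hT hcol (by omega), pow_zero]; exact one_dvd _
    obtain ⟨e, he⟩ := h3
    rw [he, Nat.cast_mul, Nat.cast_pow, mul_comm _ (e : ℂ), mul_assoc]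
    exact mul_mem (natCast_mem _ e) (h1 p hp)
  have h3 := h2.one_le_norm h (mul_ne_zero (by exact_mod_cast hd1) hne)
  have h4 := Real.log_nonneg h3
  rw [norm_mul, Complex.norm_natCast, Real.log_mul (by exact_mod_cast hd1) (norm_ne_zero_iff.2 hne),
    hd, Nat.cast_prod, Real.log_prod (fun p hp => by exact_mod_cast hd0 p hp)] at h4
  simp only [Nat.cast_pow, Real.log_pow] at h4
  linarith

end

end Pool.Agent.Lib.MP_caab05_ag.W3
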