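import Pool.Agent.Lib.MP_caab05_ag.W3.Conv

/-!
Definitions shared by the analytic parts.
-/

namespace Pool.Agent.Lib.MP_caab05_ag.W3

open PowerSeries

noncomputable section

/-- Euler's product -/
def Phi (q : ℂ) : ℂ := ∏' n : ℕ, (1 - q ^ (n + 1))

/-- Euler's product as a power series -/
def phi : ℂ⟦X⟧ := pentagonalSeries ℂ

/-- Taylor coefficients of `log (x/q)` -/
def ek (k : ℕ) : ℝ :=
  -6 * ((ArithmeticFunction.sigma 1 k : ℝ)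
    - 6 * (if 3 ∣ k then (ArithmeticFunction.sigma 1 (k / 3) : ℝ) else 0)
    + 9 * (if 9 ∣ k then (ArithmeticFunction.sigma 1 (k / 9) : ℝ) else 0)) / k

/-- archimedean cost of a column -/
def cost (D n : ℕ) : ℝ :=
  max ((n : ℝ) - D) 0 + max ((n : ℝ) - 3 / 2 * D) 0 + max ((n : ℝ) / 3 - 2 * D) 0

/-- A certificate for the maximum principle on the disc `|q| ≤ ρ` minus the image of the
disc `|τ + 7i/72| ≤ 25/72`; `V` is the majorant on the circle `|q| = ρ`. -/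
structure Dom (V : ℂ → ℝ) where
  ρ : ℝ
  ta : ℝ
  h : ℝ
  L : ℝ
  P : ℂ → ℂ
  G : ℂ → ℂ
  ρ0 : 0 < ρ
  ρ1 : ρ < 1
  dP : Differentiable ℂ P
  dG : Differentiable ℂ G
  P0 : P 0 = 0
  G0 : G 0 = 0
  B1 : ∀ τ : ℂ, ‖ee τ‖ = ρ → |τ.re| ≤ 1 / 2 → 25 / 72 < ‖τ + 7 / 72 * Complex.I‖ →
    V (ee τ) ≤ ta * Real.log ρ + h + (P (ee τ)).re
  B2 : ∀ τ : ℂ, ‖ee τ‖ = ρ → |τ.re| ≤ 1 / 2 → 25 / 72 < ‖τ + 7 / 72 * Complex.I‖ →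
    0 ≤ Real.log ρ - L + (G (ee τ)).re
  C1 : ∀ τ : ℂ, ‖ee τ‖ ≤ ρ → ‖τ + 7 / 72 * Complex.I‖ = 25 / 72 →
    ta * Real.log ‖ee (ww τ)‖ + (P (ee (ww τ))).re < ta * Real.log ‖ee τ‖ + (P (ee τ)).re
  C2 : ∀ τ : ℂ, ‖ee τ‖ ≤ ρ → ‖τ + 7 / 72 * Complex.I‖ = 25 / 72 →
    Real.log ‖ee (ww τ)‖ + (G (ee (ww τ))).re ≤ Real.log ‖ee τ‖ + (G (ee τ)).re

end

end Pool.Agent.Lib.MP_caab05_ag.W3
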