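import Pool.Agent.Shared.PNTAP
import Pool.Agent.Lib.MP_caab05_ag.W3.Iface

namespace Pool.Agent.Lib.MP_caab05_ag.W3

open PowerSeries

noncomputable section

namespace PS

open Filter Finset

/-- two-sided form of the prime number theorem -/
lemma theta_abs {e : ℝ} (he : 0 < e) :
    ∃ C : ℝ, 0 ≤ C ∧ ∀ x : ℝ, 0 ≤ x → |Chebyshev.theta x - x| ≤ e * x + C := by
  have h := (Metric.tendsto_nhds.1 Pool.Agent.Shared.PNTAP.theta_pnt) e he
  obtain ⟨x0, hx0⟩ := eventually_atTop.1 h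
  refine ⟨Chebyshev.theta (max x0 1) + max x0 1, ?_, fun x hx => ?_⟩
  · have := Chebyshev.theta_nonneg (max x0 1)
    have := le_max_right x0 1
    linarith
  · have h1 := Chebyshev.theta_nonneg (max x0 1)
    have h2 := le_max_right x0 1
    by_cases hx1 : max x0 1 ≤ x
    · have hp : 0 < x := by linarith
      have h3 := hx0 x (le_trans (le_max_left _ _) hx1)
      rw [Real.dist_eq] at h3
      have h4 : Chebyshev.theta x - x = (Chebyshev.theta x / x - 1) * x := by field_simp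
      rw [h4, abs_mul, abs_of_pos hp]
      nlinarith [mul_le_mul_of_nonneg_right h3.le hp.le]
    · have h3 := Chebyshev.theta_mono (le_of_not_ge hx1)
      have h4 := Chebyshev.theta_nonneg x
      have h5 := mul_nonneg he.le hx
      rw [abs_le]
      constructor <;> linarith [le_of_not_ge hx1]

/-- the sum of `log p` over the primes of `S` in `(a, b]` -/
def ind (S : Finset ℕ) (a b : ℝ) : ℝ :=
  ∑ p ∈ S, (if a < p ∧ (p : ℝ) ≤ b then (1 : ℝ) else 0) * Real.log p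

lemma ind_le_theta {S : Finset ℕ} (hS : ∀ p ∈ S, p.Prime) {a b : ℝ} (ha : 0 ≤ a) :
    ind S a b ≤ max (Chebyshev.theta b - Chebyshev.theta a) 0 := by
  classical
  by_cases hab : a ≤ b
  · refine le_trans ?_ (le_max_left _ _)
    have hb : 0 ≤ b := le_trans ha hab
    have h1 : ind S a b = ∑ p ∈ S.filter (fun p : ℕ => a < p ∧ (p : ℝ) ≤ b), Real.log p := by
      rw [ind, Finset.sum_filter]
      refine Finset.sum_congr rfl fun p _ => ?_
      split_ifs <;> simp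
    rw [h1, le_sub_iff_add_le, Chebyshev.theta, Chebyshev.theta, ← Finset.sum_union]
    · refine Finset.sum_le_sum_of_subset_of_nonneg ?_ (fun i _ _ => Real.log_natCast_nonneg i)
      intro p hp
      simp only [Finset.mem_union, Finset.mem_filter, Finset.mem_Ioc] at hp ⊢
      rcases hp with ⟨h2, -, h4⟩ | ⟨⟨h2, h3⟩, h4⟩
      · exact ⟨⟨(hS p h2).pos, Nat.le_floor h4⟩, hS p h2⟩
      · exact ⟨⟨h2, le_trans h3 (Nat.floor_mono hab)⟩, h4⟩
    · rw [Finset.disjoint_left]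
      intro p hp hq
      simp only [Finset.mem_filter, Finset.mem_Ioc] at hp hq
      have := (Nat.le_floor_iff ha).1 hq.1.2
      linarith [hp.2.1]
  · refine le_trans (le_of_eq ?_) (le_max_right _ _)
    refine Finset.sum_eq_zero fun p _ => ?_
    rw [if_neg, zero_mul]
    rintro ⟨h1, h2⟩
    exact hab (by linarith)

lemma ind_le {e C : ℝ} (he : 0 < e) (hC : 0 ≤ C)
    (h : ∀ x : ℝ, 0 ≤ x → |Chebyshev.theta x - x| ≤ e * x + C)
    {S : Finset ℕ} (hS : ∀ p ∈ S, p.Prime) {a b : ℝ} (ha : 0 ≤ a) (hb : 0 ≤ b) :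
    ind S a b ≤ max (b - a) 0 + (e * (a + b) + 2 * C) := by
  refine le_trans (ind_le_theta hS ha) (max_le ?_ ?_)
  · have h1 := abs_le.1 (h a ha)
    have h2 := abs_le.1 (h b hb)
    have := le_max_left (b - a) 0
    linarith [h1.1, h2.2]
  · have := le_max_right (b - a) 0
    have := mul_nonneg he.le (add_nonneg ha hb)
    linarith

lemma small_growth {e : ℝ} (he : 0 < e) :
    ∃ C : ℝ, 0 ≤ C ∧ ∀ n : ℕ, 3 * Real.log n * ((Nat.sqrt n : ℝ) + 5) ≤ e * n + C := by
  refine ⟨72 * (max 1 (72 / e)) ^ 3, by positivity, fun n => ?_⟩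
  set s : ℝ := Real.sqrt (Real.sqrt n) with hs
  have hn : (0 : ℝ) ≤ n := Nat.cast_nonneg n
  have s0 : 0 ≤ s := Real.sqrt_nonneg _
  have s2 : s ^ 2 = Real.sqrt n := Real.sq_sqrt (Real.sqrt_nonneg _)
  have s4 : s ^ 4 = n := by
    have : s ^ 4 = (s ^ 2) ^ 2 := by ring
    rw [this, s2, Real.sq_sqrt hn]
  have hl : Real.log n ≤ 4 * s := by
    rw [← s4, Real.log_pow]
    have : Real.log s ≤ s := Real.log_le_self s0
    push_cast
    linarith
  have hq : (Nat.sqrt n : ℝ) ≤ s ^ 2 := by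
    rw [s2]; exact Real.nat_sqrt_le_real_sqrt
  have hl0 := Real.log_natCast_nonneg n
  have h1 : 3 * Real.log n * ((Nat.sqrt n : ℝ) + 5) ≤ 3 * (4 * s) * (s ^ 2 + 5) := by
    apply mul_le_mul <;> linarith
  refine le_trans h1 ?_
  set m : ℝ := max 1 (72 / e) with hm
  have m1 : 1 ≤ m := le_max_left _ _
  have m2 : 72 / e ≤ m := le_max_right _ _
  have hen : 0 ≤ e * n := by positivity
  by_cases hsm : m ≤ s
  · have a1 : 1 ≤ s := le_trans m1 hsm
    have a2 : 72 ≤ e * s := by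
      have := (div_le_iff₀ he).1 (le_trans m2 hsm)
      linarith
    have a3 : s ≤ s ^ 3 := by nlinarith [mul_nonneg s0 (sub_nonneg.2 (one_le_pow₀ (n := 2) a1))]
    have a4 : 72 * s ^ 3 ≤ e * s * s ^ 3 := mul_le_mul_of_nonneg_right a2 (by positivity)
    have a5 : 0 ≤ 72 * m ^ 3 := by positivity
    rw [← s4]
    nlinarith
  · have a1 : s ≤ m := le_of_not_ge hsm
    have a2 : s ^ 3 ≤ m ^ 3 := pow_le_pow_left₀ s0 a1 3
    have a3 : m ≤ m ^ 3 := by
      nlinarith [mul_nonneg (le_trans zero_le_one m1) (sub_nonneg.2 (one_le_pow₀ (n := 2) m1))]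
    nlinarith

lemma small_primes {S : Finset ℕ} (n : ℕ) :
    ∑ p ∈ S, ((if p < 5 ∨ p ^ 2 ≤ n then 3 * Nat.log p n else 0 : ℕ) : ℝ) * Real.log p ≤
      3 * Real.log n * ((Nat.sqrt n : ℝ) + 5) := by
  classical
  have hl0 := Real.log_natCast_nonneg n
  have h1 : ∀ p ∈ S, ((if p < 5 ∨ p ^ 2 ≤ n then 3 * Nat.log p n else 0 : ℕ) : ℝ) * Real.log p ≤
      if p ∈ Finset.range (Nat.sqrt n + 5) then 3 * Real.log n else 0 := by
    intro p _
    by_cases hc : p < 5 ∨ p ^ 2 ≤ n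
    · have hm : p ∈ Finset.range (Nat.sqrt n + 5) := by
        rw [Finset.mem_range]
        rcases hc with hc | hc
        · omega
        · have := Nat.le_sqrt'.2 hc
          omega
      rw [if_pos hc, if_pos hm]
      rcases Nat.eq_zero_or_pos n with rfl | hn
      · simp
      · have h2 : p ^ Nat.log p n ≤ n := Nat.pow_log_le_self p hn.ne'
        have h3 : (Nat.log p n : ℝ) * Real.log p ≤ Real.log n := by
          rw [← Real.log_pow]
          rcases Nat.eq_zero_or_pos p with rfl | hp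
          · simp [hl0]
          · exact Real.log_le_log (by positivity) (by exact_mod_cast h2)
        push_cast
        linarith
    · rw [if_neg hc]
      split_ifs
      · simp only [Nat.cast_zero, zero_mul]; positivity
      · simp
  refine le_trans (Finset.sum_le_sum h1) ?_
  rw [← Finset.sum_filter, Finset.sum_const, nsmul_eq_mul, mul_comm]
  refine mul_le_mul_of_nonneg_left ?_ (by positivity)
  have : (S.filter (fun p => p ∈ Finset.range (Nat.sqrt n + 5))).card ≤ Nat.sqrt n + 5 := by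
    refine le_trans (Finset.card_le_card (t := Finset.range (Nat.sqrt n + 5)) ?_) (by simp)
    intro p hp
    exact (Finset.mem_filter.1 hp).2
  exact_mod_cast this

lemma col_eq (S : Finset ℕ) (D n : ℕ) :
    ∑ p ∈ S, (colExp D p n : ℝ) * Real.log p =
      ∑ p ∈ S, ((if p < 5 ∨ p ^ 2 ≤ n then 3 * Nat.log p n else 0 : ℕ) : ℝ) * Real.log p
        + ind S D n + ind S (3 / 2 * D) n + ind S (2 * D) (n / 3) := by
  simp only [ind, ← Finset.sum_add_distrib]
  refine Finset.sum_congr rfl fun p _ => ?_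
  have e1 : (D < p ∧ p ≤ n) ↔ ((D : ℝ) < p ∧ (p : ℝ) ≤ n) := by norm_cast
  have e2 : (3 * D < 2 * p ∧ p ≤ n) ↔ (3 / 2 * (D : ℝ) < p ∧ (p : ℝ) ≤ n) := by
    have : (3 * D < 2 * p) ↔ (3 / 2 * (D : ℝ) < p) := by
      rw [← Nat.cast_lt (α := ℝ)]; push_cast; constructor <;> intro h <;> linarith
    rw [this, Nat.cast_le]
  have e3 : (2 * D < p ∧ 3 * p ≤ n) ↔ (2 * (D : ℝ) < p ∧ (p : ℝ) ≤ n / 3) := by
    have a : (2 * D < p) ↔ (2 * (D : ℝ) < p) := by
      rw [← Nat.cast_lt (α := ℝ)]; push_cast; rfl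
    have b : (3 * p ≤ n) ↔ ((p : ℝ) ≤ n / 3) := by
      rw [← Nat.cast_le (α := ℝ)]; push_cast; constructor <;> intro h <;> linarith
    rw [a, b]
  simp only [colExp, Nat.cast_add, e1, e2, e3]
  split_ifs <;> simp <;> ring

lemma col_le {ε : ℝ} (hε : 0 < ε) : ∃ D₀ : ℕ, ∀ D : ℕ, D₀ ≤ D → ∀ S : Finset ℕ,
    (∀ p ∈ S, p.Prime) → ∀ n : ℕ,
      ∑ p ∈ S, (colExp D p n : ℝ) * Real.log p ≤ cost D n + ε * ((n : ℝ) + D) := by
  have he : 0 < ε / 10 := by positivity
  obtain ⟨C, hC, h⟩ := theta_abs he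
  obtain ⟨C', hC', h'⟩ := small_growth he
  refine ⟨⌈2 * (6 * C + C') / ε⌉₊, fun D hD S hS n => ?_⟩
  have hD' : 2 * (6 * C + C') ≤ D * ε := by
    rw [← div_le_iff₀ hε]
    exact le_trans (Nat.le_ceil _) (by exact_mod_cast hD)
  have hn : (0 : ℝ) ≤ n := Nat.cast_nonneg n
  have hD0 : (0 : ℝ) ≤ D := Nat.cast_nonneg D
  have a1 := le_trans (small_primes (S := S) n) (h' n)
  have a2 := ind_le he hC h hS hD0 hn
  have a3 := ind_le he hC h hS (a := 3 / 2 * D) (by positivity) hn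
  have a4 := ind_le he hC h hS (a := 2 * D) (b := n / 3) (by positivity) (by positivity)
  rw [col_eq, cost]
  have b1 := mul_nonneg hε.le hn
  have b2 := mul_nonneg hε.le hD0
  nlinarith

lemma sum_id (M : ℕ) : ∑ j ∈ Finset.range M, (j : ℝ) = M * (M - 1) / 2 := by
  induction M with
  | zero => simp
  | succ n ih => rw [Finset.sum_range_succ, ih]; push_cast; ring

lemma base_le' {S : Finset ℕ} (hS : ∀ p ∈ S, p.Prime) (D : ℕ) :
    ∑ p ∈ S, (baseExp D p : ℝ) * Real.log p ≤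
      (11 * D + 2) * ind S 0 D + (5 * D + 2) * ind S D (3 / 2 * D)
        + ∑ j ∈ Finset.range (3 * D / 2), ind S j (3 * D / 2 : ℕ)
        + D * ind S (3 / 2 * D) (2 * D) := by
  simp only [ind]
  rw [Finset.sum_comm]
  simp only [Finset.mul_sum, ← Finset.sum_add_distrib]
  refine Finset.sum_le_sum fun p hp => ?_
  have hl := Real.log_natCast_nonneg p
  have hp0 : (0 : ℝ) < p := by exact_mod_cast (hS p hp).pos
  have hD0 : (0 : ℝ) ≤ D := Nat.cast_nonneg D
  rw [← Finset.sum_mul]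
  have key : (baseExp D p : ℝ) ≤
      (11 * D + 2) * (if (0 : ℝ) < p ∧ (p : ℝ) ≤ D then (1 : ℝ) else 0)
      + (5 * D + 2) * (if (D : ℝ) < p ∧ (p : ℝ) ≤ 3 / 2 * D then (1 : ℝ) else 0)
      + ∑ j ∈ Finset.range (3 * D / 2),
          (if (j : ℝ) < p ∧ (p : ℝ) ≤ ((3 * D / 2 : ℕ) : ℝ) then (1 : ℝ) else 0)
      + D * (if 3 / 2 * (D : ℝ) < p ∧ (p : ℝ) ≤ 2 * D then (1 : ℝ) else 0) := by
    have s0 : (0 : ℝ) ≤ ∑ j ∈ Finset.range (3 * D / 2),
        (if (j : ℝ) < p ∧ (p : ℝ) ≤ ((3 * D / 2 : ℕ) : ℝ) then (1 : ℝ) else 0) :=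
      Finset.sum_nonneg fun j _ => by split_ifs <;> norm_num
    have s1 : 2 * p ≤ 3 * D → (p : ℝ) ≤ ∑ j ∈ Finset.range (3 * D / 2),
        (if (j : ℝ) < p ∧ (p : ℝ) ≤ ((3 * D / 2 : ℕ) : ℝ) then (1 : ℝ) else 0) := by
      intro h
      have h1 : p ≤ 3 * D / 2 := by omega
      calc (p : ℝ) = ∑ j ∈ Finset.range p,
            (if (j : ℝ) < p ∧ (p : ℝ) ≤ ((3 * D / 2 : ℕ) : ℝ) then (1 : ℝ) else 0) := by
            rw [Finset.sum_congr rfl (g := fun _ => (1 : ℝ))]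
            · simp
            · intro j hj
              rw [if_pos]
              exact ⟨by exact_mod_cast Finset.mem_range.1 hj, by exact_mod_cast h1⟩
        _ ≤ _ := Finset.sum_le_sum_of_subset_of_nonneg (Finset.range_subset_range.2 h1)
            (fun j _ _ => by split_ifs <;> norm_num)
    have n1 : (0 : ℝ) ≤ (11 * D + 2) * (if (0 : ℝ) < p ∧ (p : ℝ) ≤ D then (1 : ℝ) else 0) := by
      split_ifs <;> positivity
    have n2 : (0 : ℝ) ≤
        (5 * D + 2) * (if (D : ℝ) < p ∧ (p : ℝ) ≤ 3 / 2 * D then (1 : ℝ) else 0) := by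
      split_ifs <;> positivity
    have n3 : (0 : ℝ) ≤ D * (if 3 / 2 * (D : ℝ) < p ∧ (p : ℝ) ≤ 2 * D then (1 : ℝ) else 0) := by
      split_ifs <;> positivity
    unfold baseExp
    by_cases c1 : p < 5
    · rw [if_pos c1]; push_cast; linarith
    rw [if_neg c1]
    by_cases c2 : p ≤ D
    · rw [if_pos c2, if_pos (⟨hp0, by exact_mod_cast c2⟩ : (0 : ℝ) < p ∧ (p : ℝ) ≤ D)]
      have := s1 (by omega)
      push_cast
      linarith
    rw [if_neg c2]
    by_cases c3 : 2 * p ≤ 3 * D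
    · have c3' : (2 * p : ℝ) ≤ 3 * D := by exact_mod_cast c3
      rw [if_pos c3, if_pos (⟨by exact_mod_cast (not_le.1 c2), by linarith⟩ :
        (D : ℝ) < p ∧ (p : ℝ) ≤ 3 / 2 * D)]
      have := s1 c3
      push_cast
      linarith
    rw [if_neg c3]
    by_cases c4 : p ≤ 2 * D
    · have c3' : (3 * D : ℝ) < 2 * p := by exact_mod_cast (not_le.1 c3)
      rw [if_pos c4, if_pos (⟨by linarith, by exact_mod_cast c4⟩ :
        3 / 2 * (D : ℝ) < p ∧ (p : ℝ) ≤ 2 * D)]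
      linarith
    · rw [if_neg c4]; push_cast; linarith
  have := mul_le_mul_of_nonneg_right key hl
  linarith

lemma base_le {ε : ℝ} (hε : 0 < ε) : ∃ D₀ : ℕ, ∀ D : ℕ, D₀ ≤ D → ∀ S : Finset ℕ,
    (∀ p ∈ S, p.Prime) →
      ∑ p ∈ S, (baseExp D p : ℝ) * Real.log p ≤ (121 / 8 + ε) * (D : ℝ) ^ 2 := by
  set e : ℝ := min (ε / 100) 1 with hedef
  have he : 0 < e := lt_min (by positivity) one_pos
  have he1 : e ≤ 1 := min_le_right _ _
  have he2 : e ≤ ε / 100 := min_le_left _ _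
  obtain ⟨C, hC, h⟩ := theta_abs he
  refine ⟨⌈2 * (50 * C + 20) / ε⌉₊ + 1, fun D hD S hS => ?_⟩
  have hD' : 2 * (50 * C + 20) ≤ D * ε := by
    rw [← div_le_iff₀ hε]
    exact le_trans (Nat.le_ceil _) (by exact_mod_cast (by omega))
  have hD1 : (1 : ℝ) ≤ D := by exact_mod_cast (by omega : 1 ≤ D)
  have hD0 : (0 : ℝ) ≤ D := by linarith
  set M : ℕ := 3 * D / 2 with hM
  have hM0 : (0 : ℝ) ≤ M := Nat.cast_nonneg M
  have hM1 : (M : ℝ) ≤ 3 / 2 * D := by
    have : 2 * M ≤ 3 * D := by omega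
    have : (2 * M : ℝ) ≤ 3 * D := by exact_mod_cast this
    linarith
  have a1 := ind_le he hC h hS le_rfl hD0
  have a2 := ind_le he hC h hS (a := D) (b := 3 / 2 * D) hD0 (by positivity)
  have a3 := ind_le he hC h hS (a := 3 / 2 * D) (b := 2 * D) (by positivity) (by positivity)
  rw [max_eq_left (by linarith)] at a1 a2 a3
  have a4 : ∑ j ∈ Finset.range M, ind S j M ≤
      ∑ j ∈ Finset.range M, ((M : ℝ) + 2 * e * M + 2 * C - j) := by
    refine Finset.sum_le_sum fun j hj => ?_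
    have hj' : (j : ℝ) ≤ M := by exact_mod_cast (Finset.mem_range.1 hj).le
    have := ind_le he hC h hS (Nat.cast_nonneg j) hM0
    rw [max_eq_left (by linarith)] at this
    nlinarith [mul_le_mul_of_nonneg_left hj' he.le]
  rw [Finset.sum_sub_distrib, sum_id, Finset.sum_const, Finset.card_range, nsmul_eq_mul] at a4
  have b1 := mul_le_mul_of_nonneg_left a1 (by positivity : (0 : ℝ) ≤ 11 * D + 2)
  have b2 := mul_le_mul_of_nonneg_left a2 (by positivity : (0 : ℝ) ≤ 5 * D + 2)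
  have b3 := mul_le_mul_of_nonneg_left a3 hD0
  refine le_trans (base_le' hS D) ?_
  have m2 : (M : ℝ) ^ 2 ≤ 9 / 4 * D ^ 2 := by nlinarith
  have m3 : e * (M : ℝ) ^ 2 ≤ e * (9 / 4 * D ^ 2) := mul_le_mul_of_nonneg_left m2 he.le
  have m4 : C * M ≤ C * (3 / 2 * D) := mul_le_mul_of_nonneg_left hM1 hC
  have m5 : e * D ≤ D := by nlinarith
  have m6 : C ≤ C * D := by nlinarith
  have m7 : e * D ^ 2 ≤ ε / 100 * D ^ 2 := mul_le_mul_of_nonneg_right he2 (by positivity)
  have m8 : 2 * (50 * C + 20) * D ≤ D * ε * D := mul_le_mul_of_nonneg_right hD' hD0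
  have m9 : 0 ≤ ε * D ^ 2 := by positivity
  have m10 : 0 ≤ C * D := by positivity
  nlinarith

end PS

/-- the size of the denominator -/
theorem prime_sum {ε : ℝ} (hε : 0 < ε) : ∃ D₀ : ℕ, ∀ D : ℕ, D₀ ≤ D →
    ∀ (col : Fin D × Fin 7 → ℕ) (T : ℕ),
      ∑ p ∈ (Finset.range (T + 1)).filter Nat.Prime, (totExp D col p : ℝ) * Real.log p ≤
        (121 / 8 + ε) * (D : ℝ) ^ 2 + ∑ k, (cost D (col k) + ε * ((col k : ℝ) + D)) := by
  obtain ⟨D1, h1⟩ := PS.base_le hε
  obtain ⟨D2, h2⟩ := PS.col_le hε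
  refine ⟨max D1 D2, fun D hD col T => ?_⟩
  have hS : ∀ p ∈ (Finset.range (T + 1)).filter Nat.Prime, p.Prime :=
    fun p hp => (Finset.mem_filter.1 hp).2
  have a1 := h1 D (le_trans (le_max_left _ _) hD) _ hS
  have a2 := fun n => h2 D (le_trans (le_max_right _ _) hD) _ hS n
  simp only [totExp, Nat.cast_add, Nat.cast_sum, add_mul, Finset.sum_add_distrib, Finset.sum_mul]
  rw [Finset.sum_comm]
  have a3 := Finset.sum_le_sum (s := Finset.univ) fun (k : Fin D × Fin 7) _ => a2 (col k)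
  simp only [Finset.sum_add_distrib] at a3
  linarith

end

end Pool.Agent.Lib.MP_caab05_ag.W3
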