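import Pool.Agent.Lib.MP_caab05_ag.W3.Doms
import Pool.Agent.Lib.MP_caab05_ag.W3.Padic
import Pool.Agent.Lib.MP_caab05_ag.W3.PrimeSum
import Pool.Agent.Lib.MP_caab05_ag.W3.Indep
import Pool.Agent.Lib.MP_caab05_ag.W3.Modular
import Pool.Agent.Lib.MP_caab05_ag.W3.Bol
import Pool.Agent.Lib.MP_caab05_ag.W3.MaxP
import Pool.Agent.Lib.MP_caab05_ag.W3.Core1

namespace Pool.Agent.Lib.MP_caab05_ag.W3

open PowerSeries

noncomputable section

namespace Co

lemma exists_lc {ι : Type*} [Fintype ι] (F : ι → ℂ⟦X⟧) (hF : ∀ j, Conv (F j)) {R : ℝ}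
    (hR : R < 1) : ∃ lc : ℝ, ∀ j q, ‖q‖ ≤ R → ‖ev (F j) q‖ ≤ Real.exp lc := by
  have h1 : ∀ j, ∃ C : ℝ, ∀ q ∈ Metric.closedBall (0 : ℂ) R, ‖ev (F j) q‖ ≤ C := fun j =>
    (isCompact_closedBall (0 : ℂ) R).exists_bound_of_continuousOn fun q hq =>
      ((hF j).continuousAt (lt_of_le_of_lt (by simpa using hq) hR)).continuousWithinAt
  choose C hC using h1
  refine ⟨∑ j, |C j|, fun j q hq => (hC j q (by simpa using hq)).trans ?_⟩
  have h2 : |C j| ≤ ∑ j, |C j| :=
    Finset.single_le_sum (f := fun j => |C j|) (fun i _ => abs_nonneg _) (Finset.mem_univ j)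
  have h3 := Real.add_one_le_exp (∑ j, |C j|)
  have h4 := le_abs_self (C j)
  linarith

lemma exists_dom : ∃ R : ℝ, R < 1 ∧ ∀ D n : ℕ, ∃ d : Dom (fun q => vfun (lx q)),
    d.ρ ≤ R ∧ d.ta * D ≤ n ∧ D * d.h - (n - d.ta * D) * d.L = -gain D n := by
  obtain ⟨d1, d2, d3, ⟨a1, b1, c1⟩, ⟨a2, b2, c2⟩, ⟨a3, b3, c3⟩⟩ := exists_doms
  refine ⟨max d1.ρ (max d2.ρ d3.ρ), max_lt d1.ρ1 (max_lt d2.ρ1 d3.ρ1), fun D n => ?_⟩
  by_cases h : n < D
  · refine ⟨d1, le_max_left _ _, by rw [a1]; simp, ?_⟩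
    rw [gain, if_pos h, a1, b1, c1, neg_neg]
  by_cases h' : 2 * n < 5 * D
  · refine ⟨d2, (le_max_left _ _).trans (le_max_right _ _), ?_, ?_⟩
    · rw [a2, one_mul]; exact_mod_cast not_lt.1 h
    · rw [gain, if_neg h, if_pos h', a2, b2, c2, neg_neg]
  · refine ⟨d3, (le_max_right _ _).trans (le_max_right _ _), ?_, ?_⟩
    · have : (5 * D : ℝ) ≤ 2 * n := by exact_mod_cast not_lt.1 h'
      rw [a3]; linarith
    · rw [gain, if_neg h, if_neg h', a3, b3, c3, neg_neg]

lemma factorial_le_exp (N : ℕ) : (N.factorial : ℝ) ≤ Real.exp (N * Real.log N) := by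
  rcases Nat.eq_zero_or_pos N with rfl | hN
  · simp
  · rw [mul_comm, Real.exp_mul, Real.exp_log (by exact_mod_cast hN), Real.rpow_natCast]
    exact_mod_cast Nat.factorial_le_pow N

end Co

open Co in
theorem core (σ : Sys ℂ) (hI : σ.Integral) (hA : σ.An)
    (hx : ∀ q : ℂ, ‖q‖ < 1 → ev σ.x q = q * Phi q ^ 6 * Phi (q ^ 9) ^ 6 / Phi (q ^ 3) ^ 12)
    {a a' c c' : ℂ} (ha : IsO a) (ha' : IsO a') (hc : IsO c) (hc' : IsO c')
    (h1 : c = per (σ.g (parC a a' c c'))) (h2 : c' = per (σ.g' (parC a a' c c'))) :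
    a = 0 ∧ a' = 0 := by
  by_contra hne
  have hne' : a ≠ 0 ∨ a' ≠ 0 := by tauto
  set P := parC a a' c c' with hP
  obtain ⟨R, hR, hdom⟩ := exists_dom
  have cf : ∀ j, Conv (σ.fn P j) := conv_fn σ hA a a' c c'
  have cx := conv_x σ hA
  obtain ⟨lc, hlc⟩ := exists_lc (σ.fn P) cf hR
  obtain ⟨D₀, hD₀⟩ := prime_sum (ε := 1 / 200) (by norm_num)
  obtain ⟨m, hm, hmD, hbig⟩ := exists_m lc D₀
  have hm' : (0 : ℝ) < m := by exact_mod_cast hm
  have hev : ∀ (i : ℕ) j (q : ℂ), ‖q‖ < 1 → ev (σ.row P i j) q = ev σ.x q ^ i * ev (σ.fn P j) q :=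
    fun i j q hq => by rw [Sys.row, ev_mul (cx.pow i) (cf j) hq, ev_pow cx hq]
  obtain ⟨col, hinj, hdet, hit⟩ := iter_det
    (fun r : Fin (16 * m) × Fin 7 => σ.row P r.1 r.2) (fun r => (cx.pow _).mul (cf _))
    (fun r τ hτ => by
      rw [hev _ _ _ (norm_ee_lt (ww_im_pos hτ)), hev _ _ _ (norm_ee_lt hτ), inv_x σ hA τ hτ,
        inv_fn σ hA h1 h2 r.2 τ hτ])
    (indep σ hne' c c' (16 * m))
  choose d hdR hdta hdg using fun k => hdom (16 * m) (col k)
  have hcard : Fintype.card (Fin (16 * m) × Fin 7) = 112 * m := by simp; ring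
  have hup := hit (fun k => (d k).ρ) (fun k => Real.exp (-gain (16 * m) (col k)))
    (fun _ q => Real.exp ((16 * m : ℕ) * vfun (lx q)))
    (Real.exp (112 * m * Real.log (112 * m) +
      ∑ r : Fin (16 * m) × Fin 7, (lc + Bw m r.1)))
    (fun k => (d k).ρ0.le) (fun k => (d k).ρ1) (fun k => (Real.exp_pos _).le)
    (fun k q => (Real.exp_pos _).le) (Real.exp_pos _).le
    (fun k G M hG hGI hdiv hM hb => by
      have := (d k).bound hG hGI hdiv (D := (16 * m : ℕ)) (by positivity) hM (hdta k) hb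
      rwa [hdg k] at this)
    (fun q hq => by
      refine (norm_det_le _ (fun r : Fin (16 * m) × Fin 7 => Real.exp (lc + Bw m r.1))
        (fun k => Real.exp ((16 * m : ℕ) * vfun (lx (q k)))) (fun r => (Real.exp_pos _).le)
        (fun k => (Real.exp_pos _).le) fun r k => ?_).trans ?_
      · have hq1 : ‖q k‖ < 1 := by rw [hq k]; exact (d k).ρ1
        have hq0 : q k ≠ 0 := by
          rw [← norm_pos_iff, hq k]; exact (d k).ρ0
        have hp : ∀ n : ℕ, ‖q k ^ (n + 1)‖ < 1 := fun n => by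
          rw [norm_pow]; exact pow_lt_one₀ (norm_nonneg _) hq1 (by omega)
        have hx0 : ev σ.x (q k) ≠ 0 := by
          rw [hx _ hq1]
          have b1 := Phi_ne_zero hq1
          have b3 := Phi_ne_zero (hp 2)
          have b9 := Phi_ne_zero (hp 8)
          norm_num at b3 b9
          simp [hq0, b1, b3, b9]
        have hxe : ‖ev σ.x (q k)‖ = Real.exp (lx (q k)) := by
          rw [lx, ← hx _ hq1, Real.exp_log (norm_pos_iff.2 hx0)]
        rw [Matrix.of_apply, hev _ _ _ hq1, norm_mul, norm_pow, hxe, ← Real.exp_nat_mul,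
          ← Real.exp_add]
        have b1 := hlc r.2 (q k) (by rw [hq k]; exact hdR k)
        have b2 := row_le r.1.2 (lx (q k))
        calc _ ≤ Real.exp (((r.1 : ℕ) : ℝ) * lx (q k)) * Real.exp lc := by gcongr
          _ ≤ _ := by rw [← Real.exp_add, Real.exp_le_exp]; linarith
      · refine mul_le_mul_of_nonneg_right ?_
          (Finset.prod_nonneg fun k _ => (Real.exp_pos _).le)
        rw [Real.exp_add, Real.exp_sum, hcard]
        refine mul_le_mul_of_nonneg_right ?_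
          (Finset.prod_nonneg fun k _ => (Real.exp_pos _).le)
        have := factorial_le_exp (112 * m)
        push_cast at this
        exact this)
  rw [← Real.exp_sum, ← Real.exp_add, ← Real.log_le_iff_le_exp (norm_pos_iff.2 hdet)] at hup
  have hlow := arith σ hI ha ha' hc hc' (16 * m) col (2 * (16 * m) + ∑ k, col k) (by omega)
    (fun k => le_add_left
      (Finset.single_le_sum (f := col) (fun i _ => Nat.zero_le _) (Finset.mem_univ k))) hdet
  have hps := hD₀ (16 * m) hmD col (2 * (16 * m) + ∑ k, col k)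
  have hcols := cols_le m hcard hinj
  have hB := sum_Bw hm
  have hrow : ∑ r : Fin (16 * m) × Fin 7, (lc + Bw m r.1) =
      112 * m * lc + 7 * ∑ i ∈ Finset.range (16 * m), Bw m i := by
    rw [Finset.sum_add_distrib, Finset.sum_const, Finset.card_univ, hcard, Fintype.sum_prod_type,
      Finset.sum_range, Finset.mul_sum]
    simp
  rw [Finset.sum_sub_distrib] at hcols
  rw [Finset.sum_neg_distrib, hrow] at hup
  change Real.log ‖minor σ P (16 * m) col‖ ≤ _ at hup
  have e : (121 / 8 + 1 / 200) * ((16 * m : ℕ) : ℝ) ^ 2 = 96832 / 25 * (m : ℝ) ^ 2 := by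
    push_cast; ring
  rw [e] at hps
  have := mul_pos hm' hm'
  nlinarith

end

end Pool.Agent.Lib.MP_caab05_ag.W3
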