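import Pool.Agent.Lib.MP_caab05_ag.W3.Num

/-!
Lower bounds for smooth functions from values on a grid; the three curves.
-/

namespace Pool.Agent.Lib.MP_caab05_ag.W3

open Polynomial Set Complex

noncomputable section

/-- twice differentiable on `[a,b]` with second derivative bounded by `M` -/
def C2 (f : ℝ → ℝ) (a b M : ℝ) : Prop :=
  ∃ f1 f2 : ℝ → ℝ, ∀ s ∈ Icc a b, HasDerivAt f (f1 s) s ∧ HasDerivAt f1 (f2 s) s ∧ |f2 s| ≤ M

namespace C2

variable {f g : ℝ → ℝ} {a b M N : ℝ}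

lemma const (c a b : ℝ) : C2 (fun _ => c) a b 0 :=
  ⟨fun _ => 0, fun _ => 0, fun s _ => ⟨hasDerivAt_const _ _, hasDerivAt_const _ _, by simp⟩⟩

lemma add (hf : C2 f a b M) (hg : C2 g a b N) : C2 (fun s => f s + g s) a b (M + N) := by
  obtain ⟨f1, f2, h⟩ := hf
  obtain ⟨g1, g2, h'⟩ := hg
  exact ⟨fun s => f1 s + g1 s, fun s => f2 s + g2 s, fun s hs => ⟨(h s hs).1.add (h' s hs).1,
    (h s hs).2.1.add (h' s hs).2.1, (abs_add_le _ _).trans (add_le_add (h s hs).2.2 (h' s hs).2.2)⟩⟩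

lemma const_mul (hf : C2 f a b M) (c : ℝ) : C2 (fun s => c * f s) a b (|c| * M) := by
  obtain ⟨f1, f2, h⟩ := hf
  exact ⟨fun s => c * f1 s, fun s => c * f2 s, fun s hs => ⟨(h s hs).1.const_mul c,
    (h s hs).2.1.const_mul c, by rw [abs_mul]; gcongr; exact (h s hs).2.2⟩⟩

lemma sub (hf : C2 f a b M) (hg : C2 g a b N) : C2 (fun s => f s - g s) a b (M + N) := by
  simpa [sub_eq_add_neg] using hf.add (hg.const_mul (-1))

lemma mono (hf : C2 f a b M) (h : M ≤ N) : C2 f a b N := by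
  obtain ⟨f1, f2, h'⟩ := hf
  exact ⟨f1, f2, fun s hs => ⟨(h' s hs).1, (h' s hs).2.1, (h' s hs).2.2.trans h⟩⟩

lemma restrict (hf : C2 f a b M) {a' b' : ℝ} (ha : a ≤ a') (hb : b' ≤ b) : C2 f a' b' M := by
  obtain ⟨f1, f2, h'⟩ := hf
  exact ⟨f1, f2, fun s hs => h' s ⟨ha.trans hs.1, hs.2.trans hb⟩⟩

lemma interp (hf : C2 f a b M) {c : ℝ} (ha : c + M * (b - a) ^ 2 / 8 ≤ f a)
    (hb : c + M * (b - a) ^ 2 / 8 ≤ f b) {s : ℝ} (hs : s ∈ Icc a b) : c ≤ f s := by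
  obtain ⟨f1, f2, h⟩ := hf
  have hM : 0 ≤ M := (abs_nonneg _).trans (h s hs).2.2
  have h1 : ∀ x ∈ Icc a b, HasDerivAt (fun x => f x + M / 2 * ((x - a) * (b - x)))
      (f1 x + M / 2 * (a + b - 2 * x)) x := fun x hx =>
    (h x hx).1.add (((((hasDerivAt_id x).sub_const a).mul
      ((hasDerivAt_id x).const_sub b)).const_mul (M / 2)).congr_deriv (by simp only [id]; ring))
  have h2 : ∀ x ∈ Icc a b, HasDerivAt (fun x => f1 x + M / 2 * (a + b - 2 * x)) (f2 x - M) x :=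
    fun x hx => ((h x hx).2.1.add ((((hasDerivAt_id x).const_mul 2).const_sub (a + b)).const_mul
      (M / 2))).congr_deriv (by simp; ring)
  have hc : ConcaveOn ℝ (Icc a b) fun x => f x + M / 2 * ((x - a) * (b - x)) :=
    concaveOn_of_hasDerivWithinAt2_nonpos (convex_Icc a b)
      (fun x hx => (h1 x hx).continuousAt.continuousWithinAt)
      (fun x hx => (h1 x (interior_subset hx)).hasDerivWithinAt)
      (fun x hx => (h2 x (interior_subset hx)).hasDerivWithinAt)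
      (fun x hx => by have := (abs_le.1 (h x (interior_subset hx)).2.2).2; linarith)
  have hab : a ≤ b := hs.1.trans hs.2
  have h3 := hc.min_le_of_mem_Icc (left_mem_Icc.2 hab) (right_mem_Icc.2 hab) hs
  simp only [sub_self, zero_mul, mul_zero, add_zero] at h3
  have h4 : c + M * (b - a) ^ 2 / 8 ≤ min (f a) (f b) := le_min ha hb
  nlinarith [mul_nonneg hM (sq_nonneg (a + b - 2 * s))]

lemma grid {m j0 n : ℕ} (hm : 0 < m) (hf : C2 f (j0 / m) ((j0 + n : ℕ) / m) M) {c : ℝ}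
    (h : ∀ i ≤ n, c + M / (8 * m ^ 2) ≤ f ((j0 + i : ℕ) / m)) {s : ℝ}
    (hs : s ∈ Icc ((j0 : ℝ) / m) ((j0 + n : ℕ) / m)) : c ≤ f s := by
  have hm' : (0 : ℝ) < m := by exact_mod_cast hm
  induction n with
  | zero =>
    have h0 := h 0 le_rfl
    obtain ⟨f1, f2, h'⟩ := hf
    have hM : 0 ≤ M := (abs_nonneg _).trans (h' s hs).2.2
    have : s = (j0 + 0 : ℕ) / m := le_antisymm hs.2 (by simpa using hs.1)
    rw [this]; have : 0 ≤ M / (8 * m ^ 2) := by positivity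
    linarith
  | succ n ih =>
    have hle : ((j0 + n : ℕ) : ℝ) / m ≤ (j0 + (n + 1) : ℕ) / m := by gcongr; omega
    by_cases hs' : s ≤ (j0 + n : ℕ) / m
    · exact ih (hf.restrict le_rfl hle) (fun i hi => h i (by omega)) ⟨hs.1, hs'⟩
    · have e : M * (((j0 + (n + 1) : ℕ) : ℝ) / m - (j0 + n : ℕ) / m) ^ 2 / 8 = M / (8 * m ^ 2) := by
        push_cast; field_simp; ring
      refine (hf.restrict (a' := (j0 + n : ℕ) / m) (by gcongr; omega) le_rfl).interp ?_ ?_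
        ⟨(not_le.1 hs').le, hs.2⟩
      · rw [e]; exact h n (by omega)
      · rw [e]; exact h (n + 1) le_rfl

end C2

lemma hasDerivAt_re {f : ℝ → ℂ} {f' : ℂ} {s : ℝ} (h : HasDerivAt f f' s) :
    HasDerivAt (fun s => (f s).re) f'.re s :=
  Complex.reCLM.hasFDerivAt.comp_hasDerivAt s h

lemma hasDerivAt_im {f : ℝ → ℂ} {f' : ℂ} {s : ℝ} (h : HasDerivAt f f' s) :
    HasDerivAt (fun s => (f s).im) f'.im s :=
  Complex.imCLM.hasFDerivAt.comp_hasDerivAt s h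

lemma hasDerivAt_eval (p : ℂ[X]) {ζ : ℝ → ℂ} {μ : ℂ} {s : ℝ} (h : HasDerivAt ζ (μ * ζ s) s) :
    HasDerivAt (fun s => p.eval (ζ s)) (μ * (thP p).eval (ζ s)) s := by
  have := (p.hasDerivAt (ζ s)).scomp s h
  exact this.congr_deriv (by simp [thP]; ring)

/-- a polynomial along a curve -/
lemma C2_poly {A0 r : ℕ} (cs : List ℕ) {ζ μ μ' : ℝ → ℂ} {a b m1 m2 : ℝ}
    (h : ∀ s ∈ Icc a b, HasDerivAt ζ (μ s * ζ s) s ∧ HasDerivAt μ (μ' s) s ∧ ‖μ s‖ ^ 2 ≤ m1 ∧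
      ‖μ' s‖ ≤ m2 ∧ ‖ζ s‖ ≤ r / 2 ^ 16) :
    C2 (fun s => ((polyOf A0 cs).eval (ζ s)).re) a b
      (m1 * (bnd A0 r cs).2.2.1 + m2 * (bnd A0 r cs).2.1) := by
  set p := polyOf A0 cs
  refine ⟨fun s => (μ s * (thP p).eval (ζ s)).re,
    fun s => (μ' s * (thP p).eval (ζ s) + μ s * (μ s * (thP (thP p)).eval (ζ s))).re, fun s hs => ?_⟩
  obtain ⟨h1, h2, h3, h4, h5⟩ := h s hs
  obtain ⟨-, b1, b2, -⟩ := bi_bnd A0 r cs _ h5
  refine ⟨hasDerivAt_re (hasDerivAt_eval p h1), hasDerivAt_re (h2.mul (hasDerivAt_eval _ h1)), ?_⟩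
  refine (Complex.abs_re_le_norm _).trans ((norm_add_le _ _).trans ?_)
  rw [norm_mul, norm_mul, norm_mul, ← mul_assoc, ← sq, add_comm]
  have := (norm_nonneg _).trans h4
  have := (sq_nonneg _).trans h3
  gcongr

/-! ### the unit circle -/

def zz (s : ℝ) : ℂ := -(1 - I * s) / (1 + I * s)

lemma one_add_I_ne (s : ℝ) : (1 + I * s : ℂ) ≠ 0 := fun h => by
  simpa using congrArg Complex.re h

lemma one_sub_I_ne (s : ℝ) : (1 - I * s : ℂ) ≠ 0 := fun h => by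
  simpa using congrArg Complex.re h

lemma one_add_sq_ne (s : ℝ) : (1 + (s : ℂ) ^ 2) ≠ 0 := by
  have : (0 : ℝ) < 1 + s ^ 2 := by positivity
  exact_mod_cast this.ne'

lemma zz_eq (s : ℝ) : zz s = ((-(1 - s ^ 2) / (1 + s ^ 2) : ℝ) : ℂ) + (2 * s / (1 + s ^ 2) : ℝ) * I := by
  have h1 := one_add_I_ne s
  have h2 := one_add_sq_ne s
  unfold zz; push_cast; field_simp
  linear_combination (-(s : ℂ) ^ 2 - s ^ 2) * I_sq

lemma norm_zz (s : ℝ) : ‖zz s‖ = 1 := by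
  have : (1 - I * s : ℂ) = (starRingEnd ℂ) (1 + I * s) := by simp [sub_eq_add_neg]
  rw [zz, norm_div, norm_neg, this, Complex.norm_conj, div_self (norm_ne_zero_iff.2 (one_add_I_ne s))]

lemma curve_zz (s : ℝ) : HasDerivAt zz ((-2 * I / (1 + s ^ 2)) * zz s) s ∧
    HasDerivAt (fun s : ℝ => (-2 * I / (1 + s ^ 2) : ℂ)) (4 * I * s / (1 + s ^ 2) ^ 2) s ∧
    ‖(-2 * I / (1 + s ^ 2) : ℂ)‖ ^ 2 ≤ 4 ∧ ‖(4 * I * s / (1 + s ^ 2) ^ 2 : ℂ)‖ ≤ 2 := by
  have h1 := one_add_I_ne s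
  have h2 := one_add_sq_ne s
  have hn : ‖(1 + (s : ℂ) ^ 2)‖ = 1 + s ^ 2 := by
    rw [show (1 + (s : ℂ) ^ 2) = ((1 + s ^ 2 : ℝ) : ℂ) by push_cast; ring, Complex.norm_real,
      Real.norm_of_nonneg (by positivity)]
  refine ⟨?_, ?_, ?_, ?_⟩
  · have := ((((hasDerivAt_id (s : ℂ)).const_mul I).const_sub 1).neg.div
      (((hasDerivAt_id (s : ℂ)).const_mul I).const_add 1) h1).comp_ofReal
    refine this.congr_deriv ?_
    simp only [zz, id, Pi.neg_apply]; field_simp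
    linear_combination (2 * (s : ℂ) ^ 2) * I_sq
  · have := ((hasDerivAt_const (s : ℂ) (-2 * I)).div
      (((hasDerivAt_id (s : ℂ)).pow 2).const_add 1) h2).comp_ofReal
    refine this.congr_deriv ?_
    simp; ring
  · rw [norm_div, hn, div_pow, div_le_iff₀ (by positivity)]; simp; nlinarith [sq_nonneg s]
  · rw [norm_div, norm_pow, hn, div_le_iff₀ (by positivity)]; simp
    nlinarith [sq_nonneg (|s| - 1), sq_abs s, sq_nonneg s, abs_nonneg s]

/-! ### the hypercycles -/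

def kp (e : ℝ) : ℂ := (e / 2 : ℝ) - 24 * I

def tau (e s : ℝ) : ℂ := (25 - s * kp e) / (3 * (25 + s * kp e))

lemma normSq_den {e : ℝ} (he : e ^ 2 = 196) (s : ℝ) :
    Complex.normSq (25 + s * kp e) = 25 * (25 + e * s + 25 * s ^ 2) := by
  simp [kp, Complex.normSq_apply]; linear_combination (s ^ 2 / 4) * he

lemma den_ge {e : ℝ} (he : e ^ 2 = 196) (s : ℝ) : 576 ≤ 25 * (25 + e * s + 25 * s ^ 2) := by
  nlinarith [sq_nonneg (50 * s + e)]

lemma norm_den {e : ℝ} (he : e ^ 2 = 196) (s : ℝ) : 24 ≤ ‖25 + s * kp e‖ := by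
  have := den_ge he s
  rw [← normSq_den he, Complex.normSq_eq_norm_sq] at this
  nlinarith [norm_nonneg (25 + s * kp e)]

lemma norm_kp {e : ℝ} (he : e ^ 2 = 196) : ‖kp e‖ = 25 := by
  have : Complex.normSq (kp e) = 25 ^ 2 := by
    simp [kp, Complex.normSq_apply]; linear_combination (1 / 4) * he
  rw [Complex.normSq_eq_norm_sq] at this
  exact (pow_left_inj₀ (norm_nonneg _) (by norm_num) two_ne_zero).1 this

lemma tau_re {e : ℝ} (he : e ^ 2 = 196) (s : ℝ) :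
    (tau e s).re = 25 * (1 - s ^ 2) / (3 * (25 + e * s + 25 * s ^ 2)) := by
  have h := den_ge he s
  have h1 : 25 + e * s + 25 * s ^ 2 ≠ 0 := by intro h'; rw [h'] at h; norm_num at h
  rw [tau, Complex.div_re, Complex.normSq_mul, normSq_den he]; simp [kp]
  generalize 25 + e * s + 25 * s ^ 2 = d at *
  field_simp
  linear_combination (-s ^ 2) * he

lemma tau_im {e : ℝ} (he : e ^ 2 = 196) (s : ℝ) :
    (tau e s).im = 16 * s / (25 + e * s + 25 * s ^ 2) := by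
  have h := den_ge he s
  have h1 : 25 + e * s + 25 * s ^ 2 ≠ 0 := by intro h'; rw [h'] at h; norm_num at h
  rw [tau, Complex.div_im, Complex.normSq_mul, normSq_den he]; simp [kp]; field_simp
  ring

def tau1 (e s : ℝ) : ℂ := -50 * kp e / (3 * (25 + s * kp e) ^ 2)
def tau2 (e s : ℝ) : ℂ := 100 * kp e ^ 2 / (3 * (25 + s * kp e) ^ 3)

lemma curve_tau {e : ℝ} (he : e ^ 2 = 196) (s : ℝ) : HasDerivAt (tau e) (tau1 e s) s ∧
    HasDerivAt (tau1 e) (tau2 e s) s ∧ ‖tau1 e s‖ ≤ 0.7234 ∧ ‖tau2 e s‖ ≤ 1.5071 := by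
  have hd := norm_den he s
  have h0 : (25 + s * kp e : ℂ) ≠ 0 := by intro h; rw [h] at hd; norm_num at hd
  have hd0 : 0 < ‖25 + s * kp e‖ := by linarith
  refine ⟨?_, ?_, ?_, ?_⟩
  · have := ((((hasDerivAt_id (s : ℂ)).mul_const (kp e)).const_sub 25).div
      ((((hasDerivAt_id (s : ℂ)).mul_const (kp e)).const_add 25).const_mul 3)
      (mul_ne_zero three_ne_zero h0)).comp_ofReal
    refine this.congr_deriv ?_
    simp only [tau1, id]; field_simp; ring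
  · have := ((hasDerivAt_const (s : ℂ) (-50 * kp e)).div
      (((((hasDerivAt_id (s : ℂ)).mul_const (kp e)).const_add 25).pow 2).const_mul 3)
      (mul_ne_zero three_ne_zero (pow_ne_zero 2 h0))).comp_ofReal
    refine this.congr_deriv ?_
    simp only [tau2, id, Pi.pow_apply]; field_simp; norm_num; ring
  · rw [tau1, norm_div, norm_mul, norm_mul, norm_pow, norm_kp he,
      div_le_iff₀ (mul_pos (by simp) (pow_pos hd0 2))]
    simp; nlinarith
  · rw [tau2, norm_div, norm_mul, norm_mul, norm_pow, norm_pow, norm_kp he,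
      div_le_iff₀ (mul_pos (by simp) (pow_pos hd0 3))]
    have : (24 : ℝ) ^ 3 ≤ ‖25 + s * kp e‖ ^ 3 := by gcongr
    simp; nlinarith

def zeta (ρ e s : ℝ) : ℂ := ee (tau e s) / ρ

lemma curve_zeta {e : ℝ} (he : e ^ 2 = 196) (ρ s : ℝ) :
    HasDerivAt (zeta ρ e) ((2 * Real.pi * I * tau1 e s) * zeta ρ e s) s ∧
    HasDerivAt (fun s => 2 * Real.pi * I * tau1 e s) (2 * Real.pi * I * tau2 e s) s ∧
    ‖2 * Real.pi * I * tau1 e s‖ ^ 2 ≤ 21 ∧ ‖2 * Real.pi * I * tau2 e s‖ ≤ 10 := by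
  obtain ⟨h1, h2, h3, h4⟩ := curve_tau he s
  have hp := Real.pi_lt_d2
  have hp0 := Real.pi_pos
  have hn : ‖(2 * Real.pi * I : ℂ)‖ ≤ 6.3 := by simp [abs_of_pos hp0]; linarith
  refine ⟨?_, h2.const_mul _, ?_, ?_⟩
  · have := ((hasDerivAt_ee (tau e s)).scomp s h1).div_const (ρ : ℂ)
    exact this.congr_deriv (by simp [zeta]; ring)
  · rw [norm_mul]
    calc _ ≤ (6.3 * 0.7234 : ℝ) ^ 2 := by gcongr
      _ ≤ _ := by norm_num
  · rw [norm_mul]
    calc _ ≤ (6.3 * 1.5071 : ℝ) := by gcongr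
      _ ≤ _ := by norm_num

lemma C2_im {e : ℝ} (he : e ^ 2 = 196) (a b : ℝ) : C2 (fun s => (tau e s).im) a b 1.5071 :=
  ⟨fun s => (tau1 e s).im, fun s => (tau2 e s).im, fun s _ =>
    ⟨hasDerivAt_im (curve_tau he s).1, hasDerivAt_im (curve_tau he s).2.1,
      (Complex.abs_im_le_norm _).trans (curve_tau he s).2.2.2⟩⟩

end

end Pool.Agent.Lib.MP_caab05_ag.W3
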