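import Mathlib

/-!
Formal power series attached to Gamma_0(9) and the weight three newform of level 9.
-/

namespace Pool.Agent.Lib.MP_caab05_ag.W3

open PowerSeries

noncomputable section

variable {A B : Type*} [CommRing A] [CommRing B]

/-- the derivation `q d/dq` -/
def th (F : A⟦X⟧) : A⟦X⟧ := PowerSeries.mk fun n => (n : A) * coeff n F

/-- coefficientwise multiplication by a weight sequence -/
def wt (w : ℕ → A) (F : A⟦X⟧) : A⟦X⟧ := PowerSeries.mk fun n => w n * coeff n F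

@[simp] lemma coeff_th (F : A⟦X⟧) (n : ℕ) : coeff n (th F) = (n : A) * coeff n F := by
  simp [th]

@[simp] lemma coeff_wt (w : ℕ → A) (F : A⟦X⟧) (n : ℕ) : coeff n (wt w F) = w n * coeff n F := by
  simp [wt]

lemma th_eq (F : A⟦X⟧) : th F = X * d⁄dX A F := by
  ext n
  cases n with
  | zero => simp
  | succ n => rw [coeff_th, coeff_succ_X_mul, coeff_derivative]; push_cast; ring

lemma th_add (F G : A⟦X⟧) : th (F + G) = th F + th G := by ext n; simp [mul_add]
lemma th_sub (F G : A⟦X⟧) : th (F - G) = th F - th G := by ext n; simp [mul_sub]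
lemma th_neg (F : A⟦X⟧) : th (-F) = -th F := by ext n; simp
@[simp] lemma th_zero : th (0 : A⟦X⟧) = 0 := by ext n; simp
lemma th_mul (F G : A⟦X⟧) : th (F * G) = F * th G + G * th F := by
  simp only [th_eq, Derivation.leibniz, smul_eq_mul]; ring
@[simp] lemma th_C (a : A) : th (C a : A⟦X⟧) = 0 := by simp [th_eq]
@[simp] lemma th_one : th (1 : A⟦X⟧) = 0 := by simpa using th_C (1 : A)
@[simp] lemma th_natCast (n : ℕ) : th (n : A⟦X⟧) = 0 := by simpa using th_C (n : A)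
@[simp] lemma th_ofNat (n : ℕ) [n.AtLeastTwo] : th (ofNat(n) : A⟦X⟧) = 0 := th_natCast n
@[simp] lemma th_X : th (X : A⟦X⟧) = X := by simp [th_eq]
lemma th_C_mul (a : A) (F : A⟦X⟧) : th (C a * F) = C a * th F := by simp [th_mul]
lemma th_pow_succ (F : A⟦X⟧) (n : ℕ) : th (F ^ (n + 1)) = ((n : A⟦X⟧) + 1) * F ^ n * th F := by
  induction n with
  | zero => simp
  | succ n ih => rw [pow_succ, th_mul, ih]; push_cast; ring
lemma th_pow (F : A⟦X⟧) (n : ℕ) : th (F ^ n) = (n : A⟦X⟧) * F ^ (n - 1) * th F := by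
  cases n with
  | zero => simp
  | succ n => rw [th_pow_succ]; push_cast; simp
lemma th_inv {F G : A⟦X⟧} (h : F * G = 1) : th G = -(G ^ 2 * th F) := by
  have h1 := congrArg th h
  rw [th_mul, th_one] at h1
  linear_combination G * h1 - th G * h
lemma th_sum {ι : Type*} (s : Finset ι) (F : ι → A⟦X⟧) : th (∑ i ∈ s, F i) = ∑ i ∈ s, th (F i) := by
  ext n; simp [Finset.mul_sum]
lemma th_aeval (P : Polynomial A) (t : A⟦X⟧) :
    th (Polynomial.aeval t P) = Polynomial.aeval t (Polynomial.derivative P) * th t := by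
  induction P using Polynomial.induction_on' with
  | add p q hp hq => simp [th_add, hp, hq, add_mul]
  | monomial n a =>
    rw [Polynomial.derivative_monomial, Polynomial.aeval_monomial, Polynomial.aeval_monomial]
    have h : ∀ c : A, (algebraMap A A⟦X⟧) c = C c := fun c => rfl
    rw [h, h, th_C_mul, th_pow, map_mul, map_natCast]; ring
lemma map_th (f : A →+* B) (F : A⟦X⟧) : PowerSeries.map f (th F) = th (PowerSeries.map f F) := by
  ext n; simp
lemma map_wt (f : A →+* B) (w : ℕ → A) (F : A⟦X⟧) :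
    PowerSeries.map f (wt w F) = wt (fun n => f (w n)) (PowerSeries.map f F) := by
  ext n; simp
lemma wt_add (w : ℕ → A) (F G : A⟦X⟧) : wt w (F + G) = wt w F + wt w G := by
  ext n; simp [mul_add]
lemma wt_sub (w : ℕ → A) (F G : A⟦X⟧) : wt w (F - G) = wt w F - wt w G := by
  ext n; simp [mul_sub]
lemma wt_C_mul (w : ℕ → A) (a : A) (F : A⟦X⟧) : wt w (C a * F) = C a * wt w F := by
  ext n; simp; ring

/-- The basic series: hauptmodul `t`, weight one form `b`, cube roots `l1, l2` of `1 - u_i t`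
(`u1 = 3 (om - 1)`, `u2 = 3 (om^2 - 1)`), their inverses, and the two differential equations. -/
structure Sys (A : Type*) [CommRing A] where
  om : A
  t : A⟦X⟧
  b : A⟦X⟧
  l1 : A⟦X⟧
  l2 : A⟦X⟧
  bi : A⟦X⟧
  l1i : A⟦X⟧
  l2i : A⟦X⟧
  hom : om ^ 2 + om + 1 = 0
  t0 : coeff 0 t = 0
  t1 : coeff 1 t = 1
  b0 : coeff 0 b = 1
  l10 : coeff 0 l1 = 1
  l20 : coeff 0 l2 = 1
  hb : b * bi = 1
  hl1 : l1 * l1i = 1
  hl2 : l2 * l2i = 1
  cube1 : l1 ^ 3 = 1 - C (3 * (om - 1)) * t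
  cube2 : l2 ^ 3 = 1 - C (3 * (om ^ 2 - 1)) * t
  tht : th t = t * (b ^ 2 * (1 + 9 * t + 27 * t ^ 2))
  thb : th (th bi) = (3 * t + 27 * t ^ 2) * (1 + 9 * t + 27 * t ^ 2) * b ^ 3

/-- weights and scalars -/
structure Par (A : Type*) [CommRing A] where
  w : ℕ → A
  a : A
  a' : A
  c : A
  c' : A

def Par.map (f : A →+* B) (P : Par A) : Par B := ⟨fun n => f (P.w n), f P.a, f P.a', f P.c, f P.c'⟩

namespace Sys

variable (σ : Sys A)

def map (f : A →+* B) : Sys B where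
  om := f σ.om
  t := PowerSeries.map f σ.t
  b := PowerSeries.map f σ.b
  l1 := PowerSeries.map f σ.l1
  l2 := PowerSeries.map f σ.l2
  bi := PowerSeries.map f σ.bi
  l1i := PowerSeries.map f σ.l1i
  l2i := PowerSeries.map f σ.l2i
  hom := by simpa using congrArg f σ.hom
  t0 := by rw [coeff_map, σ.t0, map_zero]
  t1 := by rw [coeff_map, σ.t1, map_one]
  b0 := by rw [coeff_map, σ.b0, map_one]
  l10 := by rw [coeff_map, σ.l10, map_one]
  l20 := by rw [coeff_map, σ.l20, map_one]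
  hb := by rw [← map_mul, σ.hb, map_one]
  hl1 := by rw [← map_mul, σ.hl1, map_one]
  hl2 := by rw [← map_mul, σ.hl2, map_one]
  cube1 := by simpa [map_ofNat] using congrArg (PowerSeries.map f) σ.cube1
  cube2 := by simpa [map_ofNat] using congrArg (PowerSeries.map f) σ.cube2
  tht := by simpa [map_ofNat, map_th] using congrArg (PowerSeries.map f) σ.tht
  thb := by simpa [map_ofNat, map_th] using congrArg (PowerSeries.map f) σ.thb

def ell : A⟦X⟧ := 1 + 9 * σ.t + 27 * σ.t ^ 2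
def elli : A⟦X⟧ := (σ.l1i * σ.l2i) ^ 3
/-- the hauptmodul invariant under the Fricke involution -/
def x : A⟦X⟧ := σ.t * σ.elli
def kap : A⟦X⟧ := σ.b ^ 2 * σ.ell
def kapi : A⟦X⟧ := σ.bi ^ 2 * σ.elli
def E : A⟦X⟧ := σ.b * σ.l1 ^ 2 * σ.l2
def Eb : A⟦X⟧ := σ.b * σ.l1 * σ.l2 ^ 2
/-- the newform -/
def hc' : A⟦X⟧ := σ.E * σ.kap * σ.x
def he' : A⟦X⟧ := σ.hc' * (1 - σ.l1i ^ 3)
def hc : A⟦X⟧ := σ.Eb * σ.kap * σ.x
def he : A⟦X⟧ := σ.hc * σ.l2i ^ 3
/-- the derivation `t d/dt` -/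
def tt (F : A⟦X⟧) : A⟦X⟧ := σ.kapi * th F

variable (P : Par A)

def g : A⟦X⟧ := C P.a * σ.hc' + C P.a' * σ.he'
def g' : A⟦X⟧ := C P.a * σ.hc + C P.a' * σ.he
def AA : A⟦X⟧ := σ.Eb * (wt P.w (wt P.w (σ.g P)) - C P.c)
def AA' : A⟦X⟧ := σ.E * (wt P.w (wt P.w (σ.g' P)) - C P.c')

/-- the seven functions -/
def fn (j : Fin 7) : A⟦X⟧ :=
  ![1,
    σ.AA P + σ.AA' P,
    27 * σ.t * σ.x * σ.AA P + σ.elli * σ.AA' P,
    σ.tt (σ.AA P) - σ.tt (σ.AA' P),
    27 * σ.t * σ.x * σ.tt (σ.AA P) - σ.elli * σ.tt (σ.AA' P),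
    wt P.w (σ.kap * (σ.x * σ.AA P - σ.x * σ.AA' P)),
    wt P.w (σ.kap * (σ.x * σ.l2i ^ 3 * σ.AA P - σ.x * (1 - σ.l1i ^ 3) * σ.AA' P))] j

/-- the rows `x^i f_j` -/
def row (i : ℕ) (j : Fin 7) : A⟦X⟧ := σ.x ^ i * σ.fn P j

lemma ell_eq : σ.ell = σ.l1 ^ 3 * σ.l2 ^ 3 := by
  rw [σ.cube1, σ.cube2, ell]
  have h : (C σ.om : A⟦X⟧) ^ 2 + C σ.om + 1 = 0 := by simpa using congrArg (C (R := A)) σ.hom
  simp only [map_mul, map_sub, map_pow, map_one, map_ofNat]
  linear_combination (3 * σ.t + 9 * σ.t ^ 2 * (2 - C σ.om)) * h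

lemma ell_mul_elli : σ.ell * σ.elli = 1 := by
  rw [ell_eq, elli]
  calc _ = (σ.l1 * σ.l1i) ^ 3 * (σ.l2 * σ.l2i) ^ 3 := by ring
    _ = 1 := by rw [σ.hl1, σ.hl2]; simp

lemma kap_mul_kapi : σ.kap * σ.kapi = 1 := by
  rw [kap, kapi]
  calc _ = (σ.b * σ.bi) ^ 2 * (σ.ell * σ.elli) := by ring
    _ = 1 := by rw [σ.hb, σ.ell_mul_elli]; simp

lemma th_t : th σ.t = σ.t * σ.kap := σ.tht

lemma tt_t : σ.tt σ.t = σ.t := by
  rw [tt, th_t]; linear_combination σ.t * σ.kap_mul_kapi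

variable (f : A →+* B)

@[simp] lemma map_om : (σ.map f).om = f σ.om := rfl
@[simp] lemma map_t : PowerSeries.map f σ.t = (σ.map f).t := rfl
@[simp] lemma map_b : PowerSeries.map f σ.b = (σ.map f).b := rfl
@[simp] lemma map_l1 : PowerSeries.map f σ.l1 = (σ.map f).l1 := rfl
@[simp] lemma map_l2 : PowerSeries.map f σ.l2 = (σ.map f).l2 := rfl
@[simp] lemma map_bi : PowerSeries.map f σ.bi = (σ.map f).bi := rfl
@[simp] lemma map_l1i : PowerSeries.map f σ.l1i = (σ.map f).l1i := rfl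
@[simp] lemma map_l2i : PowerSeries.map f σ.l2i = (σ.map f).l2i := rfl
@[simp] lemma map_ell : PowerSeries.map f σ.ell = (σ.map f).ell := by simp [ell, map_ofNat]
@[simp] lemma map_elli : PowerSeries.map f σ.elli = (σ.map f).elli := by simp [elli]
@[simp] lemma map_x : PowerSeries.map f σ.x = (σ.map f).x := by simp [x]
@[simp] lemma map_kap : PowerSeries.map f σ.kap = (σ.map f).kap := by simp [kap]
@[simp] lemma map_kapi : PowerSeries.map f σ.kapi = (σ.map f).kapi := by simp [kapi]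
@[simp] lemma map_E : PowerSeries.map f σ.E = (σ.map f).E := by simp [E]
@[simp] lemma map_Eb : PowerSeries.map f σ.Eb = (σ.map f).Eb := by simp [Eb]
@[simp] lemma map_hc' : PowerSeries.map f σ.hc' = (σ.map f).hc' := by simp [hc']
@[simp] lemma map_he' : PowerSeries.map f σ.he' = (σ.map f).he' := by simp [he']
@[simp] lemma map_hc : PowerSeries.map f σ.hc = (σ.map f).hc := by simp [hc]
@[simp] lemma map_he : PowerSeries.map f σ.he = (σ.map f).he := by simp [he]
@[simp] lemma map_tt (F : A⟦X⟧) :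
    PowerSeries.map f (σ.tt F) = (σ.map f).tt (PowerSeries.map f F) := by simp [tt, map_th]
@[simp] lemma map_g : PowerSeries.map f (σ.g P) = (σ.map f).g (P.map f) := by simp [g, Par.map]
@[simp] lemma map_g' : PowerSeries.map f (σ.g' P) = (σ.map f).g' (P.map f) := by
  simp [g', Par.map]
@[simp] lemma map_AA : PowerSeries.map f (σ.AA P) = (σ.map f).AA (P.map f) := by
  simp only [AA, map_mul, map_sub, map_wt, map_g, map_Eb, map_C]; rfl
@[simp] lemma map_AA' : PowerSeries.map f (σ.AA' P) = (σ.map f).AA' (P.map f) := by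
  simp only [AA', map_mul, map_sub, map_wt, map_g', map_E, map_C]; rfl
lemma map_fn (j : Fin 7) : PowerSeries.map f (σ.fn P j) = (σ.map f).fn (P.map f) j := by
  fin_cases j <;> simp [fn, map_wt, map_ofNat] <;> rfl
lemma map_row (i : ℕ) (j : Fin 7) :
    PowerSeries.map f (σ.row P i j) = (σ.map f).row (P.map f) i j := by
  simp [row, map_fn]

end Sys

/-- the primitive cube root of unity `e^(2 pi i/3)` -/
def om : ℂ := Complex.exp (2 * Real.pi * Complex.I / 3)

/-- membership in `Z[om]` -/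
def IsO (z : ℂ) : Prop := ∃ a b : ℤ, z = a + b * om

/-- all coefficients in `Z[om]` -/
def CoefO (F : ℂ⟦X⟧) : Prop := ∀ n, IsO (coeff n F)

structure Sys.Integral (σ : Sys ℂ) : Prop where
  hom : σ.om = W3.om
  t : CoefO σ.t
  b : CoefO σ.b
  l1 : CoefO σ.l1
  l2 : CoefO σ.l2
  bi : CoefO σ.bi
  l1i : CoefO σ.l1i
  l2i : CoefO σ.l2i

/-- the parameters over the complex numbers: the weight `1/n` inverts `th` -/
def parC (a a' c c' : ℂ) : Par ℂ := ⟨fun n => (n : ℂ)⁻¹, a, a', c, c'⟩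

/-- the minor of the rows `x^i f_j` (`i < D`) at the columns `col` -/
def minor (σ : Sys ℂ) (P : Par ℂ) (D : ℕ) (col : Fin D × Fin 7 → ℕ) : ℂ :=
  Matrix.det (Matrix.of fun r k : Fin D × Fin 7 => coeff (col k) (σ.row P r.1 r.2))

/-- exponent of `p` not depending on the columns -/
def baseExp (D p : ℕ) : ℕ :=
  if p < 5 then 0 else if p ≤ D then 11 * D + p + 2 else if 2 * p ≤ 3 * D then 5 * D + p + 2
  else if p ≤ 2 * D then D else 0

/-- exponent of `p` for the column `n` -/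
def colExp (D p n : ℕ) : ℕ :=
  (if p < 5 ∨ p ^ 2 ≤ n then 3 * Nat.log p n else 0) + (if D < p ∧ p ≤ n then 1 else 0)
    + (if 3 * D < 2 * p ∧ p ≤ n then 1 else 0) + (if 2 * D < p ∧ 3 * p ≤ n then 1 else 0)

def totExp (D : ℕ) (col : Fin D × Fin 7 → ℕ) (p : ℕ) : ℕ :=
  baseExp D p + ∑ k, colExp D p (col k)

end

end Pool.Agent.Lib.MP_caab05_ag.W3
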