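import Pool.Agent.Lib.MP_caab05_ag.W3.Cert1
import Pool.Agent.Lib.MP_caab05_ag.W3.Cert2
import Pool.Agent.Lib.MP_caab05_ag.W3.Cert3

namespace Pool.Agent.Lib.MP_caab05_ag.W3

theorem exists_doms : ∃ d1 d2 d3 : Dom (fun q => vfun (lx q)),
    (d1.ta = 0 ∧ d1.h = 2 ∧ d1.L = 4 / 5) ∧ (d2.ta = 1 ∧ d2.h = 107 / 100 ∧ d2.L = 63 / 25) ∧
    (d3.ta = 5 / 2 ∧ d3.h = -271 / 100 ∧ d3.L = 31 / 10) := by
  obtain ⟨d1, a1, b1, c1⟩ := dom1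
  obtain ⟨d2, a2, b2, c2⟩ := dom2
  obtain ⟨d3, a3, b3, c3⟩ := dom3
  exact ⟨d1, d2, d3, ⟨by simpa using a1, by simpa using b1, c1⟩, ⟨by simpa using a2, b2, c2⟩,
    ⟨by simpa using a3, b3, c3⟩⟩

end Pool.Agent.Lib.MP_caab05_ag.W3
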