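import Pool.Agent.Lib.MP_caab05_ag.W3.Iface

/-!
Euler's product, the eta transformation law and a Liouville type lemma.
-/

namespace Pool.Agent.Lib.MP_caab05_ag.W3

open PowerSeries Filter Topology

noncomputable section

lemma om_prim : IsPrimitiveRoot om 3 := by
  simpa [om] using Complex.isPrimitiveRoot_exp 3 (by norm_num)

lemma om_cube : om ^ 3 = 1 := om_prim.pow_eq_one

lemma om_sq : om ^ 2 + om + 1 = 0 := by
  have := om_prim.geom_sum_eq_zero (by norm_num)
  simp only [Finset.sum_range_succ, Finset.range_zero, Finset.sum_empty] at this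
  linear_combination this

lemma norm_om : ‖om‖ = 1 := Complex.norm_eq_one_of_pow_eq_one om_cube (by norm_num)

lemma conj_om : (starRingEnd ℂ) om = om ^ 2 := by
  have h := Complex.mul_conj om
  rw [Complex.normSq_eq_norm_sq, norm_om] at h
  push_cast at h
  linear_combination om ^ 2 * h - (starRingEnd ℂ) om * om_cube

lemma ee_add_third (τ : ℂ) : ee (τ + 1 / 3) = om * ee τ := by
  rw [ee, ee, om, ← Complex.exp_add]; congr 1; ring

lemma Conv.expand {F : ℂ⟦X⟧} (hF : Conv F) (m : ℕ) (hm : m ≠ 0) : Conv (expand m hm F) := by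
  intro r h0 h1
  rw [← (mul_right_injective₀ hm).summable_iff]
  · refine (hF (r ^ m) (by positivity) (pow_lt_one₀ h0 h1 hm)).congr fun n => ?_
    simp [coeff_expand_mul, pow_mul]
  · intro n hn
    rw [coeff_expand_of_not_dvd, norm_zero, zero_mul]
    rintro ⟨k, rfl⟩
    exact hn ⟨k, rfl⟩

lemma ev_expand (F : ℂ⟦X⟧) (m : ℕ) (hm : m ≠ 0) (q : ℂ) :
    ev (expand m hm F) q = ev F (q ^ m) := by
  rw [ev, ev, ← (mul_right_injective₀ hm).tsum_eq]
  · simp [coeff_expand_mul, pow_mul]
  · intro n hn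
    by_contra h
    refine hn ?_
    simp only
    rw [coeff_expand_of_not_dvd, zero_mul]
    rintro ⟨k, rfl⟩
    exact h ⟨k, rfl⟩

lemma coeff_zero_phi : coeff 0 phi = 1 := by
  have := coeff_pentagonalSeries_pentagonal ℂ 0
  rw [show pentagonal 0 = 0 by simp [pentagonal_def]] at this
  simpa [phi] using this

lemma coeff_phi_int (n : ℕ) : ∃ m : ℤ, coeff n phi = m := by
  by_cases h : n ∈ Set.range pentagonal
  · obtain ⟨k, rfl⟩ := h
    exact ⟨_, coeff_pentagonalSeries_pentagonal ℂ k⟩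
  · exact ⟨0, by simpa [phi] using h⟩

lemma conv_phi : Conv phi := by
  refine Conv.of_bdd fun n => ?_
  by_cases h : n ∈ Set.range pentagonal
  · obtain ⟨k, rfl⟩ := h
    rw [phi, coeff_pentagonalSeries_pentagonal]
    rcases Int.units_eq_one_or (Int.negOnePow k) with h | h <;> simp [h]
  · rw [phi, coeff_pentagonalSeries_eq_zero ℂ h]; simp

lemma norm_prod_le {q : ℂ} (hq : ‖q‖ < 1) (k n : ℕ) :
    ‖∏ i ∈ Finset.range n, (1 - q ^ (k + i + 1))‖ ≤ Real.exp (1 - ‖q‖)⁻¹ := by
  rw [norm_prod]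
  calc _ ≤ ∏ i ∈ Finset.range n, Real.exp (‖q‖ ^ i) := by
        refine Finset.prod_le_prod (fun _ _ => norm_nonneg _) fun i _ => ?_
        have h1 : ‖q‖ ^ (k + i + 1) ≤ ‖q‖ ^ i :=
          pow_le_pow_of_le_one (norm_nonneg _) hq.le (by omega)
        have h2 := norm_sub_le (1 : ℂ) (q ^ (k + i + 1))
        rw [norm_one, norm_pow] at h2
        linarith [Real.add_one_le_exp (‖q‖ ^ i)]
    _ ≤ _ := by
        rw [← Real.exp_sum, Real.exp_le_exp, ← tsum_geometric_of_lt_one (norm_nonneg _) hq]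
        exact (summable_geometric_of_lt_one (norm_nonneg _) hq).sum_le_tsum _
          fun _ _ => by positivity

lemma ev_phi {q : ℂ} (hq : ‖q‖ < 1) : ev phi q = Phi q := by
  have h1 : HasSum (fun k : ℤ => ((Int.negOnePow k : ℤ) : ℂ) * q ^ pentagonal k) (ev phi q) := by
    have := (pentagonal_injective.hasSum_iff (f := fun n => coeff n phi * q ^ n) fun n hn => by
      rw [phi, coeff_pentagonalSeries_eq_zero ℂ hn, zero_mul]).2 (conv_phi.hasSum hq)
    refine this.congr_fun fun k => ?_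
    simp [phi]
  have h2 : HasSum (fun k : ℕ => (-1) ^ k * (q ^ pentagonal (-k) - q ^ pentagonal (k + 1)))
      (ev phi q) := by
    rw [← neg_injective.hasSum_iff (fun x hx => by absurd hx; use -x; simp)] at h1
    convert h1.nat_add_neg_add_one using 2 with k
    simp_rw [Function.comp_apply, neg_neg, Int.negOnePow_add]
    simp
    ring
  have hg := summable_geometric_of_lt_one (norm_nonneg _) hq
  have hb : ∀ k n : ℕ, ‖q ^ ((k + 1) * n) * ∏ i ∈ Finset.range (n + 1), (1 - q ^ (k + i + 1))‖ ≤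
      ‖q‖ ^ n * Real.exp (1 - ‖q‖)⁻¹ := fun k n => by
    rw [norm_mul, norm_pow]
    exact mul_le_mul (pow_le_pow_of_le_one (norm_nonneg _) hq.le (by nlinarith))
      (norm_prod_le hq _ _) (norm_nonneg _) (by positivity)
  refine (h2.tsum_eq.symm.trans (Pentagonal.tprod_one_sub_pow
    (tendsto_pow_atTop_nhds_zero_of_norm_lt_one hq)
    (fun k => (hg.mul_right _).of_norm_bounded (hb k)) (fun k => ?_) h2.summable ?_).symm)
  · simp_rw [sub_eq_add_neg]
    refine multipliable_one_add_of_summable (f := fun n => -q ^ (n + k + 1)) ?_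
    simpa [add_assoc] using (summable_nat_add_iff (k + 1)).2 hg
  · refine squeeze_zero_norm (a := fun k => ‖q‖ ^ k * ∑' n, ‖q‖ ^ n * Real.exp (1 - ‖q‖)⁻¹)
      (fun k => ?_) ?_
    · rw [norm_mul, norm_mul, norm_pow, norm_pow, norm_neg, norm_one, one_pow, one_mul]
      refine mul_le_mul (pow_le_pow_of_le_one (norm_nonneg _) hq.le ?_)
        (tsum_of_norm_bounded (hg.mul_right _).hasSum (hb k)) (norm_nonneg _) (by positivity)
      rw [Nat.le_div_iff_mul_le two_pos]
      nlinarith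
    · simpa using (tendsto_pow_atTop_nhds_zero_of_lt_one (norm_nonneg _) hq).mul_const
        (∑' n, ‖q‖ ^ n * Real.exp (1 - ‖q‖)⁻¹)

lemma Phi_ne_zero {q : ℂ} (hq : ‖q‖ < 1) : Phi q ≠ 0 := by
  simp_rw [Phi, sub_eq_add_neg]
  refine tprod_one_add_ne_zero_of_summable (fun i h => ?_) ?_
  · have h1 : ‖q ^ (i + 1)‖ < 1 := by
      rw [norm_pow]; exact pow_lt_one₀ (norm_nonneg _) hq (by omega)
    rw [show q ^ (i + 1) = 1 by linear_combination -h, norm_one] at h1
    exact lt_irrefl _ h1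
  · simpa using (summable_nat_add_iff 1).2 (summable_geometric_of_lt_one (norm_nonneg _) hq)

lemma eta_eq (z : ℂ) : ModularForm.eta z = ee (z / 24) * Phi (ee z) := by
  simp only [ModularForm.eta, ModularForm.eta_q_eq_pow, Function.Periodic.qParam, ee, Phi]
  congr 2
  push_cast
  ring

/-- the generating series of the divisor sums -/
def sig : ℂ⟦X⟧ := PowerSeries.mk fun n => (ArithmeticFunction.sigma 1 n : ℂ)

lemma conv_sig : Conv sig := by
  have h : Conv (PowerSeries.mk fun _ => (1 : ℂ)) := Conv.of_bdd (by simp)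
  refine h.th.th.of_le fun n => ?_
  have := ArithmeticFunction.sigma_le_pow_succ 1 n
  simp only [sig, coeff_mk, coeff_th, mul_one, Complex.norm_natCast, norm_mul]
  exact_mod_cast this.trans_eq (by ring)

/-- logarithmic derivative of Euler's product -/
lemma th_phi : th phi = -(PowerSeries.mk fun n => (ArithmeticFunction.sigma 1 n : ℂ)) * phi := by
  change _ = -sig * phi
  refine eq_of_ev_ee conv_phi.th (conv_sig.neg.mul conv_phi) fun τ hτ => ?_
  have hq := norm_ee_lt hτ
  have h0 := Phi_ne_zero hq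
  have h1 := ModularForm.logDeriv_eta_eq_E2 ⟨τ, hτ⟩
  have h2 : EisensteinSeries.E2 ⟨τ, hτ⟩ = 1 - 24 * ev sig (ee τ) := by
    refine (EisensteinSeries.hasSum_qExpansion_E2 ⟨τ, hτ⟩).unique ?_
    have := (Conv.one.hasSum hq).sub ((conv_sig.hasSum hq).mul_left 24)
    rw [ev_one] at this
    refine this.congr_fun fun n => ?_
    by_cases h : n = 0 <;> simp [h, sig, coeff_one, ee, mul_assoc]
  have h3 : ModularForm.eta =ᶠ[𝓝 τ] fun z => ee (z / 24) * ev phi (ee z) := by
    filter_upwards [(isOpen_lt continuous_const Complex.continuous_im).mem_nhds hτ] with z hz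
    rw [eta_eq, ev_phi (norm_ee_lt hz)]
  have h4 := (((hasDerivAt_ee (τ / 24)).comp τ ((hasDerivAt_id τ).div_const 24)).mul
    (hasDerivAt_ev_ee conv_phi hτ)).congr_of_eventuallyEq h3
  rw [logDeriv_apply, h2] at h1
  change deriv ModularForm.eta τ / ModularForm.eta τ = _ at h1
  rw [h4.deriv, eta_eq, div_eq_iff (mul_ne_zero (ee_ne_zero _) h0)] at h1
  rw [ev_mul conv_sig.neg conv_phi hq, ev_neg]
  simp only [Function.comp_apply, ev_phi hq, id] at h1 ⊢
  have h5 : (2 * Real.pi * Complex.I * ee (τ / 24) : ℂ) ≠ 0 := by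
    simp [Real.pi_ne_zero, ee_ne_zero]
  apply mul_left_cancel₀ h5
  linear_combination h1

lemma hasProd_Phi {q : ℂ} (hq : ‖q‖ < 1) : HasProd (fun n : ℕ => 1 - q ^ (n + 1)) (Phi q) :=
  (ModularForm.multipliable_one_sub_pow hq).hasProd

lemma norm_pow_lt {q : ℂ} (hq : ‖q‖ < 1) {m : ℕ} (hm : m ≠ 0) : ‖q ^ m‖ < 1 := by
  rw [norm_pow]; exact pow_lt_one₀ (norm_nonneg _) hq hm

lemma hasProd_three {q : ℂ} (hq : ‖q‖ < 1) :
    HasProd (fun n : ℕ => if 3 ∣ n + 1 then 1 - q ^ (n + 1) else 1) (Phi (q ^ 3)) := by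
  have hi : Function.Injective fun m : ℕ => 3 * m + 2 := fun a b h => by simpa using h
  rw [← hi.hasProd_iff]
  · refine (hasProd_Phi (norm_pow_lt hq three_ne_zero)).congr_fun fun m => ?_
    simp only [Function.comp_apply]
    rw [if_pos (by omega), ← pow_mul]
    rfl
  · intro n hn
    refine if_neg fun h => hn ⟨n / 3, ?_⟩
    simp only
    omega

lemma Phi_prod {q : ℂ} (hq : ‖q‖ < 1) :
    Phi q * Phi (om * q) * Phi (om ^ 2 * q) * Phi (q ^ 9) = Phi (q ^ 3) ^ 4 := by
  have h3 := norm_pow_lt hq three_ne_zero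
  have h1 := (((hasProd_Phi hq).mul (hasProd_Phi (q := om * q) (by simpa [norm_om] using hq))).mul
    (hasProd_Phi (q := om ^ 2 * q) (by simpa [norm_om] using hq))).mul (hasProd_three h3)
  have h2 := (hasProd_Phi h3).mul ((hasProd_three hq).pow 3)
  rw [← pow_mul, ← pow_succ'] at *
  refine h1.unique (h2.congr_fun fun n => ?_)
  have e1 : (om ^ (n + 1)) ^ 3 = 1 := by rw [← pow_mul, mul_comm, pow_mul, om_cube, one_pow]
  have e2 : (om ^ 2 * q) ^ (n + 1) = (om ^ (n + 1)) ^ 2 * q ^ (n + 1) := by ring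
  have e3 : (q ^ 3) ^ (n + 1) = (q ^ (n + 1)) ^ 3 := by ring
  rw [e2, e3, mul_pow]
  split_ifs with h
  · rw [(om_prim.pow_eq_one_iff_dvd _).2 h]; ring
  · have e4 : om ^ (n + 1) - 1 ≠ 0 := fun e =>
      h ((om_prim.pow_eq_one_iff_dvd _).1 (sub_eq_zero.1 e))
    have e5 : (om ^ (n + 1)) ^ 2 + om ^ (n + 1) + 1 = 0 :=
      mul_left_cancel₀ e4 (by linear_combination e1)
    generalize om ^ (n + 1) = z at *
    generalize q ^ (n + 1) = x
    linear_combination (x ^ 2 - x ^ 3) * e1 + (x ^ 2 - x) * e5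

/-- the transformation law of the eta function -/
lemma Phi_S {τ : ℂ} (h : 0 < τ.im) :
    ee (-1 / τ / 24) * Phi (ee (-1 / τ)) =
      (Complex.sqrt Complex.I)⁻¹ * Complex.sqrt τ * (ee (τ / 24) * Phi (ee τ)) := by
  have := ModularForm.eta_comp_eq_csqrt_I_inv (show τ ∈ UpperHalfPlane.upperHalfPlaneSet from h)
  simp only [Function.comp_apply, Pi.smul_apply, Pi.mul_apply, smul_eq_mul, eta_eq] at this
  rw [this, mul_assoc]

open UpperHalfPlane MatrixGroups in
/-- functions whose modulus is invariant under `τ ↦ τ + 1/3` and `ww` are constant -/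
theorem liouville {F : ℂ⟦X⟧} (hF : Conv F)
    (h1 : ∀ q : ℂ, ‖q‖ < 1 → ‖ev F (om * q)‖ = ‖ev F q‖)
    (h2 : ∀ τ : ℂ, 0 < τ.im → ‖ev F (ee (ww τ))‖ = ‖ev F (ee τ)‖) :
    F = C (coeff 0 F) := by
  set f : ℍ → ℝ := fun z => ‖ev F (ee (z / 3))‖ with hf
  have him : ∀ z : ℍ, ((z : ℂ) / 3).im = z.im / 3 := fun z => by simp
  have hpos : ∀ z : ℍ, 0 < ((z : ℂ) / 3).im := fun z => by
    rw [him]; exact div_pos z.im_pos three_pos
  have hinv : ∀ g : SL(2, ℤ), ∀ z, f (g • z) = f z := by
    intro g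
    have hg : g ∈ Subgroup.closure {ModularGroup.S, ModularGroup.T} := by
      simp [SpecialLinearGroup.SL2Z_generators]
    induction hg using Subgroup.closure_induction with
    | mem g hg =>
      intro z
      rcases hg with rfl | rfl
      · rw [modular_S_smul]
        have := h2 _ (hpos z)
        rwa [show ww (z / 3) = (-z : ℂ)⁻¹ / 3 by rw [ww]; have := z.ne_zero; field_simp; norm_num]
          at this
      · rw [modular_T_smul]
        have := h1 _ (norm_ee_lt (hpos z))
        rw [← ee_add_third] at this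
        simp only [hf, coe_vadd]
        rw [← this]
        congr 3
        push_cast
        ring
    | one => simp
    | mul g g' _ _ a b => intro z; rw [mul_smul, a, b]
    | inv g _ a => intro z; rw [← a, smul_inv_smul]
  set ρ := Real.exp (-(Real.pi / 3)) with hρ
  have ρ1 : ρ < 1 := by rw [hρ, Real.exp_lt_one_iff]; linarith [Real.pi_pos]
  have hsub : ∀ q ∈ Metric.closedBall (0 : ℂ) ρ, ‖q‖ < 1 := fun q hq =>
    lt_of_le_of_lt (by simpa using hq) ρ1
  obtain ⟨c, hc, hmax⟩ := (isCompact_closedBall (0 : ℂ) ρ).exists_isMaxOn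
    ⟨0, Metric.mem_closedBall_self (Real.exp_pos _).le⟩ (f := norm ∘ ev F)
    fun q hq => (hF.continuousAt (hsub q hq)).norm.continuousWithinAt
  have hm : IsMaxOn (norm ∘ ev F) (Metric.ball 0 1) c := by
    intro q hq
    by_cases h0 : q = 0
    · exact hmax (h0 ▸ Metric.mem_closedBall_self (Real.exp_pos _).le)
    obtain ⟨τ, hτ, -, rfl⟩ := exists_ee h0 (by simpa using hq)
    obtain ⟨g, hg⟩ := ModularGroup.exists_one_half_le_im_smul ⟨3 * τ, by simpa using hτ⟩
    have e := hinv g ⟨3 * τ, by simpa using hτ⟩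
    simp only [hf, mul_div_cancel_left₀ τ (three_ne_zero (α := ℂ))] at e
    change ‖ev F (ee τ)‖ ≤ _
    rw [← e]
    refine hmax (mem_closedBall_zero_iff.2 ?_)
    rw [norm_ee, him, hρ, Real.exp_le_exp]
    nlinarith [Real.pi_pos]
  have h3 := Complex.eqOn_of_isPreconnected_of_isMaxOn_norm (convex_ball (0 : ℂ) 1).isPreconnected
    Metric.isOpen_ball hF.differentiableOn (by simpa using hsub c hc) hm
  refine eq_of_ev hF (Conv.C _) fun q hq => ?_
  rw [ev_C, ← ev_at_zero, h3 (show q ∈ _ by simpa using hq), h3 (Metric.mem_ball_self one_pos)]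
  rfl

/-- a series is determined by its logarithmic derivative and its constant term -/
lemma eq_of_th {A F G : ℂ⟦X⟧} (hA : coeff 0 A = 0) (hF : th F = A * F) (hG : th G = A * G)
    (h0 : coeff 0 F = coeff 0 G) : F = G := by
  ext n
  induction n using Nat.strong_induction_on with
  | _ n ih =>
    rcases Nat.eq_zero_or_pos n with rfl | hn
    · exact h0
    apply mul_left_cancel₀ (Nat.cast_ne_zero.2 hn.ne' : (n : ℂ) ≠ 0)
    rw [← coeff_th, ← coeff_th, hF, hG, coeff_mul, coeff_mul]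
    refine Finset.sum_congr rfl fun p hp => ?_
    have := Finset.HasAntidiagonal.mem_antidiagonal.1 hp
    rcases Nat.eq_zero_or_pos p.1 with h | h
    · rw [h, hA, zero_mul, zero_mul]
    · rw [ih p.2 (by omega)]

lemma th_expand (F : ℂ⟦X⟧) (m : ℕ) (hm : m ≠ 0) :
    th (expand m hm F) = (m : ℂ⟦X⟧) * expand m hm (th F) := by
  ext n
  rw [← map_natCast (C (R := ℂ)), coeff_C_mul, coeff_th, coeff_expand, coeff_expand]
  split_ifs with h
  · obtain ⟨k, rfl⟩ := h
    rw [Nat.mul_div_cancel_left _ (Nat.pos_of_ne_zero hm), coeff_th]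
    push_cast
    ring
  · simp

lemma th_expand_phi (m : ℕ) (hm : m ≠ 0) :
    th (expand m hm phi) = -((m : ℂ⟦X⟧) * expand m hm sig) * expand m hm phi := by
  rw [th_expand, th_phi, map_mul, map_neg]
  change _ * (-expand m hm sig * _) = _
  ring

/-- the logarithm of `x / q` -/
theorem exists_log_x {q : ℂ} (hq : ‖q‖ < 1) : ∃ Y : ℂ, HasSum (fun k => (ek k : ℂ) * q ^ k) Y ∧
    Phi q ^ 6 * Phi (q ^ 9) ^ 6 = Complex.exp Y * Phi (q ^ 3) ^ 12 := by
  have n9 : (9 : ℕ) ≠ 0 := by norm_num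
  set A : ℂ⟦X⟧ := C (-6) * (sig - C 6 * expand 3 three_ne_zero sig + C 9 * expand 9 n9 sig) with hA
  have cA : Conv A := (Conv.C _).mul ((conv_sig.sub ((Conv.C _).mul (conv_sig.expand _ _))).add
    ((Conv.C _).mul (conv_sig.expand _ _)))
  set Y := wt (fun n => (n : ℂ)⁻¹) A with hY
  have cY : Conv Y := cA.wt_inv
  have A0 : coeff 0 A = 0 := by
    simp only [hA, coeff_C_mul, map_add, map_sub, coeff_expand, sig, coeff_mk]
    simp
  have eY : ∀ k, coeff k Y = (ek k : ℂ) := fun k => by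
    simp only [hY, coeff_wt, hA, coeff_C_mul, map_add, map_sub, coeff_expand, sig, coeff_mk, ek]
    split_ifs <;> push_cast <;> ring
  have tY : th Y = A := by
    ext n
    rcases Nat.eq_zero_or_pos n with rfl | hn
    · simp only [coeff_th, A0, Nat.cast_zero, zero_mul]
    · rw [coeff_th, hY, coeff_wt, ← mul_assoc, mul_inv_cancel₀ (Nat.cast_ne_zero.2 hn.ne'), one_mul]
  obtain ⟨E, cE, hE⟩ := exists_conv (f := fun z => Complex.exp (ev Y z)) cY.differentiableOn.cexp
  have tE : th E = A * E := eq_of_ev cE.th (cA.mul cE) fun z hz => by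
    have h1 : ev E =ᶠ[𝓝 z] fun z => Complex.exp (ev Y z) := by
      filter_upwards [Metric.isOpen_ball.mem_nhds (mem_ball_zero_iff.2 hz)] with w hw
      exact hE w (mem_ball_zero_iff.1 hw)
    rw [ev_th cE hz, h1.deriv_eq, (cY.differentiableAt hz).hasDerivAt.cexp.deriv, ev_mul cA cE hz,
      hE z hz, ← tY, ev_th cY hz]
    ring
  have E0 : coeff 0 E = 1 := by
    rw [← ev_at_zero, hE 0 (by simp), ev_at_zero, hY, coeff_wt, A0, mul_zero, Complex.exp_zero]
  have p0 : constantCoeff phi = 1 := by simpa using coeff_zero_phi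
  have key : phi ^ 6 * expand 9 n9 phi ^ 6 = E * expand 3 three_ne_zero phi ^ 12 := by
    refine eq_of_th (A := C (-6) * (sig + C 9 * expand 9 n9 sig)) ?_ ?_ ?_ ?_
    · simp only [coeff_C_mul, map_add, coeff_expand, sig, coeff_mk]
      simp
    · rw [th_mul, th_pow, th_pow, th_expand_phi, th_phi]
      change _ * (_ * (_ * _)) + _ * (_ * (-sig * _)) = _
      simp only [map_neg, map_ofNat]
      push_cast
      ring
    · rw [th_mul, th_pow, th_expand_phi, tE, hA]
      simp only [map_neg, map_ofNat]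
      push_cast
      ring
    · rw [coeff_zero_eq_constantCoeff_apply] at E0
      simp [constantCoeff_expand, p0, E0]
  refine ⟨ev Y q, (cY.hasSum hq).congr_fun fun k => by rw [eY], ?_⟩
  have := congrArg (fun F => ev F q) key
  rwa [ev_mul (conv_phi.pow _) ((conv_phi.expand _ _).pow _) hq,
    ev_mul cE ((conv_phi.expand _ _).pow _) hq, ev_pow conv_phi hq,
    ev_pow (conv_phi.expand _ _) hq, ev_pow (conv_phi.expand _ _) hq, ev_expand, ev_expand,
    ev_phi hq, ev_phi (norm_pow_lt hq n9), ev_phi (norm_pow_lt hq three_ne_zero), hE q hq] at this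

end

end Pool.Agent.Lib.MP_caab05_ag.W3
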