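import Pool.Agent.Lib.MP_caab05_ag.W3.Core

namespace Pool.Agent.Lib.MP_caab05_ag.W3

open PowerSeries MeasureTheory

noncomputable section

def qq (y : ℝ) : ℂ := (Real.exp (-(2 * Real.pi * y)) : ℝ)

lemma norm_qq {y : ℝ} (hy : y ∈ Set.Ioi (0 : ℝ)) : ‖qq y‖ < 1 := by
  have : 0 < y := hy
  rw [qq, Complex.norm_real, Real.norm_of_nonneg (Real.exp_pos _).le, Real.exp_lt_one_iff]
  have := Real.pi_pos; nlinarith

def Ig (F : ℂ⟦X⟧) : Prop := IntegrableOn (fun y : ℝ => (y : ℂ) * ev F (qq y)) (Set.Ioi 0)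

lemma per_lin {F G : ℂ⟦X⟧} (hF : Conv F) (hG : Conv G) (iF : Ig F) (iG : Ig G) (a b : ℂ) :
    per (C a * F + C b * G) = a * per F + b * per G := by
  have : ∫ y in Set.Ioi (0 : ℝ), (y : ℂ) * ev (C a * F + C b * G) (qq y) =
      ∫ y in Set.Ioi (0 : ℝ), (a * ((y : ℂ) * ev F (qq y)) + b * ((y : ℂ) * ev G (qq y))) :=
    setIntegral_congr_fun measurableSet_Ioi fun y hy => by
      rw [ev_add ((Conv.C a).mul hF) ((Conv.C b).mul hG) (norm_qq hy), ev_C_mul, ev_C_mul]; ring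
  rw [integral_add (iF.const_mul a) (iG.const_mul b), integral_const_mul, integral_const_mul] at this
  unfold per
  erw [this]
  unfold qq; ring

lemma per_conj (F : ℂ⟦X⟧) :
    per (PowerSeries.map (starRingEnd ℂ) F) = (starRingEnd ℂ) (per F) := by
  unfold per
  rw [map_mul, ← integral_conj]
  congr 1
  · simp [map_ofNat, Complex.conj_ofReal]
  · refine integral_congr_ae (Filter.Eventually.of_forall fun y => ?_)
    simp only [map_mul, Complex.conj_ofReal]
    rw [← ev_map_conj, Complex.conj_ofReal]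

/-- the statement handed in -/
theorem main :
    LinearIndependent ℚ ![(1 : ℂ), om,
      4 * (Real.pi : ℂ) ^ 2 * ∫ y in Set.Ioi (0 : ℝ), (y : ℂ) *
        (fun q : ℂ => q * Phi q ^ 2 * Phi (om * q) * Phi (q ^ 3) * Phi (q ^ 9) ^ 2)
          (Real.exp (-(2 * Real.pi * y)) : ℝ),
      4 * (Real.pi : ℂ) ^ 2 * ∫ y in Set.Ioi (0 : ℝ), (y : ℂ) *
        (fun q : ℂ => (1 + 2 * om) * (2 * (Phi q / Phi (om * q)) ^ 3 - 1) *
          (q * Phi q ^ 2 * Phi (om * q) * Phi (q ^ 3) * Phi (q ^ 9) ^ 2))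
          (Real.exp (-(2 * Real.pi * y)) : ℝ)] := by
  obtain ⟨σ, hI, hA, ct, cb, cl, hf, hu, hx⟩ := exists_sys
  have cE : Conv σ.E := (hA.b.mul (hA.l1.pow 2)).mul hA.l2
  have cEb : Conv σ.Eb := (hA.b.mul hA.l1).mul (hA.l2.pow 2)
  have ck : Conv σ.kap := (hA.b.pow 2).mul ((Conv.one.add ((Conv.ofNat 9).mul hA.t)).add
    ((Conv.ofNat 27).mul (hA.t.pow 2)))
  have c1 : Conv σ.hc' := (cE.mul ck).mul (conv_x σ hA)
  have c2 : Conv σ.he' := c1.mul (Conv.one.sub (hA.l1i.pow 3))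
  have c3 : Conv σ.hc := (cEb.mul ck).mul (conv_x σ hA)
  have c4 : Conv σ.he := c3.mul (hA.l2i.pow 3)
  have i1 : Ig σ.hc' := by simpa [Sys.g, parC, Ig, qq] using (integrable_g σ hA (parC 1 0 0 0)).1
  have i2 : Ig σ.he' := by simpa [Sys.g, parC, Ig, qq] using (integrable_g σ hA (parC 0 1 0 0)).1
  have i3 : Ig σ.hc := by simpa [Sys.g', parC, Ig, qq] using (integrable_g σ hA (parC 1 0 0 0)).2
  have i4 : Ig σ.he := by simpa [Sys.g', parC, Ig, qq] using (integrable_g σ hA (parC 0 1 0 0)).2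
  have cc : ∀ F : ℂ⟦X⟧, PowerSeries.map (starRingEnd ℂ) (PowerSeries.map (starRingEnd ℂ) F) = F :=
    fun F => by ext n; simp
  have cl' : PowerSeries.map (starRingEnd ℂ) σ.l2 = σ.l1 := by rw [← cl, cc]
  have ci : PowerSeries.map (starRingEnd ℂ) σ.l1i = σ.l2i := by
    have h := congrArg (PowerSeries.map (starRingEnd ℂ)) σ.hl1
    rw [map_mul, cl, map_one] at h
    linear_combination σ.l2i * h - PowerSeries.map (starRingEnd ℂ) σ.l1i * σ.hl2
  have ci' : PowerSeries.map (starRingEnd ℂ) σ.l2i = σ.l1i := by rw [← ci, cc]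
  have m1 : PowerSeries.map (starRingEnd ℂ) σ.hc' = σ.hc := by
    simp only [Sys.hc', Sys.hc, Sys.E, Sys.Eb, Sys.kap, Sys.x, Sys.ell, Sys.elli, map_mul, map_pow,
      map_add, map_one, map_ofNat, ct, cb, cl, cl', ci, ci']
    ring
  have m2 : PowerSeries.map (starRingEnd ℂ) (C 1 * σ.hc' + C (-1) * σ.he') = σ.he := by
    simp only [Sys.he', Sys.he, map_mul, map_pow, map_add, map_sub, map_one, map_neg, m1, ci]
    ring
  have p3 : per σ.hc = (starRingEnd ℂ) (per σ.hc') := by rw [← m1, per_conj]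
  have p4 : per σ.he = (starRingEnd ℂ) (per σ.hc') - (starRingEnd ℂ) (per σ.he') := by
    rw [← m2, per_conj, per_lin c1 c2 i1 i2]; simp; ring
  have e1 : 4 * (Real.pi : ℂ) ^ 2 * ∫ y in Set.Ioi (0 : ℝ), (y : ℂ) *
      (fun q : ℂ => q * Phi q ^ 2 * Phi (om * q) * Phi (q ^ 3) * Phi (q ^ 9) ^ 2)
        (Real.exp (-(2 * Real.pi * y)) : ℝ) = per σ.hc' := by
    unfold per; congr 1
    exact setIntegral_congr_fun measurableSet_Ioi fun y hy => by
      exact congrArg (fun z => (y : ℂ) * z) (hf _ (norm_qq hy)).symm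
  have e2 : 4 * (Real.pi : ℂ) ^ 2 * ∫ y in Set.Ioi (0 : ℝ), (y : ℂ) *
      (fun q : ℂ => (1 + 2 * om) * (2 * (Phi q / Phi (om * q)) ^ 3 - 1) *
        (q * Phi q ^ 2 * Phi (om * q) * Phi (q ^ 3) * Phi (q ^ 9) ^ 2))
        (Real.exp (-(2 * Real.pi * y)) : ℝ) =
      (1 + 2 * om) * per σ.hc' + (-2 * (1 + 2 * om)) * per σ.he' := by
    rw [← per_lin c1 c2 i1 i2]
    unfold per; congr 1
    exact setIntegral_congr_fun measurableSet_Ioi fun y hy => by
      have h := norm_qq hy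
      simp only
      change _ * ((1 + 2 * om) * (2 * (Phi (qq y) / Phi (om * qq y)) ^ 3 - 1) * (qq y * Phi (qq y) ^ 2 *
        Phi (om * qq y) * Phi (qq y ^ 3) * Phi (qq y ^ 9) ^ 2)) = _ * ev _ (qq y)
      rw [← hf _ h, ← hu _ h, ev_add ((Conv.C _).mul c1) ((Conv.C _).mul c2) h, ev_C_mul, ev_C_mul,
        Sys.he', ev_mul c1 (Conv.one.sub (hA.l1i.pow 3)) h, ev_sub Conv.one (hA.l1i.pow 3) h,
        ev_pow hA.l1i h, ev_one]
      ring
  rw [e1, e2, ← LinearIndependent.iff_fractionRing ℤ ℚ, Fintype.linearIndependent_iff]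
  intro r hr
  simp only [Fin.sum_univ_four, Matrix.cons_val_zero, Matrix.cons_val_one, Matrix.cons_val,
    zsmul_eq_mul] at hr
  have ho := om_sq
  have hr' := congrArg (starRingEnd ℂ) hr
  simp only [map_add, map_mul, map_intCast, map_one, map_neg, map_ofNat, conj_om, map_zero] at hr'
  obtain ⟨h1, h2⟩ := core σ hI hA hx (a := r 2 + r 3 * (1 + 2 * om)) (a' := -2 * r 3 * (1 + 2 * om))
    (c := -(r 0 + r 1 * om)) (c' := -(r 0 + r 1 * om ^ 2))
    ⟨r 2 + r 3, 2 * r 3, by push_cast; ring⟩ ⟨-2 * r 3, -4 * r 3, by push_cast; ring⟩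
    ⟨-r 0, -r 1, by push_cast; ring⟩ ⟨r 1 - r 0, r 1, by push_cast; linear_combination (-r 1 : ℂ) * ho⟩
    (by rw [Sys.g, per_lin c1 c2 i1 i2]; simp only [parC]; linear_combination -hr)
    (by
      rw [Sys.g', per_lin c3 c4 i3 i4, p3, p4]; simp only [parC]
      linear_combination -hr' + (2 * r 3 * (starRingEnd ℂ) (per σ.hc')
        - 4 * r 3 * (starRingEnd ℂ) (per σ.he')) * ho)
  have hs : (1 + 2 * om) ≠ 0 := fun h => by
    have : (3 : ℂ) = 0 := by linear_combination 4 * ho - (1 + 2 * om) * h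
    norm_num at this
  have h3 : r 3 = 0 := by
    have := (mul_eq_zero.1 h2).resolve_right hs
    simpa using this
  have h4 : r 2 = 0 := by simpa [h3] using h1
  have h5 : (r 0 : ℂ) + r 1 * om = 0 := by simpa [h3, h4] using hr
  have h6 : (r 0 : ℂ) + r 1 * om ^ 2 = 0 := by simpa [h3, h4] using hr'
  have h7 : r 1 = 0 := by
    have : (r 1 : ℂ) * 3 = 0 := by
      linear_combination (2 * om + 1) * (h6 - h5) - (r 1 : ℂ) * (2 * om - 3) * ho
    simpa using this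
  have h8 : r 0 = 0 := by simpa [h7] using h5
  intro i
  fin_cases i <;> simpa

end

end Pool.Agent.Lib.MP_caab05_ag.W3
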