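import Pool.Agent.Lib.MP_caab05_ag.W3.Modular
import Pool.Agent.Lib.MP_caab05_ag.W3.Bol

/-!
Linearity and conjugation symmetry of the period integral.
-/

namespace Pool.Agent.Lib.MP_caab05_ag.W3

open PowerSeries MeasureTheory

noncomputable section

namespace Fi

lemma hq {y : ℝ} (hy : y ∈ Set.Ioi (0 : ℝ)) : ‖((Real.exp (-(2 * Real.pi * y)) : ℝ) : ℂ)‖ < 1 := by
  rw [Complex.norm_real, Real.norm_of_nonneg (Real.exp_pos _).le, Real.exp_lt_one_iff]
  have := Real.pi_pos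
  have : 0 < y := hy
  nlinarith

/-- integrability of the Mellin integrand -/
def Ig (F : ℂ⟦X⟧) : Prop :=
  IntegrableOn (fun y : ℝ => (y : ℂ) * ev F (Real.exp (-(2 * Real.pi * y)) : ℝ)) (Set.Ioi 0)

lemma per_lin {F G : ℂ⟦X⟧} (cF : Conv F) (cG : Conv G) (iF : Ig F) (iG : Ig G) (a b : ℂ) :
    per (C a * F + C b * G) = a * per F + b * per G := by
  unfold per
  rw [setIntegral_congr_fun measurableSet_Ioi (g := fun y : ℝ =>
    a * ((y : ℂ) * ev F (Real.exp (-(2 * Real.pi * y)) : ℝ)) +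
      b * ((y : ℂ) * ev G (Real.exp (-(2 * Real.pi * y)) : ℝ))) fun y hy => by
        simp only
        rw [ev_add ((Conv.C _).mul cF) ((Conv.C _).mul cG) (hq hy), ev_C_mul, ev_C_mul]; ring,
    integral_add (iF.const_mul a) (iG.const_mul b), integral_const_mul, integral_const_mul]
  ring

lemma per_conj (F : ℂ⟦X⟧) :
    per (PowerSeries.map (starRingEnd ℂ) F) = (starRingEnd ℂ) (per F) := by
  unfold per
  rw [map_mul, ← integral_conj]
  congr 1
  · simp [map_ofNat]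
  · refine integral_congr_ae (Filter.Eventually.of_forall fun y => ?_)
    simp only
    rw [map_mul, ← ev_map_conj, Complex.conj_ofReal, Complex.conj_ofReal]

lemma map_conj_conj (F : ℂ⟦X⟧) :
    PowerSeries.map (starRingEnd ℂ) (PowerSeries.map (starRingEnd ℂ) F) = F := by
  ext n; simp

end Fi

open Fi in
theorem main_of (core : ∀ σ : Sys ℂ, σ.Integral → σ.An →
      (∀ q : ℂ, ‖q‖ < 1 → ev σ.x q = q * Phi q ^ 6 * Phi (q ^ 9) ^ 6 / Phi (q ^ 3) ^ 12) →
      ∀ a a' c c' : ℂ, IsO a → IsO a' → IsO c → IsO c' →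
      c = per (σ.g (parC a a' c c')) → c' = per (σ.g' (parC a a' c c')) → a = 0 ∧ a' = 0) :
    LinearIndependent ℚ ![(1 : ℂ), om,
      4 * (Real.pi : ℂ) ^ 2 * ∫ y in Set.Ioi (0 : ℝ), (y : ℂ) *
        (fun q : ℂ => q * Phi q ^ 2 * Phi (om * q) * Phi (q ^ 3) * Phi (q ^ 9) ^ 2)
          (Real.exp (-(2 * Real.pi * y)) : ℝ),
      4 * (Real.pi : ℂ) ^ 2 * ∫ y in Set.Ioi (0 : ℝ), (y : ℂ) *
        (fun q : ℂ => (1 + 2 * om) * (2 * (Phi q / Phi (om * q)) ^ 3 - 1) *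
          (q * Phi q ^ 2 * Phi (om * q) * Phi (q ^ 3) * Phi (q ^ 9) ^ 2))
          (Real.exp (-(2 * Real.pi * y)) : ℝ)] := by
  obtain ⟨σ, hI, hA, jt, jb, j1, e1, e2, hx⟩ := exists_sys
  have j2 : PowerSeries.map (starRingEnd ℂ) σ.l2 = σ.l1 := by rw [← j1, map_conj_conj]
  have j1i : PowerSeries.map (starRingEnd ℂ) σ.l1i = σ.l2i := by
    have h := congrArg (PowerSeries.map (starRingEnd ℂ)) σ.hl1
    rw [map_mul, map_one, j1] at h
    linear_combination σ.l2i * h - PowerSeries.map (starRingEnd ℂ) σ.l1i * σ.hl2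
  have j2i : PowerSeries.map (starRingEnd ℂ) σ.l2i = σ.l1i := by rw [← j1i, map_conj_conj]
  have jc : PowerSeries.map (starRingEnd ℂ) σ.hc' = σ.hc := by
    simp only [Sys.hc', Sys.hc, Sys.E, Sys.Eb, Sys.kap, Sys.x, Sys.ell, Sys.elli, map_mul, map_pow,
      map_add, map_one, map_ofNat, jt, jb, j1, j2, j1i, j2i]
    ring
  have je : PowerSeries.map (starRingEnd ℂ) (C 1 * σ.hc' + C (-1) * σ.he') = σ.he := by
    have : C 1 * σ.hc' + C (-1) * σ.he' = σ.hc' * σ.l1i ^ 3 := by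
      simp only [Sys.he', map_one, map_neg]; ring
    rw [this, map_mul, map_pow, jc, j1i, Sys.he]
  have i1 := integrable_g σ hA (parC 1 0 0 0)
  have i2 := integrable_g σ hA (parC 0 1 0 0)
  simp only [Sys.g, Sys.g', parC, map_one, map_zero, one_mul, zero_mul, add_zero, zero_add] at i1 i2
  have c1 := Bol.c_hc' hA
  have c2 := Bol.c_he' hA
  have p1 : per σ.hc = (starRingEnd ℂ) (per σ.hc') := by rw [← jc, per_conj]
  have p2 : per σ.he = (starRingEnd ℂ) (per σ.hc') - (starRingEnd ℂ) (per σ.he') := by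
    rw [← je, per_conj, per_lin c1 c2 i1.1 i2.1]
    simp [sub_eq_add_neg]
  have q1 : 4 * (Real.pi : ℂ) ^ 2 * ∫ y in Set.Ioi (0 : ℝ), (y : ℂ) *
      (fun q : ℂ => q * Phi q ^ 2 * Phi (om * q) * Phi (q ^ 3) * Phi (q ^ 9) ^ 2)
        (Real.exp (-(2 * Real.pi * y)) : ℝ) = per σ.hc' := by
    unfold per
    congr 1
    exact setIntegral_congr_fun measurableSet_Ioi fun y hy => by simp only [e1 _ (hq hy)]
  have q2 : 4 * (Real.pi : ℂ) ^ 2 * ∫ y in Set.Ioi (0 : ℝ), (y : ℂ) *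
      (fun q : ℂ => (1 + 2 * om) * (2 * (Phi q / Phi (om * q)) ^ 3 - 1) *
        (q * Phi q ^ 2 * Phi (om * q) * Phi (q ^ 3) * Phi (q ^ 9) ^ 2))
        (Real.exp (-(2 * Real.pi * y)) : ℝ) =
      (1 + 2 * om) * per σ.hc' + -2 * (1 + 2 * om) * per σ.he' := by
    rw [← per_lin c1 c2 i1.1 i2.1]
    unfold per
    congr 1
    refine setIntegral_congr_fun measurableSet_Ioi fun y hy => ?_
    simp only
    rw [ev_add ((Conv.C _).mul c1) ((Conv.C _).mul c2) (hq hy), ev_C_mul, ev_C_mul, Sys.he',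
      ev_mul c1 (Conv.one.sub (hA.l1i.pow 3)) (hq hy), ev_sub Conv.one (hA.l1i.pow 3) (hq hy),
      ev_pow hA.l1i (hq hy), e1 _ (hq hy), e2 _ (hq hy), ← map_one (C (R := ℂ)), ev_C]
    ring
  rw [q1, q2, ← LinearIndependent.iff_fractionRing ℤ ℚ, Fintype.linearIndependent_iff]
  intro r hr
  simp only [Fin.sum_univ_four, Matrix.cons_val_zero, Matrix.cons_val_one, Matrix.cons_val,
    zsmul_eq_mul, mul_one] at hr
  have hr' := congrArg (starRingEnd ℂ) hr
  simp only [map_add, map_mul, map_intCast, map_neg, map_ofNat, map_one, map_zero, conj_om] at hr'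
  have s3 : (1 + 2 * om) * (1 + 2 * om) = -3 := by linear_combination 4 * om_sq
  obtain ⟨h1, h2⟩ := core σ hI hA hx (r 2 + r 3 * (1 + 2 * om)) (-2 * r 3 * (1 + 2 * om))
    (-(r 0 + r 1 * om)) (-(r 0 + r 1 * om ^ 2)) ⟨r 2 + r 3, 2 * r 3, by push_cast; ring⟩
    ⟨-2 * r 3, -4 * r 3, by push_cast; ring⟩ ⟨-r 0, -r 1, by push_cast; ring⟩
    ⟨r 1 - r 0, r 1, by push_cast; linear_combination -(r 1 : ℂ) * om_sq⟩
    (by
      simp only [Sys.g, parC]
      rw [per_lin c1 c2 i1.1 i2.1]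
      linear_combination -hr)
    (by
      simp only [Sys.g', parC]
      rw [per_lin (Bol.c_hc hA) (Bol.c_he hA) i1.2 i2.2, p1, p2]
      linear_combination -hr' + (r 3 : ℂ) * (2 * (starRingEnd ℂ) (per σ.hc') -
        4 * (starRingEnd ℂ) (per σ.he')) * om_sq)
  have z3 : (r 3 : ℂ) = 0 := by linear_combination (1 + 2 * om) / 6 * h2 + (r 3 : ℂ) / 3 * s3
  have z2 : (r 2 : ℂ) = 0 := by linear_combination h1 - (1 + 2 * om) * z3
  rw [z2, z3] at hr hr'
  have z1 : (r 1 : ℂ) = 0 := by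
    linear_combination (-(1 + 2 * om) / 3) * (hr - hr') + (r 1 : ℂ) / 3 * s3 -
      (r 1 : ℂ) * (1 + 2 * om) / 3 * om_sq
  have z0 : (r 0 : ℂ) = 0 := by linear_combination hr - om * z1
  intro i
  fin_cases i
  · exact_mod_cast z0
  · exact_mod_cast z1
  · exact_mod_cast z2
  · exact_mod_cast z3

end

end Pool.Agent.Lib.MP_caab05_ag.W3
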