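import Pool.Agent.Lib.MP_caab05_ag.W3.Chk
import Pool.Agent.Lib.MP_caab05_ag.W3.Eta

/-!
From the checked inequalities to a certificate `Dom`.
-/

namespace Pool.Agent.Lib.MP_caab05_ag.W3

open Polynomial Set Complex

noncomputable section

def sg (k : ℕ) : ℕ := ∑ d ∈ Finset.range (k + 1), if d ∣ k then d else 0

lemma sg_eq (k : ℕ) : sg k = ArithmeticFunction.sigma 1 k := by
  rw [ArithmeticFunction.sigma_one_apply, sg, ← Finset.sum_filter, Nat.divisors,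
    Finset.range_eq_Ico, Finset.sum_filter, Finset.sum_filter,
    Finset.sum_eq_sum_Ico_succ_bot (Nat.succ_pos k)]
  simp

def mkZ (k : ℕ) : ℤ :=
  sg k - 6 * (if 3 ∣ k then (sg (k / 3) : ℤ) else 0) + 9 * (if 9 ∣ k then (sg (k / 9) : ℤ) else 0)

lemma ek_eq (k : ℕ) : ek k = -6 * mkZ k / k := by
  unfold ek mkZ; simp only [sg_eq]; split_ifs <;> simp

lemma abs_ek_le (k : ℕ) : |ek k| ≤ 11 * k := by
  rcases Nat.eq_zero_or_pos k with rfl | hk
  · simp [ek]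
  have hk' : (0 : ℝ) < k := by exact_mod_cast hk
  have h : ∀ j : ℕ, (ArithmeticFunction.sigma 1 j : ℝ) ≤ (j : ℝ) ^ 2 := fun j => by
    exact_mod_cast ArithmeticFunction.sigma_le_pow_succ 1 j
  have h3 : ((k / 3 : ℕ) : ℝ) ^ 2 ≤ ((k : ℝ) / 3) ^ 2 := by gcongr; exact Nat.cast_div_le
  have h9 : ((k / 9 : ℕ) : ℝ) ^ 2 ≤ ((k : ℝ) / 9) ^ 2 := by gcongr; exact Nat.cast_div_le
  have a1 := h k
  have a2 := h (k / 3)
  have a3 := h (k / 9)
  have b1 : (0 : ℝ) ≤ ArithmeticFunction.sigma 1 k := Nat.cast_nonneg _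
  have b2 : (0 : ℝ) ≤ ArithmeticFunction.sigma 1 (k / 3) := Nat.cast_nonneg _
  have b3 : (0 : ℝ) ≤ ArithmeticFunction.sigma 1 (k / 9) := Nat.cast_nonneg _
  rw [ek, abs_div, abs_of_pos hk', div_le_iff₀ hk', abs_le]
  split_ifs <;> constructor <;> nlinarith

def ycoZ (rn rd k : ℕ) : ℤ := -6 * mkZ k * (rn ^ k * 2 ^ 30 : ℕ) / (k * rd ^ k : ℕ)

def chkY (rn rd K : ℕ) (Y : List ℕ) : Bool :=
  decide (Y = (List.range (K + 1)).reverse.map fun k => ((aa : ℤ) + ycoZ rn rd k).toNat) &&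
    (List.range (K + 1)).all fun k => decide (0 ≤ (aa : ℤ) + ycoZ rn rd k)

lemma ycoZ_near {rn rd : ℕ} (hrd : 0 < rd) (k : ℕ) :
    |(ycoZ rn rd k : ℝ) - ek k * ((rn : ℝ) / rd) ^ k * 2 ^ 30| ≤ 1 := by
  rcases Nat.eq_zero_or_pos k with rfl | hk
  · simp [ycoZ, ek]
  have := int_div_bound' (-6 * mkZ k * (rn ^ k * 2 ^ 30 : ℕ)) (d := (k * rd ^ k : ℕ)) (by positivity)
  rw [ycoZ, ek_eq]
  convert this using 3
  push_cast; rw [div_pow]; ring

/-- upper bound for `log |x|` on the circle -/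
lemma lx_le {rn rd K : ℕ} {Y : List ℕ} (h0 : 0 < rn) (h1 : rn < rd) (hY : chkY rn rd K Y = true)
    {z : ℂ} (hz : ‖z‖ = 1) :
    2 ^ 30 * lx ((rn / rd : ℝ) * z) ≤ 2 ^ 30 * (Real.log (rn / rd) + 11 * ((rn : ℝ) / rd) ^ (K + 1) *
      ((rn / rd) / (1 - rn / rd) ^ 2 + (K + 1) / (1 - rn / rd))) + (K + 1) +
      ((polyOf aa Y).eval z).re := by
  have hrd : 0 < rd := h0.trans h1
  set ρ : ℝ := rn / rd with hρ
  have hρ0 : 0 < ρ := by positivity
  have hρ1 : ρ < 1 := by rw [hρ, div_lt_one (by exact_mod_cast hrd)]; exact_mod_cast h1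
  have hq : ‖(ρ : ℂ) * z‖ = ρ := by simp [hz, abs_of_pos hρ0]
  set q := (ρ : ℂ) * z with hqd
  obtain ⟨W, hW, hx⟩ := exists_log_x (q := q) (by rwa [hq])
  have e1 : lx q = Real.log ρ + W.re := by
    have h3 : Phi (q ^ 3) ≠ 0 := Phi_ne_zero (by rw [norm_pow, hq]; exact pow_lt_one₀ hρ0.le hρ1 (by norm_num))
    rw [lx, mul_assoc, hx, mul_div_assoc, mul_div_assoc, div_self (pow_ne_zero _ h3), mul_one,
      norm_mul, hq, Complex.norm_exp, Real.log_mul hρ0.ne' (Real.exp_pos _).ne', Real.log_exp]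
  have h2 := (hasSum_nat_add_iff' (K + 1)).2 hW
  have h3 : HasSum (fun k : ℕ => 11 * ρ ^ (K + 1) * (k * ρ ^ k + (K + 1) * ρ ^ k))
      (11 * ρ ^ (K + 1) * (ρ / (1 - ρ) ^ 2 + (K + 1) / (1 - ρ))) :=
    ((hasSum_coe_mul_geometric_of_norm_lt_one (by rwa [Real.norm_of_nonneg hρ0.le])).add
      ((hasSum_geometric_of_lt_one hρ0.le hρ1).mul_left _)).mul_left _
  have h4 := h2.norm_le_of_bounded h3 fun k => by
    rw [norm_mul, norm_pow, hq, Complex.norm_real, Real.norm_eq_abs]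
    calc _ ≤ 11 * ((k + (K + 1) : ℕ) : ℝ) * ρ ^ (k + (K + 1)) := by gcongr; exact abs_ek_le _
      _ = _ := by push_cast; ring
  have h5 := (le_abs_self _).trans ((Complex.abs_re_le_norm _).trans h4)
  simp only [chkY, Bool.and_eq_true, decide_eq_true_eq, List.all_eq_true, List.mem_range] at hY
  have h6 : ‖2 ^ 30 * ∑ k ∈ Finset.range (K + 1), (ek k : ℂ) * q ^ k - (polyOf aa Y).eval z‖ ≤
      K + 1 := by
    rw [hY.1, polyOf_map, Finset.mul_sum, ← Finset.sum_sub_distrib]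
    refine (norm_sum_le _ _).trans ?_
    calc _ ≤ ∑ k ∈ Finset.range (K + 1), (1 : ℝ) := Finset.sum_le_sum fun k hk => ?_
      _ = _ := by simp
    have e2 : ((((aa : ℤ) + ycoZ rn rd k).toNat : ℕ) : ℂ) = aa + ycoZ rn rd k := by
      have := Int.toNat_of_nonneg (hY.2 k (Finset.mem_range.1 hk))
      rw [← Int.cast_natCast, this]; push_cast; ring
    have e3 : 2 ^ 30 * ((ek k : ℂ) * q ^ k) - ((aa : ℂ) + ycoZ rn rd k - aa) * z ^ k =
        -(((ycoZ rn rd k : ℝ) - ek k * ρ ^ k * 2 ^ 30 : ℝ) : ℂ) * z ^ k := by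
      rw [hqd]; push_cast; ring
    rw [e2, e3, norm_mul, norm_neg, norm_pow, hz, one_pow, mul_one, Complex.norm_real]
    exact ycoZ_near hrd k
  have h7 := (le_abs_self _).trans ((Complex.abs_re_le_norm _).trans h6)
  rw [Complex.sub_re] at h5 h7
  have e4 : (2 ^ 30 * ∑ k ∈ Finset.range (K + 1), (ek k : ℂ) * q ^ k).re =
      2 ^ 30 * (∑ k ∈ Finset.range (K + 1), (ek k : ℂ) * q ^ k).re := by
    rw [show (2 ^ 30 : ℂ) = ((2 ^ 30 : ℝ) : ℂ) by push_cast; ring, Complex.re_ofReal_mul]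
  rw [e1]; linarith

def chkTan (x Sn Sd : ℕ) : Bool :=
  decide (x ≤ 2 ^ 41) &&
    withC (expApx 0 x) fun a b => decide ((a + 2 ^ 48) * Sd ≤ Sn * (b - 2 ^ 48))

lemma chkTan_sound {x Sn Sd : ℕ} (h : chkTan x Sn Sd = true) (hd : 0 < Sd) {θ : ℝ}
    (h1 : x / 2 ^ 40 ≤ θ) (h2 : θ ≤ Real.pi / 2) : Real.cos θ ≤ Sn / Sd * Real.sin θ := by
  simp only [chkTan, Bool.and_eq_true, decide_eq_true_eq] at h
  obtain ⟨a, b, h3, h4⟩ := withC_spec h.2
  simp only [decide_eq_true_eq] at h4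
  have hx : (x : ℝ) ≤ 2 ^ 41 := by exact_mod_cast h.1
  have e : pt 0 x = ((x / 2 ^ 40 : ℝ) : ℂ) * I := by simp [pt]; ring
  have h5 := expApx_spec (by
    rw [e, norm_mul, Complex.norm_I, Complex.norm_real, Real.norm_of_nonneg (by positivity)]
    linarith) h3
  rw [e, Complex.exp_ofReal_mul_I] at h5
  have e2 : ((a : ℂ) + b * I) / 2 ^ 90 = ((a / 2 ^ 90 : ℝ) : ℂ) + ((b / 2 ^ 90 : ℝ) : ℂ) * I := by
    push_cast; ring
  rw [e2] at h5
  have h6 := abs_le.1 ((Complex.abs_re_le_norm _).trans h5)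
  have h7 := abs_le.1 ((Complex.abs_im_le_norm _).trans h5)
  simp only [Complex.sub_re, Complex.add_re, Complex.ofReal_re, Complex.mul_re, Complex.I_re,
    Complex.I_im, Complex.ofReal_im, Complex.sub_im, Complex.add_im, Complex.mul_im] at h6 h7
  have h8 := (Int.cast_le (R := ℝ)).2 h4
  simp only [Int.cast_add, Int.cast_mul, Int.cast_sub, Int.cast_natCast, Int.cast_pow,
    Int.cast_ofNat] at h8
  have hp := Real.pi_pos
  have h0 : (0 : ℝ) ≤ x / 2 ^ 40 := by positivity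
  have h9 : Real.cos θ ≤ Real.cos (x / 2 ^ 40) :=
    Real.cos_le_cos_of_nonneg_of_le_pi h0 (by linarith) h1
  have h10 : Real.sin (x / 2 ^ 40) ≤ Real.sin θ :=
    Real.sin_le_sin_of_le_of_le_pi_div_two (by linarith) h2 h1
  have hd' : (0 : ℝ) < Sd := by exact_mod_cast hd
  rw [div_mul_eq_mul_div, le_div_iff₀ hd']
  have h11 : Real.cos θ * Sd ≤ (a + 2 ^ 48) / 2 ^ 90 * Sd := by gcongr; linarith [h6.2]
  have h12 : Sn * ((b - 2 ^ 48) / 2 ^ 90) ≤ Sn * Real.sin θ := by gcongr; linarith [h7.1]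
  linarith

def chkLog (lo hi rn rd : ℕ) : Bool :=
  decide (lo ≤ 2 ^ 41) && decide (hi ≤ 2 ^ 41) &&
    withC (expApx (-lo) 0) (fun a _ => decide ((a + 2 ^ 48) * rd ≤ rn * 2 ^ 90)) &&
    withC (expApx (-hi) 0) fun a _ => decide (rn * 2 ^ 90 ≤ (a - 2 ^ 48) * rd)

lemma exp_near {x : ℕ} (hx : x ≤ 2 ^ 41) {a b : ℤ} (h : expApx (-x) 0 = some (a, b)) :
    |Real.exp (-(x / 2 ^ 40)) - a / 2 ^ 90| ≤ 1 / 2 ^ 42 := by
  have hx' : (x : ℝ) ≤ 2 ^ 41 := by exact_mod_cast hx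
  have e : pt (-x) 0 = ((-(x / 2 ^ 40) : ℝ) : ℂ) := by simp [pt]; ring
  have h5 := expApx_spec (by
    rw [e, Complex.norm_real, norm_neg, Real.norm_of_nonneg (by positivity)]; linarith) h
  have e2 : ((a : ℂ) + b * I) / 2 ^ 90 = ((a / 2 ^ 90 : ℝ) : ℂ) + ((b / 2 ^ 90 : ℝ) : ℂ) * I := by
    push_cast; ring
  rw [e, e2, ← Complex.ofReal_exp] at h5
  simpa only [Complex.sub_re, Complex.add_re, Complex.ofReal_re, Complex.mul_re, Complex.I_re,
    Complex.I_im, Complex.ofReal_im, mul_zero, zero_mul, sub_zero, add_zero] using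
    (Complex.abs_re_le_norm _).trans h5

lemma chkLog_sound {lo hi rn rd : ℕ} (h : chkLog lo hi rn rd = true) (h0 : 0 < rn) (hd : 0 < rd) :
    -(lo / 2 ^ 40 : ℝ) ≤ Real.log (rn / rd) ∧ Real.log (rn / rd) ≤ -(hi / 2 ^ 40 : ℝ) := by
  simp only [chkLog, Bool.and_eq_true, decide_eq_true_eq] at h
  obtain ⟨⟨⟨h1, h2⟩, h3⟩, h4⟩ := h
  obtain ⟨a, b, h5, h6⟩ := withC_spec h3
  obtain ⟨a', b', h7, h8⟩ := withC_spec h4
  simp only [decide_eq_true_eq] at h6 h8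
  have h9 := abs_le.1 (exp_near h1 h5)
  have h10 := abs_le.1 (exp_near h2 h7)
  have h11 := (Int.cast_le (R := ℝ)).2 h6
  have h12 := (Int.cast_le (R := ℝ)).2 h8
  simp only [Int.cast_add, Int.cast_mul, Int.cast_sub, Int.cast_natCast, Int.cast_pow,
    Int.cast_ofNat] at h11 h12
  have hd' : (0 : ℝ) < rd := by exact_mod_cast hd
  have hρ : (0 : ℝ) < rn / rd := by positivity
  rw [Real.le_log_iff_exp_le hρ, Real.log_le_iff_le_exp hρ, le_div_iff₀ hd', div_le_iff₀ hd']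
  constructor
  · have : Real.exp (-(lo / 2 ^ 40)) * rd ≤ (a + 2 ^ 48) / 2 ^ 90 * rd := by gcongr; linarith [h9.2]
    linarith
  · have : (a' - 2 ^ 48) / 2 ^ 90 * rd ≤ Real.exp (-(hi / 2 ^ 40)) * rd := by gcongr; linarith [h10.1]
    linarith

lemma ee_neg_conj (τ : ℂ) : ee (-(starRingEnd ℂ) τ) = (starRingEnd ℂ) (ee τ) := by
  rw [ee, ee, ← Complex.exp_conj]; simp [Complex.conj_ofReal, map_ofNat]

lemma re_poly_conj (cs : List ℕ) (ρ : ℝ) (q : ℂ) :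
    ((polyOf aa cs).eval ((starRingEnd ℂ) q / ρ)).re = ((polyOf aa cs).eval (q / ρ)).re := by
  rw [show (starRingEnd ℂ) q / ρ = (starRingEnd ℂ) (q / ρ) by simp, polyOf_conj, Complex.conj_re]

lemma zz_cot {θ : ℝ} (h : 0 < Real.sin θ) :
    zz (Real.cos θ / Real.sin θ) = Complex.exp (2 * θ * I) := by
  have h1 := Real.sin_sq_add_cos_sq θ
  rw [zz_eq, show (2 * θ * I : ℂ) = ((2 * θ : ℝ) : ℂ) * I by push_cast; ring,
    Complex.exp_ofReal_mul_I, Real.cos_two_mul, Real.sin_two_mul]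
  have e : 1 + (Real.cos θ / Real.sin θ) ^ 2 = 1 / Real.sin θ ^ 2 := by
    field_simp; linarith
  rw [e]
  congr 2
  · field_simp; linarith
  · field_simp

/-- points of the arc -/
lemma arc_param {ρ S x0 ulo lo : ℝ} (hρ1 : ρ < 1) (hlo : lo ≤ Real.log ρ) (hx0 : 0 < x0)
    (hS : ∀ θ, x0 ≤ θ → θ ≤ Real.pi / 2 → Real.cos θ ≤ S * Real.sin θ)
    (hu : x0 ≤ 3.141592 * ulo) (hu2 : ulo ^ 2 + (-lo / 6.283184 + 7 / 72) ^ 2 ≤ (25 / 72) ^ 2)
    {τ : ℂ} (h1 : ‖ee τ‖ = ρ) (h2 : |τ.re| ≤ 1 / 2) (h3 : 25 / 72 < ‖τ + 7 / 72 * I‖) :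
    ∃ s ∈ Icc 0 S, ee τ = ρ * zz s ∨ ee τ = ρ * (starRingEnd ℂ) (zz s) := by
  have hp := Real.pi_gt_d6
  have hl : Real.log ρ = -(2 * Real.pi * τ.im) := by rw [← h1, norm_ee, Real.log_exp]
  have hρ0 : 0 < ρ := h1 ▸ norm_pos_iff.2 (ee_ne_zero τ)
  have hy0 : 0 < τ.im := by
    have := Real.log_neg hρ0 hρ1
    nlinarith
  have hy1 : τ.im ≤ -lo / 6.283184 := by rw [le_div_iff₀ (by norm_num)]; nlinarith
  have h4 : (25 / 72) ^ 2 < τ.re ^ 2 + (τ.im + 7 / 72) ^ 2 := by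
    have := pow_lt_pow_left₀ h3 (by norm_num) two_ne_zero
    rw [← Complex.normSq_eq_norm_sq, Complex.normSq_apply] at this
    simp at this; nlinarith
  have h5 : ulo ≤ |τ.re| := by
    have : (τ.im + 7 / 72) ^ 2 ≤ (-lo / 6.283184 + 7 / 72) ^ 2 := by gcongr
    exact le_trans (le_abs_self _) (sq_le_sq.1 (by linarith))
  set θ := Real.pi * |τ.re| with hθ
  have h6 : x0 ≤ θ := by
    have : 0 < ulo := by linarith
    nlinarith
  have h7 : θ ≤ Real.pi / 2 := by nlinarith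
  have h8 : 0 < Real.sin θ := Real.sin_pos_of_pos_of_lt_pi (by linarith) (by linarith)
  have h9 : 0 ≤ Real.cos θ := Real.cos_nonneg_of_neg_pi_div_two_le_of_le (by linarith) h7
  refine ⟨Real.cos θ / Real.sin θ, ⟨by positivity, by rw [div_le_iff₀ h8]; exact hS θ h6 h7⟩, ?_⟩
  have e : ee τ = ρ * Complex.exp (2 * (Real.pi * τ.re) * I) := by
    rw [← h1, norm_ee, ee, Complex.ofReal_exp, ← Complex.exp_add]
    congr 1
    conv_lhs => rw [← Complex.re_add_im τ]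
    push_cast; linear_combination (2 * Real.pi * τ.im) * I_sq
  rw [zz_cot h8, e, hθ]
  rcases abs_cases τ.re with h | h
  · left; rw [h.1]; push_cast; rfl
  · right; rw [h.1, ← Complex.exp_conj]; congr 2; simp [Complex.conj_ofReal, map_ofNat]

/-- points of the hypercycle -/
lemma circ_param {τ : ℂ} (h0 : 0 < τ.im) (hre : 0 ≤ τ.re) (h : ‖τ + 7 / 72 * I‖ = 25 / 72) :
    ∃ s ∈ Icc (0 : ℝ) 1, τ = tau 14 s ∧ ww τ = -(starRingEnd ℂ) (tau (-14) s) := by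
  have h4 : τ.re ^ 2 + τ.im ^ 2 + 7 / 36 * τ.im = 1 / 9 := by
    have : ‖τ + 7 / 72 * I‖ ^ 2 = (25 / 72) ^ 2 := by rw [h]
    rw [← Complex.normSq_eq_norm_sq, Complex.normSq_apply] at this
    simp at this; linarith
  have hv : τ.im ≤ 1 / 4 := by nlinarith [sq_nonneg τ.re]
  set N := 2 + 6 * τ.re - 7 / 4 * τ.im with hN
  have hN0 : 0 < N := by linarith
  set s := 25 * τ.im / (4 * N) with hs
  have hs' : s * (4 * N) = 25 * τ.im := by rw [hs]; field_simp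
  have hd := norm_den (e := 14) (by norm_num) s
  have hd0 : (25 + s * kp 14 : ℂ) ≠ 0 := by intro h; rw [h] at hd; norm_num at hd
  have hd' := norm_den (e := -14) (by norm_num) s
  have hd0' : (25 + s * kp (-14) : ℂ) ≠ 0 := by intro h; rw [h] at hd'; norm_num at hd'
  have key : τ * (3 * (25 + s * kp 14)) = 25 - s * kp 14 := by
    have hN' : (N : ℂ) ≠ 0 := by exact_mod_cast hN0.ne'
    apply mul_left_cancel₀ hN'
    clear_value s N
    apply Complex.ext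
    · simp only [kp, Complex.mul_re, Complex.mul_im, Complex.add_re, Complex.add_im, Complex.sub_re,
        Complex.sub_im, Complex.ofReal_re, Complex.ofReal_im, Complex.I_re, Complex.I_im,
        Complex.re_ofNat, Complex.im_ofNat]
      linear_combination 450 * h4 + (75 * τ.re - 25) * hN + (7 * (1 + 3 * τ.re) + 72 * τ.im) / 4 * hs'
    · simp only [kp, Complex.mul_re, Complex.mul_im, Complex.add_re, Complex.add_im, Complex.sub_re,
        Complex.sub_im, Complex.ofReal_re, Complex.ofReal_im, Complex.I_re, Complex.I_im,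
        Complex.re_ofNat, Complex.im_ofNat]
      linear_combination (75 * τ.im) * hN + (21 * τ.im - 24 * (1 + 3 * τ.re)) / 4 * hs'
  have h1 : τ = tau 14 s := by rw [tau, eq_div_iff (mul_ne_zero three_ne_zero hd0), key]
  refine ⟨s, ⟨by positivity, by rw [hs, div_le_one (by positivity)]; linarith⟩, h1, ?_⟩
  have hk : (starRingEnd ℂ) (kp (-14)) = -kp 14 := by
    apply Complex.ext <;> (simp [kp, map_ofNat]; try norm_num)
  have hτ := ne_zero_of_im h0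
  have h2 : (25 - s * kp 14 : ℂ) ≠ 0 := by
    rw [← key]; exact mul_ne_zero hτ (mul_ne_zero three_ne_zero hd0)
  rw [tau, ww, map_div₀]
  simp only [map_sub, map_mul, map_add, map_ofNat, Complex.conj_ofReal, hk]
  rw [mul_neg, sub_neg_eq_add, ← sub_eq_add_neg, ← key]
  field_simp; norm_num

lemma circ_ineq {cs : List ℕ} {t2 : ℕ} {ρ s0 hi : ℝ} (hρ0 : 0 < ρ) (hhi : Real.log ρ ≤ hi)
    (hs0 : 0 ≤ s0) (hs1 : s0 ≤ 1) (hs : 16 * s0 / (25 + 14 * s0 + 25 * s0 ^ 2) < -hi / 6.283186)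
    (hC : ∀ s ∈ Icc s0 1, Circ cs t2 ρ s) {τ : ℂ} (h1 : ‖ee τ‖ ≤ ρ)
    (h2 : ‖τ + 7 / 72 * I‖ = 25 / 72) :
    t2 / 2 * Real.log ‖ee (ww τ)‖ + ((polyOf aa cs).eval (ee (ww τ) / ρ) / 2 ^ 30).re <
      t2 / 2 * Real.log ‖ee τ‖ + ((polyOf aa cs).eval (ee τ / ρ) / 2 ^ 30).re := by
  have hdiv : ∀ w : ℂ, (w / 2 ^ 30).re = w.re / 2 ^ 30 := fun w => by
    rw [show (2 ^ 30 : ℂ) = ((2 ^ 30 : ℝ) : ℂ) by push_cast; ring, Complex.div_ofReal_re]
  wlog hre : 0 ≤ τ.re generalizing τ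
  · have := this (τ := -(starRingEnd ℂ) τ) (by rwa [ee_neg_conj, Complex.norm_conj])
      (by rw [← h2, ← Complex.norm_conj, ← norm_neg]; congr 1; simp [map_ofNat]; ring)
      (by simp; linarith)
    have e : ww (-(starRingEnd ℂ) τ) = -(starRingEnd ℂ) (ww τ) := by
      simp [ww, map_ofNat, neg_div, div_neg]
    rwa [e, ee_neg_conj, ee_neg_conj, Complex.norm_conj, Complex.norm_conj, hdiv, hdiv,
      re_poly_conj, re_poly_conj, ← hdiv, ← hdiv] at this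
  have hp := Real.pi_lt_d6
  have hp0 := Real.pi_pos
  have h3 : -(2 * Real.pi * τ.im) ≤ hi := by
    rw [norm_ee] at h1
    exact ((Real.le_log_iff_exp_le hρ0).2 h1).trans hhi
  have h4 : 0 < -hi := by
    have : 0 ≤ 16 * s0 / (25 + 14 * s0 + 25 * s0 ^ 2) := by positivity
    have h5 := this.trans_lt hs
    rw [lt_div_iff₀ (by norm_num)] at h5; linarith
  have h0 : 0 < τ.im := by nlinarith
  have h5 : -hi / 6.283186 ≤ τ.im := by rw [div_le_iff₀ (by norm_num)]; nlinarith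
  obtain ⟨s, hs', e1, e2⟩ := circ_param h0 hre h2
  have h6 : s0 ≤ s := by
    by_contra h7
    have := im_mono hs'.1 (not_le.1 h7).le hs1
    rw [← e1, tau_im (by norm_num)] at this
    linarith
  have h7 := hC s ⟨h6, hs'.2⟩
  rw [e2, ee_neg_conj, Complex.norm_conj, hdiv, hdiv, re_poly_conj, norm_ee, norm_ee, Real.log_exp,
    Real.log_exp, e1]
  unfold Circ zeta at h7
  linarith

theorem mk_dom {rn rd K t2 : ℕ} {P G Y : List ℕ} {h L S s0 ulo x0 lo hi : ℝ} {K1 T K2 : ℤ}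
    (h0 : 0 < rn) (h1 : rn < rd) (hP : P.getLast? = some aa) (hG : G.getLast? = some aa)
    (hY : chkY rn rd K Y = true) (hlo : lo ≤ Real.log (rn / rd)) (hhi : Real.log (rn / rd) ≤ hi)
    (hK1 : (K1 : ℝ) ≤ 2 ^ 30 * 16 * (t2 / 2 * lo + h))
    (hT : 2 ^ 30 * (hi + 11 * ((rn : ℝ) / rd) ^ (K + 1) *
      ((rn / rd) / (1 - rn / rd) ^ 2 + (K + 1) / (1 - rn / rd))) + (K + 1) ≤ T)
    (hK2 : (K2 : ℝ) ≤ 2 ^ 30 * (lo - L)) (hx0 : 0 < x0)
    (hS : ∀ θ, x0 ≤ θ → θ ≤ Real.pi / 2 → Real.cos θ ≤ S * Real.sin θ)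
    (hu : x0 ≤ 3.141592 * ulo) (hu2 : ulo ^ 2 + (-lo / 6.283184 + 7 / 72) ^ 2 ≤ (25 / 72) ^ 2)
    (hs0 : 0 ≤ s0) (hs1 : s0 ≤ 1) (hs : 16 * s0 / (25 + 14 * s0 + 25 * s0 ^ 2) < -hi / 6.283186)
    (hA1 : ∀ s ∈ Icc 0 S, Arc1 P Y K1 T s) (hA2 : ∀ s ∈ Icc 0 S, Arc2 G K2 s)
    (hC1 : ∀ s ∈ Icc s0 1, Circ P t2 (rn / rd) s) (hC2 : ∀ s ∈ Icc s0 1, Circ G 2 (rn / rd) s) :
    ∃ d : Dom (fun q => vfun (lx q)), d.ta = t2 / 2 ∧ d.h = h ∧ d.L = L := by
  have hrd : 0 < rd := h0.trans h1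
  have hρ0 : (0 : ℝ) < rn / rd := by positivity
  have hρ1 : (rn : ℝ) / rd < 1 := by rw [div_lt_one (by exact_mod_cast hrd)]; exact_mod_cast h1
  have hdiv : ∀ w : ℂ, (w / 2 ^ 30).re = w.re / 2 ^ 30 := fun w => by
    rw [show (2 ^ 30 : ℂ) = ((2 ^ 30 : ℝ) : ℂ) by push_cast; ring, Complex.div_ofReal_re]
  have hd : ∀ cs : List ℕ, Differentiable ℂ fun q : ℂ =>
      (polyOf aa cs).eval (q / (rn / rd : ℝ)) / 2 ^ 30 := fun cs =>
    ((polyOf aa cs).differentiable.comp (differentiable_id.div_const _)).div_const _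
  have harc : ∀ τ : ℂ, ‖ee τ‖ = rn / rd → |τ.re| ≤ 1 / 2 → 25 / 72 < ‖τ + 7 / 72 * I‖ →
      ∃ s ∈ Icc 0 S, ∃ z : ℂ, ‖z‖ = 1 ∧ ee τ = (rn / rd : ℝ) * z ∧ ee τ / (rn / rd : ℝ) = z ∧
        ∀ cs, ((polyOf aa cs).eval z).re = ((polyOf aa cs).eval (zz s)).re := by
    intro τ a b c
    have hρ : ((rn / rd : ℝ) : ℂ) ≠ 0 := by exact_mod_cast hρ0.ne'
    obtain ⟨s, hs, e | e⟩ := arc_param hρ1 hlo hx0 hS hu hu2 a b c
    · exact ⟨s, hs, _, norm_zz s, e, by rw [e, mul_div_cancel_left₀ _ hρ], fun _ => rfl⟩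
    · exact ⟨s, hs, _, by rw [Complex.norm_conj, norm_zz], e, by rw [e, mul_div_cancel_left₀ _ hρ],
        fun cs => by rw [polyOf_conj, Complex.conj_re]⟩
  refine ⟨⟨rn / rd, t2 / 2, h, L, _, _, hρ0, hρ1, hd P, hd G, by simp [polyOf_eval_zero hP],
    by simp [polyOf_eval_zero hG], fun τ a b c => ?_, fun τ a b c => ?_,
    fun τ a b => circ_ineq hρ0 hhi hs0 hs1 hs hC1 a b, fun τ a b => ?_⟩, rfl, rfl, rfl⟩
  · obtain ⟨s, hs, z, hz, e1, e2, e3⟩ := harc τ a b c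
    have h2 := lx_le h0 h1 hY hz
    rw [e2, hdiv, e3, e1, vfun, Finset.sup'_le_iff]
    intro i hi
    have h3 := hA1 s hs i (by simpa [Nat.lt_succ_iff] using hi)
    rw [e3] at h2
    have h4 : (i : ℝ) * (2 ^ 30 * lx ((rn / rd : ℝ) * z)) ≤
        i * (T + ((polyOf aa Y).eval (zz s)).re) :=
      mul_le_mul_of_nonneg_left (by linarith) (Nat.cast_nonneg i)
    have h5 : (t2 : ℝ) / 2 * lo ≤ t2 / 2 * Real.log (rn / rd) := by gcongr
    linarith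
  · obtain ⟨s, hs, z, hz, e1, e2, e3⟩ := harc τ a b c
    have h3 := hA2 s hs
    rw [e2, hdiv, e3]
    unfold Arc2 at h3
    linarith
  · have := circ_ineq hρ0 hhi hs0 hs1 hs hC2 a b
    simp only [Nat.cast_ofNat, ne_eq, OfNat.ofNat_ne_zero, not_false_eq_true, div_self,
      one_mul] at this
    exact this.le

lemma good_trans {p : ℝ → Prop} {a b b' c : ℝ} (h1 : ∀ s ∈ Icc a b, p s) (h2 : ∀ s ∈ Icc b' c, p s)
    (h : b' ≤ b) : ∀ s ∈ Icc a c, p s := fun s hs =>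
  (le_total s b).elim (fun h3 => h1 s ⟨hs.1, h3⟩) fun h3 => h2 s ⟨h.trans h3, hs.2⟩

lemma good_mono {p : ℝ → Prop} {a b a' b' : ℝ} (h1 : ∀ s ∈ Icc a b, p s) (ha : a ≤ a')
    (hb : b' ≤ b) : ∀ s ∈ Icc a' b', p s := fun s hs => h1 s ⟨ha.trans hs.1, hs.2.trans hb⟩

end

end Pool.Agent.Lib.MP_caab05_ag.W3
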