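import Mathlib

/-!
Polynomial lemmas for the linear independence of the seven series.
-/

namespace Pool.Agent.Lib.MP_caab05_ag.W3

open Polynomial

noncomputable section

/-- the polynomial `X (1 + 9 X + 27 X^2)` -/
def ipT : ℂ[X] := X * (1 + 9 * X + 27 * X ^ 2)

/-- the potential -/
def ipS : ℂ[X] := (1 + 9 * X + 27 * X ^ 2) * (3 * X + 27 * X ^ 2)

/-- the derivation on polynomials -/
def ipD (P : ℂ[X]) : ℂ[X] := ipT * derivative P

lemma ipD_mul (P Q : ℂ[X]) : ipD (P * Q) = P * ipD Q + Q * ipD P := by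
  simp only [ipD, derivative_mul]; ring
lemma ipD_add (P Q : ℂ[X]) : ipD (P + Q) = ipD P + ipD Q := by simp only [ipD, map_add]; ring
lemma ipD_sub (P Q : ℂ[X]) : ipD (P - Q) = ipD P - ipD Q := by simp only [ipD, map_sub]; ring
lemma ipD_neg (P : ℂ[X]) : ipD (-P) = -ipD P := by simp only [ipD, map_neg]; ring
lemma ipD_C (a : ℂ) : ipD (C a) = 0 := by simp [ipD]
lemma ipD_zero : ipD 0 = 0 := by simp [ipD]

lemma ipT_der : derivative ipT = 1 + 18 * X + 81 * X ^ 2 := by
  simp only [ipT, derivative_mul, derivative_add, derivative_X, derivative_one, derivative_ofNat,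
    derivative_X_pow, Nat.cast_ofNat, map_ofNat]
  ring

lemma ipT_ne : ipT ≠ 0 := fun h => by
  have := congrArg (eval 0) (ipT_der.symm.trans (congrArg derivative h))
  simp at this

/-- degree at most `d` with coefficient `c` in degree `d` -/
def ipTc (P : ℂ[X]) (d : ℕ) (c : ℂ) : Prop := P.natDegree ≤ d ∧ P.coeff d = c

namespace ipTc

variable {P Q : ℂ[X]} {d e : ℕ} {c c' : ℂ}

lemma lead (P : ℂ[X]) : ipTc P P.natDegree P.leadingCoeff := ⟨le_rfl, rfl⟩
lemma add (h : ipTc P d c) (h' : ipTc Q d c') : ipTc (P + Q) d (c + c') :=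
  ⟨(natDegree_add_le _ _).trans (max_le h.1 h'.1), by rw [coeff_add, h.2, h'.2]⟩
lemma neg (h : ipTc P d c) : ipTc (-P) d (-c) := ⟨by simpa using h.1, by rw [coeff_neg, h.2]⟩
lemma sub (h : ipTc P d c) (h' : ipTc Q d c') : ipTc (P - Q) d (c - c') := by
  simpa only [sub_eq_add_neg] using h.add h'.neg
lemma mul (h : ipTc P d c) (h' : ipTc Q e c') : ipTc (P * Q) (d + e) (c * c') :=
  ⟨natDegree_mul_le.trans (add_le_add h.1 h'.1), by
    rw [coeff_mul_add_eq_of_natDegree_le h.1 h'.1, h.2, h'.2]⟩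
lemma up (h : ipTc P d c) (hd : d < e) : ipTc P e 0 :=
  ⟨h.1.trans hd.le, coeff_eq_zero_of_natDegree_lt (h.1.trans_lt hd)⟩
lemma cast (h : ipTc P d c) (hd : d = e) : ipTc P e c := hd ▸ h
lemma uniq (h : ipTc P d c) (h' : ipTc Q d c') (e : P = Q) : c = c' := by
  rw [← h.2, ← h'.2, e]
lemma CC (a : ℂ) : ipTc (C a) 0 a := ⟨by simp, by simp⟩
lemma XX : ipTc X 1 1 := ⟨by simp, by simp⟩
lemma ell : ipTc (1 + 9 * X + 27 * X ^ 2) 2 27 :=
  ⟨by compute_degree, by simp [coeff_one, coeff_X]⟩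
lemma S : ipTc ipS 4 729 := by
  have h : ipTc (3 * X + 27 * X ^ 2) 2 27 := ⟨by compute_degree, by simp [coeff_X]⟩
  have := ell.mul h
  norm_num at this
  exact this
lemma T : ipTc ipT 3 27 := by
  have := XX.mul ell
  rwa [one_mul] at this
lemma th (h : ipTc P d c) : ipTc (X * derivative P) d (d * c) := by
  rcases d with _ | d
  · have : derivative P = 0 := derivative_of_natDegree_zero (Nat.le_zero.1 h.1)
    rw [this]; exact ⟨by simp, by simp⟩
  · refine ⟨?_, by rw [coeff_X_mul, coeff_derivative, h.2]; push_cast; ring⟩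
    have h1 := natDegree_derivative_le P
    have h2 := h.1
    have h3 : (X * derivative P).natDegree ≤ 1 + (derivative P).natDegree :=
      natDegree_mul_le.trans (by simp)
    omega
lemma D (h : ipTc P d c) : ipTc (ipD P) (d + 2) (d * c * 27) := by
  have := h.th.mul ell
  rwa [show X * derivative P * (1 + 9 * X + 27 * X ^ 2) = ipD P by rw [ipD, ipT]; ring] at this

end ipTc

lemma ip_sq (d : ℕ) {c : ℂ} (h : ((d + 2 : ℕ) : ℂ) * (d * c * 27) * 27 + 729 * c = 0) : c = 0 := by
  have h1 : ((d : ℂ) + 1) ^ 2 * 729 * c = 0 := by push_cast at h; linear_combination h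
  have h2 : (d : ℂ) + 1 ≠ 0 := by exact_mod_cast d.succ_ne_zero
  simpa [h2] using h1

lemma ip_res {t0 n k r : ℂ} (h0 : 1 + 9 * t0 + 27 * t0 ^ 2 = 0) (hn : n ^ 2 = -3)
    (h : k * (1 + 18 * t0 + 81 * t0 ^ 2) = r * n * t0) : 9 * k ^ 2 = r ^ 2 := by
  have ht : t0 ≠ 0 := by rintro rfl; simp at h0
  have h1 : k * (9 + 54 * t0) = r * n :=
    mul_right_cancel₀ ht (by linear_combination h - k * h0)
  linear_combination (-1 / 3) * (k * (9 + 54 * t0) + r * n) * h1 - r ^ 2 / 3 * hn
    + 36 * k ^ 2 * h0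

lemma ip_T1 {t0 : ℂ} {T1 : ℂ[X]} (h : ipT = (X - C t0) * T1) :
    eval t0 T1 = 1 + 18 * t0 + 81 * t0 ^ 2 := by
  have := congrArg (eval t0) (ipT_der.symm.trans (congrArg derivative h))
  simp at this
  exact this.symm

lemma ip_root {n t0 : ℂ} (hn : n ^ 2 = -3) {N N1 M L : ℂ[X]} (hM : M ≠ 0) (h0 : IsRoot M t0)
    (e1 : ipD N * M - N * ipD M + C n * X * N * M = N1 * M)
    (e2 : ipD N1 * M - N1 * ipD M + C n * X * N1 * M + ipS * N * M = X * L * M ^ 2) :
    IsRoot N t0 ∧ IsRoot N1 t0 := by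
  obtain ⟨M1, h1, h2⟩ := exists_eq_pow_rootMultiplicity_mul_and_not_dvd M hM t0
  obtain ⟨j, hj⟩ := Nat.exists_eq_succ_of_ne_zero ((rootMultiplicity_pos hM).2 h0).ne'
  rw [hj, Nat.succ_eq_add_one] at h1
  rw [dvd_iff_isRoot, IsRoot] at h2
  have hp : (X - C t0 : ℂ[X]) ≠ 0 := X_sub_C_ne_zero t0
  have hd : derivative M = (X - C t0) ^ j * (C ((j : ℂ) + 1) * M1 + (X - C t0) * derivative M1) := by
    rw [h1, derivative_mul, derivative_pow_succ]; simp; ring
  have hk : (j : ℂ) + 1 ≠ 0 := by exact_mod_cast j.succ_ne_zero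
  simp only [ipD, hd] at e1 e2
  have f1 : ipT * ((X - C t0) * derivative N * M1 - N * (C ((j : ℂ) + 1) * M1
      + (X - C t0) * derivative M1)) + (X - C t0) * ((C n * X * N - N1) * M1) = 0 :=
    mul_left_cancel₀ (pow_ne_zero j hp) (by rw [h1] at e1; linear_combination e1)
  have f2 : ipT * ((X - C t0) * derivative N1 * M1 - N1 * (C ((j : ℂ) + 1) * M1
      + (X - C t0) * derivative M1)) + (X - C t0) * ((C n * X * N1 + ipS * N) * M1
      - X * L * (X - C t0) ^ (j + 1) * M1 ^ 2) = 0 :=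
    mul_left_cancel₀ (pow_ne_zero j hp) (by rw [h1] at e2; linear_combination e2)
  by_cases hT : eval t0 ipT = 0
  · obtain ⟨T1, hT1⟩ := dvd_iff_isRoot.2 hT
    have g1 := congrArg (eval t0) (mul_left_cancel₀ hp (show (X - C t0) * (T1 * ((X - C t0) *
      derivative N * M1 - N * (C ((j : ℂ) + 1) * M1 + (X - C t0) * derivative M1))
      + (C n * X * N - N1) * M1) = (X - C t0) * 0 by rw [hT1] at f1; linear_combination f1))
    have g2 := congrArg (eval t0) (mul_left_cancel₀ hp (show (X - C t0) * (T1 * ((X - C t0) *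
      derivative N1 * M1 - N1 * (C ((j : ℂ) + 1) * M1 + (X - C t0) * derivative M1))
      + ((C n * X * N1 + ipS * N) * M1 - X * L * (X - C t0) ^ (j + 1) * M1 ^ 2))
      = (X - C t0) * 0 by rw [hT1] at f2; linear_combination f2))
    have hT' : t0 * (1 + 9 * t0 + 27 * t0 ^ 2) = 0 := by simpa [ipT] using hT
    have hS : eval t0 ipS = 0 := by
      simp only [ipS, eval_mul, eval_add, eval_one, eval_ofNat, eval_X, eval_pow]
      linear_combination (3 + 27 * t0) * hT'
    simp only [eval_add, eval_mul, eval_sub, eval_X, eval_C, sub_self, zero_mul, eval_pow,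
      eval_zero, ip_T1 hT1, hS, zero_pow j.succ_ne_zero, mul_zero] at g1 g2
    have hc : n * t0 - ((j : ℂ) + 1) * (1 + 18 * t0 + 81 * t0 ^ 2) ≠ 0 := fun hc => by
      rcases mul_eq_zero.1 hT' with h | h
      · subst h; exact hk (by linear_combination -hc)
      · have := ip_res (k := (j : ℂ) + 1) (r := 1) h hn (by linear_combination -hc)
        have h3 : 9 * (j + 1) ^ 2 = 1 ^ 2 := by exact_mod_cast this
        omega
    have a1 : eval t0 N1 = 0 := mul_left_cancel₀ (mul_ne_zero hc h2) (by linear_combination g2)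
    rw [a1] at g1
    exact ⟨mul_left_cancel₀ (mul_ne_zero hc h2) (by linear_combination g1), a1⟩
  · have g1 := congrArg (eval t0) f1
    have g2 := congrArg (eval t0) f2
    simp only [eval_add, eval_mul, eval_sub, eval_X, eval_C, sub_self, zero_mul,
      eval_zero] at g1 g2
    have hc := mul_ne_zero hT (mul_ne_zero hk h2)
    exact ⟨mul_left_cancel₀ hc (by linear_combination -g1),
      mul_left_cancel₀ hc (by linear_combination -g2)⟩

/-- the inhomogeneous system has no rational solution -/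
lemma ip_NR {n : ℂ} (hn : n ^ 2 = -3) {L : ℂ[X]} (hL : L.natDegree ≤ 1) (d : ℕ) :
    ∀ N N1 M : ℂ[X], M.natDegree = d → M ≠ 0 →
    ipD N * M - N * ipD M + C n * X * N * M = N1 * M →
    ipD N1 * M - N1 * ipD M + C n * X * N1 * M + ipS * N * M = X * L * M ^ 2 → L = 0 := by
  induction d with
  | zero =>
    intro N N1 M hd hM e1 e2
    have h0 : ipD M = 0 := by rw [ipD, derivative_of_natDegree_zero hd, mul_zero]
    rw [h0] at e1 e2
    have f1 : N1 = ipD N + C n * X * N := mul_right_cancel₀ hM (by linear_combination -e1)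
    have f2 : ipD N1 + C n * X * N1 + ipS * N = X * L * M :=
      mul_right_cancel₀ hM (by linear_combination e2)
    have a0 := ipTc.lead N
    have a1 : ipTc N1 (N.natDegree + 2) (N.natDegree * N.leadingCoeff * 27) := by
      have := a0.D.add ((((ipTc.CC n).mul ipTc.XX).mul a0).up (e := N.natDegree + 2) (by omega))
      rwa [add_zero, ← f1] at this
    have a2 := ((a1.D.add ((((ipTc.CC n).mul ipTc.XX).mul a1).up (by omega))).add
      ((ipTc.S.mul a0).cast (by omega))).uniq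
      (((ipTc.XX.mul ⟨hL, rfl⟩).mul (ipTc.lead M)).up (by omega)) f2
    have a3 : N = 0 := leadingCoeff_eq_zero.1 (ip_sq N.natDegree (by linear_combination a2))
    rw [a3, ipD_zero] at f1
    rw [a3, f1] at f2
    simp only [mul_zero, add_zero, ipD_zero] at f2
    simpa [hM] using f2
  | succ d ih =>
    intro N N1 M hd hM e1 e2
    obtain ⟨t0, h0⟩ := Complex.exists_root (f := M) (natDegree_pos_iff_degree_pos.1 (by omega))
    obtain ⟨h1, h2⟩ := ip_root hn hM h0 e1 e2
    obtain ⟨M', rfl⟩ := dvd_iff_isRoot.2 h0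
    obtain ⟨N', rfl⟩ := dvd_iff_isRoot.2 h1
    obtain ⟨N1', rfl⟩ := dvd_iff_isRoot.2 h2
    have hp : (X - C t0 : ℂ[X]) ≠ 0 := X_sub_C_ne_zero t0
    have hM' : M' ≠ 0 := right_ne_zero_of_mul hM
    rw [natDegree_mul hp hM', natDegree_X_sub_C] at hd
    simp only [ipD_mul] at e1 e2
    exact ih N' N1' M' (by omega) hM'
      (mul_left_cancel₀ (pow_ne_zero 2 hp) (by linear_combination e1))
      (mul_left_cancel₀ (pow_ne_zero 2 hp) (by linear_combination e2))

lemma ip_RIC0 {N M : ℂ[X]} (hc : IsCoprime N M) (hM : M ≠ 0)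
    (e : ipD N * M - N * ipD M = N ^ 2 + ipS * M ^ 2) : False := by
  have hs : Squarefree ipT := Separable.squarefree ⟨-27, 1 + 9 * X, by rw [ipT_der, ipT]; ring⟩
  have h1 : ipT ∣ N := hs.isRadical 2 N ⟨derivative N * M - N * derivative M - (3 + 27 * X) * M ^ 2,
    by simp only [ipD, ipS, ipT] at e ⊢; linear_combination -e⟩
  obtain ⟨N1, h2⟩ := h1
  have h3 : M ∣ N * (N + ipD M) := ⟨ipD N - ipS * M, by linear_combination -e⟩
  have h4 : M ∣ ipT * (N1 + derivative M) := by
    have := hc.symm.dvd_of_dvd_mul_left h3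
    rwa [h2, ipD, ← mul_add] at this
  have h5 : IsCoprime M ipT := (h2 ▸ hc).of_mul_left_left.symm
  obtain ⟨P, h6⟩ := h5.dvd_of_dvd_mul_left h4
  have h7 : N = ipT * M * P - ipD M := by rw [h2, ipD]; linear_combination ipT * h6
  have a0 := ipTc.lead M
  by_cases hP : P = 0
  · rw [hP, mul_zero, zero_sub] at h7
    rw [h7, ipD_neg] at e
    have f : ipD (ipD M) + ipS * M = 0 := mul_right_cancel₀ hM (by linear_combination -e)
    have a1 := (a0.D.D.add ((ipTc.S.mul a0).cast (by omega))).uniq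
      ((ipTc.CC 0).up (by omega)) (by rw [f, C_0])
    exact hM (leadingCoeff_eq_zero.1 (ip_sq M.natDegree (by linear_combination a1)))
  · have a1 := ((ipTc.T.mul a0).mul (ipTc.lead P)).sub (a0.D.up (by omega))
    rw [← h7, sub_zero] at a1
    have a2 := (((a1.D.mul a0).up (e := 3 + M.natDegree + P.natDegree
      + (3 + M.natDegree + P.natDegree)) (by omega)).sub ((a1.mul a0.D).up (by omega))).uniq
      ((a1.mul a1).add ((ipTc.S.mul (a0.mul a0)).up (by omega))) (by linear_combination e)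
    have a3 : 27 * M.leadingCoeff * P.leadingCoeff = 0 :=
      mul_self_eq_zero.1 (by linear_combination -a2)
    simp [hM, hP] at a3

/-- the Riccati equation has no rational solution -/
lemma ip_RIC {N M : ℂ[X]} (e : ipD N * M - N * ipD M = N ^ 2 + ipS * M ^ 2) : N = 0 ∧ M = 0 := by
  by_cases hM : M = 0
  · rw [hM, ipD_zero] at e
    exact ⟨pow_eq_zero_iff two_ne_zero |>.1 (by linear_combination -e), hM⟩
  exfalso
  classical
  obtain ⟨N', M', h1, h2, h3⟩ := extract_gcd N M
  have hg : gcd N M ≠ 0 := fun h => hM (by rw [h2, h, zero_mul])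
  generalize gcd N M = g at *
  subst h1 h2
  simp only [ipD_mul] at e
  exact ip_RIC0 ((gcd_isUnit_iff _ _).1 h3) (right_ne_zero_of_mul hM)
    (mul_left_cancel₀ (pow_ne_zero 2 hg) (by linear_combination e))

lemma ip_RES {n : ℂ} (hn : n ^ 2 = -3) {O O' : ℂ[X]} (h : O ≠ 0) (h' : O' ≠ 0)
    (e : O * ipD O' - O' * ipD O = -4 * C n * X * O * O') : False := by
  obtain ⟨t0, h0⟩ := Complex.exists_root (f := 1 + 9 * X + 27 * X ^ 2)
    (natDegree_pos_iff_degree_pos.1 (by
      have : (1 + 9 * X + 27 * X ^ 2 : ℂ[X]).natDegree = 2 := by compute_degree!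
      omega))
  obtain ⟨T1, hT1⟩ : X - C t0 ∣ ipT := Dvd.dvd.mul_left (dvd_iff_isRoot.2 h0) _
  have h0' : 1 + 9 * t0 + 27 * t0 ^ 2 = 0 := by simpa using h0
  obtain ⟨O1, h1, h2⟩ := exists_eq_pow_rootMultiplicity_mul_and_not_dvd O h t0
  obtain ⟨O1', h1', h2'⟩ := exists_eq_pow_rootMultiplicity_mul_and_not_dvd O' h' t0
  generalize rootMultiplicity t0 O = k at h1
  generalize rootMultiplicity t0 O' = k' at h1'
  rw [dvd_iff_isRoot, IsRoot] at h2 h2'
  have hp : (X - C t0 : ℂ[X]) ≠ 0 := X_sub_C_ne_zero t0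
  have hd : ∀ j : ℕ, ipD ((X - C t0) ^ j) = C (j : ℂ) * T1 * (X - C t0) ^ j := fun j => by
    rw [ipD, hT1]
    rcases j with _ | j
    · simp
    · rw [derivative_pow_succ]; simp; ring
  subst h1 h1'
  simp only [ipD_mul, hd] at e
  have f : O1 * ipD O1' - O1' * ipD O1 + (C (k' : ℂ) - C (k : ℂ)) * T1 * O1 * O1'
      = -4 * C n * X * O1 * O1' :=
    mul_left_cancel₀ (mul_ne_zero (pow_ne_zero k hp) (pow_ne_zero k' hp)) (by linear_combination e)
  have g := congrArg (eval t0) f
  simp only [ipD, hT1, eval_add, eval_mul, eval_sub, eval_X, eval_C, sub_self, zero_mul, mul_zero,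
    eval_neg, eval_ofNat, ip_T1 hT1] at g
  have := ip_res (k := (k' : ℂ) - k) (r := -4) h0' hn
    (mul_right_cancel₀ (mul_ne_zero h2 h2') (by linear_combination g))
  have h3 : 9 * ((k' : ℤ) - k) ^ 2 = (-4) ^ 2 := by exact_mod_cast this
  omega

lemma ip_WR {P Q : ℂ[X]} (hP : P ≠ 0) (e : P * ipD Q = Q * ipD P) : ∃ c, Q = P * C c := by
  have hl : P.leadingCoeff ≠ 0 := leadingCoeff_ne_zero.2 hP
  refine ⟨Q.coeff P.natDegree / P.leadingCoeff, sub_eq_zero.1 ?_⟩
  set R := Q - P * C (Q.coeff P.natDegree / P.leadingCoeff) with hR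
  have h1 : R.coeff P.natDegree = 0 := by
    rw [hR, coeff_sub, coeff_mul_C, coeff_natDegree]; field_simp; ring
  have h2 : P * ipD R = R * ipD P := by
    rw [hR, ipD_sub, ipD_mul, ipD_C]; linear_combination e
  by_contra h
  have a := ((ipTc.lead P).mul (ipTc.lead R).D).uniq
    (((ipTc.lead R).mul (ipTc.lead P).D).cast (by omega)) h2
  have hl' : R.leadingCoeff ≠ 0 := leadingCoeff_ne_zero.2 h
  have h3 : (R.natDegree : ℂ) = P.natDegree :=
    mul_right_cancel₀ (mul_ne_zero hl hl') (by linear_combination a / 27)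
  have h4 : R.natDegree = P.natDegree := by exact_mod_cast h3
  rw [← h4] at h1
  exact hl' h1

end

end Pool.Agent.Lib.MP_caab05_ag.W3
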