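import Pool.Agent.Lib.MP_caab05_ag.W3.Eta

/-!
The eta quotients of level nine as power series.
-/

namespace Pool.Agent.Lib.MP_caab05_ag.W3.Mod

open PowerSeries

noncomputable section

def phiZ : ℤ⟦X⟧ := pentagonalSeries ℤ

lemma map_phiZ : PowerSeries.map (Int.castRingHom ℂ) phiZ = phi := by
  ext n
  rw [coeff_map, phiZ, phi]
  by_cases h : n ∈ Set.range pentagonal
  · obtain ⟨k, rfl⟩ := h
    rw [coeff_pentagonalSeries_pentagonal, coeff_pentagonalSeries_pentagonal]; simp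
  · rw [coeff_pentagonalSeries_eq_zero ℤ h, coeff_pentagonalSeries_eq_zero ℂ h, map_zero]

lemma phiZ0 : constantCoeff phiZ = ((1 : ℤˣ) : ℤ) := by
  have h := coeff_zero_phi
  rw [← map_phiZ, coeff_map] at h
  have h2 : ((coeff 0 phiZ : ℤ) : ℂ) = ((1 : ℤ) : ℂ) := by simpa using h
  simpa using Int.cast_injective h2

def p0i : ℂ⟦X⟧ := PowerSeries.map (Int.castRingHom ℂ) (invOfUnit phiZ 1)

lemma h0 : phi * p0i = 1 := by
  rw [← map_phiZ, p0i, ← map_mul, mul_invOfUnit _ _ phiZ0, map_one]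

lemma n9 : (9 : ℕ) ≠ 0 := by norm_num

def p1 : ℂ⟦X⟧ := rescale om phi
def p2 : ℂ⟦X⟧ := rescale (om ^ 2) phi
def p3 : ℂ⟦X⟧ := expand 3 three_ne_zero phi
def p9 : ℂ⟦X⟧ := expand 9 n9 phi
def p1i : ℂ⟦X⟧ := rescale om p0i
def p2i : ℂ⟦X⟧ := rescale (om ^ 2) p0i
def p3i : ℂ⟦X⟧ := expand 3 three_ne_zero p0i

lemma h1 : p1 * p1i = 1 := by rw [p1, p1i, ← map_mul, h0, map_one]
lemma h2 : p2 * p2i = 1 := by rw [p2, p2i, ← map_mul, h0, map_one]
lemma h3 : p3 * p3i = 1 := by rw [p3, p3i, ← map_mul, h0, map_one]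

lemma norm_om2 : ‖om ^ 2‖ = 1 := by rw [norm_pow, norm_om, one_pow]

lemma c0i : Conv p0i :=
  conv_phi.of_mul_eq_one (fun q hq => by rw [ev_phi hq]; exact Phi_ne_zero hq) h0
lemma c1 : Conv p1 := conv_phi.rescale norm_om
lemma c2 : Conv p2 := conv_phi.rescale norm_om2
lemma c3 : Conv p3 := conv_phi.expand _ _
lemma c9 : Conv p9 := conv_phi.expand _ _
lemma c1i : Conv p1i := c0i.rescale norm_om
lemma c2i : Conv p2i := c0i.rescale norm_om2
lemma c3i : Conv p3i := c0i.expand _ _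

variable {q : ℂ}

lemma n1 (hq : ‖q‖ < 1) : ‖om * q‖ < 1 := by simpa [norm_om] using hq
lemma n2 (hq : ‖q‖ < 1) : ‖om ^ 2 * q‖ < 1 := by simpa [norm_om] using hq

lemma e0i (hq : ‖q‖ < 1) : ev p0i q = (Phi q)⁻¹ := by
  have := ev_mul_eq_one conv_phi c0i h0 hq
  rw [ev_phi hq] at this
  exact eq_inv_of_mul_eq_one_right this
lemma e1 (hq : ‖q‖ < 1) : ev p1 q = Phi (om * q) := by rw [p1, ev_rescale, ev_phi (n1 hq)]
lemma e2 (hq : ‖q‖ < 1) : ev p2 q = Phi (om ^ 2 * q) := by rw [p2, ev_rescale, ev_phi (n2 hq)]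
lemma e3 (hq : ‖q‖ < 1) : ev p3 q = Phi (q ^ 3) := by
  rw [p3, ev_expand, ev_phi (norm_pow_lt hq three_ne_zero)]
lemma e9 (hq : ‖q‖ < 1) : ev p9 q = Phi (q ^ 9) := by
  rw [p9, ev_expand, ev_phi (norm_pow_lt hq n9)]
lemma e1i (hq : ‖q‖ < 1) : ev p1i q = (Phi (om * q))⁻¹ := by rw [p1i, ev_rescale, e0i (n1 hq)]
lemma e2i (hq : ‖q‖ < 1) : ev p2i q = (Phi (om ^ 2 * q))⁻¹ := by rw [p2i, ev_rescale, e0i (n2 hq)]
lemma e3i (hq : ‖q‖ < 1) : ev p3i q = (Phi (q ^ 3))⁻¹ := by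
  rw [p3i, ev_expand, e0i (norm_pow_lt hq three_ne_zero)]

lemma hprod : phi * p1 * p2 * p9 = p3 ^ 4 := by
  refine eq_of_ev (((conv_phi.mul c1).mul c2).mul c9) (c3.pow 4) fun q hq => ?_
  rw [ev_mul ((conv_phi.mul c1).mul c2) c9 hq, ev_mul (conv_phi.mul c1) c2 hq,
    ev_mul conv_phi c1 hq, ev_pow c3 hq, ev_phi hq, e1 hq, e2 hq, e3 hq, e9 hq, Phi_prod hq]

/-! constant terms -/

lemma k0 : constantCoeff phi = 1 := by simpa using coeff_zero_phi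
lemma k0i : constantCoeff p0i = 1 := by simpa [k0] using congrArg constantCoeff h0
lemma const_rescale (a : ℂ) (F : ℂ⟦X⟧) : constantCoeff (rescale a F) = constantCoeff F := by
  rw [← coeff_zero_eq_constantCoeff_apply, coeff_rescale]; simp
lemma k1 : constantCoeff p1 = 1 := by rw [p1, const_rescale, k0]
lemma k2 : constantCoeff p2 = 1 := by rw [p2, const_rescale, k0]
lemma k3 : constantCoeff p3 = 1 := by rw [p3, constantCoeff_expand, k0]
lemma k9 : constantCoeff p9 = 1 := by rw [p9, constantCoeff_expand, k0]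
lemma k3i : constantCoeff p3i = 1 := by rw [p3i, constantCoeff_expand, k0i]

/-! the action of `q ↦ om q` -/

lemma rescale_C' (a c : ℂ) : rescale a (C c : ℂ⟦X⟧) = C c := by
  ext n; rw [coeff_rescale, coeff_C]; split_ifs with h <;> simp [h]

lemma rescale_th (a : ℂ) (F : ℂ⟦X⟧) : rescale a (th F) = th (rescale a F) := by
  ext n; simp only [coeff_rescale, coeff_th]; ring

lemma rescale_expand (F : ℂ⟦X⟧) (m : ℕ) (hm : m ≠ 0) (h : 3 ∣ m) :
    rescale om (expand m hm F) = expand m hm F := by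
  ext n
  rw [coeff_rescale, coeff_expand]
  split_ifs with hn
  · obtain ⟨k, rfl⟩ := h.trans hn
    rw [pow_mul, om_cube]; simp
  · simp

lemma r0 : rescale om phi = p1 := rfl
lemma r1 : rescale om p1 = p2 := by rw [p1, rescale_rescale, p2, sq]
lemma r2 : rescale om p2 = phi := by
  rw [p2, rescale_rescale, ← pow_succ, om_cube, rescale_one]; rfl
lemma r3 : rescale om p3 = p3 := rescale_expand _ _ _ (by norm_num)
lemma r9 : rescale om p9 = p9 := rescale_expand _ _ _ (by norm_num)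
lemma r3i : rescale om p3i = p3i := rescale_expand _ _ _ (by norm_num)

lemma rescale_eq_zero {F : ℂ⟦X⟧} (h : rescale om F = 0) : F = 0 := by
  have := congrArg (rescale (om ^ 2)) h
  rw [rescale_rescale, ← pow_succ', om_cube, rescale_one, map_zero] at this
  exact this

/-! integrality -/

def OO : Subring ℂ where
  carrier := {z | IsO z}
  mul_mem' := by
    rintro _ _ ⟨a, b, rfl⟩ ⟨c, d, rfl⟩
    refine ⟨a * c - b * d, a * d + b * c - b * d, ?_⟩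
    push_cast
    linear_combination (b * d) * om_sq
  one_mem' := ⟨1, 0, by simp⟩
  add_mem' := by
    rintro _ _ ⟨a, b, rfl⟩ ⟨c, d, rfl⟩
    exact ⟨a + c, b + d, by push_cast; ring⟩
  zero_mem' := ⟨0, 0, by simp⟩
  neg_mem' := by
    rintro _ ⟨a, b, rfl⟩
    exact ⟨-a, -b, by push_cast; ring⟩

lemma om_mem : om ∈ OO := ⟨0, 1, by simp⟩

def CO : Submonoid ℂ⟦X⟧ where
  carrier := {F | ∀ n, coeff n F ∈ OO}
  mul_mem' := fun {F G} hF hG n => by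
    rw [coeff_mul]; exact sum_mem fun x _ => mul_mem (hF _) (hG _)
  one_mem' := fun n => by
    rw [coeff_one]; split_ifs
    exacts [one_mem _, zero_mem _]

lemma CO_map (F : ℤ⟦X⟧) : PowerSeries.map (Int.castRingHom ℂ) F ∈ CO := fun n => by
  rw [coeff_map]; exact intCast_mem _ _

lemma CO_rescale {a : ℂ} (ha : a ∈ OO) {F : ℂ⟦X⟧} (hF : F ∈ CO) : rescale a F ∈ CO := fun n => by
  rw [coeff_rescale]; exact mul_mem (pow_mem ha _) (hF n)

lemma CO_expand {F : ℂ⟦X⟧} (hF : F ∈ CO) (m : ℕ) (hm : m ≠ 0) : expand m hm F ∈ CO := fun n => by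
  rw [coeff_expand]; split_ifs
  exacts [hF _, zero_mem _]

lemma oX : (X : ℂ⟦X⟧) ∈ CO := fun n => by
  rw [coeff_X]; split_ifs
  exacts [one_mem _, zero_mem _]
lemma o0 : phi ∈ CO := map_phiZ ▸ CO_map _
lemma o0i : p0i ∈ CO := CO_map _
lemma o1 : p1 ∈ CO := CO_rescale om_mem o0
lemma o2 : p2 ∈ CO := CO_rescale (pow_mem om_mem 2) o0
lemma o3 : p3 ∈ CO := CO_expand o0 _ _
lemma o9 : p9 ∈ CO := CO_expand o0 _ _
lemma o1i : p1i ∈ CO := CO_rescale om_mem o0i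
lemma o2i : p2i ∈ CO := CO_rescale (pow_mem om_mem 2) o0i
lemma o3i : p3i ∈ CO := CO_expand o0i _ _

/-! complex conjugation -/

lemma conj_map (F : ℤ⟦X⟧) :
    PowerSeries.map (starRingEnd ℂ) (PowerSeries.map (Int.castRingHom ℂ) F) =
      PowerSeries.map (Int.castRingHom ℂ) F := by
  ext n; simp
lemma j0 : PowerSeries.map (starRingEnd ℂ) phi = phi := map_phiZ ▸ conj_map _
lemma j0i : PowerSeries.map (starRingEnd ℂ) p0i = p0i := conj_map _
lemma j1 : PowerSeries.map (starRingEnd ℂ) p1 = p2 := by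
  rw [p1, ← rescale_map, conj_om, j0, p2]
lemma j9 : PowerSeries.map (starRingEnd ℂ) p9 = p9 := by rw [p9, map_expand, j0]
lemma j3i : PowerSeries.map (starRingEnd ℂ) p3i = p3i := by rw [p3i, map_expand, j0i]

/-! the weight one forms -/

def b0 : ℂ⟦X⟧ := phi ^ 3 * p3i
def b1 : ℂ⟦X⟧ := p1 ^ 3 * p3i
def b2 : ℂ⟦X⟧ := p2 ^ 3 * p3i
def V : ℂ⟦X⟧ := X * (p9 ^ 3 * p3i)
def Q : ℂ⟦X⟧ := X * p3 ^ 8
def bi : ℂ⟦X⟧ := p3 * p0i ^ 3
def t : ℂ⟦X⟧ := X * (p9 ^ 3 * p0i ^ 3)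

lemma cb0 : Conv b0 := (conv_phi.pow 3).mul c3i
lemma cb1 : Conv b1 := (c1.pow 3).mul c3i
lemma cb2 : Conv b2 := (c2.pow 3).mul c3i
lemma cV : Conv V := Conv.X.mul ((c9.pow 3).mul c3i)
lemma cQ : Conv Q := Conv.X.mul (c3.pow 8)
lemma cbi : Conv bi := c3.mul (c0i.pow 3)
lemma ct : Conv t := Conv.X.mul ((c9.pow 3).mul (c0i.pow 3))

lemma hb : b0 * bi = 1 := by
  calc _ = (phi * p0i) ^ 3 * (p3 * p3i) := by rw [b0, bi]; ring
    _ = 1 := by rw [h0, h3]; simp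

lemma V_eq : V = t * b0 := by
  calc _ = V * (phi * p0i) ^ 3 := by rw [h0]; simp
    _ = _ := by rw [V, t, b0]; ring

lemma Q_eq : Q = V * b0 * b1 * b2 := by
  calc _ = Q * (p3 * p3i) ^ 4 := by rw [h3]; simp
    _ = X * (p3 ^ 4) ^ 3 * p3i ^ 4 := by rw [Q]; ring
    _ = _ := by rw [← hprod, V, b0, b1, b2]; ring

lemma rb0 : rescale om b0 = b1 := by rw [b0, map_mul, map_pow, r0, r3i, b1]
lemma rb1 : rescale om b1 = b2 := by rw [b1, map_mul, map_pow, r1, r3i, b2]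
lemma rb2 : rescale om b2 = b0 := by rw [b2, map_mul, map_pow, r2, r3i, b0]
lemma rV : rescale om V = C om * V := by
  rw [V, map_mul, map_mul, map_pow, r9, r3i, rescale_X]; ring

lemma kb0 : constantCoeff b0 = 1 := by simp [b0, k0, k3i]
lemma kb1 : constantCoeff b1 = 1 := by simp [b1, k1, k3i]
lemma kb2 : constantCoeff b2 = 1 := by simp [b2, k2, k3i]
lemma kV : constantCoeff V = 0 := by simp [V]
lemma kV1 : coeff 1 V = 1 := by rw [V, coeff_succ_X_mul]; simp [k9, k3i]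

lemma eb0 (hq : ‖q‖ < 1) : ev b0 q = Phi q ^ 3 / Phi (q ^ 3) := by
  rw [b0, ev_mul (conv_phi.pow 3) c3i hq, ev_pow conv_phi hq, ev_phi hq, e3i hq, div_eq_mul_inv]
lemma eb1 (hq : ‖q‖ < 1) : ev b1 q = Phi (om * q) ^ 3 / Phi (q ^ 3) := by
  rw [b1, ev_mul (c1.pow 3) c3i hq, ev_pow c1 hq, e1 hq, e3i hq, div_eq_mul_inv]
lemma eb2 (hq : ‖q‖ < 1) : ev b2 q = Phi (om ^ 2 * q) ^ 3 / Phi (q ^ 3) := by
  rw [b2, ev_mul (c2.pow 3) c3i hq, ev_pow c2 hq, e2 hq, e3i hq, div_eq_mul_inv]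
lemma eV (hq : ‖q‖ < 1) : ev V q = q * Phi (q ^ 9) ^ 3 / Phi (q ^ 3) := by
  rw [V, ev_mul Conv.X ((c9.pow 3).mul c3i) hq, ev_mul (c9.pow 3) c3i hq, ev_pow c9 hq, e9 hq,
    e3i hq, div_eq_mul_inv, ev_X, mul_assoc]
lemma eQ (hq : ‖q‖ < 1) : ev Q q = q * Phi (q ^ 3) ^ 8 := by
  rw [Q, ev_mul Conv.X (c3.pow 8) hq, ev_pow c3 hq, e3 hq, ev_X]

end

end Pool.Agent.Lib.MP_caab05_ag.W3.Mod
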