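import Pool.Agent.Lib.MP_caab05_ag.W3.Modular1

/-!
Transformation of the weight one forms under the Fricke involution.
-/

namespace Pool.Agent.Lib.MP_caab05_ag.W3.Mod

open PowerSeries

noncomputable section

lemma ee_add (a b : ℂ) : ee (a + b) = ee a * ee b := by
  rw [ee, ee, ee, ← Complex.exp_add]; congr 1; ring

lemma ee_pow (a : ℂ) (n : ℕ) : ee a ^ n = ee (n * a) := by
  rw [ee, ee, ← Complex.exp_nat_mul]; congr 1; ring

lemma ee_third : ee (1 / 3) = om := by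
  rw [ee, om]; congr 1; ring

lemma om_ne : om ≠ 0 := Complex.exp_ne_zero _

lemma ee_sub_third (a : ℂ) : ee (a - 1 / 3) = om ^ 2 * ee a := by
  have h := ee_add_third (a - 1 / 3)
  rw [sub_add_cancel] at h
  rw [h]; linear_combination (-ee (a - 1 / 3)) * om_cube

lemma ee_sub_one (a : ℂ) : ee (a - 1) = ee a := by
  have h : a - 1 = a - 1 / 3 - 1 / 3 - 1 / 3 := by ring
  rw [h, ee_sub_third, ee_sub_third, ee_sub_third]
  linear_combination (ee a * (om ^ 3 + 1)) * om_cube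

def nu : ℂ := om - om ^ 2

lemma nu_sq : nu ^ 2 = -3 := by
  rw [nu]; linear_combination (om ^ 2 - 3 * om + 3) * om_sq

lemma nu_ne : nu ≠ 0 := fun h => by simpa [h] using nu_sq

lemma nu_eq : nu = (√3 : ℝ) * Complex.I := by
  have h1 : om = Complex.exp (((Real.pi - Real.pi / 3 : ℝ) : ℂ) * Complex.I) := by
    rw [om]; congr 1; push_cast; ring
  have h2 : om = -1 / 2 + (√3 : ℝ) / 2 * Complex.I := by
    rw [h1, Complex.exp_mul_I, ← Complex.ofReal_cos, ← Complex.ofReal_sin, Real.cos_pi_sub,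
      Real.sin_pi_sub, Real.cos_pi_div_three, Real.sin_pi_div_three]
    push_cast; ring
  rw [nu]; linear_combination 2 * h2 - om_sq

lemma sqrt_sq' (z : ℂ) : Complex.sqrt z ^ 2 = z := by
  simp [Complex.sqrt]

lemma sqrt_three_mul {z : ℂ} (hz : z ≠ 0) : Complex.sqrt (3 * z) = (√3 : ℝ) * Complex.sqrt z := by
  have h3 : Complex.sqrt 3 = (√3 : ℝ) := by
    rw [Complex.sqrt_of_nonneg (by norm_num [Complex.le_def])]; simp
  have hl := Complex.log_ofReal_mul (r := 3) (by norm_num) hz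
  rw [Complex.ofReal_log (by norm_num)] at hl
  push_cast at hl
  rw [← h3, sqrt_eq_exp hz, sqrt_eq_exp (mul_ne_zero three_ne_zero hz), sqrt_eq_exp three_ne_zero,
    hl, ← Complex.exp_add]
  congr 1; ring

def B0 (z : ℂ) : ℂ := Phi (ee z) ^ 3 / Phi (ee z ^ 3)
def Cc (z : ℂ) : ℂ := ee (z / 3) * Phi (ee z ^ 3) ^ 3 / Phi (ee z)

lemma law0 {z : ℂ} (hz : 0 < z.im) : B0 (-1 / (3 * z)) = -3 * nu * z * Cc z := by
  have hz0 := ne_zero_of_im hz
  have hA := Phi_S (τ := 3 * z) (by simpa using hz)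
  have hB := Phi_S hz
  have e1 : ee (-1 / (3 * z)) ^ 3 = ee (-1 / z) := by rw [ee_pow]; congr 1; push_cast; field_simp
  have e2 : ee (-1 / z / 24) = ee (-1 / (3 * z) / 24) ^ 3 := by
    rw [ee_pow]; congr 1; push_cast; field_simp
  have e3 : ee (3 * z) = ee z ^ 3 := by rw [ee_pow]; simp
  have e4 : ee (3 * z / 24) = ee (z / 24) ^ 3 := by rw [ee_pow]; congr 1; push_cast; ring
  have e5 : ee (z / 3) = ee (z / 24) ^ 8 := by rw [ee_pow]; congr 1; push_cast; ring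
  rw [sqrt_three_mul hz0, e3, e4] at hA
  rw [e2] at hB
  rw [B0, Cc, e1, e5, nu_eq]
  have hs := sqrt_sq' z
  have hi := sqrt_sq' Complex.I
  have h3 : (((√3 : ℝ) : ℂ)) ^ 2 = 3 := by
    rw [← Complex.ofReal_pow, Real.sq_sqrt (by norm_num)]; simp
  have hs0 : Complex.sqrt z ≠ 0 := fun h => hz0 (by rw [← hs, h]; simp)
  have hi0 : Complex.sqrt Complex.I ≠ 0 := fun h => Complex.I_ne_zero (by rw [← hi, h]; simp)
  have hP := Phi_ne_zero (norm_ee_lt hz)
  have ha := ee_ne_zero (-1 / (3 * z) / 24)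
  have hu := ee_ne_zero (z / 24)
  have hI := Complex.I_sq
  generalize ee (-1 / (3 * z) / 24) = a at *
  generalize ee (z / 24) = u at *
  generalize Phi (ee (-1 / (3 * z))) = x at *
  generalize Phi (ee (-1 / z)) = y at *
  generalize Phi (ee z ^ 3) = P3 at *
  generalize Phi (ee z) = P1 at *
  generalize Complex.sqrt z = s at *
  generalize Complex.sqrt Complex.I = i at *
  generalize ((√3 : ℝ) : ℂ) = r at *
  have hx : x = i⁻¹ * (r * s) * (u ^ 3 * P3) / a := by rw [← hA]; field_simp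
  have hy : y = i⁻¹ * s * (u * P1) / a ^ 3 := by rw [← hB]; field_simp
  rw [hx, hy, ← hs]
  field_simp
  rw [hi]
  linear_combination (P3 ^ 3 * r) * h3 + 3 * (P3 ^ 3 * r) * hI

lemma Cc_sub_one (z : ℂ) : Cc (z - 1) = om ^ 2 * Cc z := by
  rw [Cc, Cc, ee_sub_one, show (z - 1) / 3 = z / 3 - 1 / 3 by ring, ee_sub_third]; ring

variable {τ : ℂ}

lemma b0_B0 (h : 0 < τ.im) : ev b0 (ee τ) = B0 τ := eb0 (norm_ee_lt h)

lemma b1_B0 (h : 0 < τ.im) : ev b1 (ee τ) = B0 (τ + 1 / 3) := by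
  rw [eb1 (norm_ee_lt h), B0, ee_add_third, mul_pow om, om_cube, one_mul]

lemma b2_B0 (h : 0 < τ.im) : ev b2 (ee τ) = B0 (τ - 1 / 3) := by
  rw [eb2 (norm_ee_lt h), B0, ee_sub_third, mul_pow (om ^ 2), ← pow_mul, mul_comm 2 3, pow_mul,
    om_cube, one_pow, one_mul]

lemma V_Cc (h : 0 < τ.im) : ev V (ee τ) = Cc (3 * τ) := by
  have e3 : ee (3 * τ) = ee τ ^ 3 := by rw [ee_pow]; simp
  rw [eV (norm_ee_lt h), Cc, e3, ← pow_mul, show 3 * τ / 3 = τ by ring]

lemma wb0 (h : 0 < τ.im) : ev b0 (ee (ww τ)) = -9 * nu * τ * ev V (ee τ) := by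
  rw [b0_B0 (ww_im_pos h), V_Cc h, ww, show 9 * τ = 3 * (3 * τ) by ring,
    law0 (by simpa using h)]
  ring

lemma wV (h : 0 < τ.im) : ev V (ee (ww τ)) = -(nu / 3) * τ * ev b0 (ee τ) := by
  have h0 := ne_zero_of_im h
  have := wb0 (ww_im_pos h)
  rw [ww_ww h0] at this
  rw [this]
  generalize ev V (ee (ww τ)) = v
  rw [ww]; field_simp
  linear_combination v * nu_sq

lemma im_inv3 {z : ℂ} (hz : 0 < z.im) : 0 < (-1 / (3 * z)).im := by
  have := ww_im_pos (τ := z / 3) (by simpa using hz)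
  rwa [ww, show 9 * (z / 3) = 3 * z by ring] at this

lemma wb1 (h : 0 < τ.im) : ev b1 (ee (ww τ)) = 3 * om ^ 2 * τ * ev b2 (ee τ) := by
  have h0 := ne_zero_of_im h
  have hs : 0 < (τ - 1 / 3).im := by simpa using h
  have hs0 := ne_zero_of_im hs
  have hz0 := im_inv3 hs
  have hA := law0 hz0
  have hB := law0 (z := -1 / (3 * (τ - 1 / 3)) - 1) (by simpa using hz0)
  have h31 : 3 * τ - 1 ≠ 0 := fun h => hs0 (by linear_combination h / 3)
  have e1 : -1 / (3 * (-1 / (3 * (τ - 1 / 3)))) = τ - 1 / 3 := by field_simp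
  have e0 : -1 / (3 * (τ - 1 / 3)) - 1 = -(3 * τ) / (3 * τ - 1) := by field_simp; ring
  have e2 : -1 / (3 * (-1 / (3 * (τ - 1 / 3)) - 1)) = ww τ + 1 / 3 := by
    rw [e0, ww]; field_simp; ring
  rw [e1] at hA
  rw [e2, Cc_sub_one] at hB
  rw [b1_B0 (ww_im_pos h), b2_B0 h, hA, hB]
  generalize Cc _ = c
  field_simp
  ring

lemma wb2 (h : 0 < τ.im) : ev b2 (ee (ww τ)) = -3 * om * τ * ev b1 (ee τ) := by
  have h0 := ne_zero_of_im h
  have := wb1 (ww_im_pos h)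
  rw [ww_ww h0] at this
  rw [this]
  generalize ev b2 (ee (ww τ)) = v
  rw [ww]; field_simp
  linear_combination (-9 * v) * om_cube

lemma wQ (h : 0 < τ.im) : ev Q (ee (ww τ)) = 81 * τ ^ 4 * ev Q (ee τ) := by
  have hq := norm_ee_lt h
  have hw := norm_ee_lt (ww_im_pos h)
  rw [Q_eq, ev_mul ((cV.mul cb0).mul cb1) cb2 hq, ev_mul (cV.mul cb0) cb1 hq, ev_mul cV cb0 hq,
    ev_mul ((cV.mul cb0).mul cb1) cb2 hw, ev_mul (cV.mul cb0) cb1 hw, ev_mul cV cb0 hw,
    wb0 h, wV h, wb1 h, wb2 h]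
  generalize ev V (ee τ) = v, ev b0 (ee τ) = x0, ev b1 (ee τ) = x1, ev b2 (ee τ) = x2
  linear_combination (-27 * τ ^ 4 * v * x0 * x1 * x2 * om ^ 3) * nu_sq
    + (81 * τ ^ 4 * v * x0 * x1 * x2) * om_cube

/-- differentiating a transformation law -/
lemma w_th {F : ℂ⟦X⟧} (hF : Conv F) {R : ℂ → ℂ} {R' : ℂ}
    (hR : ∀ z : ℂ, 0 < z.im → ev F (ee (ww z)) = R z) (h : 0 < τ.im) (hd : HasDerivAt R R' τ) :
    2 * Real.pi * Complex.I * ev (th F) (ee (ww τ)) = 9 * τ ^ 2 * R' := by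
  have h0 := ne_zero_of_im h
  have h1 := (hasDerivAt_ev_ee hF (ww_im_pos h)).comp τ (hasDerivAt_ww h0)
  have hn : {z : ℂ | 0 < z.im} ∈ nhds τ :=
    (isOpen_lt continuous_const Complex.continuous_im).mem_nhds h
  have h2 : HasDerivAt R _ τ := h1.congr_of_eventuallyEq (by
    filter_upwards [hn] with z hz using (hR z hz).symm)
  rw [← h2.unique hd]; field_simp

/-- forms of weight four vanishing at the cusp -/
lemma liou_wt {F : ℂ⟦X⟧} (hF : Conv F) (hk : constantCoeff F = 0) {c : ℂ} (hc : ‖c‖ = 1)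
    (hr : rescale om F = C c * F)
    (hw : ∀ τ : ℂ, 0 < τ.im → ev F (ee (ww τ)) = 81 * τ ^ 4 * ev F (ee τ)) :
    F = C (coeff 1 F) * Q := by
  obtain ⟨G, rfl⟩ := X_dvd_iff.2 hk
  have hG : Conv G := hF.of_X_mul
  have hH : Conv (G * p3i ^ 8) := hG.mul (c3i.pow 8)
  have hX : (X : ℂ⟦X⟧) ≠ 0 := X_ne_zero
  have hrG : rescale om G = C (c * om ^ 2) * G := by
    rw [map_mul, rescale_X] at hr
    have hc3 : (C om : ℂ⟦X⟧) ^ 3 = 1 := by rw [← map_pow, om_cube, map_one]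
    refine mul_left_cancel₀ hX ?_
    rw [map_mul, map_pow]
    linear_combination (C om) ^ 2 * hr - X * rescale om G * hc3
  have hQH : Q * (G * p3i ^ 8) = X * G := by
    calc _ = X * G * (p3 * p3i) ^ 8 := by rw [Q]; ring
      _ = _ := by rw [h3]; simp
  have key := liouville hH (fun q hq => by
    rw [← ev_rescale, map_mul, map_pow, r3i, hrG, mul_assoc, ev_C_mul]
    simp [hc, norm_om]) (fun τ h => by
    have hq := norm_ee_lt h
    have hq' := norm_ee_lt (ww_im_pos h)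
    have e := hw τ h
    rw [← hQH, ev_mul cQ hH hq, ev_mul cQ hH hq', wQ h] at e
    have hQ0 : ev Q (ee τ) ≠ 0 := by
      rw [eQ hq]
      exact mul_ne_zero (ee_ne_zero _) (pow_ne_zero _ (Phi_ne_zero (norm_pow_lt hq three_ne_zero)))
    have h0 := ne_zero_of_im h
    congr 1
    refine mul_left_cancel₀ (a := 81 * τ ^ 4 * ev Q (ee τ)) (by simp [h0, hQ0]) ?_
    rw [e]; ring)
  rw [← hQH, key, mul_comm]
  congr 2
  rw [mul_comm, Q, ← mul_assoc, mul_comm _ X, mul_assoc, coeff_succ_X_mul]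
  simp [k3]

end

end Pool.Agent.Lib.MP_caab05_ag.W3.Mod
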