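import Pool.Agent.Lib.MP_caab05_ag.W3.Modular2

/-!
Linear relations between the weight one forms, and the two differential equations.
-/

namespace Pool.Agent.Lib.MP_caab05_ag.W3.Mod

open PowerSeries

noncomputable section

def Da : ℂ⟦X⟧ := b1 - b0 + C (3 * (om - 1)) * V
def Db : ℂ⟦X⟧ := b2 - b1 + C (om * (3 * (om - 1))) * V
def Dc : ℂ⟦X⟧ := b0 - b2 + C (om ^ 2 * (3 * (om - 1))) * V
def Dd : ℂ⟦X⟧ := b0 + C om * b1 + C (om ^ 2) * b2

lemma cDa : Conv Da := (cb1.sub cb0).add ((Conv.C _).mul cV)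
lemma cDb : Conv Db := (cb2.sub cb1).add ((Conv.C _).mul cV)
lemma cDc : Conv Dc := (cb0.sub cb2).add ((Conv.C _).mul cV)
lemma cDd : Conv Dd := (cb0.add ((Conv.C _).mul cb1)).add ((Conv.C _).mul cb2)

variable {q τ : ℂ}

lemma eDa (hq : ‖q‖ < 1) : ev Da q = ev b1 q - ev b0 q + 3 * (om - 1) * ev V q := by
  rw [Da, ev_add (cb1.sub cb0) ((Conv.C _).mul cV) hq, ev_sub cb1 cb0 hq, ev_C_mul]
lemma eDb (hq : ‖q‖ < 1) : ev Db q = ev b2 q - ev b1 q + om * (3 * (om - 1)) * ev V q := by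
  rw [Db, ev_add (cb2.sub cb1) ((Conv.C _).mul cV) hq, ev_sub cb2 cb1 hq, ev_C_mul]
lemma eDc (hq : ‖q‖ < 1) : ev Dc q = ev b0 q - ev b2 q + om ^ 2 * (3 * (om - 1)) * ev V q := by
  rw [Dc, ev_add (cb0.sub cb2) ((Conv.C _).mul cV) hq, ev_sub cb0 cb2 hq, ev_C_mul]
lemma eDd (hq : ‖q‖ < 1) : ev Dd q = ev b0 q + om * ev b1 q + om ^ 2 * ev b2 q := by
  rw [Dd, ev_add (cb0.add ((Conv.C _).mul cb1)) ((Conv.C _).mul cb2) hq,
    ev_add cb0 ((Conv.C _).mul cb1) hq, ev_C_mul, ev_C_mul]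

lemma wDa (h : 0 < τ.im) : ev Da (ee (ww τ)) = -3 * om ^ 2 * τ * ev Dc (ee τ) := by
  rw [eDa (norm_ee_lt (ww_im_pos h)), eDc (norm_ee_lt h), wb0 h, wb1 h, wV h, nu]
  linear_combination (τ * ev b0 (ee τ) * om
    + 9 * τ * ev V (ee τ) * (om ^ 3 - 2 * om ^ 2 + om)) * om_sq
lemma wDb (h : 0 < τ.im) : ev Db (ee (ww τ)) = -3 * τ * ev Dd (ee τ) := by
  rw [eDb (norm_ee_lt (ww_im_pos h)), eDd (norm_ee_lt h), wb2 h, wb1 h, wV h, nu]
  linear_combination (τ * ev b0 (ee τ) * (om ^ 2 - 3 * om + 3)) * om_sq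
lemma wDc (h : 0 < τ.im) : ev Dc (ee (ww τ)) = 3 * om * τ * ev Da (ee τ) := by
  rw [eDc (norm_ee_lt (ww_im_pos h)), eDa (norm_ee_lt h), wb2 h, wb0 h, wV h, nu]
  linear_combination (τ * ev b0 (ee τ) * (om ^ 3 - 3 * om ^ 2 + 3 * om)) * om_sq
lemma wDd (h : 0 < τ.im) : ev Dd (ee (ww τ)) = 3 * τ * ev Db (ee τ) := by
  rw [eDd (norm_ee_lt (ww_im_pos h)), eDb (norm_ee_lt h), wb2 h, wb0 h, wb1 h, nu]
  linear_combination (3 * τ * (ev b2 (ee τ) - ev b1 (ee τ))) * om_cube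

lemma C_om_sq : (C om : ℂ⟦X⟧) ^ 2 + C om + 1 = 0 := by simpa using congrArg (C (R := ℂ)) om_sq
lemma C_om_cube : (C om : ℂ⟦X⟧) ^ 3 = 1 := by rw [← map_pow, om_cube, map_one]

lemma rDa : rescale om Da = Db := by
  rw [Da, map_add, map_sub, map_mul, rb0, rb1, rV, rescale_C', Db, map_mul C om]; ring
lemma rDb : rescale om Db = Dc := by
  rw [Db, map_add, map_sub, map_mul, rb2, rb1, rV, rescale_C', Dc, map_mul C om,
    map_mul C (om ^ 2), map_pow]; ring
lemma rDc : rescale om Dc = Da := by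
  rw [Dc, map_add, map_sub, map_mul, rb2, rb0, rV, rescale_C', Da, map_mul C (om ^ 2), map_pow]
  linear_combination (C (3 * (om - 1)) * V) * C_om_cube
lemma rDd : rescale om Dd = C (om ^ 2) * Dd := by
  rw [Dd, map_add, map_add, map_mul, map_mul, rb2, rb0, rb1, rescale_C', rescale_C', map_pow]
  linear_combination (-b1 - C om * b2) * C_om_cube

lemma kDa : constantCoeff Da = 0 := by simp [Da, kb0, kb1, kV]
lemma kDb : constantCoeff Db = 0 := by simp [Db, kb2, kb1, kV]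

lemma Pi_zero : Da * Db * Dc * Dd = 0 := by
  have key := liou_wt (((cDa.mul cDb).mul cDc).mul cDd) (by simp [kDa]) norm_om2
    (by rw [map_mul, map_mul, map_mul, rDa, rDb, rDc, rDd]; ring) (fun τ h => by
      have hq := norm_ee_lt h
      have hw := norm_ee_lt (ww_im_pos h)
      rw [ev_mul ((cDa.mul cDb).mul cDc) cDd hq, ev_mul (cDa.mul cDb) cDc hq, ev_mul cDa cDb hq,
        ev_mul ((cDa.mul cDb).mul cDc) cDd hw, ev_mul (cDa.mul cDb) cDc hw, ev_mul cDa cDb hw,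
        wDa h, wDb h, wDc h, wDd h]
      linear_combination (81 * τ ^ 4 * ev Da (ee τ) * ev Db (ee τ) * ev Dc (ee τ) * ev Dd (ee τ))
        * om_cube)
  obtain ⟨A, hA⟩ := X_dvd_iff.2 kDa
  obtain ⟨B, hB⟩ := X_dvd_iff.2 kDb
  have : coeff 1 (Da * Db * Dc * Dd) = 0 := by
    rw [show Da * Db * Dc * Dd = X * (X * (A * B * Dc * Dd)) by rw [hA, hB]; ring,
      coeff_succ_X_mul]
    simp
  rw [key, this]; simp

lemma Da_zero : Da = 0 := by
  have hb : Db = 0 → Da = 0 := fun h => rescale_eq_zero (rDa.trans h)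
  have hc : Dc = 0 → Da = 0 := fun h => hb (rescale_eq_zero (rDb.trans h))
  have hd : Dd = 0 → Da = 0 := fun h => hb (eq_of_ev_ee cDb Conv.zero fun τ hτ => by
    have := wDd hτ
    rw [h, ev_zero] at this
    simpa [ne_zero_of_im hτ] using this)
  rcases mul_eq_zero.1 Pi_zero with h | h
  · rcases mul_eq_zero.1 h with h | h
    · rcases mul_eq_zero.1 h with h | h
      exacts [h, hb h]
    · exact hc h
  · exact hd h

lemma b1_eq : b1 = b0 - C (3 * (om - 1)) * V := by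
  have := Da_zero
  rw [Da] at this; linear_combination this

lemma b2_eq : b2 = b0 - C (3 * (om ^ 2 - 1)) * V := by
  have h := rDa
  rw [Da_zero, map_zero, Db] at h
  have h1 := b1_eq
  simp only [map_mul, map_sub, map_pow, map_one, map_ofNat] at h h1 ⊢
  linear_combination h1 - h

/-- derivative of a law of weight `k` -/
lemma w_th' {F G : ℂ⟦X⟧} (hF : Conv F) (hG : Conv G) {c : ℂ} {k : ℕ}
    (hR : ∀ z : ℂ, 0 < z.im → ev F (ee (ww z)) = c * z ^ (k + 1) * ev G (ee z)) (h : 0 < τ.im) :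
    ev (th F) (ee (ww τ)) = 9 * τ ^ 2 * (c * τ ^ (k + 1) * ev (th G) (ee τ)
      + c * (k + 1) * τ ^ k * (2 * Real.pi * Complex.I)⁻¹ * ev G (ee τ)) := by
  have hd := (((hasDerivAt_pow (k + 1) τ).const_mul c).mul (hasDerivAt_ev_ee hG h))
  have := w_th hF hR h hd
  have hI : (2 * Real.pi * Complex.I : ℂ) ≠ 0 := by simp [Real.pi_ne_zero]
  refine mul_left_cancel₀ hI ?_
  rw [this]
  generalize (2 * Real.pi * Complex.I : ℂ) = j at *
  simp only [Nat.add_sub_cancel]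
  push_cast
  field_simp
  ring

def N : ℂ⟦X⟧ := b0 * th V - V * th b0

lemma N_eq : N = Q := by
  have cN : Conv N := (cb0.mul cV.th).sub (cV.mul cb0.th)
  have eN : ∀ q : ℂ, ‖q‖ < 1 → ev N q = ev b0 q * ev (th V) q - ev V q * ev (th b0) q :=
    fun q hq => by
      rw [N, ev_sub (cb0.mul cV.th) (cV.mul cb0.th) hq, ev_mul cb0 cV.th hq, ev_mul cV cb0.th hq]
  have kth : ∀ F : ℂ⟦X⟧, constantCoeff (th F) = 0 := fun F => by
    rw [← coeff_zero_eq_constantCoeff_apply]; simp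
  have key := liou_wt cN (by simp [N, kV, kth]) norm_om
    (by
      rw [N, map_sub, map_mul, map_mul, rescale_th, rescale_th, rb0, rV, b1_eq, th_sub, th_C_mul,
        th_C_mul]
      ring) (fun τ h => by
      rw [eN _ (norm_ee_lt h), eN _ (norm_ee_lt (ww_im_pos h)), wb0 h, wV h,
        w_th' (k := 0) cb0 cV (c := -9 * nu) (fun z hz => by simpa using wb0 hz) h,
        w_th' (k := 0) cV cb0 (c := -(nu / 3)) (fun z hz => by simpa using wV hz) h]
      generalize (2 * Real.pi * Complex.I : ℂ)⁻¹ = j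
      push_cast
      linear_combination (-27 * τ ^ 4 * (ev b0 (ee τ) * ev (th V) (ee τ)
        - ev V (ee τ) * ev (th b0) (ee τ))) * nu_sq)
  have : coeff 1 N = 1 := by
    simp [N, coeff_one_mul, kb0, kV, kV1, kth]
  rw [key, this]; simp

def ell : ℂ⟦X⟧ := 1 + 9 * t + 27 * t ^ 2

lemma b12 : b1 * b2 = b0 ^ 2 * ell := by
  rw [b1_eq, b2_eq, V_eq, ell]
  simp only [map_mul, map_sub, map_pow, map_one, map_ofNat]
  linear_combination (b0 ^ 2 * (-3 * t + 9 * t ^ 2 * (C om - 2))) * C_om_sq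

lemma Q_eq' : Q = t * b0 ^ 4 * ell := by
  rw [Q_eq, V_eq]; linear_combination t * b0 ^ 2 * b12

lemma th_t : th t = t * (b0 ^ 2 * ell) := by
  have h := N_eq
  rw [N, Q_eq', V_eq, th_mul] at h
  linear_combination bi ^ 2 * h
    + (t * b0 ^ 2 * ell - th t) * (1 + b0 * bi) * hb

end

end Pool.Agent.Lib.MP_caab05_ag.W3.Mod
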