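import Pool.Agent.Lib.MP_caab05_ag.W3.Modular3

/-!
The second order differential equation.
-/

namespace Pool.Agent.Lib.MP_caab05_ag.W3.Mod

open PowerSeries

noncomputable section

variable {q τ : ℂ}

/-- the logarithmic derivative of `Q` -/
def Pp : ℂ⟦X⟧ := 1 + 8 * (th p3 * p3i)

lemma cPp : Conv Pp := Conv.one.add ((Conv.ofNat 8).mul (c3.th.mul c3i))

lemma th_Q : th Q = Pp * Q := by
  rw [Q, th_mul, th_pow, th_X, Pp]
  push_cast
  linear_combination (-8 * X * p3 ^ 7 * th p3) * h3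

lemma Q_ne (h : 0 < τ.im) : ev Q (ee τ) ≠ 0 := by
  have hq := norm_ee_lt h
  rw [eQ hq]
  exact mul_ne_zero (ee_ne_zero _) (pow_ne_zero _ (Phi_ne_zero (norm_pow_lt hq three_ne_zero)))

lemma wPp (h : 0 < τ.im) :
    ev Pp (ee (ww τ)) = 9 * τ ^ 2 * ev Pp (ee τ) + 36 * τ * (2 * Real.pi * Complex.I)⁻¹ := by
  have h1 := w_th' (k := 3) cQ cQ (c := 81) (fun z hz => wQ hz) h
  rw [th_Q, ev_mul cPp cQ (norm_ee_lt h), ev_mul cPp cQ (norm_ee_lt (ww_im_pos h)), wQ h] at h1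
  have h0 := ne_zero_of_im h
  refine mul_left_cancel₀ (a := 81 * τ ^ 4 * ev Q (ee τ)) (by simp [h0, Q_ne h]) ?_
  push_cast at h1
  linear_combination h1

lemma wthPp (h : 0 < τ.im) :
    ev (th Pp) (ee (ww τ)) = 9 * τ ^ 2 * (9 * τ ^ 2 * ev (th Pp) (ee τ)
      + 18 * τ * (2 * Real.pi * Complex.I)⁻¹ * ev Pp (ee τ)
      + 36 * ((2 * Real.pi * Complex.I)⁻¹) ^ 2) := by
  have hd := (((hasDerivAt_pow 2 τ).const_mul 9).mul (hasDerivAt_ev_ee cPp h)).add
    (((hasDerivAt_id τ).const_mul 36).mul_const (2 * Real.pi * Complex.I : ℂ)⁻¹)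
  have := w_th cPp (fun z hz => wPp hz) h hd
  have hI : (2 * Real.pi * Complex.I : ℂ) ≠ 0 := by simp [Real.pi_ne_zero]
  refine mul_left_cancel₀ hI ?_
  rw [this]
  generalize (2 * Real.pi * Complex.I : ℂ) = j at *
  push_cast
  field_simp
  ring

def dl : ℂ⟦X⟧ := 4 * th Pp - Pp ^ 2 + (b0 + 9 * V) * (b0 + 3 * V) * (b0 ^ 2 + 27 * V ^ 2)

lemma dl_zero : dl = 0 := by
  have a1 : Conv (4 * th Pp) := (Conv.ofNat 4).mul cPp.th
  have a2 : Conv (b0 + 9 * V) := cb0.add ((Conv.ofNat 9).mul cV)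
  have a3 : Conv (b0 + 3 * V) := cb0.add ((Conv.ofNat 3).mul cV)
  have a4 : Conv (b0 ^ 2 + 27 * V ^ 2) := (cb0.pow 2).add ((Conv.ofNat 27).mul (cV.pow 2))
  have cdl : Conv dl := (a1.sub (cPp.pow 2)).add ((a2.mul a3).mul a4)
  have edl : ∀ q : ℂ, ‖q‖ < 1 → ev dl q = 4 * ev (th Pp) q - ev Pp q ^ 2
      + (ev b0 q + 9 * ev V q) * (ev b0 q + 3 * ev V q) * (ev b0 q ^ 2 + 27 * ev V q ^ 2) :=
    fun q hq => by
      rw [dl, ev_add (a1.sub (cPp.pow 2)) ((a2.mul a3).mul a4) hq, ev_sub a1 (cPp.pow 2) hq,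
        ev_mul (a2.mul a3) a4 hq, ev_mul a2 a3 hq, ev_mul (Conv.ofNat 4) cPp.th hq,
        ev_pow cPp hq, ev_add cb0 ((Conv.ofNat 9).mul cV) hq, ev_add cb0 ((Conv.ofNat 3).mul cV) hq,
        ev_add (cb0.pow 2) ((Conv.ofNat 27).mul (cV.pow 2)) hq, ev_mul (Conv.ofNat 9) cV hq,
        ev_mul (Conv.ofNat 3) cV hq, ev_mul (Conv.ofNat 27) (cV.pow 2) hq, ev_pow cb0 hq,
        ev_pow cV hq]
      simp
  have kth : ∀ F : ℂ⟦X⟧, constantCoeff (th F) = 0 := fun F => by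
    rw [← coeff_zero_eq_constantCoeff_apply]; simp
  have kP : constantCoeff Pp = 1 := by simp [Pp, kth]
  have rP : rescale om Pp = Pp := by
    rw [Pp, map_add, map_mul, map_mul, rescale_th, r3, r3i, map_one, map_ofNat]
  have rdl : rescale om dl = C 1 * dl := by
    simp only [dl, map_add, map_sub, map_mul, map_pow, map_ofNat, rescale_th, rP, rb0, rV, b1_eq,
      map_one]
    linear_combination (216 * (C om - 1) * V ^ 3 * (b0 + 3 * V)) * C_om_sq
  have key := liou_wt cdl (by simp [dl, kth, kP, kb0, kV, map_ofNat]) norm_one rdl (fun τ h => by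
      rw [edl _ (norm_ee_lt h), edl _ (norm_ee_lt (ww_im_pos h)), wb0 h, wV h, wPp h, wthPp h]
      generalize (2 * Real.pi * Complex.I : ℂ)⁻¹ = j
      generalize ev V (ee τ) = v, ev b0 (ee τ) = b
      linear_combination (9 * τ ^ 4 * (nu ^ 2 - 3) * (b + 9 * v) * (b + 3 * v) * (b ^ 2 + 27 * v ^ 2))
        * nu_sq)
  have h1 : coeff 1 dl = 0 := by
    have := congrArg (coeff 1) rdl
    rw [coeff_rescale, map_one, one_mul, pow_one] at this
    have h3 : om - 1 ≠ 0 := fun h => by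
      have : (3 : ℂ) = 0 := by linear_combination om_sq - (om + 2) * h
      norm_num at this
    exact (mul_eq_zero.1 (show (om - 1) * coeff 1 dl = 0 by linear_combination this)).resolve_left h3
  rw [key, h1]; simp

lemma th_ell : th ell = (9 + 54 * t) * th t := by
  rw [ell, th_add, th_add, th_mul, th_mul, th_pow]
  simp; ring

lemma Pp_eq : Pp = 4 * (th b0 * bi) + b0 ^ 2 * (1 + 9 * t) ^ 2 := by
  have hQ : Q ≠ 0 := fun h => by
    have := Q_ne (τ := Complex.I) (by simp)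
    rw [h] at this; simp at this
  refine mul_left_cancel₀ hQ ?_
  rw [mul_comm Q Pp, ← th_Q, Q_eq', th_mul, th_mul, th_pow, th_ell, th_t]
  push_cast
  rw [ell]
  linear_combination (-4 * t * b0 ^ 3 * th b0 * (1 + 9 * t + 27 * t ^ 2)) * hb

lemma th_th_bi : th (th bi) = (3 * t + 27 * t ^ 2) * (1 + 9 * t + 27 * t ^ 2) * b0 ^ 3 := by
  have hi : th bi = -(bi ^ 2 * th b0) := th_inv hb
  have h := dl_zero
  have hP : th Pp = 4 * (th b0 * th bi + bi * th (th b0))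
      + (b0 ^ 2 * (2 * (1 + 9 * t) * (9 * th t)) + (1 + 9 * t) ^ 2 * (2 * b0 * th b0)) := by
    rw [Pp_eq, th_add, th_mul, th_mul, th_mul, th_pow, th_pow, th_add, th_mul]
    simp
  have h2 : th (th bi) = -(bi ^ 2 * th (th b0) + th b0 * (2 * bi * th bi)) := by
    conv_lhs => rw [hi, th_neg, th_mul, th_pow]
    simp
  rw [dl, hP, Pp_eq, V_eq, th_t, ell, hi] at h
  rw [h2, hi]
  have h16 : (16 : ℂ⟦X⟧) ≠ 0 := by
    rw [← map_ofNat (C (R := ℂ)) 16]
    exact fun h => by simpa using congrArg constantCoeff h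
  refine mul_left_cancel₀ h16 ?_
  generalize th (th b0) = z at *
  generalize th b0 = y at *
  linear_combination (-bi) * h
    + (-8 * (1 + 9 * t) ^ 2 * b0 * y * bi
      + 48 * t * (1 + 9 * t) * (1 + 9 * t + 27 * t ^ 2) * b0 ^ 3) * hb

end

end Pool.Agent.Lib.MP_caab05_ag.W3.Mod
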