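import Pool.Agent.Lib.MP_caab05_ag.W3.Iface

/-!
Certified evaluation of real polynomials at complex points in fixed point arithmetic.
-/

namespace Pool.Agent.Lib.MP_caab05_ag.W3

open Polynomial

noncomputable section

def loop (Rp Rm N Cst : ℕ) (cs : List ℕ) : ℕ → ℕ → Option (ℕ × ℕ) :=
  List.rec (fun a b => some (a, b)) (fun c _ ih b1 b2 =>
    cond (Nat.ble (Nat.add (Nat.mul Rm b1) (Nat.mul N b2)) (Nat.add Cst (Nat.mul Rp b1)))
      (ih (Nat.add c (Nat.shiftRight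
        (Nat.sub (Nat.add Cst (Nat.mul Rp b1)) (Nat.add (Nat.mul Rm b1) (Nat.mul N b2))) 80)) b1)
      none) cs

def evalN (cs : List ℕ) (A0 O Rp Rm N : ℕ) : Option (ℕ × ℕ) :=
  cond (Nat.ble (O * Rp + A0 * 2 ^ 80) (O * (2 ^ 80 + Rm + N)))
    (loop Rp Rm N (O * (2 ^ 80 + Rm + N) - (O * Rp + A0 * 2 ^ 80)) cs O O) none

def evalC (cs : List ℕ) (A0 O : ℕ) (wr wi : ℤ) : Option (ℤ × ℤ) :=
  (evalN cs A0 O (wr.toNat * 2 ^ 41) ((-wr).toNat * 2 ^ 41)
    (wr.natAbs * wr.natAbs + wi.natAbs * wi.natAbs)).map fun r =>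
      (((r.1 : ℤ) - O) - (wr * ((r.2 : ℤ) - O)) / 2 ^ 40, (wi * ((r.2 : ℤ) - O)) / 2 ^ 40)

def stepP (A0 : ℕ) (p : ℂ[X]) (c : ℕ) : ℂ[X] := C ((c : ℂ) - A0) + X * p

def polyOf (A0 : ℕ) (cs : List ℕ) : ℂ[X] := cs.foldl (stepP A0) 0

def stepB (A0 r : ℕ) (t : ℕ × ℕ × ℕ × ℕ × ℕ) (c : ℕ) : ℕ × ℕ × ℕ × ℕ × ℕ :=
  ((c - A0) + (A0 - c) + (r * t.1 / 2 ^ 16 + 1), r * (t.1 + t.2.1) / 2 ^ 16 + 1,
    r * (t.1 + 2 * t.2.1 + t.2.2.1) / 2 ^ 16 + 1, t.1 + (r * t.2.2.2.1 / 2 ^ 16 + 1),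
    r * t.2.2.2.2 / 2 ^ 16 + 2)

def bnd (A0 r : ℕ) (cs : List ℕ) : ℕ × ℕ × ℕ × ℕ × ℕ := cs.foldl (stepB A0 r) (0, 0, 0, 0, 0)

/-- total error of an evaluation -/
def errOf (A0 r : ℕ) (cs : List ℕ) : ℕ :=
  (bnd A0 r cs).2.2.2.2 + 3 + (bnd A0 r cs).2.2.2.1 / 2 ^ 35

/-- the point encoded by two integers -/
def pt (wr wi : ℤ) : ℂ := ((wr : ℂ) + wi * Complex.I) / 2 ^ 40

def thP (p : ℂ[X]) : ℂ[X] := X * derivative p

lemma le_div_succ (a : ℕ) (k : ℕ) : (a : ℝ) / 2 ^ k ≤ ((a / 2 ^ k : ℕ) : ℝ) + 1 := by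
  have h := Nat.lt_div_mul_add (a := a) (b := 2 ^ k) (by positivity)
  rw [div_le_iff₀ (by positivity)]
  have h2 : (a : ℝ) < ((a / 2 ^ k : ℕ) : ℝ) * 2 ^ k + 2 ^ k := by exact_mod_cast h
  linarith

lemma loop_spec {w : ℂ} {Rp Rm N Cst A0 O r : ℕ} (hR : (Rp : ℝ) - Rm = 2 * w.re * 2 ^ 80)
    (hN : (N : ℝ) = Complex.normSq w * 2 ^ 80)
    (hC : (Cst : ℝ) = (O - A0) * 2 ^ 80 - (Rp - Rm) * O + N * O) (hr : ‖w‖ ≤ r / 2 ^ 16)
    (cs : List ℕ) : ∀ (b1 b2 : ℕ) (p : ℂ[X]) (t : ℕ × ℕ × ℕ × ℕ × ℕ) (g : ℕ × ℕ),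
      ‖((b1 : ℂ) - O) - (starRingEnd ℂ) w * (b2 - O) - p.eval w‖ ≤ t.2.2.2.2 →
      loop Rp Rm N Cst cs b1 b2 = some g →
      ‖((g.1 : ℂ) - O) - (starRingEnd ℂ) w * (g.2 - O) - (cs.foldl (stepP A0) p).eval w‖ ≤
        (cs.foldl (stepB A0 r) t).2.2.2.2 := by
  induction cs with
  | nil => intro b1 b2 p t g h hg; cases hg; simpa using h
  | cons c cs ih =>
    intro b1 b2 p t g h hg
    have hg' : cond (Nat.ble (Rm * b1 + N * b2) (Cst + Rp * b1))
        (loop Rp Rm N Cst cs (c + ((Cst + Rp * b1) - (Rm * b1 + N * b2)) >>> 80) b1) none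
        = some g := hg
    by_cases hle : Rm * b1 + N * b2 ≤ Cst + Rp * b1
    · rw [Nat.ble_eq_true_of_le hle, cond_true] at hg'
      refine ih _ _ _ _ g ?_ hg'
      set x := (Cst + Rp * b1) - (Rm * b1 + N * b2) with hx
      have hx' : (x : ℝ) = (O - A0) * 2 ^ 80 + 2 * w.re * 2 ^ 80 * (b1 - O)
          - Complex.normSq w * 2 ^ 80 * (b2 - O) := by
        rw [hx, Nat.cast_sub hle]; push_cast; rw [hC, ← hR, ← hN]; ring
      set δ : ℝ := (x : ℝ) / 2 ^ 80 - ((x / 2 ^ 80 : ℕ) : ℝ) with hδ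
      have h0 : 0 ≤ δ := by
        have := @Nat.cast_div_le ℝ _ _ _ x (2 ^ 80); rw [hδ]; push_cast at this; linarith
      have h1 : δ ≤ 1 := by have := le_div_succ x 80; linarith
      have h2 : ((x / 2 ^ 80 : ℕ) : ℝ) = (O - A0) + 2 * w.re * (b1 - O)
          - Complex.normSq w * (b2 - O) - δ := by
        rw [hδ, hx']; field_simp; ring
      have h3 : ((x / 2 ^ 80 : ℕ) : ℂ) = (O - A0) + (w + (starRingEnd ℂ) w) * (b1 - O)
          - w * (starRingEnd ℂ) w * (b2 - O) - δ := by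
        rw [Complex.add_conj, Complex.mul_conj]
        exact_mod_cast h2
      have h4 : (((c + x >>> 80 : ℕ) : ℂ) - O) - (starRingEnd ℂ) w * (b1 - O) - (stepP A0 p c).eval w
          = w * (((b1 : ℂ) - O) - (starRingEnd ℂ) w * (b2 - O) - p.eval w) - δ := by
        rw [Nat.shiftRight_eq_div_pow, Nat.cast_add, h3]; simp [stepP]; ring
      rw [h4]
      have h5 := le_div_succ (r * t.2.2.2.2) 16
      calc _ ≤ ‖w‖ * ‖((b1 : ℂ) - O) - (starRingEnd ℂ) w * (b2 - O) - p.eval w‖ + ‖(δ : ℂ)‖ := by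
            rw [← norm_mul]; exact norm_sub_le _ _
        _ ≤ r / 2 ^ 16 * t.2.2.2.2 + 1 := by
            gcongr; rw [Complex.norm_real, Real.norm_of_nonneg h0]; exact h1
        _ ≤ _ := by
            simp only [stepB]; push_cast at h5 ⊢; linarith
    · have : Nat.ble (Rm * b1 + N * b2) (Cst + Rp * b1) = false := by
        rw [Bool.eq_false_iff]; intro h; exact hle (Nat.le_of_ble_eq_true h)
      rw [this, cond_false] at hg'; cases hg'

lemma int_div_bound (a : ℤ) (k : ℕ) : |((a / 2 ^ k : ℤ) : ℝ) - a / 2 ^ k| ≤ 1 := by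
  have h1 := Int.emod_add_mul_ediv a (2 ^ k)
  have h2 := Int.emod_nonneg a (b := 2 ^ k) (by positivity)
  have h3 := Int.emod_lt_of_pos a (b := 2 ^ k) (by positivity)
  have h1' : ((a % 2 ^ k : ℤ) : ℝ) + 2 ^ k * ((a / 2 ^ k : ℤ) : ℝ) = a := by exact_mod_cast h1
  have h2' : (0 : ℝ) ≤ ((a % 2 ^ k : ℤ) : ℝ) := by exact_mod_cast h2
  have h3' : ((a % 2 ^ k : ℤ) : ℝ) < 2 ^ k := by exact_mod_cast h3
  have : ((a / 2 ^ k : ℤ) : ℝ) - a / 2 ^ k = -(((a % 2 ^ k : ℤ) : ℝ) / 2 ^ k) := by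
    rw [← h1']; field_simp; ring
  rw [this, abs_neg, abs_of_nonneg (by positivity), div_le_one (by positivity)]; exact h3'.le

lemma pt_re (wr wi : ℤ) : (pt wr wi).re = wr / 2 ^ 40 := by
  have : pt wr wi = ((wr / 2 ^ 40 : ℝ) : ℂ) + ((wi / 2 ^ 40 : ℝ) : ℂ) * Complex.I := by
    simp [pt]; ring
  rw [this]; simp only [Complex.add_re, Complex.ofReal_re, Complex.mul_re, Complex.I_re,
    Complex.I_im, Complex.ofReal_im]; ring
lemma pt_im (wr wi : ℤ) : (pt wr wi).im = wi / 2 ^ 40 := by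
  have : pt wr wi = ((wr / 2 ^ 40 : ℝ) : ℂ) + ((wi / 2 ^ 40 : ℝ) : ℂ) * Complex.I := by
    simp [pt]; ring
  rw [this]; simp only [Complex.add_im, Complex.ofReal_re, Complex.mul_im, Complex.I_re,
    Complex.I_im, Complex.ofReal_im]; ring

lemma evalC_spec {cs : List ℕ} {A0 O r : ℕ} {wr wi a b : ℤ} (hr : ‖pt wr wi‖ ≤ r / 2 ^ 16)
    (h : evalC cs A0 O wr wi = some (a, b)) :
    |(a : ℝ) - ((polyOf A0 cs).eval (pt wr wi)).re| ≤ (bnd A0 r cs).2.2.2.2 + 1 ∧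
    |(b : ℝ) - ((polyOf A0 cs).eval (pt wr wi)).im| ≤ (bnd A0 r cs).2.2.2.2 + 1 := by
  unfold evalC at h
  obtain ⟨g, hg, hab⟩ := Option.map_eq_some_iff.1 h
  unfold evalN at hg
  set Rp := wr.toNat * 2 ^ 41
  set Rm := (-wr).toNat * 2 ^ 41
  set N := wr.natAbs * wr.natAbs + wi.natAbs * wi.natAbs
  by_cases hle : O * Rp + A0 * 2 ^ 80 ≤ O * (2 ^ 80 + Rm + N)
  swap
  · have : Nat.ble (O * Rp + A0 * 2 ^ 80) (O * (2 ^ 80 + Rm + N)) = false := by
      rw [Bool.eq_false_iff]; intro h; exact hle (Nat.le_of_ble_eq_true h)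
    rw [this, cond_false] at hg; cases hg
  rw [Nat.ble_eq_true_of_le hle, cond_true] at hg
  have hR : (Rp : ℝ) - Rm = 2 * (pt wr wi).re * 2 ^ 80 := by
    have h1 : ((wr.toNat : ℤ) : ℝ) - (((-wr).toNat : ℤ) : ℝ) = wr := by
      exact_mod_cast Int.toNat_sub_toNat_neg wr
    rw [pt_re]; simp only [Rp, Rm]; push_cast at h1 ⊢; rw [← h1]; ring
  have hN : (N : ℝ) = Complex.normSq (pt wr wi) * 2 ^ 80 := by
    rw [Complex.normSq_apply, pt_re, pt_im]; simp only [N]; push_cast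
    simp only [Nat.cast_natAbs, Int.cast_abs, abs_mul_abs_self]; ring
  have := loop_spec (A0 := A0) (O := O) hR hN (by rw [Nat.cast_sub hle]; push_cast; ring) hr cs O O 0
    (0, 0, 0, 0, 0) g (by simp) hg
  have h1 := (Complex.abs_re_le_norm _).trans this
  have h2 := (Complex.abs_im_le_norm _).trans this
  simp only [Complex.sub_re, Complex.mul_re, Complex.conj_re, Complex.conj_im, Complex.natCast_re,
    Complex.sub_im, Complex.natCast_im, Complex.mul_im, pt_re, pt_im] at h1 h2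
  obtain ⟨ha, hb⟩ := Prod.mk.inj hab
  have h3 := int_div_bound (wr * ((g.2 : ℤ) - O)) 40
  have h4 := int_div_bound (wi * ((g.2 : ℤ) - O)) 40
  rw [← ha, ← hb, Int.cast_sub]
  generalize ((wr * ((g.2 : ℤ) - O) / 2 ^ 40 : ℤ) : ℝ) = u at *
  generalize ((wi * ((g.2 : ℤ) - O) / 2 ^ 40 : ℤ) : ℝ) = v at *
  push_cast at h3 h4 ⊢
  unfold polyOf bnd
  rw [abs_le] at h1 h2 h3 h4
  rw [abs_le, abs_le]
  constructor <;> constructor <;> linarith [h1.1, h1.2, h2.1, h2.2, h3.1, h3.2, h4.1, h4.2]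

/-- bounds for a polynomial on the disc of radius `r / 2^16` -/
def BI (r : ℕ) (p : ℂ[X]) (t : ℕ × ℕ × ℕ × ℕ × ℕ) : Prop :=
  ∀ z : ℂ, ‖z‖ ≤ r / 2 ^ 16 → ‖p.eval z‖ ≤ t.1 ∧ ‖(thP p).eval z‖ ≤ t.2.1 ∧
    ‖(thP (thP p)).eval z‖ ≤ t.2.2.1 ∧
    ∀ w : ℂ, ‖w‖ ≤ r / 2 ^ 16 → ‖p.eval w - p.eval z‖ ≤ t.2.2.2.1 * ‖w - z‖

lemma BI.step {A0 r : ℕ} {p : ℂ[X]} {t : ℕ × ℕ × ℕ × ℕ × ℕ} (h : BI r p t) (c : ℕ) :
    BI r (stepP A0 p c) (stepB A0 r t c) := by
  intro z hz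
  obtain ⟨h0, h1, h2, h3⟩ := h z hz
  have e1 : thP (stepP A0 p c) = X * (p + thP p) := by simp [thP, stepP]
  have e2 : thP (thP (stepP A0 p c)) = X * (p + 2 * thP p + thP (thP p)) := by
    rw [e1]; simp [thP]; ring
  have hc : ‖(c : ℂ) - A0‖ ≤ ((c - A0 : ℕ) : ℝ) + ((A0 - c : ℕ) : ℝ) := by
    have : (c : ℂ) - A0 = (((c : ℝ) - A0 : ℝ) : ℂ) := by push_cast; ring
    rw [this, Complex.norm_real, Real.norm_eq_abs]
    rcases le_total c A0 with h | h
    · rw [Nat.sub_eq_zero_of_le h, Nat.cast_sub h, abs_sub_comm, abs_of_nonneg]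
      · simp
      · simpa using h
    · rw [Nat.sub_eq_zero_of_le h, Nat.cast_sub h, abs_of_nonneg]
      · simp
      · simpa using h
  refine ⟨?_, ?_, ?_, fun w hw => ?_⟩
  · have := le_div_succ (r * t.1) 16
    have h4 : ‖z‖ * ‖p.eval z‖ ≤ r / 2 ^ 16 * t.1 := by gcongr
    simp only [stepP, stepB, eval_add, eval_C, eval_mul, eval_X]
    refine (norm_add_le _ _).trans ?_
    rw [norm_mul]; push_cast at this ⊢; linarith
  · have := le_div_succ (r * (t.1 + t.2.1)) 16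
    have h4 : ‖z‖ * ‖p.eval z + (thP p).eval z‖ ≤ r / 2 ^ 16 * (t.1 + t.2.1) := by
      gcongr; exact (norm_add_le _ _).trans (add_le_add h0 h1)
    simp only [e1, stepB, eval_add, eval_mul, eval_X]
    rw [norm_mul]; push_cast at this ⊢; linarith
  · have := le_div_succ (r * (t.1 + 2 * t.2.1 + t.2.2.1)) 16
    have h4 : ‖z‖ * ‖p.eval z + 2 * (thP p).eval z + (thP (thP p)).eval z‖ ≤
        r / 2 ^ 16 * (t.1 + 2 * t.2.1 + t.2.2.1) := by
      gcongr
      refine (norm_add_le _ _).trans (add_le_add ((norm_add_le _ _).trans (add_le_add h0 ?_)) h2)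
      rw [norm_mul]; simp; exact h1
    simp only [e2, stepB, eval_add, eval_mul, eval_X, eval_ofNat]
    rw [norm_mul]; push_cast at this ⊢; linarith
  · have := le_div_succ (r * t.2.2.2.1) 16
    have e : (stepP A0 p c).eval w - (stepP A0 p c).eval z
        = (w - z) * p.eval z + w * (p.eval w - p.eval z) := by simp [stepP]; ring
    have h4 : ‖w‖ * ‖p.eval w - p.eval z‖ ≤ r / 2 ^ 16 * (t.2.2.2.1 * ‖w - z‖) := by
      gcongr; exact h3 w hw
    have h5 : ‖w - z‖ * ‖p.eval z‖ ≤ ‖w - z‖ * t.1 := by gcongr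
    rw [e]
    refine (norm_add_le _ _).trans ?_
    rw [norm_mul, norm_mul]
    simp only [stepB]; push_cast at this ⊢
    nlinarith [norm_nonneg (w - z)]

lemma bi_bnd (A0 r : ℕ) (cs : List ℕ) : BI r (polyOf A0 cs) (bnd A0 r cs) := by
  have : ∀ p t, BI r p t → BI r (cs.foldl (stepP A0) p) (cs.foldl (stepB A0 r) t) := by
    induction cs with
    | nil => exact fun _ _ h => h
    | cons c cs ih => exact fun p t h => ih _ _ (h.step c)
  exact this _ _ fun z _ => by simp [thP]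

/-- evaluation at an approximation of `z` -/
lemma evalC_near {cs : List ℕ} {A0 O r : ℕ} {wr wi a b : ℤ} {z : ℂ} (hr : ‖pt wr wi‖ ≤ r / 2 ^ 16)
    (hz : ‖z‖ ≤ r / 2 ^ 16) (hd : ‖pt wr wi - z‖ ≤ 1 / 2 ^ 35)
    (h : evalC cs A0 O wr wi = some (a, b)) :
    |(a : ℝ) - ((polyOf A0 cs).eval z).re| ≤ errOf A0 r cs := by
  have h1 := (evalC_spec hr h).1
  have h2 := (bi_bnd A0 r cs z hz).2.2.2 _ hr
  have h3 := (Complex.abs_re_le_norm _).trans h2
  have h4 := le_div_succ (bnd A0 r cs).2.2.2.1 35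
  have h5 : ((bnd A0 r cs).2.2.2.1 : ℝ) * ‖pt wr wi - z‖ ≤ (bnd A0 r cs).2.2.2.1 * (1 / 2 ^ 35) := by
    gcongr
  rw [Complex.sub_re] at h3
  unfold errOf; push_cast
  rw [abs_le] at *
  constructor <;> linarith [h1.1, h1.2, h3.1, h3.2]

lemma polyOf_conj (A0 : ℕ) (cs : List ℕ) (z : ℂ) :
    (polyOf A0 cs).eval ((starRingEnd ℂ) z) = (starRingEnd ℂ) ((polyOf A0 cs).eval z) := by
  have : ∀ p : ℂ[X], p.eval ((starRingEnd ℂ) z) = (starRingEnd ℂ) (p.eval z) →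
      (cs.foldl (stepP A0) p).eval ((starRingEnd ℂ) z) =
        (starRingEnd ℂ) ((cs.foldl (stepP A0) p).eval z) := by
    induction cs with
    | nil => exact fun _ h => h
    | cons c cs ih => exact fun p h => ih _ (by simp [stepP, h])
  exact this _ (by simp)

lemma polyOf_concat (A0 : ℕ) (cs : List ℕ) (c : ℕ) :
    polyOf A0 (cs ++ [c]) = C ((c : ℂ) - A0) + X * polyOf A0 cs := by
  simp [polyOf, stepP]

lemma polyOf_eval_zero {A0 : ℕ} {cs : List ℕ} (h : cs.getLast? = some A0) :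
    (polyOf A0 cs).eval 0 = 0 := by
  obtain ⟨l, rfl⟩ := List.getLast?_eq_some_iff.1 h
  simp [polyOf_concat]

/-- the polynomial of a list given by a formula -/
lemma polyOf_map (A0 : ℕ) (f : ℕ → ℕ) (n : ℕ) (z : ℂ) :
    (polyOf A0 ((List.range n).reverse.map f)).eval z =
      ∑ k ∈ Finset.range n, ((f k : ℂ) - A0) * z ^ k := by
  induction n generalizing f with
  | zero => simp [polyOf]
  | succ n ih =>
    rw [List.range_succ_eq_map, List.reverse_cons, List.map_append, List.map_singleton,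
      polyOf_concat, ← List.map_reverse, List.map_map, Finset.sum_range_succ']
    simp only [eval_add, eval_C, eval_mul, eval_X, ih, Finset.mul_sum, Function.comp]
    rw [add_comm]; congr 1
    · exact Finset.sum_congr rfl fun k _ => by ring
    · simp

/-! ### the exponential -/

def expL : List ℕ := [79, 1995, 47885,
  1101369, 24230127, 508832676,
  10176653520, 193356416882, 3480415503893,
  59167063566192, 946673017059075, 14200095255886138,
  198801333582405935, 2584417336571277162, 31013008038855325950,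
  341143088427408585455, 3411430884274085854550, 30702877958466772690950,
  245623023667734181527604, 1719361165674139270693228, 10316166994044835624159368,
  51580834970224178120796842, 206323339880896712483187370, 618970019642690137449562112,
  1237940039285380274899124224, 1237940039285380274899124224]

lemma expL_eq : expL = (List.range 26).reverse.map fun j => 2 ^ 90 / j.factorial := by
  decide +kernel

lemma bnd_expL : (bnd 0 (3 * 2 ^ 16) expL).2.2.2.2 ≤ 2 ^ 42 := by decide +kernel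

def expApx (zr zi : ℤ) : Option (ℤ × ℤ) := evalC expL 0 (2 ^ 200) zr zi

lemma expApx_spec {zr zi a b : ℤ} (hz : ‖pt zr zi‖ ≤ 3) (h : expApx zr zi = some (a, b)) :
    ‖Complex.exp (pt zr zi) - ((a : ℂ) + b * Complex.I) / 2 ^ 90‖ ≤ 1 / 2 ^ 42 := by
  set z := pt zr zi with hzz
  obtain ⟨h1, h2⟩ := evalC_spec (r := 3 * 2 ^ 16) (by push_cast; linarith) h
  have hb : ((bnd 0 (3 * 2 ^ 16) expL).2.2.2.2 : ℝ) ≤ 2 ^ 42 := by exact_mod_cast bnd_expL
  set v := (polyOf 0 expL).eval (pt zr zi) with hv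
  have h3 : ‖v - ((a : ℂ) + b * Complex.I)‖ ≤ 2 * (2 ^ 42 + 1) := by
    refine (Complex.norm_le_abs_re_add_abs_im _).trans ?_
    simp only [Complex.sub_re, Complex.add_re, Complex.intCast_re, Complex.mul_re, Complex.I_re,
      Complex.intCast_im, Complex.I_im, Complex.sub_im, Complex.add_im, Complex.mul_im]
    rw [abs_sub_comm] at h1 h2
    simp only [mul_zero, sub_zero, add_zero, mul_one, zero_add]
    linarith
  have h4 := Complex.exp_bound' (x := z) (n := 26) (by push_cast; linarith)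
  have h5 : ‖z‖ ^ 26 / (Nat.factorial 26 : ℝ) * 2 ≤ 1 / 2 ^ 46 := by
    calc _ ≤ (3 : ℝ) ^ 26 / (Nat.factorial 26 : ℝ) * 2 := by gcongr
      _ ≤ _ := by norm_num [Nat.factorial]
  have h6 : ‖2 ^ 90 * ∑ m ∈ Finset.range 26, z ^ m / m.factorial - v‖ ≤ 2 ^ 42 := by
    rw [hv, expL_eq, polyOf_map, Finset.mul_sum, ← Finset.sum_sub_distrib]
    refine (norm_sum_le _ _).trans ?_
    calc _ ≤ ∑ k ∈ Finset.range 26, (3 : ℝ) ^ k := by
          refine Finset.sum_le_sum fun k _ => ?_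
          have e : 2 ^ 90 * (z ^ k / k.factorial) - (((2 ^ 90 / k.factorial : ℕ) : ℂ) - (0 : ℕ)) * z ^ k
              = ((2 ^ 90 / (k.factorial : ℝ) - ((2 ^ 90 / k.factorial : ℕ) : ℝ) : ℝ) : ℂ) * z ^ k := by
            rw [Complex.ofReal_sub, Complex.ofReal_natCast]; push_cast; ring
          rw [e, norm_mul, norm_pow, Complex.norm_real, Real.norm_eq_abs]
          have h7 : |2 ^ 90 / (k.factorial : ℝ) - ((2 ^ 90 / k.factorial : ℕ) : ℝ)| ≤ 1 := by
            have h8 := @Nat.cast_div_le ℝ _ _ _ (2 ^ 90) k.factorial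
            have h9 := Nat.lt_div_mul_add (a := 2 ^ 90) (b := k.factorial) k.factorial_pos
            have h10 : ((2 ^ 90 : ℕ) : ℝ) < ((2 ^ 90 / k.factorial : ℕ) : ℝ) * k.factorial
              + k.factorial := by exact_mod_cast h9
            have h11 : (0 : ℝ) < k.factorial := by exact_mod_cast k.factorial_pos
            rw [Nat.cast_pow, Nat.cast_ofNat] at h8 h10
            rw [abs_of_nonneg (by linarith), sub_le_iff_le_add, div_le_iff₀ h11]; linarith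
          calc _ ≤ 1 * (3 : ℝ) ^ k := by gcongr
            _ = _ := one_mul _
      _ ≤ _ := by norm_num [Finset.sum_range_succ]
  have e : Complex.exp z - ((a : ℂ) + b * Complex.I) / 2 ^ 90 =
      (Complex.exp z - ∑ m ∈ Finset.range 26, z ^ m / m.factorial) +
      ((2 ^ 90 * ∑ m ∈ Finset.range 26, z ^ m / m.factorial - v) + (v - (a + b * Complex.I)))
        / 2 ^ 90 := by ring
  rw [e]
  refine (norm_add_le _ _).trans ?_
  rw [norm_div, norm_pow, Complex.norm_two]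
  have h7 := (norm_add_le _ _).trans (add_le_add h6 h3)
  have h8 : ‖(2 ^ 90 * ∑ m ∈ Finset.range 26, z ^ m / m.factorial - v) + (v - (a + b * Complex.I))‖
      / 2 ^ 90 ≤ (2 ^ 42 + 2 * (2 ^ 42 + 1)) / (2 : ℝ) ^ 90 := by gcongr
  have h9 : (1 : ℝ) / 2 ^ 46 + (2 ^ 42 + 2 * (2 ^ 42 + 1)) / (2 : ℝ) ^ 90 ≤ 1 / 2 ^ 42 := by norm_num
  linarith

end

end Pool.Agent.Lib.MP_caab05_ag.W3
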